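import Pool.Agent.Helper35.TT.Seg

/-!
TT-06 FixFin. Finite subgroups fix points and have bounded order; infinite commutative subgroups contain elements of infinite order.

PROOFS.
* `fix_finite`: fix `o`, let `F x = ∑ g : H, dist x (g • o)^2`. `F` is continuous and tends to `∞` (`F x ≥ dist x o^2`), closed balls are compact, so `F` has a minimum point `x`
  (minimum over `closedBall o R` with `R^2 > F o`). If `x ≠ y` are two minimum points and `m = mid x y` then CN gives `F m ≤ (F x + F y)/2 - |H| dist x y^2/4 < F x`, contradiction. For `g ∈ H`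
  `F (g • x) = F x` (reindex by `g' ↦ g⁻¹ g'`), so `g • x = x`.
* `finite_bdd`: fix `o` and `D` from `coc o`. The set `{g | dist (g • o) o ≤ 2 D}` is finite, `N` its cardinality. If `H` is finite, it fixes `x`; choose `a ∈ G` with `dist (a • x) o ≤ D`; `a H a⁻¹` fixes
  `a • x`, so each of its elements moves `o` by at most `2 D`; it has `|H|` elements.
* `exists_inf_order`: otherwise all elements of the commutative group `Z` have finite order. Choose `N + 1` distinct elements of `Z` (`Z` is infinite, `N` from `finite_bdd`); the subgroup generated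
  by them is commutative, finitely generated and torsion, so finite, with more than `N` elements. (For a commutative torsion group: the closure of a finite set is finite, e.g.
  `Set.Finite` induction: `closure (insert a s) = closure {a} ⊔ closure s`, the product of two finite commuting subgroups is finite; or `CommGroup.finite_of_fg_torsion`.)
-/

set_option autoImplicit false

namespace TitsLF

universe u v

variable {G : Type u} {X : Type v} [Group G] [MetricSpace X] [MulAction G X]

theorem fix_finite (h : Act G X) (H : Subgroup G) (hH : Finite H) :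
    ∃ x : X, ∀ g ∈ H, g • x = x := by
  classical
  have hcat := h.cat
  obtain ⟨o⟩ := h.ne
  have := Fintype.ofFinite H
  let F : X → ℝ := fun x => ∑ g : H, dist x ((g : G) • o) ^ 2
  have hF0 : ∀ x, 0 ≤ F x := fun x => Finset.sum_nonneg fun g _ => sq_nonneg _
  have hFc : Continuous F := by
    refine continuous_finsetSum _ fun g _ => ?_
    exact (continuous_id.dist continuous_const).pow 2
  have hFo : ∀ x, dist x o ^ 2 ≤ F x := by
    intro x
    have h1 := Finset.single_le_sum (f := fun g : H => dist x ((g : G) • o) ^ 2)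
      (fun g _ => sq_nonneg _) (Finset.mem_univ (1 : H))
    simpa using h1
  obtain ⟨x, hx, hmin⟩ := (h.prop o (F o + 1)).exists_isMinOn
    ⟨o, Metric.mem_closedBall_self (by linarith [hF0 o])⟩ hFc.continuousOn
  have hmin' : ∀ y, F x ≤ F y := by
    intro y
    by_cases hy : y ∈ Metric.closedBall o (F o + 1)
    · exact hmin hy
    · have h1 : F x ≤ F o := hmin (Metric.mem_closedBall_self (by linarith [hF0 o]))
      have h2 : F o + 1 < dist y o := by
        simpa [Metric.mem_closedBall] using hy
      have h3 := hFo y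
      have h4 := hF0 o
      nlinarith
  refine ⟨x, fun g hg => ?_⟩
  by_contra hne
  have hinv : F (g • x) = F x := by
    have h1 : F (g • x) = ∑ g' : H, dist x (((⟨g, hg⟩⁻¹ * g' : H) : G) • o) ^ 2 := by
      refine Finset.sum_congr rfl fun g' _ => ?_
      have h2 := h.iso g x (((⟨g, hg⟩⁻¹ * g' : H) : G) • o)
      rw [← h2, smul_smul]
      congr 3
      simp
    rw [h1]
    exact Equiv.sum_comp (Equiv.mulLeft (⟨g, hg⟩⁻¹ : H))
      (fun g' : H => dist x ((g' : G) • o) ^ 2)
  have hpos : 0 < dist (g • x) x := dist_pos.2 hne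
  have h5 : F (mid (g • x) x) ≤ ∑ g' : H, (dist (g • x) ((g' : G) • o) ^ 2 / 2 +
      dist x ((g' : G) • o) ^ 2 / 2 - dist (g • x) x ^ 2 / 4) := by
    refine Finset.sum_le_sum fun g' _ => ?_
    have h6 := cn_mid ((g' : G) • o) (g • x) x
    rw [dist_comm ((g' : G) • o) (mid (g • x) x), dist_comm ((g' : G) • o) (g • x),
      dist_comm ((g' : G) • o) x] at h6
    exact h6
  have h7 : ∑ g' : H, (dist (g • x) ((g' : G) • o) ^ 2 / 2 +
      dist x ((g' : G) • o) ^ 2 / 2 - dist (g • x) x ^ 2 / 4) =
      F (g • x) / 2 + F x / 2 - Fintype.card H * (dist (g • x) x ^ 2 / 4) := by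
    rw [Finset.sum_sub_distrib, Finset.sum_add_distrib, ← Finset.sum_div, ← Finset.sum_div,
      Finset.sum_const, Finset.card_univ, nsmul_eq_mul]
  have h8 : (1 : ℝ) ≤ Fintype.card H := by
    exact_mod_cast Fintype.card_pos
  have h9 := hmin' (mid (g • x) x)
  have h10 : 0 < dist (g • x) x ^ 2 := by positivity
  rw [h7, hinv] at h5
  nlinarith

theorem finite_bdd (h : Act G X) : ∃ N : ℕ, ∀ H : Subgroup G, Finite H → Nat.card H ≤ N := by
  obtain ⟨o⟩ := h.ne
  obtain ⟨D, hD0, hD⟩ := h.coc o
  have hfin := h.fin o (2 * D)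
  refine ⟨Nat.card {g : G | dist (g • o) o ≤ 2 * D}, fun H hH => ?_⟩
  obtain ⟨x, hx⟩ := fix_finite h H hH
  obtain ⟨a, ha⟩ := hD x
  have hfin' : Finite {g : G | dist (g • o) o ≤ 2 * D} := hfin
  refine Nat.card_le_card_of_injective (fun g : H => (⟨a * g * a⁻¹, ?_⟩ :
    {g : G | dist (g • o) o ≤ 2 * D})) ?_
  · have h1 : (a * (g : G) * a⁻¹) • (a • x) = a • x := by
      rw [smul_smul, inv_mul_cancel_right, mul_smul, hx g g.2]
    have h2 := h.iso (a * (g : G) * a⁻¹) o (a • x)
    rw [h1] at h2
    have h3 := dist_triangle ((a * (g : G) * a⁻¹) • o) (a • x) o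
    rw [h2, dist_comm o (a • x)] at h3
    show dist ((a * (g : G) * a⁻¹) • o) o ≤ 2 * D
    linarith
  · intro g g' hgg
    have h1 : a * (g : G) * a⁻¹ = a * (g' : G) * a⁻¹ := congrArg Subtype.val hgg
    have h2 : (g : G) = g' := by
      have := mul_right_cancel h1
      exact mul_left_cancel this
    exact Subtype.ext h2

theorem exists_inf_order (h : Act G X) (Z : Subgroup G) (hZ : Infinite Z)
    (hc : ∀ a ∈ Z, ∀ b ∈ Z, a * b = b * a) : ∃ z ∈ Z, ∀ n : ℕ, 0 < n → z ^ n ≠ 1 := by
  classical
  by_contra hcon
  push Not at hcon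
  obtain ⟨N, hN⟩ := finite_bdd h
  obtain ⟨T, hT⟩ := Infinite.exists_subset_card_eq Z (N + 1)
  let S : Finset G := T.map ⟨Subtype.val, Subtype.val_injective⟩
  have hSZ : ∀ s ∈ (S : Set G), s ∈ Z := by
    intro s hs
    simp only [S, Finset.coe_map, Function.Embedding.coeFn_mk, Set.mem_image] at hs
    obtain ⟨t, -, rfl⟩ := hs
    exact t.2
  have hcl : Subgroup.closure (S : Set G) ≤ Z := (Subgroup.closure_le Z).2 hSZ
  have hfin : Finite (Subgroup.closure (S : Set G)) := by
    let inst : CommGroup (Subgroup.closure (S : Set G)) :=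
      Subgroup.closureCommGroupOfComm fun a ha b hb => hc a (hSZ a ha) b (hSZ b hb)
    have hfg : Group.FG (Subgroup.closure (S : Set G)) := Group.closure_finset_fg S
    refine @CommGroup.finite_of_fg_isMulTorsion _ inst hfg ?_
    intro g
    obtain ⟨n, hn, hn1⟩ := hcon g (hcl g.2)
    rw [isOfFinOrder_iff_pow_eq_one]
    exact ⟨n, hn, Subtype.ext (by simpa using hn1)⟩
  have h1 := hN _ hfin
  have h2 : S.card = N + 1 := by
    rw [Finset.card_map, hT]
  have h3 : Nat.card (S : Set G) ≤ Nat.card (Subgroup.closure (S : Set G)) := by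
    refine Nat.card_le_card_of_injective (Set.inclusion (Subgroup.subset_closure)) ?_
    exact Set.inclusion_injective _
  have h4 : Nat.card (S : Set G) = N + 1 := by
    simp [h2]
  omega

end TitsLF
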