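import Pool.Agent.Helper35.TT.Seg
import Mathlib.GroupTheory.GroupAction.SubMulAction

/-!
TT-25 Minim. Minimal invariant closed convex subsets.

PROOFS.
* `minimal_const`: for `c : ℝ` the set `{x | A x ≤ c}` is closed, midpoint closed and invariant; if it is nonempty it is everything. Apply it with `c = A x` and `c = A y`.
* `exists_minimal`. Let `K = closedBall o D` with `D` from `coc o`: every point has a translate in `K`, so every nonempty invariant set meets `K`. Zorn (`zorn_superset_nonempty` or `zorn_superset`) for the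
  family of the nonempty closed midpoint closed invariant subsets: the intersection of a nonempty chain is closed, midpoint closed, invariant, and it is nonempty since the sets `C ∩ K` are compact, nonempty, directed
  (`IsCompact.nonempty_sInter_of_directedOn_nonempty_isCompact_isClosed`). Let `C` be a minimal one, as `SubMulAction G X`. Its type is a subtype of `X` with the induced metric and action.
  `Act G C`: `cat`: the geodesic of `X` between points of `C` stays in `C` (`MClosed.on_seg` for `seg x y (t / dist x y)`; if `dist x y = 0` constant) and CN is inherited; `prop`: closed balls of `C` are closed subsets of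
  `X`-closed balls intersected with the closed set `C` (`Topology.IsClosedEmbedding`, or `Metric.closedBall` preimage under `Subtype.val`, `IsClosedEmbedding.isCompact_preimage`); `fin`, `iso`: clear; `coc`: clear
  (the distance in `C` is the distance in `X`, `g • x ∈ C`).
  Minimality: a nonempty closed midpoint closed invariant subset `C'` of the type `C` has image in `X` with the same properties (midpoints: a midpoint in `X` of two points of `C` lies in `C`), so it is `C`.
  Frames: `Subtype.val` preserves distances.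
-/

set_option autoImplicit false

namespace TitsLF

universe u v

variable {G : Type u} {X : Type v} [Group G] [MetricSpace X] [MulAction G X]

theorem minimal_const (hm : Minimal G X) {A : X → ℝ} (hA : MConvex A) (hc : Continuous A)
    (hi : ∀ (g : G) (x : X), A (g • x) = A x) (x y : X) : A x = A y := by
  have key : ∀ c : ℝ, ∀ z : X, A z ≤ c → ∀ u : X, A u ≤ c := by
    intro c z hz u
    have h1 : {x : X | A x ≤ c} = Set.univ := by
      refine hm _ (isClosed_le hc continuous_const) ⟨z, hz⟩ ?_ ?_
      · intro a b m ha hb hab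
        have h2 := hA a b m hab
        have h3 : A a ≤ c := ha
        have h4 : A b ≤ c := hb
        show A m ≤ c
        linarith
      · intro g a ha
        show A (g • a) ≤ c
        rw [hi]
        exact ha
    have h2 : u ∈ {x : X | A x ≤ c} := by
      rw [h1]
      exact Set.mem_univ _
    exact h2
  exact le_antisymm (key (A y) y le_rfl x) (key (A x) x le_rfl y)

private theorem h99_act (h : Act G X) (C : SubMulAction G X) (hcl : IsClosed (C : Set X))
    (hne : (C : Set X).Nonempty) (hm : MClosed (C : Set X)) : Act G C := by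
  have := h.cat
  refine ⟨?_, ?_, ?_, ?_, ?_, ?_⟩
  · obtain ⟨x, hx⟩ := hne
    exact ⟨⟨x, hx⟩⟩
  · intro g x y
    exact h.iso g x y
  · refine ⟨?_, ?_⟩
    · classical
      intro x y
      have hD : 0 ≤ dist (x : X) y := dist_nonneg
      have hmem : ∀ s ∈ Set.Icc (0:ℝ) (dist (x : X) y), s / dist (x : X) y ∈ Set.Icc (0:ℝ) 1 := by
        rintro s ⟨h0, h1⟩
        exact ⟨div_nonneg h0 hD, div_le_one_of_le₀ h1 hD⟩
      have hC : ∀ s ∈ Set.Icc (0:ℝ) (dist (x : X) y),
          seg (x : X) y (s / dist (x : X) y) ∈ (C : Set X) := fun s hs =>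
        hm.on_seg hcl x.2 y.2 (hmem s hs)
      obtain ⟨γ, hγ⟩ : ∃ γ : ℝ → C, ∀ s ∈ Set.Icc (0:ℝ) (dist (x : X) y),
          ((γ s : C) : X) = seg (x : X) y (s / dist (x : X) y) := by
        refine ⟨fun s => if hs : s ∈ Set.Icc (0:ℝ) (dist (x : X) y) then
          ⟨seg (x : X) y (s / dist (x : X) y), hC s hs⟩ else x, fun s hs => ?_⟩
        simp only [dif_pos hs]
      refine ⟨γ, ?_, ?_, ?_⟩
      · apply Subtype.ext
        rw [hγ 0 ⟨le_rfl, hD⟩, zero_div, seg_zero]
      · apply Subtype.ext
        rw [Subtype.dist_eq, hγ _ ⟨hD, le_rfl⟩]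
        by_cases h0 : dist (x : X) y = 0
        · rw [h0, div_zero, seg_zero]
          exact dist_eq_zero.1 h0
        · rw [div_self h0, seg_one]
      · intro s hs t ht
        rw [Subtype.dist_eq] at hs ht
        rw [Subtype.dist_eq, hγ s hs, hγ t ht, dist_seg _ _ (hmem s hs) (hmem t ht)]
        by_cases h0 : dist (x : X) y = 0
        · rw [h0] at hs ht
          have h1 : s = 0 := le_antisymm hs.2 hs.1
          have h2 : t = 0 := le_antisymm ht.2 ht.1
          rw [h0, h1, h2]
          simp
        · rw [← sub_div, abs_div, abs_of_nonneg hD, div_mul_cancel₀ _ h0]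
    · intro p q r m h1 h2
      exact CAT.cn (p : X) q r m h1 h2
  · intro x R
    have h1 : Metric.closedBall x R = (Subtype.val : C → X) ⁻¹' Metric.closedBall (x : X) R := by
      ext y
      rfl
    rw [h1]
    exact (hcl.isClosedEmbedding_subtypeVal).isCompact_preimage (h.prop x R)
  · intro x R
    exact h.fin (x : X) R
  · intro o
    obtain ⟨D, hD, h1⟩ := h.coc (o : X)
    exact ⟨D, hD, fun x => h1 (x : X)⟩

theorem exists_minimal (h : Act G X) :
    ∃ C : SubMulAction G X, Act G C ∧ Minimal G C ∧ ∀ n, Frame C n → Frame X n := by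
  have := h.cat
  obtain ⟨o⟩ := h.ne
  obtain ⟨D, hD, hcoc⟩ := h.coc o
  have hK : IsCompact (Metric.closedBall o D) := h.prop o D
  obtain ⟨S, hS⟩ : ∃ S : Set (Set X), S = {C | IsClosed C ∧ C.Nonempty ∧ MClosed C ∧
    ∀ g : G, ∀ x ∈ C, g • x ∈ C} := ⟨_, rfl⟩
  have hmeet : ∀ C ∈ S, (C ∩ Metric.closedBall o D).Nonempty := by
    intro C hC
    rw [hS] at hC
    obtain ⟨-, ⟨x, hx⟩, -, hi⟩ := hC
    obtain ⟨g, hg⟩ := hcoc x
    exact ⟨g • x, hi g x hx, Metric.mem_closedBall.2 hg⟩
  have hclS : ∀ C ∈ S, IsClosed C := by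
    intro C hC
    rw [hS] at hC
    exact hC.1
  obtain ⟨C, hC⟩ := zorn_superset S (by
    intro c hc hchain
    by_cases hce : c.Nonempty
    · refine ⟨⋂₀ c, ?_, fun s hs => Set.sInter_subset_of_mem hs⟩
      have : Nonempty c := hce.to_subtype
      have h1 : (⋂ s : c, (s : Set X) ∩ Metric.closedBall o D).Nonempty := by
        apply IsCompact.nonempty_iInter_of_directed_nonempty_isCompact_isClosed
        · intro s t
          rcases hchain.total s.2 t.2 with h1 | h1
          · exact ⟨s, subset_rfl, Set.inter_subset_inter_left _ h1⟩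
          · exact ⟨t, Set.inter_subset_inter_left _ h1, subset_rfl⟩
        · exact fun s => hmeet s (hc s.2)
        · exact fun s => hK.inter_left (hclS s (hc s.2))
        · exact fun s => (hclS s (hc s.2)).inter Metric.isClosed_closedBall
      rw [hS]
      refine ⟨isClosed_sInter fun s hs => hclS s (hc hs), ?_, ?_, ?_⟩
      · obtain ⟨x, hx⟩ := h1
        refine ⟨x, fun s hs => ?_⟩
        exact (Set.mem_iInter.1 hx ⟨s, hs⟩).1
      · intro x y m hx hy hm s hs
        have h2 := hc hs
        rw [hS] at h2
        exact h2.2.2.1 x y m (hx s hs) (hy s hs) hm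
      · intro g x hx s hs
        have h2 := hc hs
        rw [hS] at h2
        exact h2.2.2.2 g x (hx s hs)
    · refine ⟨Set.univ, ?_, fun s hs => absurd ⟨s, hs⟩ hce⟩
      rw [hS]
      exact ⟨isClosed_univ, ⟨o, Set.mem_univ _⟩, fun _ _ _ _ _ _ => Set.mem_univ _,
        fun _ _ _ => Set.mem_univ _⟩)
  have hCS := hC.prop
  rw [hS] at hCS
  obtain ⟨hcl, hne, hmc, hinv⟩ := hCS
  refine ⟨⟨C, fun g x hx => hinv g x hx⟩, h99_act h _ hcl hne hmc, ?_, ?_⟩
  · intro C' hcl' hne' hmc' hinv'
    have hcle := hcl.isClosedEmbedding_subtypeVal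
    have h1 : (Subtype.val '' C' : Set X) ∈ S := by
      rw [hS]
      refine ⟨hcle.isClosedMap _ hcl', hne'.image _, ?_, ?_⟩
      · rintro _ _ m ⟨x, hx, rfl⟩ ⟨y, hy, rfl⟩ hm
        have hmC : m ∈ C := hmc _ _ m x.2 y.2 hm
        exact ⟨⟨m, hmC⟩, hmc' x y ⟨m, hmC⟩ hx hy hm, rfl⟩
      · rintro g _ ⟨x, hx, rfl⟩
        exact ⟨g • x, hinv' g x hx, rfl⟩
    have h2 : (Subtype.val '' C' : Set X) ⊆ C := by
      rintro _ ⟨x, -, rfl⟩
      exact x.2
    have h3 : C ⊆ (Subtype.val '' C' : Set X) := hC.le_of_le h1 h2
    rw [Set.eq_univ_iff_forall]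
    intro x
    obtain ⟨y, hy, hyx⟩ := h3 x.2
    have : y = x := Subtype.ext hyx
    rw [← this]
    exact hy
  · rintro n ⟨o', p, h1, h2⟩
    exact ⟨o', fun i => p i, h1, h2⟩

end TitsLF
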