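import Pool.Agent.Helper35.TT.Seg

/-!
TT-20 Bus. The flow of a function `h` with `IsBus h` (`T_t = fl h t`).

PROOFS. `d = dist`.
* `fl_dist`, `fl_val`: `IsBus.ray` and `Exists.choose_spec`.
* `fl_unique'`: let `y' = fl h t x`, `m = mid y y'`. `h m ≤ (h y + h y')/2 ≤ h x - t`, so `d x m ≥ t` (Lipschitz); CN: `d x m^2 ≤ d x y^2/2 + d x y'^2/2 - d y y'^2/4 ≤ t^2 - d y y'^2/4`; so `y = y'`.
* `fl_add`: `y = fl h s (fl h t x)`: `h y = h x - (s + t)`, `d x y ≤ s + t`; `fl_unique'`.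
* `dist_fl_fl`: for `s ≤ t`: `fl h t x = fl h (t - s) (fl h s x)`. `fl_isMid`: `dist_fl_fl`.
* `fl_sublinear`: `D = d x y`, `e = d (fl h t x) (fl h t y)`, `m` the midpoint of these two points. `h m ≤ (h x + h y)/2 - t`, `d x m ≥ h x - h m ≥ t - D/2` and CN for `p = x`:
  `d x m^2 ≤ t^2/2 + (t + D)^2/2 - e^2/4`. If `t ≥ D/2` this gives `e^2/4 ≤ t^2/2 + (t+D)^2/2 - (t - D/2)^2 = 2 t D + D^2/4`; if `t < D/2` use `e ≤ 2 t + D` and `(2t + D)^2 ≤ 8 t D + D^2`
  (`4t^2 + 4tD ≤ 8 t D` since `t ≤ D`).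
* `fl_nonexp`: `φ t = d (fl h t x) (fl h t y)`. `φ ((s+t)/2) ≤ (φ s + φ t)/2` (`fl_isMid`, `mid_lip2`). If `φ t > φ 0` for some `t > 0`, put `δ = φ t - φ 0`; along `0, t, 2t, …` the increments are nondecreasing
  (midpoint convexity at `(k-1)t, kt, (k+1)t`), so `φ (k t) ≥ φ 0 + k δ`; this contradicts `φ (k t)^2 ≤ 8 k t D + D^2` for large `k`.
* `IsBus.translate`: `y ↦ g • y` maps rays to rays; midpoints: `IsMid.map`. `fl_translate`: `fl_unique` for the point `g • fl h t x`.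
* `fl_qinv`: `h (g • fl h t x) - h (g • x) = h (fl h t x) - h x = -t` and `d (g • x) (g • fl h t x) = t`; `fl_unique`.
* `IsBus.add_const`, `fl_add_const`: clear (`fl_unique`).
-/

set_option autoImplicit false

namespace TitsLF

universe u v

variable {X : Type v} [MetricSpace X]

theorem Lip1.continuous {h : X → ℝ} (hh : Lip1 h) : Continuous h := by
  have h1 : LipschitzWith 1 h := LipschitzWith.of_dist_le_mul (fun x y => by
    rw [Real.dist_eq, NNReal.coe_one, one_mul]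
    exact hh x y)
  exact h1.continuous

theorem fl_dist {h : X → ℝ} (hh : IsBus h) {t : ℝ} (ht : 0 ≤ t) (x : X) :
    dist x (fl h t x) = t := by
  unfold fl
  rw [dif_pos (hh.ray x t ht)]
  exact (hh.ray x t ht).choose_spec.1

theorem fl_val {h : X → ℝ} (hh : IsBus h) {t : ℝ} (ht : 0 ≤ t) (x : X) :
    h (fl h t x) = h x - t := by
  unfold fl
  rw [dif_pos (hh.ray x t ht)]
  exact (hh.ray x t ht).choose_spec.2

theorem IsBus.add_const {h : X → ℝ} (hh : IsBus h) (c : ℝ) : IsBus (fun x => h x + c) := by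
  refine ⟨fun x y m hm => ?_, fun x y => ?_, fun x t ht => ?_⟩
  · have h1 := hh.conv x y m hm
    change h m + c ≤ (h x + c + (h y + c)) / 2
    linarith
  · have h1 := hh.lip x y
    change |h x + c - (h y + c)| ≤ dist x y
    rwa [add_sub_add_right_eq_sub]
  · obtain ⟨y, h1, h2⟩ := hh.ray x t ht
    refine ⟨y, h1, ?_⟩
    change h y + c = h x + c - t
    linarith

variable [CAT X]

theorem fl_unique' {h : X → ℝ} (hh : IsBus h) {t : ℝ} (ht : 0 ≤ t) {x y : X} (h1 : dist x y ≤ t)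
    (h2 : h y ≤ h x - t) : y = fl h t x := by
  have e1 := fl_dist hh ht x
  have e2 := fl_val hh ht x
  set y' := fl h t x with hy'
  have e3 := hh.conv y y' (mid y y') (mid_spec y y')
  have e4 := hh.lip x (mid y y')
  have e5 := le_abs_self (h x - h (mid y y'))
  have e6 : t ≤ dist x (mid y y') := by linarith
  have e7 := cn_mid x y y'
  have e8 : t ^ 2 ≤ dist x (mid y y') ^ 2 := pow_le_pow_left₀ ht e6 2
  have e9 : dist x y ^ 2 ≤ t ^ 2 := pow_le_pow_left₀ dist_nonneg h1 2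
  rw [e1] at e7
  have e10 : dist y y' ^ 2 ≤ 0 := by nlinarith
  have e11 : dist y y' = 0 :=
    pow_eq_zero_iff (two_ne_zero) |>.1 (le_antisymm e10 (sq_nonneg _))
  exact dist_eq_zero.1 e11

theorem fl_unique {h : X → ℝ} (hh : IsBus h) {t : ℝ} (ht : 0 ≤ t) {x y : X} (h1 : dist x y = t)
    (h2 : h y = h x - t) : y = fl h t x := fl_unique' hh ht h1.le h2.le

theorem fl_add_const {h : X → ℝ} (hh : IsBus h) (c : ℝ) {t : ℝ} (ht : 0 ≤ t) (x : X) :
    fl (fun x => h x + c) t x = fl h t x := by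
  have h1 := fl_dist (hh.add_const c) ht x
  have h2 := fl_val (hh.add_const c) ht x
  refine fl_unique hh ht h1 ?_
  change h _ + c = h x + c - t at h2
  linarith

theorem fl_zero {h : X → ℝ} (hh : IsBus h) (x : X) : fl h 0 x = x := by
  have h1 := fl_dist hh le_rfl x
  exact (dist_eq_zero.1 h1).symm

theorem fl_add {h : X → ℝ} (hh : IsBus h) {s t : ℝ} (hs : 0 ≤ s) (ht : 0 ≤ t) (x : X) :
    fl h s (fl h t x) = fl h (s + t) x := by
  refine fl_unique' hh (add_nonneg hs ht) ?_ ?_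
  · have h1 := fl_dist hh ht x
    have h2 := fl_dist hh hs (fl h t x)
    have h3 := dist_triangle x (fl h t x) (fl h s (fl h t x))
    linarith
  · have h1 := fl_val hh ht x
    have h2 := fl_val hh hs (fl h t x)
    linarith

theorem dist_fl_fl {h : X → ℝ} (hh : IsBus h) {s t : ℝ} (hs : 0 ≤ s) (ht : 0 ≤ t) (x : X) :
    dist (fl h s x) (fl h t x) = |s - t| := by
  have key : ∀ s t : ℝ, 0 ≤ s → s ≤ t → dist (fl h s x) (fl h t x) = |s - t| := by
    intro s t hs hst
    have h1 := fl_add hh (sub_nonneg.2 hst) hs x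
    rw [sub_add_cancel] at h1
    rw [← h1, fl_dist hh (sub_nonneg.2 hst), abs_sub_comm, abs_of_nonneg (sub_nonneg.2 hst)]
  rcases le_total s t with h1 | h1
  · exact key s t hs h1
  · rw [dist_comm, key t s ht h1, abs_sub_comm]

theorem fl_isMid {h : X → ℝ} (hh : IsBus h) {s t : ℝ} (hs : 0 ≤ s) (ht : 0 ≤ t) (x : X) :
    IsMid (fl h s x) (fl h t x) (fl h ((s + t) / 2) x) := by
  have h1 : 0 ≤ (s + t) / 2 := by positivity
  refine ⟨?_, ?_⟩
  · rw [dist_fl_fl hh hs h1, dist_fl_fl hh hs ht]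
    have e : s - (s + t) / 2 = (s - t) / 2 := by ring
    rw [e, abs_div, abs_of_pos (by norm_num : (0:ℝ) < 2)]
  · rw [dist_fl_fl hh ht h1, dist_fl_fl hh hs ht]
    have e : t - (s + t) / 2 = (t - s) / 2 := by ring
    rw [e, abs_div, abs_of_pos (by norm_num : (0:ℝ) < 2), abs_sub_comm]

theorem fl_sublinear {h : X → ℝ} (hh : IsBus h) {t : ℝ} (ht : 0 ≤ t) (x y : X) :
    dist (fl h t x) (fl h t y) ^ 2 ≤ 8 * t * dist x y + dist x y ^ 2 := by
  set a := fl h t x with ha
  set b := fl h t y with hb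
  set D := dist x y with hD
  have hD0 : 0 ≤ D := dist_nonneg
  have e1 : dist x a = t := fl_dist hh ht x
  have e2 : dist y b = t := fl_dist hh ht y
  have e3 : h a = h x - t := fl_val hh ht x
  have e4 : h b = h y - t := fl_val hh ht y
  have e5 := hh.conv a b (mid a b) (mid_spec a b)
  have e6 := hh.lip x (mid a b)
  have e7 := le_abs_self (h x - h (mid a b))
  have e8 := hh.lip x y
  have e9 := neg_abs_le (h x - h y)
  have e10 : t - D / 2 ≤ dist x (mid a b) := by linarith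
  have e11 := cn_mid x a b
  have e12 : dist x b ≤ t + D := by
    have := dist_triangle x y b
    linarith
  have e13 : dist x b ^ 2 ≤ (t + D) ^ 2 := pow_le_pow_left₀ dist_nonneg e12 2
  rw [e1] at e11
  rcases le_total (D / 2) t with h1 | h1
  · have e14 : (t - D / 2) ^ 2 ≤ dist x (mid a b) ^ 2 :=
      pow_le_pow_left₀ (by linarith) e10 2
    nlinarith
  · have e14 : dist a b ≤ 2 * t + D := by
      have h2 := dist_triangle a x b
      rw [dist_comm a x] at h2
      linarith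
    have e15 : dist a b ^ 2 ≤ (2 * t + D) ^ 2 := pow_le_pow_left₀ dist_nonneg e14 2
    nlinarith

theorem fl_nonexp {h : X → ℝ} (hh : IsBus h) {t : ℝ} (ht : 0 ≤ t) (x y : X) :
    dist (fl h t x) (fl h t y) ≤ dist x y := by
  by_contra hcon
  push Not at hcon
  set φ : ℝ → ℝ := fun s => dist (fl h s x) (fl h s y) with hφ
  set D := dist x y with hD
  have hD0 : 0 ≤ D := dist_nonneg
  have hφ0 : φ 0 = D := by
    simp only [hφ]
    rw [fl_zero hh, fl_zero hh]
  have hφt : D < φ t := hcon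
  have hconv : ∀ a b : ℝ, 0 ≤ a → 0 ≤ b → φ ((a + b) / 2) ≤ (φ a + φ b) / 2 := by
    intro a b ha hb
    have h1 := mid_lip2 (fl h a x) (fl h b x) (fl h a y) (fl h b y)
    rw [← eq_mid (fl_isMid hh ha hb x), ← eq_mid (fl_isMid hh ha hb y)] at h1
    exact h1
  have hinc : ∀ k : ℕ, φ t - D ≤ φ ((k + 1 : ℕ) * t) - φ ((k : ℕ) * t) := by
    intro k
    induction k with
    | zero =>
      have e1 : ((0 + 1 : ℕ) : ℝ) * t = t := by push_cast; ring
      have e2 : ((0 : ℕ) : ℝ) * t = 0 := by push_cast; ring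
      rw [e1, e2, hφ0]
    | succ k ih =>
      have h1 := hconv ((k : ℕ) * t) ((k + 1 + 1 : ℕ) * t) (by positivity) (by positivity)
      have e1 : (((k : ℕ) : ℝ) * t + ((k + 1 + 1 : ℕ) : ℝ) * t) / 2 = ((k + 1 : ℕ) : ℝ) * t := by
        push_cast; ring
      rw [e1] at h1
      linarith
  have hlin : ∀ k : ℕ, D + k * (φ t - D) ≤ φ ((k : ℕ) * t) := by
    intro k
    induction k with
    | zero =>
      have e2 : ((0 : ℕ) : ℝ) * t = 0 := by push_cast; ring
      rw [e2, hφ0]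
      push_cast
      linarith
    | succ k ih =>
      have h1 := hinc k
      push_cast at h1 ih ⊢
      linarith
  set δ := φ t - D with hδ
  have hδ0 : 0 < δ := by linarith
  obtain ⟨k, hk⟩ := exists_nat_gt (8 * t * D / δ ^ 2)
  have hδ2 : 0 < δ ^ 2 := by positivity
  rw [div_lt_iff₀ hδ2] at hk
  have hk0 : (0 : ℝ) ≤ k := Nat.cast_nonneg k
  have hk1 : (0 : ℝ) < k := by
    rcases hk0.lt_or_eq with h1 | h1
    · exact h1
    · rw [← h1, zero_mul] at hk
      have : 0 ≤ 8 * t * D := by positivity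
      linarith
  have h2 := fl_sublinear hh (t := (k : ℕ) * t) (by positivity) x y
  have h3 := hlin k
  have h4 : (D + k * δ) ^ 2 ≤ φ ((k : ℕ) * t) ^ 2 :=
    pow_le_pow_left₀ (by positivity) h3 2
  have h5 : (D + k * δ) ^ 2 ≤ 8 * (k * t) * D + D ^ 2 := h4.trans h2
  have h6 : (k : ℝ) * (k * δ ^ 2) ≤ k * (8 * t * D) := by
    have h7 : 0 ≤ 2 * D * (k * δ) := by positivity
    nlinarith
  have h7 := le_of_mul_le_mul_left h6 hk1
  linarith

section action
variable {G : Type u} [Group G] [MulAction G X]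

theorem IsBus.translate (hiso : ∀ (g : G) (x y : X), dist (g • x) (g • y) = dist x y)
    {h : X → ℝ} (hh : IsBus h) (g : G) : IsBus (fun x => h (g⁻¹ • x)) := by
  refine ⟨fun x y m hm => ?_, fun x y => ?_, fun x t ht => ?_⟩
  · exact hh.conv _ _ _ (IsMid.map (f := fun x => g⁻¹ • x) (hiso g⁻¹) hm)
  · have h1 := hh.lip (g⁻¹ • x) (g⁻¹ • y)
    rwa [hiso] at h1
  · obtain ⟨y, h1, h2⟩ := hh.ray (g⁻¹ • x) t ht
    refine ⟨g • y, ?_, ?_⟩
    · rw [← h1, ← hiso g (g⁻¹ • x) y, smul_inv_smul]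
    · simp only [inv_smul_smul]
      exact h2

theorem fl_translate (hiso : ∀ (g : G) (x y : X), dist (g • x) (g • y) = dist x y)
    {h : X → ℝ} (hh : IsBus h) (g : G) {t : ℝ} (ht : 0 ≤ t) (x : X) :
    fl (fun x => h (g⁻¹ • x)) t (g • x) = g • fl h t x := by
  symm
  refine fl_unique (hh.translate hiso g) ht ?_ ?_
  · rw [hiso]
    exact fl_dist hh ht x
  · simp only [inv_smul_smul]
    exact fl_val hh ht x

theorem fl_qinv (hiso : ∀ (g : G) (x y : X), dist (g • x) (g • y) = dist x y)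
    {h : X → ℝ} (hh : IsBus h) (hq : QInv G h) (g : G) {t : ℝ} (ht : 0 ≤ t) (x : X) :
    fl h t (g • x) = g • fl h t x := by
  symm
  refine fl_unique hh ht ?_ ?_
  · rw [hiso]
    exact fl_dist hh ht x
  · have h1 := hq g (fl h t x) x
    have h2 := fl_val hh ht x
    linarith

end action

end TitsLF
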