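import Pool.Agent.Helper35.TT.Mid

/-!
TT-10 Chain. Chains of near midpoints; words in two elements.

PROOFS.
* `chain_growth`: `f = dist (R 0)` is convex: `f (R i) ≤ f (mid (R (i-1)) (R (i+1))) + δ ≤ (f (R (i-1)) + f (R (i+1)))/2 + δ`, so `f (R (i+1)) - f (R i) ≥ f (R i) - f (R (i-1)) - 2 δ`,
  for `1 ≤ i < n`, and `f (R 1) - f (R 0) ≥ c`. By induction `f (R (i+1)) - f (R i) ≥ c - 2 i δ` for `i < n`, hence `f (R i) ≥ i c - i (i - 1) δ ≥ i c - i^2 δ` for `i ≤ n` (`f (R 0) = 0`).
* `words_ne`: put `u = x 0 * (x 1)⁻¹`, `v = x 2 * (x 3)⁻¹`; letters are `(j, b) : Fin 2 × Bool`, `val (0, true) = u`, `val (0, false) = u⁻¹ = x 1 * (x 0)⁻¹`, `val (1, true) = v`, `val (1, false) = v⁻¹`; the first half of a letter is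
  `hf (0, true) = x 0`, `hf (0, false) = x 1`, `hf (1, true) = x 2`, `hf (1, false) = x 3`, so `val a = hf a * (hf a')⁻¹`, `a' = (a.1, !a.2)` the inverse letter. Let `w ≠ 1`, `w.toWord = [a_1, …, a_k']`, `1 ≤ k' ≤ k`, reduced:
  `a_(j+1) ≠ a_j'` (`FreeGroup.isReduced_toWord`, `FreeGroup.IsReduced`). `lift w = a_1 ⋯ a_k'` (`FreeGroup.lift_mk`, `FreeGroup.mk_toWord`).
  `R (2 j) = (a_1 ⋯ a_j) • o`, `R (2 j + 1) = (a_1 ⋯ a_j) • hf (a_(j+1)) • o` for `j < k'`. Odd `i = 2 j + 1`: translate by the inverse of `a_1 ⋯ a_j * hf a_(j+1)`: the three points become `(hf a)⁻¹ • o`, `o`,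
  `(hf a')⁻¹ • o` with `a = a_(j+1)`: this is `h3` or `h4` (with `mid_comm`). Even `i = 2 j`, `0 < j < k'`: translate by the inverse of `a_1 ⋯ a_j`: `R (i-1)` becomes
  `(val a_j)⁻¹ • hf a_j • o = hf (a_j') • o`, `R (i+1)` becomes `hf a_(j+1) • o`, and `a_j' ≠ a_(j+1)`: `h2`. So `chain_growth` (`n = 2 k'`, `h1` for `R 1`) gives `dist (R 0) (R (2 k')) ≥ 2 k' (c - 2 k' δ) > 0`,
  so `lift w • o ≠ o`.
-/

set_option autoImplicit false

namespace TitsLF

universe u v

variable {X : Type v} [MetricSpace X] [CAT X]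

theorem chain_growth (R : ℕ → X) {c δ : ℝ} {n : ℕ} (hδ : 0 ≤ δ)
    (h0 : c ≤ dist (R 0) (R 1))
    (h : ∀ i, 1 ≤ i → i < n → dist (R i) (mid (R (i - 1)) (R (i + 1))) ≤ δ) :
    ∀ i, 1 ≤ i → i ≤ n → (i : ℝ) * c - (i : ℝ) ^ 2 * δ ≤ dist (R 0) (R i) := by
  have hstep : ∀ i, i + 1 < n → dist (R 0) (R (i + 1)) - dist (R 0) (R i) - 2 * δ ≤
      dist (R 0) (R (i + 2)) - dist (R 0) (R (i + 1)) := by
    intro i hi
    have h1 := h (i + 1) (by omega) hi
    have h2 : i + 1 - 1 = i := by omega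
    rw [h2] at h1
    have h3 := dist_mconvex (R 0) (R i) (R (i + 1 + 1)) (mid (R i) (R (i + 1 + 1)))
      (mid_spec _ _)
    have h4 := dist_triangle (R 0) (mid (R i) (R (i + 1 + 1))) (R (i + 1))
    rw [dist_comm (mid (R i) (R (i + 1 + 1))) (R (i + 1))] at h4
    simp only at h3
    have h5 : i + 1 + 1 = i + 2 := rfl
    rw [h5] at h1 h3 h4
    linarith
  have hdiff : ∀ i, i < n → c - 2 * (i : ℝ) * δ ≤ dist (R 0) (R (i + 1)) - dist (R 0) (R i) := by
    intro i
    induction i with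
    | zero =>
      intro _
      rw [dist_self]
      simpa using h0
    | succ i ih =>
      intro hi
      have h1 := ih (by omega)
      have h2 := hstep i hi
      push_cast
      have h5 : i + 1 + 1 = i + 2 := rfl
      rw [h5]
      linarith
  have hall : ∀ i, i ≤ n → (i : ℝ) * c - (i : ℝ) ^ 2 * δ ≤ dist (R 0) (R i) := by
    intro i
    induction i with
    | zero =>
      intro _
      simp
    | succ i ih =>
      intro hi
      have h1 := ih (by omega)
      have h2 := hdiff i (by omega)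
      push_cast
      nlinarith
  exact fun i _ hi => hall i hi

private def chIdx : Fin 2 × Bool → Fin 4
  | (0, true) => 0
  | (0, false) => 1
  | (1, true) => 2
  | (1, false) => 3

private theorem chIdx_ne (a b : Fin 2 × Bool) (h : a.1 = b.1 → a.2 = b.2) :
    chIdx (a.1, !a.2) ≠ chIdx b := by
  revert a b
  decide

private theorem ch_val {G : Type u} [Group G] (x : Fin 4 → G) (a : Fin 2 × Bool) :
    cond a.2 (![x 0 * (x 1)⁻¹, x 2 * (x 3)⁻¹] a.1) (![x 0 * (x 1)⁻¹, x 2 * (x 3)⁻¹] a.1)⁻¹ =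
      x (chIdx a) * (x (chIdx (a.1, !a.2)))⁻¹ := by
  obtain ⟨i, b⟩ := a
  fin_cases i <;> cases b <;> simp [chIdx]

theorem words_ne {G : Type u} [Group G] [MulAction G X]
    (hiso : ∀ (g : G) (x y : X), dist (g • x) (g • y) = dist x y) (o : X) (x : Fin 4 → G) (k : ℕ)
    {c δ : ℝ} (hδ : 0 ≤ δ) (hc : 2 * (k : ℝ) * δ < c) (h1 : ∀ i, c ≤ dist o (x i • o))
    (h2 : ∀ i j, i ≠ j → dist o (mid (x i • o) (x j • o)) ≤ δ)
    (h3 : dist o (mid ((x 0)⁻¹ • o) ((x 1)⁻¹ • o)) ≤ δ)
    (h4 : dist o (mid ((x 2)⁻¹ • o) ((x 3)⁻¹ • o)) ≤ δ) (w : FreeGroup (Fin 2)) (hw : w ≠ 1)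
    (hk : w.toWord.length ≤ k) :
    FreeGroup.lift ![x 0 * (x 1)⁻¹, x 2 * (x 3)⁻¹] w ≠ 1 := by
  have hdm : ∀ (g : G) (p q : X), dist (g • o) (mid (g • p) (g • q)) = dist o (mid p q) := by
    intro g p q
    have h5 := eq_mid ((mid_spec p q).map (f := fun z : X => g • z) (hiso g))
    rw [← h5, hiso]
  have hinv : ∀ a : Fin 2 × Bool,
      dist o (mid ((x (chIdx a))⁻¹ • o) ((x (chIdx (a.1, !a.2)))⁻¹ • o)) ≤ δ := by
    rintro ⟨i, b⟩
    fin_cases i <;> cases b
    · rw [mid_comm]
      exact h3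
    · exact h3
    · rw [mid_comm]
      exact h4
    · exact h4
  intro hone
  set L := w.toWord with hL
  have hred : FreeGroup.IsReduced L := FreeGroup.isReduced_toWord
  unfold FreeGroup.IsReduced at hred
  rw [List.isChain_iff_getElem] at hred
  have hLne : 1 ≤ L.length := by
    by_contra hcon
    have h5 : L = [] := List.eq_nil_of_length_eq_zero (by omega)
    apply hw
    rw [← FreeGroup.toWord_eq_nil_iff]
    exact h5
  set ev : Fin 2 × Bool → G := fun a => x (chIdx a) * (x (chIdx (a.1, !a.2)))⁻¹ with hev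
  have hlift : FreeGroup.lift ![x 0 * (x 1)⁻¹, x 2 * (x 3)⁻¹] w = (L.map ev).prod := by
    conv_lhs => rw [← FreeGroup.mk_toWord (x := w), FreeGroup.lift_mk]
    rw [hev]
    congr 1
    apply List.map_congr_left
    intro a _
    exact ch_val x a
  set P : ℕ → G := fun j => ((L.map ev).take j).prod with hP
  have hP0 : P 0 = 1 := by simp [hP]
  have hPs : ∀ j (hj : j < L.length), P (j + 1) = P j * ev L[j] := by
    intro j hj
    simp only [hP]
    rw [List.prod_take_succ _ _ (by simpa using hj), List.getElem_map]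
  have hPl : P L.length = 1 := by
    simp only [hP]
    rw [List.take_of_length_le (by simp), ← hlift, hone]
  set R : ℕ → X := fun i => if i % 2 = 0 then P (i / 2) • o else
    (P (i / 2) * x (chIdx (L.getD (i / 2) (0, true)))) • o with hR
  have hRe : ∀ j, R (2 * j) = P j • o := by
    intro j
    simp only [hR]
    rw [if_pos (by omega), show 2 * j / 2 = j by omega]
  have hRo : ∀ j (hj : j < L.length), R (2 * j + 1) = (P j * x (chIdx L[j])) • o := by
    intro j hj
    simp only [hR]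
    rw [if_neg (by omega), show (2 * j + 1) / 2 = j by omega, List.getD_eq_getElem _ _ hj]
  have hgrow := chain_growth R (c := c) (δ := δ) (n := 2 * L.length) hδ
    (by
      have e0 : R 0 = o := by
        have := hRe 0
        rw [mul_zero, hP0, one_smul] at this
        exact this
      have e1 : R 1 = x (chIdx L[0]) • o := by
        have := hRo 0 (by omega)
        rw [mul_zero, zero_add, hP0, one_mul] at this
        exact this
      rw [e0, e1]
      exact h1 _)
    (by
      intro i hi1 hi2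
      rcases Nat.even_or_odd' i with ⟨j, rfl | rfl⟩
      · -- even
        obtain ⟨m, rfl⟩ : ∃ m, j = m + 1 := ⟨j - 1, by omega⟩
        have hm : m < L.length := by omega
        have hm1 : m + 1 < L.length := by omega
        have e1 : R (2 * (m + 1) - 1) = P (m + 1) • (x (chIdx (L[m].1, !L[m].2)) • o) := by
          rw [show 2 * (m + 1) - 1 = 2 * m + 1 by omega, hRo m hm, hPs m hm, hev, ← mul_smul]
          congr 1
          group
        have e2 : R (2 * (m + 1) + 1) = P (m + 1) • (x (chIdx L[m + 1]) • o) := by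
          rw [hRo (m + 1) hm1, mul_smul]
        rw [hRe, e1, e2, hdm]
        exact h2 _ _ (chIdx_ne _ _ (hred m hm1))
      · -- odd
        have hj : j < L.length := by omega
        have e1 : R (2 * j + 1 - 1) =
            (P j * x (chIdx L[j])) • ((x (chIdx L[j]))⁻¹ • o) := by
          rw [show 2 * j + 1 - 1 = 2 * j by omega, hRe, ← mul_smul]
          congr 1
          group
        have e2 : R (2 * j + 1 + 1) =
            (P j * x (chIdx L[j])) • ((x (chIdx (L[j].1, !L[j].2)))⁻¹ • o) := by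
          rw [show 2 * j + 1 + 1 = 2 * (j + 1) by ring, hRe, hPs j hj, hev, ← mul_smul]
          congr 1
          group
        rw [e1, e2, hRo j hj, hdm]
        exact hinv _)
    (2 * L.length) (by omega) le_rfl
  have e0 : R 0 = o := by
    have := hRe 0
    rw [mul_zero, hP0, one_smul] at this
    exact this
  rw [hRe, hPl, one_smul, e0, dist_self] at hgrow
  push_cast at hgrow
  have hl1 : (1 : ℝ) ≤ L.length := by exact_mod_cast hLne
  have hlk : (L.length : ℝ) ≤ k := by exact_mod_cast hk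
  have h5 : 2 * (L.length : ℝ) * δ < c := by
    refine lt_of_le_of_lt ?_ hc
    gcongr
  nlinarith

end TitsLF
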