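import Pool.Agent.Helper35.TT.Walk

/-!
TT-13 Decay. Under the gap inequality small sets have exponentially small probability; the walk has positive drift in every sense.

PROOFS.
* `E_eq_sum`: with `p 0 = Finsupp.single 1 1`, `p (n+1) = avg S (p n)` (`walk`) one has `E S n F = (p n).sum (fun x a => a * F x)`: induction on `n` for all `F`
  (`Finsupp.sum_mapDomain_index`, linearity of `Finsupp.sum` in the function).
* `n2_walk`: `n2 (p n) ≤ ρ ^ n`, `p n ≥ 0`.
* `E_small`: `E S n 1_T = ∑_{g ∈ T} p n g ≤ √|T| √(n2 (p n)) ≤ √|T| (√ρ)^n` (Cauchy-Schwarz; `∑_{g ∈ T} (p n g)^2 ≤ n2 (p n)`).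
* `small_dist`: the numbers `C V` with the growth bound (hypothesis `hg`). For `c > 0`, `T_m = {g | dist o (g • o) < c m}` has at most `C exp (V c m)` elements, so `E S m 1_{T_m} ≤ √C (exp (V c / 2) √ρ)^m`, which tends to `0` if
  `exp (V c / 2) √ρ < 1`, for example `c = (- log ρ)/(2 V)`. (`hfin` makes `T_m` a finite set; the growth bound is applied to it.)
-/

set_option autoImplicit false

namespace TitsLF

open Filter Topology

universe u v

section walk
variable {G : Type u} [Group G]

/-- The law of the walk as a finitely supported function. -/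
noncomputable def walk (S : Finset G) : ℕ → (G →₀ ℝ)
  | 0 => Finsupp.single 1 1
  | n + 1 => avg S (walk S n)

theorem walk_nonneg (S : Finset G) (n : ℕ) (g : G) : 0 ≤ walk S n g := by
  classical
  induction n generalizing g with
  | zero =>
    show 0 ≤ (Finsupp.single (1 : G) (1 : ℝ)) g
    rw [Finsupp.single_apply]
    split_ifs <;> norm_num
  | succ n ih =>
    show 0 ≤ (avg S (walk S n)) g
    unfold avg
    rw [Finsupp.smul_apply, Finsupp.finset_sum_apply, smul_eq_mul]
    refine mul_nonneg (inv_nonneg.2 (Nat.cast_nonneg _)) (Finset.sum_nonneg fun s _ => ?_)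
    rw [Finsupp.mapDomain, Finsupp.sum_apply]
    refine Finset.sum_nonneg fun x _ => ?_
    show 0 ≤ (Finsupp.single (x * s) (walk S n x)) g
    rw [Finsupp.single_apply]
    split_ifs
    · exact ih x
    · exact le_rfl

theorem E_eq_sum (S : Finset G) (n : ℕ) (F : G → ℝ) :
    E S n F = (walk S n).sum (fun x a => a * F x) := by
  classical
  induction n generalizing F with
  | zero =>
    show F 1 = (Finsupp.single (1 : G) (1 : ℝ)).sum (fun x a => a * F x)
    rw [Finsupp.sum_single_index (by simp), one_mul]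
  | succ n ih =>
    show (∑ s ∈ S, E S n (fun x => F (x * s))) / S.card
      = (avg S (walk S n)).sum (fun x a => a * F x)
    unfold avg
    rw [Finsupp.sum_smul_index (by intro i; simp), div_eq_inv_mul]
    have h1 : (∑ s ∈ S, (walk S n).mapDomain (fun g => g * s)).sum
        (fun x a => ((S.card : ℝ)⁻¹ * a) * F x)
        = (S.card : ℝ)⁻¹ * (∑ s ∈ S, (walk S n).mapDomain (fun g => g * s)).sum
          (fun x a => a * F x) := by
      rw [Finsupp.mul_sum]
      refine Finsupp.sum_congr fun x _ => by ring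
    rw [h1]
    congr 1
    rw [← Finsupp.sum_finset_sum_index (by intro i; simp) (by intro i a b; ring)]
    refine Finset.sum_congr rfl fun s _ => ?_
    rw [ih, Finsupp.sum_mapDomain_index (by intro i; simp) (by intro i a b; ring)]

theorem n2_walk {S : Finset G} {ρ : ℝ} (hρ : 0 < ρ)
    (hgap : ∀ f : G →₀ ℝ, (∀ g, 0 ≤ f g) → n2 (avg S f) ≤ ρ * n2 f) (n : ℕ) :
    n2 (walk S n) ≤ ρ ^ n := by
  induction n with
  | zero =>
    show n2 (Finsupp.single (1 : G) (1 : ℝ)) ≤ ρ ^ 0
    unfold n2
    rw [Finsupp.sum_single_index (by simp)]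
    simp
  | succ n ih =>
    show n2 (avg S (walk S n)) ≤ ρ ^ (n + 1)
    refine (hgap _ (fun g => walk_nonneg S n g)).trans ?_
    rw [pow_succ, mul_comm]
    exact mul_le_mul_of_nonneg_right ih hρ.le

open Classical in
theorem E_small {S : Finset G} {ρ : ℝ} (hρ : 0 < ρ)
    (hgap : ∀ f : G →₀ ℝ, (∀ g, 0 ≤ f g) → n2 (avg S f) ≤ ρ * n2 f) (n : ℕ) (T : Finset G) :
    E S n (fun x => if x ∈ T then 1 else 0) ≤ Real.sqrt T.card * Real.sqrt ρ ^ n := by
  rw [E_eq_sum]
  have h1 : (walk S n).sum (fun x a => a * (if x ∈ T then (1 : ℝ) else 0))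
      = ∑ x ∈ T, 1 * walk S n x := by
    rw [Finsupp.sum]
    have h2 : ∀ x ∈ (walk S n).support, walk S n x * (if x ∈ T then (1 : ℝ) else 0)
        = if x ∈ T then walk S n x else 0 := by
      intro x _
      split_ifs <;> simp
    rw [Finset.sum_congr rfl h2, ← Finset.sum_filter]
    have h3 : ∀ x ∈ T, 1 * walk S n x = if x ∈ (walk S n).support then walk S n x else 0 := by
      intro x _
      by_cases hx : x ∈ (walk S n).support
      · rw [if_pos hx, one_mul]
      · rw [if_neg hx, one_mul]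
        exact Finsupp.notMem_support_iff.1 hx
    rw [Finset.sum_congr rfl h3, ← Finset.sum_filter]
    refine Finset.sum_congr ?_ fun _ _ => rfl
    ext x
    simp only [Finset.mem_filter]
    tauto
  rw [h1]
  refine (Real.sum_mul_le_sqrt_mul_sqrt T (fun _ => 1) (fun x => walk S n x)).trans ?_
  have h4 : ∑ i ∈ T, ((fun _ : G => (1 : ℝ)) i) ^ 2 = T.card := by simp
  rw [h4]
  refine mul_le_mul_of_nonneg_left ?_ (Real.sqrt_nonneg _)
  have h5 : ∑ i ∈ T, (walk S n i) ^ 2 ≤ ρ ^ n := by
    refine le_trans ?_ (n2_walk hρ hgap n)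
    unfold n2
    rw [Finsupp.sum]
    have h6 : ∀ x ∈ T, (walk S n x) ^ 2
        = if x ∈ (walk S n).support then (walk S n x) ^ 2 else 0 := by
      intro x _
      by_cases hx : x ∈ (walk S n).support
      · rw [if_pos hx]
      · rw [if_neg hx, Finsupp.notMem_support_iff.1 hx]
        norm_num
    rw [Finset.sum_congr rfl h6, ← Finset.sum_filter]
    refine Finset.sum_le_sum_of_subset_of_nonneg ?_ (fun i _ _ => sq_nonneg _)
    intro x hx
    exact (Finset.mem_filter.1 hx).2
  rw [Real.sqrt_le_left (pow_nonneg (Real.sqrt_nonneg _) _), ← pow_mul, mul_comm n 2, pow_mul,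
    Real.sq_sqrt hρ.le]
  exact h5

end walk

open Classical in
theorem small_dist {G : Type u} {X : Type v} [Group G] [MetricSpace X] [MulAction G X] (o : X)
    (hfin : ∀ R : ℝ, {g : G | dist (g • o) o ≤ R}.Finite)
    (hg : ∃ C V : ℝ, 0 < C ∧ 0 < V ∧ ∀ R : ℝ, 0 ≤ R → ∀ T : Finset G,
      (∀ g ∈ T, dist (g • o) o ≤ R) → (T.card : ℝ) ≤ C * Real.exp (V * R))
    {S : Finset G} {ρ : ℝ} (hρ : 0 < ρ) (hρ1 : ρ < 1)
    (hgap : ∀ f : G →₀ ℝ, (∀ g, 0 ≤ f g) → n2 (avg S f) ≤ ρ * n2 f) :
    ∃ c : ℝ, 0 < c ∧ Tendsto (fun m : ℕ => E S m (fun x => if dist o (x • o) < c * m then 1 else 0))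
      atTop (𝓝 0) := by
  obtain ⟨C, V, hC, hV, hg⟩ := hg
  have hlog : Real.log ρ < 0 := Real.log_neg hρ hρ1
  set c : ℝ := (- Real.log ρ) / (2 * V) with hc
  have hcpos : 0 < c := div_pos (neg_pos.2 hlog) (by positivity)
  refine ⟨c, hcpos, ?_⟩
  have hVc : V * c / 2 = - Real.log ρ / 4 := by
    rw [hc]
    field_simp
    ring
  set q : ℝ := Real.exp (V * c / 2) * Real.sqrt ρ with hq
  have hq0 : 0 ≤ q := mul_nonneg (Real.exp_pos _).le (Real.sqrt_nonneg _)
  have hq1 : q < 1 := by
    have h1 : Real.sqrt ρ = Real.exp (Real.log ρ / 2) := by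
      rw [Real.sqrt_eq_iff_mul_self_eq hρ.le (Real.exp_pos _).le, ← Real.exp_add]
      rw [show Real.log ρ / 2 + Real.log ρ / 2 = Real.log ρ by ring, Real.exp_log hρ]
    rw [hq, h1, hVc, ← Real.exp_add, Real.exp_lt_one_iff]
    linarith
  have hlim : Tendsto (fun m : ℕ => Real.sqrt C * q ^ m) atTop (𝓝 0) := by
    have := (tendsto_pow_atTop_nhds_zero_of_lt_one hq0 hq1).const_mul (Real.sqrt C)
    simpa using this
  refine squeeze_zero (fun m => ?_) (fun m => ?_) hlim
  · rw [E_eq_sum]
    refine Finset.sum_nonneg fun x _ => mul_nonneg (walk_nonneg S m x) ?_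
    split_ifs <;> norm_num
  · have hR : (0 : ℝ) ≤ c * m := mul_nonneg hcpos.le (Nat.cast_nonneg _)
    set T : Finset G := (hfin (c * m)).toFinset.filter (fun g => dist o (g • o) < c * m) with hT
    have hmem : ∀ x : G, x ∈ T ↔ dist o (x • o) < c * m := by
      intro x
      rw [hT, Finset.mem_filter, Set.Finite.mem_toFinset, Set.mem_setOf_eq]
      constructor
      · intro h
        exact h.2
      · intro h
        refine ⟨?_, h⟩
        rw [dist_comm]
        exact h.le
    have hfun : (fun x : G => if dist o (x • o) < c * m then (1 : ℝ) else 0)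
        = fun x => if x ∈ T then 1 else 0 := by
      funext x
      by_cases hx : x ∈ T
      · rw [if_pos hx, if_pos ((hmem x).1 hx)]
      · rw [if_neg hx, if_neg (fun h => hx ((hmem x).2 h))]
    rw [hfun]
    refine (E_small hρ hgap m T).trans ?_
    have hcard : (T.card : ℝ) ≤ C * Real.exp (V * (c * m)) := by
      refine hg (c * m) hR T fun g hgT => ?_
      rw [dist_comm]
      exact ((hmem g).1 hgT).le
    have h2 : Real.sqrt (T.card : ℝ) ≤ Real.sqrt C * Real.exp (V * c / 2) ^ m := by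
      rw [Real.sqrt_le_left (mul_nonneg (Real.sqrt_nonneg _) (pow_nonneg (Real.exp_pos _).le _)),
        mul_pow, Real.sq_sqrt hC.le, ← pow_mul, ← Real.exp_nat_mul]
      refine hcard.trans (le_of_eq ?_)
      congr 2
      push_cast
      ring
    calc Real.sqrt (T.card : ℝ) * Real.sqrt ρ ^ m
        ≤ (Real.sqrt C * Real.exp (V * c / 2) ^ m) * Real.sqrt ρ ^ m :=
          mul_le_mul_of_nonneg_right h2 (pow_nonneg (Real.sqrt_nonneg _) _)
      _ = Real.sqrt C * q ^ m := by
          rw [hq, mul_pow]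
          ring

end TitsLF
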