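import Pool.Agent.Helper35.TT.Defs

/-!
TT-11 Gap. Non-amenable groups have a spectral gap (Kesten), in `ℓ²` for finitely supported nonnegative functions.

PROOF. `¬ Reiter G` gives a finite `S₀` and `ε > 0` such that every `f ≥ 0` with sum `1` has an `s ∈ S₀` with `l1 (f.mapDomain (· * s) - f) > ε`. By scaling: for every `f ≥ 0`, `f ≠ 0`, some `s ∈ S₀` has
`l1 (f.mapDomain (· * s) - f) > ε l1 f`. Let `S = S₀ ∪ S₀⁻¹ ∪ {1}`, `q = |S|`.
Let `f ≥ 0`, `f_s = f.mapDomain (· * s)`, so `f_s x = f (x * s⁻¹)`, `n2 f_s = n2 f`. With `⟨f, g⟩ = ∑ f x g x`: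
`n2 (avg S f) = q⁻² ∑_{s,t} ⟨f_s, f_t⟩ = q⁻² ∑_{s,t} (n2 f - n2 (f_s - f_t)/2) ≤ n2 f - q⁻² n2 (f_s - f)` for each single `s ∈ S` (the terms `(s, 1)` and `(1, s)`; if `s = 1` clear).
Apply the gap to `f² : x ↦ (f x)^2` (sum `n2 f`): some `s ∈ S₀` with `ε n2 f ≤ l1 ((f²)_s - f²) = ∑ |f_s x ^2 - f x ^2| = ∑ |f_s x - f x| (f_s x + f x) ≤ √(n2 (f_s - f)) √(∑ (f_s + f)^2)
≤ √(n2 (f_s - f)) · 2 √(n2 f)` (Cauchy-Schwarz, `(a+b)^2 ≤ 2a^2 + 2b^2`). So `n2 (f_s - f) ≥ ε^2/4 n2 f` and `ρ = max (1 - ε^2/(4 q^2)) (1/2)` works (in `(0,1)`).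
It may be convenient to fix a finite set `U` which contains the supports of `f` and all `f_s`, and to write all sums over `U` (`Finsupp.sum_of_support_subset`).
-/

set_option autoImplicit false

namespace TitsLF

universe u

private lemma md_apply {G : Type u} [Group G] (f : G →₀ ℝ) (s x : G) :
    f.mapDomain (fun g => g * s) x = f (x * s⁻¹) := by
  have h := Finsupp.mapDomain_apply (f := fun g : G => g * s) (mul_left_injective s) f (x * s⁻¹)
  simpa using h

private lemma n2_md {G : Type u} [Group G] (f : G →₀ ℝ) (s : G) :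
    n2 (f.mapDomain (fun g => g * s)) = n2 f := by
  unfold n2
  rw [Finsupp.sum_mapDomain_index_inj (mul_left_injective s)]

private lemma n2_eq {α : Type u} (f : α →₀ ℝ) (U : Finset α) (h : f.support ⊆ U) :
    n2 f = ∑ x ∈ U, f x ^ 2 := by
  unfold n2
  exact Finsupp.sum_of_support_subset f h _ (fun i _ => by norm_num)

private lemma l1_eq {α : Type u} (f : α →₀ ℝ) (U : Finset α) (h : f.support ⊆ U) :
    l1 f = ∑ x ∈ U, |f x| := by
  unfold l1
  exact Finsupp.sum_of_support_subset f h _ (fun i _ => by rw [abs_zero])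

private lemma sq_sum_le {α : Type u} (S : Finset α) (a : α → ℝ) {s₁ s₀ : α} (h1 : s₁ ∈ S) (h0 : s₀ ∈ S) :
    (∑ s ∈ S, a s) ^ 2 ≤ S.card * ∑ s ∈ S, a s ^ 2 - (a s₀ - a s₁) ^ 2 := by
  classical
  have hid : ∑ s ∈ S, ∑ t ∈ S, (a s - a t) ^ 2 =
      2 * (S.card * ∑ s ∈ S, a s ^ 2) - 2 * (∑ s ∈ S, a s) ^ 2 := by
    have e1 : ∀ s ∈ S, ∑ t ∈ S, (a s - a t) ^ 2 =
        S.card * a s ^ 2 + ∑ t ∈ S, a t ^ 2 - 2 * (a s * ∑ t ∈ S, a t) := by
      intro s _
      have e2 : ∀ t ∈ S, (a s - a t) ^ 2 = a s ^ 2 + a t ^ 2 - 2 * (a s * a t) := fun t _ => by ring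
      rw [Finset.sum_congr rfl e2, Finset.sum_sub_distrib, Finset.sum_add_distrib, Finset.sum_const,
        nsmul_eq_mul, ← Finset.mul_sum, ← Finset.mul_sum]
    rw [Finset.sum_congr rfl e1, Finset.sum_sub_distrib, Finset.sum_add_distrib, Finset.sum_const,
      nsmul_eq_mul, ← Finset.mul_sum, ← Finset.mul_sum, ← Finset.sum_mul]
    ring
  have hge : 2 * (a s₀ - a s₁) ^ 2 ≤ ∑ s ∈ S, ∑ t ∈ S, (a s - a t) ^ 2 := by
    by_cases hne : s₀ = s₁
    · rw [hne, sub_self]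
      have : 0 ≤ ∑ s ∈ S, ∑ t ∈ S, (a s - a t) ^ 2 :=
        Finset.sum_nonneg fun s _ => Finset.sum_nonneg fun t _ => sq_nonneg _
      simpa using this
    · have hsub : ({s₀, s₁} : Finset α) ⊆ S := by
        intro x hx
        rcases Finset.mem_insert.mp hx with h | h
        · rw [h]; exact h0
        · rw [Finset.mem_singleton.mp h]; exact h1
      have h2 := Finset.sum_le_sum_of_subset_of_nonneg (f := fun s => ∑ t ∈ S, (a s - a t) ^ 2) hsub
        (fun s _ _ => Finset.sum_nonneg fun t _ => sq_nonneg _)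
      rw [Finset.sum_pair hne] at h2
      have h3 : (a s₀ - a s₁) ^ 2 ≤ ∑ t ∈ S, (a s₀ - a t) ^ 2 :=
        Finset.single_le_sum (f := fun t => (a s₀ - a t) ^ 2) (fun t _ => sq_nonneg _) h1
      have h4 : (a s₁ - a s₀) ^ 2 ≤ ∑ t ∈ S, (a s₁ - a t) ^ 2 :=
        Finset.single_le_sum (f := fun t => (a s₁ - a t) ^ 2) (fun t _ => sq_nonneg _) h0
      have h5 : (a s₁ - a s₀) ^ 2 = (a s₀ - a s₁) ^ 2 := by ring
      linarith
  rw [hid] at hge
  linarith

theorem gap {G : Type u} [Group G] (h : ¬ Reiter G) :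
    ∃ S : Finset G, 1 ∈ S ∧ (∀ s ∈ S, s⁻¹ ∈ S) ∧ ∃ ρ : ℝ, 0 < ρ ∧ ρ < 1 ∧
      ∀ f : G →₀ ℝ, (∀ g, 0 ≤ f g) → n2 (avg S f) ≤ ρ * n2 f := by
  classical
  unfold Reiter at h
  push Not at h
  obtain ⟨S₀, ε, hε, hgap⟩ := h
  -- scaling
  have hgap' : ∀ g : G →₀ ℝ, (∀ x, 0 ≤ g x) → 0 < (g.sum fun _ r => r) →
      ∃ s ∈ S₀, ε * (g.sum fun _ r => r) < l1 (g.mapDomain (fun x => x * s) - g) := by
    intro g hg hM
    obtain ⟨M, hMdef⟩ : ∃ M : ℝ, M = (g.sum fun _ r => r) := ⟨_, rfl⟩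
    rw [← hMdef] at hM ⊢
    have hsum : ((M⁻¹ • g).sum fun _ r => r) = 1 := by
      rw [Finsupp.sum_smul_index (fun _ => rfl)]
      have h1 : (g.sum fun _ b => M⁻¹ * b) = M⁻¹ * (g.sum fun _ r => r) := by
        unfold Finsupp.sum
        rw [Finset.mul_sum]
      rw [h1, ← hMdef]
      exact inv_mul_cancel₀ hM.ne'
    obtain ⟨s, hs, hlt⟩ := hgap (M⁻¹ • g) (fun x => by
      rw [Finsupp.smul_apply, smul_eq_mul]
      exact mul_nonneg (inv_nonneg.mpr hM.le) (hg x)) hsum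
    refine ⟨s, hs, ?_⟩
    have h1 : (M⁻¹ • g).mapDomain (fun x => x * s) - M⁻¹ • g =
        M⁻¹ • (g.mapDomain (fun x => x * s) - g) := by
      rw [Finsupp.mapDomain_smul, smul_sub]
    rw [h1] at hlt
    have h2 : l1 (M⁻¹ • (g.mapDomain (fun x => x * s) - g)) =
        M⁻¹ * l1 (g.mapDomain (fun x => x * s) - g) := by
      unfold l1
      rw [Finsupp.sum_smul_index (fun _ => abs_zero)]
      unfold Finsupp.sum
      rw [Finset.mul_sum]
      refine Finset.sum_congr rfl fun x _ => ?_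
      beta_reduce
      rw [abs_mul, abs_of_pos (inv_pos.mpr hM)]
    rw [h2] at hlt
    have h3 := mul_lt_mul_of_pos_left hlt hM
    rw [← mul_assoc, mul_inv_cancel₀ hM.ne', one_mul] at h3
    linarith
  refine ⟨S₀ ∪ S₀.image (fun s => s⁻¹) ∪ {1}, Finset.mem_union_right _ (Finset.mem_singleton_self _),
    ?_, ?_⟩
  · intro s hs
    rcases Finset.mem_union.mp hs with hs | hs
    · rcases Finset.mem_union.mp hs with hs | hs
      · exact Finset.mem_union_left _ (Finset.mem_union_right _ (Finset.mem_image_of_mem _ hs))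
      · obtain ⟨t, ht, rfl⟩ := Finset.mem_image.mp hs
        rw [inv_inv]
        exact Finset.mem_union_left _ (Finset.mem_union_left _ ht)
    · rw [Finset.mem_singleton.mp hs, inv_one]
      exact Finset.mem_union_right _ (Finset.mem_singleton_self _)
  obtain ⟨S, hS⟩ : ∃ S : Finset G, S = S₀ ∪ S₀.image (fun s => s⁻¹) ∪ {1} := ⟨_, rfl⟩
  rw [← hS]
  have h1S : (1 : G) ∈ S := by
    rw [hS]; exact Finset.mem_union_right _ (Finset.mem_singleton_self _)
  have h0S : ∀ s ∈ S₀, s ∈ S := by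
    intro s hs
    rw [hS]; exact Finset.mem_union_left _ (Finset.mem_union_left _ hs)
  have hq : (0 : ℝ) < S.card := by exact_mod_cast Finset.card_pos.mpr ⟨1, h1S⟩
  refine ⟨max (1 - ε ^ 2 / (4 * (S.card : ℝ) ^ 2)) (1 / 2), lt_max_of_lt_right (by norm_num),
    max_lt ?_ (by norm_num), ?_⟩
  · have : 0 < ε ^ 2 / (4 * (S.card : ℝ) ^ 2) := by positivity
    linarith
  intro f hf
  obtain ⟨U, hU⟩ : ∃ U : Finset G, U = f.support ∪
    S.biUnion (fun s => (f.mapDomain (fun g => g * s)).support) := ⟨_, rfl⟩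
  have hUf : f.support ⊆ U := by rw [hU]; exact Finset.subset_union_left
  have hUs : ∀ s ∈ S, (f.mapDomain (fun g => g * s)).support ⊆ U := by
    intro s hs
    rw [hU]
    exact (Finset.subset_biUnion_of_mem (fun s => (f.mapDomain (fun g => g * s)).support) hs).trans
      Finset.subset_union_right
  have hN0 : 0 ≤ n2 f := by
    rw [n2_eq f U hUf]
    exact Finset.sum_nonneg fun x _ => sq_nonneg _
  have hNs : ∀ s ∈ S, ∑ x ∈ U, (f.mapDomain (fun g => g * s)) x ^ 2 = n2 f := by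
    intro s hs
    rw [← n2_eq _ U (hUs s hs), n2_md]
  have havg : ∀ x, avg S f x = (S.card : ℝ)⁻¹ * ∑ s ∈ S, f.mapDomain (fun g => g * s) x := by
    intro x
    rw [avg, Finsupp.smul_apply, smul_eq_mul, Finsupp.finsetSum_apply]
  have hUa : (avg S f).support ⊆ U := by
    intro x hx
    rw [Finsupp.mem_support_iff, havg] at hx
    by_contra hxU
    apply hx
    rw [Finset.sum_eq_zero, mul_zero]
    intro s hs
    by_contra hne
    exact hxU (hUs s hs (Finsupp.mem_support_iff.mpr hne))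
  have hmain : ∀ s₀ ∈ S, n2 (avg S f) ≤ n2 f -
      (∑ x ∈ U, (f.mapDomain (fun g => g * s₀) x - f x) ^ 2) / (S.card : ℝ) ^ 2 := by
    intro s₀ hs₀
    have h2 : ∀ x ∈ U, avg S f x ^ 2 ≤ ((S.card : ℝ)⁻¹) ^ 2 *
        (S.card * ∑ s ∈ S, (f.mapDomain (fun g => g * s)) x ^ 2 -
          (f.mapDomain (fun g => g * s₀) x - f x) ^ 2) := by
      intro x _
      rw [havg, mul_pow]
      refine mul_le_mul_of_nonneg_left ?_ (by positivity)
      have h3 := sq_sum_le S (fun s => f.mapDomain (fun g => g * s) x) h1S hs₀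
      have h4 : f.mapDomain (fun g => g * (1 : G)) x = f x := by
        rw [md_apply, inv_one, mul_one]
      simp only [h4] at h3
      exact h3
    rw [n2_eq _ U hUa]
    refine (Finset.sum_le_sum h2).trans (le_of_eq ?_)
    rw [← Finset.mul_sum, Finset.sum_sub_distrib, ← Finset.mul_sum, Finset.sum_comm,
      Finset.sum_congr rfl hNs, Finset.sum_const, nsmul_eq_mul]
    field_simp
  rcases hN0.eq_or_lt with hz | hpos
  · have h2 := hmain 1 h1S
    have h3 : 0 ≤ (∑ x ∈ U, (f.mapDomain (fun g => g * (1 : G)) x - f x) ^ 2) / (S.card : ℝ) ^ 2 :=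
      div_nonneg (Finset.sum_nonneg fun x _ => sq_nonneg _) (sq_nonneg _)
    rw [← hz, mul_zero]
    linarith
  -- the square of `f`
  obtain ⟨g, hg⟩ : ∃ g : G →₀ ℝ, ∀ x, g x = f x ^ 2 :=
    ⟨f.mapRange (fun r => r ^ 2) (by norm_num), fun x => by simp⟩
  have hgs : g.support ⊆ U := by
    intro x hx
    apply hUf
    rw [Finsupp.mem_support_iff] at hx ⊢
    intro h0
    apply hx
    rw [hg, h0]
    norm_num
  have hgsum : (g.sum fun _ r => r) = n2 f := by
    rw [Finsupp.sum_of_support_subset g hgs _ (fun _ _ => rfl), n2_eq f U hUf]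
    exact Finset.sum_congr rfl fun x _ => hg x
  obtain ⟨s, hs, hlt⟩ := hgap' g (fun x => by rw [hg]; exact sq_nonneg _) (by rw [hgsum]; exact hpos)
  rw [hgsum] at hlt
  have hsS := h0S s hs
  have hgd : (g.mapDomain (fun x => x * s) - g).support ⊆ U := by
    intro x hx
    rw [Finsupp.mem_support_iff, Finsupp.sub_apply, md_apply, hg, hg] at hx
    by_contra hxU
    apply hx
    have h2 : f x = 0 := by
      by_contra hne
      exact hxU (hUf (Finsupp.mem_support_iff.mpr hne))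
    have h3 : f (x * s⁻¹) = 0 := by
      by_contra hne
      apply hxU (hUs s hsS (Finsupp.mem_support_iff.mpr _))
      rw [md_apply]
      exact hne
    rw [h2, h3, sub_self]
  obtain ⟨Dd, hD⟩ : ∃ Dd : ℝ, Dd = ∑ x ∈ U, (f.mapDomain (fun g => g * s) x - f x) ^ 2 := ⟨_, rfl⟩
  have hl1 : l1 (g.mapDomain (fun x => x * s) - g) =
      ∑ x ∈ U, |f.mapDomain (fun g => g * s) x - f x| * (f.mapDomain (fun g => g * s) x + f x) := by
    rw [l1_eq _ U hgd]
    refine Finset.sum_congr rfl fun x _ => ?_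
    rw [Finsupp.sub_apply, md_apply, hg, hg, md_apply]
    have h2 : f (x * s⁻¹) ^ 2 - f x ^ 2 = (f (x * s⁻¹) - f x) * (f (x * s⁻¹) + f x) := by ring
    rw [h2, abs_mul, abs_of_nonneg (add_nonneg (hf _) (hf _))]
  have hcs := Finset.sum_mul_sq_le_sq_mul_sq U
    (fun x => |f.mapDomain (fun g => g * s) x - f x|) (fun x => f.mapDomain (fun g => g * s) x + f x)
  rw [← hl1] at hcs
  have h3 : ∑ x ∈ U, |f.mapDomain (fun g => g * s) x - f x| ^ 2 = Dd := by
    rw [hD]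
    exact Finset.sum_congr rfl fun x _ => sq_abs _
  have h4 : ∑ x ∈ U, (f.mapDomain (fun g => g * s) x + f x) ^ 2 ≤ 4 * n2 f := by
    have h5 : ∀ x ∈ U, (f.mapDomain (fun g => g * s) x + f x) ^ 2 ≤
        2 * f.mapDomain (fun g => g * s) x ^ 2 + 2 * f x ^ 2 := by
      intro x _
      nlinarith [sq_nonneg (f.mapDomain (fun g => g * s) x - f x)]
    refine (Finset.sum_le_sum h5).trans (le_of_eq ?_)
    rw [Finset.sum_add_distrib, ← Finset.mul_sum, ← Finset.mul_sum, hNs s hsS, ← n2_eq f U hUf]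
    ring
  rw [h3] at hcs
  have hD0 : 0 ≤ Dd := by
    rw [hD]
    exact Finset.sum_nonneg fun x _ => sq_nonneg _
  have h6 : (ε * n2 f) ^ 2 ≤ Dd * (4 * n2 f) := by
    have h7 : (ε * n2 f) ^ 2 ≤ l1 (g.mapDomain (fun x => x * s) - g) ^ 2 :=
      pow_le_pow_left₀ (by positivity) hlt.le 2
    exact h7.trans (hcs.trans (mul_le_mul_of_nonneg_left h4 hD0))
  have h8 : ε ^ 2 * n2 f ≤ 4 * Dd := by
    have h9 : n2 f * (ε ^ 2 * n2 f) ≤ n2 f * (4 * Dd) := by nlinarith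
    exact le_of_mul_le_mul_left h9 hpos
  have h10 := hmain s hsS
  rw [← hD] at h10
  have h11 : ε ^ 2 / (4 * (S.card : ℝ) ^ 2) * n2 f ≤ Dd / (S.card : ℝ) ^ 2 := by
    rw [div_mul_eq_mul_div, div_le_div_iff₀ (by positivity) (by positivity)]
    nlinarith [sq_nonneg (S.card : ℝ), mul_le_mul_of_nonneg_right h8 (sq_nonneg (S.card : ℝ))]
  calc n2 (avg S f) ≤ n2 f - Dd / (S.card : ℝ) ^ 2 := h10
    _ ≤ (1 - ε ^ 2 / (4 * (S.card : ℝ) ^ 2)) * n2 f := by linarith
    _ ≤ max (1 - ε ^ 2 / (4 * (S.card : ℝ) ^ 2)) (1 / 2) * n2 f :=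
        mul_le_mul_of_nonneg_right (le_max_left _ _) hN0

end TitsLF
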