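import Pool.Agent.Helper35.TT.Seg

/-!
TT-05 Gen. Finite generation and growth of orbits.

PROOF. Fix `o` and `D` from `coc o`; every point is within `D` of the orbit of `o` (`dist (g • x) o = dist x (g⁻¹ • o)`). Let `S = {g | dist (g • o) o ≤ 2 D + 1}`, finite (`fin`), contains `1`,
closed under inverses (`dist (g⁻¹ • o) o = dist o (g • o)`).
Chain: let `g ∈ G`, `L = dist o (g • o) ≤ n` (`n : ℕ`). For `0 ≤ i ≤ n` let `z_i = seg o (g • o) (i / n)` (if `n ≥ 1`), choose `g_i` with `dist (g_i • o) z_i ≤ D`, `g_0 = 1`, `g_n = g`.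
Then `dist (g_i • o) (g_(i+1) • o) ≤ 2 D + L / n ≤ 2 D + 1`, so `g_i⁻¹ g_(i+1) ∈ S` and `g` is a product of `n` elements of `S` (if `n = 0` then `g • o = o` and `g ∈ S`; as `1 ∈ S` one can always say: a product of
`n + 1` elements of `S`). So `closure S = ⊤` (`exists_gen`), and at most `|S|^(n+1)` elements `g` satisfy `dist (g • o) o ≤ n`: `orbit_growth` with `n = ⌈R⌉₊ ≤ R + 1`,
`C = |S|^2`, `V = log |S| + 1`.
-/

set_option autoImplicit false

namespace TitsLF

universe u v

variable {G : Type u} {X : Type v} [Group G] [MetricSpace X] [MulAction G X]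

open Pointwise in
private theorem gen_chain (h : Act G X) (o : X) : ∃ S : Finset G, 1 ∈ S ∧ (∀ s ∈ S, s⁻¹ ∈ S) ∧
    ∀ k : ℕ, ∃ T : Finset G, T.card ≤ S.card ^ (k + 1) ∧ (∀ g ∈ T, g ∈ Subgroup.closure (S : Set G)) ∧
      ∀ g : G, dist (g • o) o ≤ k → g ∈ T := by
  classical
  have := h.cat
  obtain ⟨D, hD, hcoc⟩ := h.coc o
  have hcoc' : ∀ x : X, ∃ g : G, dist (g • o) x ≤ D := by
    intro x
    obtain ⟨g, hg⟩ := hcoc x
    refine ⟨g⁻¹, ?_⟩
    rw [← h.iso g, smul_inv_smul, dist_comm]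
    exact hg
  set S : Finset G := (h.fin o (2 * D + 1)).toFinset with hSdef
  have hmem : ∀ g : G, g ∈ S ↔ dist (g • o) o ≤ 2 * D + 1 := by
    intro g
    rw [hSdef, Set.Finite.mem_toFinset]
    rfl
  clear_value S
  have key : ∀ n : ℕ, ∀ z : X, dist o z ≤ n → ∀ g : G, dist (g • o) z ≤ D → g ∈ S ^ (n + 1) := by
    intro n
    induction n with
    | zero =>
      intro z hz g hg
      rw [zero_add, pow_one, hmem]
      have h1 : dist o z = 0 := le_antisymm (by exact_mod_cast hz) dist_nonneg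
      have h2 := dist_triangle (g • o) z o
      rw [dist_comm z o] at h2
      linarith
    | succ n ih =>
      intro z hz g hg
      have hn : (0 : ℝ) < n + 1 := by positivity
      have ht : (n : ℝ) / (n + 1) ∈ Set.Icc (0 : ℝ) 1 := by
        constructor
        · positivity
        · rw [div_le_one hn]
          linarith
      have hz' : dist o z ≤ n + 1 := by exact_mod_cast hz
      have h1 : dist o (seg o z (n / (n + 1))) ≤ n := by
        rw [dist_left_seg o z ht, div_mul_eq_mul_div, div_le_iff₀ hn]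
        exact mul_le_mul_of_nonneg_left hz' (Nat.cast_nonneg n)
      have h2 : dist z (seg o z (n / (n + 1))) ≤ 1 := by
        rw [dist_right_seg o z ht]
        have h3 : 1 - (n : ℝ) / (n + 1) = 1 / (n + 1) := by
          field_simp
          ring
        rw [h3, div_mul_eq_mul_div, one_mul, div_le_one hn]
        exact hz'
      obtain ⟨g', hg'⟩ := hcoc' (seg o z (n / (n + 1)))
      have h3 := ih _ h1 g' hg'
      have h4 : g'⁻¹ * g ∈ S := by
        rw [hmem, ← h.iso g', mul_smul, smul_inv_smul]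
        have h5 := dist_triangle4 (g • o) z (seg o z (n / (n + 1))) (g' • o)
        rw [dist_comm (seg o z (n / (n + 1))) (g' • o)] at h5
        linarith
      rw [pow_succ, show g = g' * (g'⁻¹ * g) by group]
      exact Finset.mul_mem_mul h3 h4
  refine ⟨S, ?_, ?_, fun k => ⟨S ^ (k + 1), Finset.card_pow_le, ?_, ?_⟩⟩
  · rw [hmem, one_smul, dist_self]
    linarith
  · intro s hs
    rw [hmem] at hs ⊢
    rw [← h.iso s, smul_inv_smul, dist_comm]
    exact hs
  · have hcl : ∀ j : ℕ, ∀ g ∈ S ^ j, g ∈ Subgroup.closure (S : Set G) := by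
      intro j
      induction j with
      | zero =>
        intro g hg
        rw [pow_zero, Finset.mem_one] at hg
        rw [hg]
        exact one_mem _
      | succ j ih =>
        intro g hg
        rw [pow_succ, Finset.mem_mul] at hg
        obtain ⟨a, ha, b, hb, rfl⟩ := hg
        exact mul_mem (ih a ha) (Subgroup.subset_closure hb)
    exact hcl (k + 1)
  · intro g hg
    refine key k (g • o) ?_ g ?_
    · rw [dist_comm]
      exact hg
    · rw [dist_self]
      exact hD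

theorem exists_gen (h : Act G X) :
    ∃ S : Finset G, 1 ∈ S ∧ (∀ s ∈ S, s⁻¹ ∈ S) ∧ Subgroup.closure (S : Set G) = ⊤ := by
  obtain ⟨o⟩ := h.ne
  obtain ⟨S, h1, h2, h3⟩ := gen_chain h o
  refine ⟨S, h1, h2, ?_⟩
  rw [eq_top_iff]
  rintro g -
  obtain ⟨k, hk⟩ := exists_nat_ge (dist (g • o) o)
  obtain ⟨T, -, hT, hT'⟩ := h3 k
  exact hT g (hT' g hk)

theorem orbit_growth (h : Act G X) (o : X) :
    ∃ C V : ℝ, 0 < C ∧ 0 < V ∧ ∀ R : ℝ, 0 ≤ R → ∀ T : Finset G, (∀ g ∈ T, dist (g • o) o ≤ R) →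
      (T.card : ℝ) ≤ C * Real.exp (V * R) := by
  obtain ⟨S, h1, -, h3⟩ := gen_chain h o
  have hq : (1 : ℝ) ≤ S.card := by
    exact_mod_cast Finset.card_pos.2 ⟨1, h1⟩
  have hq0 : (0 : ℝ) < S.card := by linarith
  have hlog : 0 ≤ Real.log S.card := Real.log_nonneg hq
  refine ⟨(S.card : ℝ) ^ 2, Real.log S.card + 1, by positivity, by linarith, fun R hR T hT => ?_⟩
  obtain ⟨U, hU, -, hU'⟩ := h3 ⌈R⌉₊
  have hsub : T ⊆ U := fun g hg => hU' g ((hT g hg).trans (Nat.le_ceil R))
  have h4 : (T.card : ℝ) ≤ (S.card : ℝ) ^ (⌈R⌉₊ + 1) := by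
    exact_mod_cast (Finset.card_le_card hsub).trans hU
  refine h4.trans ?_
  have h5 : ((⌈R⌉₊ : ℕ) : ℝ) < R + 1 := Nat.ceil_lt_add_one hR
  rw [← Real.rpow_natCast]
  have h6 : (S.card : ℝ) ^ ((⌈R⌉₊ + 1 : ℕ) : ℝ) ≤ (S.card : ℝ) ^ (2 + R) := by
    refine Real.rpow_le_rpow_of_exponent_le hq ?_
    push_cast
    linarith
  refine h6.trans ?_
  rw [Real.rpow_add hq0, Real.rpow_two]
  refine mul_le_mul_of_nonneg_left ?_ (by positivity)
  rw [Real.rpow_def_of_pos hq0]
  refine Real.exp_le_exp.2 ?_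
  exact mul_le_mul_of_nonneg_right (by linarith) hR

end TitsLF
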