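import Pool.Agent.Helper35.TT.Select
import Pool.Agent.Helper35.TT.Decay
import Pool.Agent.Helper35.TT.Chain
import Pool.Agent.Helper35.TT.Gap
import Pool.Agent.Helper35.TT.Gen

/-!
TT-15 PartOne. Groups acting geometrically on a CAT(0) space which are not amenable are locally free.

PROOF. `gap`, `orbit_growth`, `small_dist` give `S`, `c`. Let `W` be given, `k` a bound of the lengths of the words of `W`, `κ` with `2 k κ < c` (for example `κ = c / (2 k + 1)`), `select` gives `m ≥ 1` and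
`x`; `words_ne` with `c m`, `κ m` for `f = FreeGroup.lift ![x 0 * (x 1)⁻¹, x 2 * (x 3)⁻¹]`. (`w ∈ W` is `≠ 1` as `1 ∉ W`.)
-/

set_option autoImplicit false

namespace TitsLF

universe u v

theorem locFree_of_not_reiter {G : Type u} {X : Type v} [Group G] [MetricSpace X] [MulAction G X]
    (h : Act G X) (hR : ¬ Reiter G) : LocFree G := by
  haveI := h.cat
  obtain ⟨o⟩ := h.ne
  obtain ⟨S, hS1, hSi, ρ, hρ0, hρ1, hgap⟩ := gap hR
  obtain ⟨c, hc, hsmall⟩ := small_dist o (h.fin o) (orbit_growth h o) hρ0 hρ1 hgap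
  intro W hW
  obtain ⟨k, hk⟩ : ∃ k : ℕ, ∀ w ∈ W, w.toWord.length ≤ k :=
    ⟨W.sup fun w => w.toWord.length, fun w hw => Finset.le_sup (f := fun w => w.toWord.length) hw⟩
  have hκ : 0 < c / (2 * k + 1) := by positivity
  obtain ⟨m, x, hm, h1, h2, h3, h4⟩ := select h.iso o hS1 hSi hc hsmall hκ
  refine ⟨FreeGroup.lift ![x 0 * (x 1)⁻¹, x 2 * (x 3)⁻¹], fun w hw => ?_⟩
  have hm' : (0 : ℝ) < m := by exact_mod_cast hm
  refine words_ne h.iso o x k (c := c * m) (δ := c / (2 * k + 1) * m) (by positivity) ?_ h1 h2 h3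
    h4 w (fun h => hW (h ▸ hw)) (hk w hw)
  have h5 : 2 * (k : ℝ) * (c / (2 * k + 1) * m) = c * m * (2 * k / (2 * k + 1)) := by ring
  rw [h5]
  have h6 : (2 * (k : ℝ) / (2 * k + 1)) < 1 := by
    rw [div_lt_one (by positivity)]
    linarith
  have h7 : 0 < c * m := by positivity
  nlinarith

end TitsLF
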