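import Pool.Agent.Helper35.TT.Bus
import Pool.Agent.Helper35.TT.Gen
import Pool.Agent.Helper35.TT.FixFin

/-!
TT-24 Center. If a function with `IsBus` is invariant up to constants then the centre is infinite.

PROOF of `center_infinite`. Let `S` be a finite generating set (`exists_gen`), fix `o`, `D` from `coc o`, and let `r ≥ dist o (s • o)` for all `s ∈ S`. For `n : ℕ` put `x n = fl b n o` and choose `a n ∈ G` with
`dist (a n • x n) o ≤ D`. For `s ∈ S`: `dist (x n) (s • x n) = dist (fl b n o) (fl b n (s • o)) ≤ dist o (s • o) ≤ r` (`fl_qinv`, `fl_nonexp`), so the conjugate `c = a n * s * (a n)⁻¹` satisfies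
`dist (a n • x n) (c • (a n • x n)) ≤ r` and so `dist (c • o) o ≤ 2 D + r`. So the map `n ↦ (s ↦ a n * s * (a n)⁻¹)` has values in the finite set of functions from `S` to the finite set
`{g | dist (g • o) o ≤ 2 D + r}`; by the infinite pigeonhole principle (`Finite.exists_infinite_fiber` or `Set.infinite...`) there is an infinite set `I ⊆ ℕ` on which it is constant. For `m, n ∈ I`: `(a m)⁻¹ * a n` commutes with all `s ∈ S`, hence it is
in the centre (`closure S = ⊤`, e.g. `Subgroup.centralizer` of `S` is everything). Fix `m₀ ∈ I`. The elements `z m = (a m)⁻¹ * a m₀`, `m ∈ I`, are infinitely many: `z m • x m₀` is within `2 D` of `x m`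
(`dist (z m • x m₀) (x m) = dist (a m₀ • x m₀) (a m • x m) ≤ 2 D`), and `dist (x m) (x n) = |m - n|`; if `z m = z n` then `|m - n| ≤ 4 D`; so the map `m ↦ z m` has finite fibres on the infinite set `I`.
`exists_central`: `exists_inf_order` for `Z = center G`.
-/

set_option autoImplicit false

namespace TitsLF

universe u v

variable {G : Type u} {X : Type v} [Group G] [MetricSpace X] [MulAction G X]

theorem center_infinite (h : Act G X) {b : X → ℝ} (hb : IsBus b) (hq : QInv G b) :
    Infinite (Subgroup.center G) := by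
  classical
  haveI := h.cat
  obtain ⟨o⟩ := h.ne
  obtain ⟨D, hD, hcoc⟩ := h.coc o
  obtain ⟨S, -, -, hS⟩ := exists_gen h
  set r : ℝ := ∑ s ∈ S, dist (s • o) o with hrdef
  have hr : ∀ s ∈ S, dist (s • o) o ≤ r := fun s hs =>
    Finset.single_le_sum (f := fun s : G => dist (s • o) o) (fun _ _ => dist_nonneg) hs
  choose a ha using fun n : ℕ => hcoc (fl b n o)
  set x : ℕ → X := fun n => fl b n o with hx
  have ha' : ∀ n, dist (a n • x n) o ≤ D := ha
  have hxx : ∀ m n : ℕ, dist (x m) (x n) = |(m : ℝ) - n| := fun m n =>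
    dist_fl_fl hb (Nat.cast_nonneg m) (Nat.cast_nonneg n) o
  have hsx : ∀ (n : ℕ), ∀ s ∈ S, dist (s • x n) (x n) ≤ r := by
    intro n s hs
    have h1 : s • x n = fl b n (s • o) := (fl_qinv h.iso hb hq s (Nat.cast_nonneg n) o).symm
    rw [h1]
    exact (fl_nonexp hb (Nat.cast_nonneg n) _ _).trans (hr s hs)
  set T : Set G := {g : G | dist (g • o) o ≤ 2 * D + r} with hT
  haveI : Finite T := h.fin o (2 * D + r)
  have hmem : ∀ (n : ℕ), ∀ s ∈ S, a n * s * (a n)⁻¹ ∈ T := by
    intro n s hs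
    change dist ((a n * s * (a n)⁻¹) • o) o ≤ 2 * D + r
    have h1 := dist_triangle4 ((a n * s * (a n)⁻¹) • o) ((a n * s * (a n)⁻¹) • (a n • x n))
      (a n • x n) o
    have h2 : dist ((a n * s * (a n)⁻¹) • o) ((a n * s * (a n)⁻¹) • (a n • x n)) ≤ D := by
      rw [h.iso, dist_comm]
      exact ha' n
    have h3 : dist ((a n * s * (a n)⁻¹) • (a n • x n)) (a n • x n) ≤ r := by
      have h4 : (a n * s * (a n)⁻¹) • (a n • x n) = a n • (s • x n) := by
        rw [mul_smul, mul_smul, inv_smul_smul]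
      rw [h4, h.iso]
      exact hsx n s hs
    have h5 := ha' n
    linarith
  let F : ℕ → ({s // s ∈ S} → T) := fun n s => ⟨a n * s.1 * (a n)⁻¹, hmem n s.1 s.2⟩
  obtain ⟨y, hy⟩ := Finite.exists_infinite_fiber F
  obtain ⟨m₀⟩ : Nonempty (F ⁻¹' {y}) := inferInstance
  have hF : ∀ m : F ⁻¹' {y}, ∀ s ∈ S, a m * s * (a m)⁻¹ = a m₀ * s * (a m₀)⁻¹ := by
    intro m s hs
    have h1 : F m = F m₀ := by
      have e1 : F m = y := m.2
      have e2 : F m₀ = y := m₀.2
      rw [e1, e2]
    exact congrArg (fun t : T => t.1) (congrFun h1 ⟨s, hs⟩)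
  have hcen : ∀ m : F ⁻¹' {y}, (a m)⁻¹ * a m₀ ∈ Subgroup.center G := by
    intro m
    rw [Subgroup.mem_center_iff]
    intro g
    have hg : g ∈ Subgroup.closure (S : Set G) := by
      rw [hS]
      exact Subgroup.mem_top g
    induction hg using Subgroup.closure_induction with
    | mem s hs =>
      have h1 := hF m s hs
      calc s * ((a m)⁻¹ * a m₀) = (a m)⁻¹ * (a m * s * (a m)⁻¹) * a m₀ := by group
        _ = (a m)⁻¹ * (a m₀ * s * (a m₀)⁻¹) * a m₀ := by rw [h1]
        _ = (a m)⁻¹ * a m₀ * s := by group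
    | one => rw [one_mul, mul_one]
    | mul u v _ _ hu hv => rw [mul_assoc, hv, ← mul_assoc, hu, mul_assoc]
    | inv u _ hu =>
      have h2 : Commute u ((a m)⁻¹ * a m₀) := hu
      exact h2.inv_left
  by_contra hcon
  rw [not_infinite_iff_finite] at hcon
  let Z : F ⁻¹' {y} → Subgroup.center G := fun m => ⟨(a m)⁻¹ * a m₀, hcen m⟩
  obtain ⟨z, hz⟩ := Finite.exists_infinite_fiber Z
  have hnear : ∀ m : Z ⁻¹' {z}, dist ((z : G) • x m₀) (x m.1) ≤ 2 * D := by
    intro m
    have e1 : (z : G) = (a m.1)⁻¹ * a m₀ := by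
      have e2 : Z m.1 = z := m.2
      exact (congrArg (fun t : Subgroup.center G => (t : G)) e2).symm
    rw [e1, mul_smul, ← h.iso (a m.1), smul_inv_smul]
    have e3 := dist_triangle (a m₀ • x m₀) o (a m.1 • x m.1)
    have e4 := ha' m₀
    have e5 := ha' m.1
    rw [dist_comm] at e5
    linarith
  -- the fibre is bounded
  obtain ⟨m₁⟩ : Nonempty (Z ⁻¹' {z}) := inferInstance
  obtain ⟨N, hN⟩ := exists_nat_gt (4 * D + (m₁.1 : ℕ))
  have hbd : ∀ m : Z ⁻¹' {z}, ((m.1 : ℕ)) < N := by
    intro m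
    have e1 := hnear m
    have e2 := hnear m₁
    have e3 := dist_triangle_left (x m.1) (x m₁.1) ((z : G) • x m₀)
    rw [hxx] at e3
    have e4 := le_abs_self (((m.1 : ℕ) : ℝ) - (m₁.1 : ℕ))
    have e5 : (((m.1 : ℕ)) : ℝ) < N := by linarith
    exact_mod_cast e5
  have hfin : Finite (Z ⁻¹' {z}) :=
    Finite.of_injective (fun m : Z ⁻¹' {z} => (⟨(m.1 : ℕ), hbd m⟩ : Fin N)) fun m m' hmm =>
      Subtype.ext (Subtype.ext (congrArg (fun t : Fin N => t.1) hmm))
  exact not_finite (Z ⁻¹' {z})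

theorem exists_central (h : Act G X) {b : X → ℝ} (hb : IsBus b) (hq : QInv G b) :
    ∃ z ∈ Subgroup.center G, ∀ n : ℕ, 0 < n → z ^ n ≠ 1 :=
  exists_inf_order h (Subgroup.center G) (center_infinite h hb hq) fun a _ _ hb' =>
    Subgroup.mem_center_iff.1 hb' a

end TitsLF
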