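import Pool.Agent.Helper35.TT.Aff

/-!
TT-27 RFlow. The flow for negative times.

PROOF. For `s : ℝ` and `x` put `T s x = (z^n)⁻¹ • fl b (s + n τ) x` with `n = ⌈|s|/τ⌉₊` (so `s + n τ ≥ 0`). Since `fl b (n τ) x = z^n • x` (`fl_add`, induction) and `fl b t (g • x) = g • fl b t x` (`fl_qinv`), for every `n' : ℕ` with
`s + n' τ ≥ 0` one has `T s x = (z^n')⁻¹ • fl b (s + n' τ) x` (compare `n` and `n + 1`: `fl b (s + (n+1) τ) x = fl b τ (fl b (s + n τ) x) = z • fl b (s + n τ) x`). All statements follow from this for large `n'`: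
`T_add`: choose `n₁, n₂` large, `fl b (s + n₁ τ) (fl b (t + n₂ τ) x)`, commute with the action (`z` commutes with everything is not needed: `fl_qinv`). `b (T s x) = b x - s`: `b (z^n • y) = b y - n τ`. Isometry: `aff_iso`.
`dist y (T s x)^2`: from `aff_eq` for `fl b (s + n τ)` and the points `z^n • y`, `x`: `dist y (T s x) = dist (z^n • y) (fl b (s + n τ) x)`, and by `aff_eq` for `fl b (n τ) y = z^n • y`:
`dist (z^n y) x ^2 = dist x y^2 + 2 n τ (b x - b y) + (n τ)^2`, `b (z^n y) = b y - n τ`; compute. `dist x (T s x) = |s|` follows with `y = x`. Equivariance: `fl_qinv` and `z` central.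
-/

set_option autoImplicit false

namespace TitsLF

universe u v

variable {G : Type u} {X : Type v} [Group G] [MetricSpace X] [MulAction G X]

private theorem fl_mul [CAT X] {z : G} {τ : ℝ} {b : X → ℝ} (hτ : 0 < τ) (hb : IsBus b)
    (hfl : ∀ x, fl b τ x = z • x) (n : ℕ) (x : X) : fl b (n * τ) x = z ^ n • x := by
  induction n with
  | zero =>
    rw [Nat.cast_zero, zero_mul, fl_zero hb, pow_zero, one_smul]
  | succ n ih =>
    have h1 := fl_add hb hτ.le (mul_nonneg (Nat.cast_nonneg n) hτ.le) x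
    rw [ih, hfl, smul_smul, ← pow_succ'] at h1
    rw [h1]
    congr 1
    push_cast
    ring

private theorem fl_shift [CAT X] {z : G} {τ : ℝ} {b : X → ℝ} (hτ : 0 < τ) (hb : IsBus b)
    (hfl : ∀ x, fl b τ x = z • x) (n : ℕ) {t : ℝ} (ht : 0 ≤ t) (x : X) :
    fl b (t + n * τ) x = z ^ n • fl b t x := by
  rw [← fl_mul hτ hb hfl n, fl_add hb (mul_nonneg (Nat.cast_nonneg n) hτ.le) ht, add_comm]

private theorem fl_indep [CAT X] {z : G} {τ : ℝ} {b : X → ℝ} (hτ : 0 < τ) (hb : IsBus b)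
    (hfl : ∀ x, fl b τ x = z • x) {n m : ℕ} (hnm : n ≤ m) {s : ℝ} (hn : 0 ≤ s + n * τ) (x : X) :
    (z ^ m)⁻¹ • fl b (s + m * τ) x = (z ^ n)⁻¹ • fl b (s + n * τ) x := by
  obtain ⟨k, rfl⟩ := Nat.exists_eq_add_of_le hnm
  have h1 : s + ((n + k : ℕ) : ℝ) * τ = s + n * τ + k * τ := by
    push_cast
    ring
  rw [h1, fl_shift hτ hb hfl k hn, smul_smul]
  congr 1
  rw [pow_add, mul_inv_rev, mul_assoc]
  have h2 : Commute ((z ^ n)⁻¹) (z ^ k) := (Commute.pow_pow_self z n k).inv_left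
  rw [h2.eq, ← mul_assoc, inv_mul_cancel, one_mul]

theorem exists_rflow [CAT X] (hiso : ∀ (g : G) (x y : X), dist (g • x) (g • y) = dist x y) {z : G}
    (hz : z ∈ Subgroup.center G) {τ : ℝ} {b : X → ℝ} (hτ : 0 < τ) (hb : IsBus b) (ha : MAffine b)
    (hq : QInv G b) (hfl : ∀ x, fl b τ x = z • x) :
    ∃ T : ℝ → X → X, (∀ x, T 0 x = x) ∧ (∀ s t x, T s (T t x) = T (s + t) x) ∧
      (∀ s x, b (T s x) = b x - s) ∧ (∀ s x y, dist (T s x) (T s y) = dist x y) ∧
      (∀ s x y, dist y (T s x) ^ 2 = dist y x ^ 2 + 2 * s * (b y - b x) + s ^ 2) ∧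
      (∀ s (g : G) x, T s (g • x) = g • T s x) ∧ (∀ x, T τ x = z • x) := by
  -- an index for every time
  have hex : ∀ s : ℝ, ∃ n : ℕ, 0 ≤ s + n * τ := by
    intro s
    obtain ⟨n, hn⟩ := exists_nat_ge (-s / τ)
    refine ⟨n, ?_⟩
    rw [div_le_iff₀ hτ] at hn
    linarith
  choose N hN using hex
  have hT : ∀ (s : ℝ) (x : X) (n : ℕ), 0 ≤ s + n * τ →
      (z ^ N s)⁻¹ • fl b (s + N s * τ) x = (z ^ n)⁻¹ • fl b (s + n * τ) x := by
    intro s x n hn
    rcases le_total (N s) n with h | h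
    · exact (fl_indep hτ hb hfl h (hN s) x).symm
    · exact fl_indep hτ hb hfl h hn x
  have hval : ∀ (n : ℕ) (y : X), b (z ^ n • y) = b y - n * τ := by
    intro n y
    rw [← fl_mul hτ hb hfl n, fl_val hb (mul_nonneg (Nat.cast_nonneg n) hτ.le)]
  have hval' : ∀ (n : ℕ) (y : X), b ((z ^ n)⁻¹ • y) = b y + n * τ := by
    intro n y
    have h1 := hval n ((z ^ n)⁻¹ • y)
    rw [smul_inv_smul] at h1
    linarith
  have hcen : ∀ (n : ℕ) (g : G), Commute ((z ^ n)⁻¹) g := by
    intro n g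
    have h1 : Commute z g := (Subgroup.mem_center_iff.1 hz g).symm
    exact (h1.pow_left n).inv_left
  refine ⟨fun s x => (z ^ N s)⁻¹ • fl b (s + N s * τ) x, fun x => ?_, fun s t x => ?_,
    fun s x => ?_, fun s x y => ?_, fun s x y => ?_, fun s g x => ?_, fun x => ?_⟩
  · have h1 := hT 0 x 0 (by simp)
    simp only [h1, Nat.cast_zero, zero_mul, add_zero, pow_zero, inv_one, one_smul, fl_zero hb]
  · have h0 : 0 ≤ (s + t) + ((N s + N t : ℕ) : ℝ) * τ := by
      have h1 := hN s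
      have h2 := hN t
      push_cast
      linarith
    simp only [hT (s + t) x (N s + N t) h0]
    rw [fl_qinv hiso hb hq _ (hN s), smul_smul, fl_add hb (hN s) (hN t), pow_add, mul_inv_rev]
    congr 1
    · exact (hcen (N s) _).eq
    · congr 1
      push_cast
      ring
  · simp only [hval', fl_val hb (hN s)]
    ring
  · simp only [hiso, aff_iso hb ha (hN s)]
  · have h1 : dist y ((z ^ N s)⁻¹ • fl b (s + N s * τ) x) =
        dist (z ^ N s • y) (fl b (s + N s * τ) x) := by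
      rw [← hiso (z ^ N s) y, smul_inv_smul]
    simp only [h1]
    rw [aff_eq hb ha (hN s), hval, dist_comm (z ^ N s • y) x, ← fl_mul hτ hb hfl (N s),
      aff_eq hb ha (mul_nonneg (Nat.cast_nonneg (N s)) hτ.le), dist_comm x y]
    ring
  · simp only [fl_qinv hiso hb hq g (hN s), smul_smul]
    rw [(hcen (N s) g).eq]
  · have h1 := hT τ x 0 (by simp [hτ.le])
    simp only [h1, Nat.cast_zero, zero_mul, add_zero, pow_zero, inv_one, one_smul, hfl]

end TitsLF
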