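import Pool.Agent.Helper35.TT.Mid

/-!
TT-02 Seg. Geodesic segments with constant speed parametrisation on `[0, 1]`, general CN inequality.

PROOFS.
* `convex_real`: midpoint convex and continuous on `[a, b]` implies the inequality of convexity. For example: the set of `t ∈ [0,1]` with
  `f ((1-t) a + t b) ≤ (1-t) f a + t f b` is closed (continuity), contains `0, 1` and is closed under midpoints, so it contains the dyadic
  numbers and is everything (for instance: consider the maximum `M` of the continuous function `φ t = f ((1-t) a + t b) - (1-t) f a - t f b` on `[0,1]`; `φ` is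
  midpoint convex, `φ 0 = φ 1 = 0`; if `M > 0` take the smallest (or any extreme) `t` with `φ t = M`: `t ∈ (0,1)`; with `r = min t (1-t)`, `M = φ t ≤ (φ (t-r) + φ (t+r))/2`, one of `t-r`, `t+r` is
  `0` or `1` where `φ = 0`, so `M ≤ M/2`, contradiction).
* `seg x y t = γ (t * dist x y)`, `γ` the geodesic chosen in `CAT.geod`.
* `dist_seg`: clear. `seg_isMid`: `dist_seg`. `seg_continuousOn`: Lipschitz.
* `cn_seg`: `φ s = dist p (seg x y s)^2 - s^2 D^2`, `D = dist x y`, is continuous on `[0,1]` and midpoint convex by CN for `seg x y s`, `seg x y t` (their distance is `|s-t| D`);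
  `convex_real` on `[0,1]`.
* `seg_unique`: `cn_seg` with `p = z`: `dist z (seg x y t)^2 ≤ (1-t) t^2 D^2 + t (1-t)^2 D^2 - t(1-t) D^2 = 0`.
* `MConvex.on_seg`, `MAffine.on_seg`: `convex_real` for `f ∘ seg x y` (for affine also for `-f`).
* `MClosed.on_seg`: the set of the `t ∈ [0,1]` with `seg x y t ∈ C` is closed, contains `0`, `1` and is midpoint closed. (Or: `t ↦ infDist (seg x y t) C` - not needed: dyadic approximation:
  prove by induction on `n` that `seg x y (k/2^n) ∈ C` for `k ≤ 2^n` and use density; or a maximal gap argument: if `t₀ ∉ A` (`A` closed), take the largest `a ∈ A`, `a < t₀`, and the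
  smallest `b ∈ A`, `b > t₀`; `(a+b)/2 ∈ A` contradicts.)
* `seg_lip`: `φ t = dist (seg x y t) (seg x' y' t)` is continuous and midpoint convex by `mid_lip2`, `eq_mid`.
-/

set_option autoImplicit false

namespace TitsLF

universe u v

private theorem convex_aux {φ : ℝ → ℝ} (hf : ContinuousOn φ (Set.Icc (0:ℝ) 1)) (h0 : φ 0 ≤ 0)
    (h1 : φ 1 ≤ 0)
    (hm : ∀ s ∈ Set.Icc (0:ℝ) 1, ∀ t ∈ Set.Icc (0:ℝ) 1, φ ((s + t) / 2) ≤ (φ s + φ t) / 2)
    {t : ℝ} (ht : t ∈ Set.Icc (0:ℝ) 1) : φ t ≤ 0 := by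
  obtain ⟨t₀, ht₀, hmax⟩ := isCompact_Icc.exists_isMaxOn (Set.nonempty_Icc.2 zero_le_one) hf
  have hmax' : ∀ s ∈ Set.Icc (0:ℝ) 1, φ s ≤ φ t₀ := fun s hs => hmax hs
  refine (hmax' t ht).trans ?_
  rcases le_total t₀ (1 / 2) with h | h
  · have h2 := hm 0 (by constructor <;> norm_num) (2 * t₀) ⟨by linarith [ht₀.1], by linarith⟩
    have h3 := hmax' (2 * t₀) ⟨by linarith [ht₀.1], by linarith⟩
    have h4 : (0 + 2 * t₀) / 2 = t₀ := by ring
    rw [h4] at h2
    linarith
  · have h2 := hm 1 (by constructor <;> norm_num) (2 * t₀ - 1) ⟨by linarith, by linarith [ht₀.2]⟩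
    have h3 := hmax' (2 * t₀ - 1) ⟨by linarith, by linarith [ht₀.2]⟩
    have h4 : (1 + (2 * t₀ - 1)) / 2 = t₀ := by ring
    rw [h4] at h2
    linarith

theorem convex_real {f : ℝ → ℝ} {a b : ℝ} (hab : a ≤ b) (hf : ContinuousOn f (Set.Icc a b))
    (hm : ∀ s ∈ Set.Icc a b, ∀ t ∈ Set.Icc a b, f ((s + t) / 2) ≤ (f s + f t) / 2)
    {t : ℝ} (ht : t ∈ Set.Icc (0:ℝ) 1) : f ((1 - t) * a + t * b) ≤ (1 - t) * f a + t * f b := by
  have hmem : ∀ s ∈ Set.Icc (0:ℝ) 1, (1 - s) * a + s * b ∈ Set.Icc a b := by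
    rintro s ⟨h0, h1⟩
    constructor <;> nlinarith
  have h := convex_aux (φ := fun t => f ((1 - t) * a + t * b) - ((1 - t) * f a + t * f b))
    ?_ ?_ ?_ ?_ ht
  · linarith
  · refine ContinuousOn.sub (hf.comp (by fun_prop) hmem) (by fun_prop)
  · simp
  · simp
  · intro s hs t ht
    have h1 := hm _ (hmem s hs) _ (hmem t ht)
    have h2 : ((1 - s) * a + s * b + ((1 - t) * a + t * b)) / 2
        = (1 - (s + t) / 2) * a + (s + t) / 2 * b := by ring
    rw [h2] at h1
    linarith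

variable {X : Type v} [MetricSpace X] [CAT X]

/-- The point at parameter `t ∈ [0,1]` of the segment from `x` to `y`. -/
noncomputable def seg (x y : X) (t : ℝ) : X := (CAT.geod x y).choose (t * dist x y)

theorem seg_zero (x y : X) : seg x y 0 = x := by
  unfold seg
  rw [zero_mul]
  exact (CAT.geod x y).choose_spec.1

theorem seg_one (x y : X) : seg x y 1 = y := by
  unfold seg
  rw [one_mul]
  exact (CAT.geod x y).choose_spec.2.1

theorem dist_seg (x y : X) {s t : ℝ} (hs : s ∈ Set.Icc (0:ℝ) 1) (ht : t ∈ Set.Icc (0:ℝ) 1) :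
    dist (seg x y s) (seg x y t) = |s - t| * dist x y := by
  have hmem : ∀ s ∈ Set.Icc (0:ℝ) 1, s * dist x y ∈ Set.Icc (0:ℝ) (dist x y) := by
    rintro s ⟨h0, h1⟩
    have := dist_nonneg (x := x) (y := y)
    constructor <;> nlinarith
  unfold seg
  rw [(CAT.geod x y).choose_spec.2.2 _ (hmem s hs) _ (hmem t ht), ← sub_mul, abs_mul,
    abs_of_nonneg (dist_nonneg (x := x) (y := y))]

private theorem zero_mem' : (0:ℝ) ∈ Set.Icc (0:ℝ) 1 := by constructor <;> norm_num

private theorem one_mem' : (1:ℝ) ∈ Set.Icc (0:ℝ) 1 := by constructor <;> norm_num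

private theorem half_mem {s t : ℝ} (hs : s ∈ Set.Icc (0:ℝ) 1) (ht : t ∈ Set.Icc (0:ℝ) 1) :
    (s + t) / 2 ∈ Set.Icc (0:ℝ) 1 := ⟨by linarith [hs.1, ht.1], by linarith [hs.2, ht.2]⟩

theorem dist_left_seg (x y : X) {t : ℝ} (ht : t ∈ Set.Icc (0:ℝ) 1) :
    dist x (seg x y t) = t * dist x y := by
  have h := dist_seg x y zero_mem' ht
  rw [seg_zero, zero_sub, abs_neg, abs_of_nonneg ht.1] at h
  exact h

theorem dist_right_seg (x y : X) {t : ℝ} (ht : t ∈ Set.Icc (0:ℝ) 1) :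
    dist y (seg x y t) = (1 - t) * dist x y := by
  have h := dist_seg x y one_mem' ht
  rw [seg_one, abs_of_nonneg (by linarith [ht.2])] at h
  exact h

theorem seg_isMid (x y : X) {s t : ℝ} (hs : s ∈ Set.Icc (0:ℝ) 1) (ht : t ∈ Set.Icc (0:ℝ) 1) :
    IsMid (seg x y s) (seg x y t) (seg x y ((s + t) / 2)) := by
  refine ⟨?_, ?_⟩
  · rw [dist_seg x y hs (half_mem hs ht), dist_seg x y hs ht]
    have h : s - (s + t) / 2 = (s - t) / 2 := by ring
    rw [h, abs_div, abs_of_pos (two_pos (α := ℝ))]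
    ring
  · rw [dist_seg x y ht (half_mem hs ht), dist_seg x y hs ht]
    have h : t - (s + t) / 2 = -((s - t) / 2) := by ring
    rw [h, abs_neg, abs_div, abs_of_pos (two_pos (α := ℝ))]
    ring

theorem seg_continuousOn (x y : X) : ContinuousOn (seg x y) (Set.Icc (0:ℝ) 1) := by
  have h : LipschitzOnWith (nndist x y) (seg x y) (Set.Icc (0:ℝ) 1) := by
    refine LipschitzOnWith.of_dist_le_mul fun s hs t ht => ?_
    rw [dist_seg x y hs ht, coe_nndist, Real.dist_eq, mul_comm]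
  exact h.continuousOn

omit [CAT X] in
private theorem dist_on {f g : ℝ → X} {s : Set ℝ} (hf : ContinuousOn f s)
    (hg : ContinuousOn g s) : ContinuousOn (fun t => dist (f t) (g t)) s :=
  continuous_dist.comp_continuousOn (hf.prodMk hg)

private theorem conv01 {f : ℝ → ℝ} (hf : ContinuousOn f (Set.Icc (0:ℝ) 1))
    (hm : ∀ s ∈ Set.Icc (0:ℝ) 1, ∀ t ∈ Set.Icc (0:ℝ) 1, f ((s + t) / 2) ≤ (f s + f t) / 2)
    {t : ℝ} (ht : t ∈ Set.Icc (0:ℝ) 1) : f t ≤ (1 - t) * f 0 + t * f 1 := by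
  have h := convex_real zero_le_one hf hm ht
  simpa using h

theorem cn_seg (p x y : X) {t : ℝ} (ht : t ∈ Set.Icc (0:ℝ) 1) :
    dist p (seg x y t) ^ 2 ≤
      (1 - t) * dist p x ^ 2 + t * dist p y ^ 2 - t * (1 - t) * dist x y ^ 2 := by
  have h := conv01 (f := fun s => dist p (seg x y s) ^ 2 - s ^ 2 * dist x y ^ 2) ?_ ?_ ht
  · simp only [seg_zero, seg_one] at h
    nlinarith
  · exact ContinuousOn.sub ((dist_on continuousOn_const (seg_continuousOn x y)).pow 2)
      (by fun_prop)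
  · intro s hs t ht
    have h1 := CAT.cn p _ _ _ (seg_isMid x y hs ht).1 (seg_isMid x y hs ht).2
    rw [dist_seg x y hs ht, mul_pow, sq_abs] at h1
    nlinarith

theorem seg_unique {x y z : X} {t : ℝ} (ht : t ∈ Set.Icc (0:ℝ) 1) (h1 : dist x z = t * dist x y)
    (h2 : dist y z = (1 - t) * dist x y) : z = seg x y t := by
  have h := cn_seg z x y ht
  rw [dist_comm z x, dist_comm z y, h1, h2] at h
  have h3 : dist z (seg x y t) ^ 2 ≤ 0 := by nlinarith
  have h4 : dist z (seg x y t) = 0 :=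
    pow_eq_zero_iff (two_ne_zero) |>.1 (le_antisymm h3 (sq_nonneg _))
  exact dist_eq_zero.1 h4

theorem MConvex.on_seg {f : X → ℝ} (hf : MConvex f) (hc : Continuous f) (x y : X) {t : ℝ}
    (ht : t ∈ Set.Icc (0:ℝ) 1) : f (seg x y t) ≤ (1 - t) * f x + t * f y := by
  have h := conv01 (f := fun s => f (seg x y s)) (hc.comp_continuousOn (seg_continuousOn x y))
    (fun s hs t ht => hf _ _ _ (seg_isMid x y hs ht)) ht
  simpa only [seg_zero, seg_one] using h

theorem MAffine.on_seg {f : X → ℝ} (hf : MAffine f) (hc : Continuous f) (x y : X) {t : ℝ}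
    (ht : t ∈ Set.Icc (0:ℝ) 1) : f (seg x y t) = (1 - t) * f x + t * f y := by
  have h1 : MConvex f := fun x y m h => (hf x y m h).le
  have h2 : MConvex (fun x => -f x) := fun x y m h => by
    have := hf x y m h
    linarith
  have h3 := h1.on_seg hc x y ht
  have h4 := h2.on_seg hc.neg x y ht
  linarith

theorem MClosed.on_seg {C : Set X} (hC : MClosed C) (hcl : IsClosed C) {x y : X} (hx : x ∈ C)
    (hy : y ∈ C) {t : ℝ} (ht : t ∈ Set.Icc (0:ℝ) 1) : seg x y t ∈ C := by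
  by_contra hcon
  have hsub1 : Set.Icc 0 t ⊆ Set.Icc (0:ℝ) 1 := Set.Icc_subset_Icc le_rfl ht.2
  have hsub2 : Set.Icc t 1 ⊆ Set.Icc (0:ℝ) 1 := Set.Icc_subset_Icc ht.1 le_rfl
  have hc1 : IsCompact (Set.Icc 0 t ∩ seg x y ⁻¹' C) :=
    isCompact_Icc.of_isClosed_subset
      (((seg_continuousOn x y).mono hsub1).preimage_isClosed_of_isClosed isClosed_Icc hcl)
      Set.inter_subset_left
  have hc2 : IsCompact (Set.Icc t 1 ∩ seg x y ⁻¹' C) :=
    isCompact_Icc.of_isClosed_subset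
      (((seg_continuousOn x y).mono hsub2).preimage_isClosed_of_isClosed isClosed_Icc hcl)
      Set.inter_subset_left
  have hn1 : (Set.Icc 0 t ∩ seg x y ⁻¹' C).Nonempty :=
    ⟨0, ⟨le_rfl, ht.1⟩, by rw [Set.mem_preimage, seg_zero]; exact hx⟩
  have hn2 : (Set.Icc t 1 ∩ seg x y ⁻¹' C).Nonempty :=
    ⟨1, ⟨ht.2, le_rfl⟩, by rw [Set.mem_preimage, seg_one]; exact hy⟩
  have ha := hc1.sSup_mem hn1
  have hb := hc2.sInf_mem hn2
  set a := sSup (Set.Icc 0 t ∩ seg x y ⁻¹' C) with hadef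
  set b := sInf (Set.Icc t 1 ∩ seg x y ⁻¹' C) with hbdef
  have hat : a ≠ t := fun h => hcon (by rw [← h]; exact ha.2)
  have hbt : b ≠ t := fun h => hcon (by rw [← h]; exact hb.2)
  have ha1 : a < t := lt_of_le_of_ne ha.1.2 hat
  have hb1 : t < b := lt_of_le_of_ne hb.1.1 (Ne.symm hbt)
  have hm : seg x y ((a + b) / 2) ∈ C :=
    hC _ _ _ ha.2 hb.2 (seg_isMid x y (hsub1 ha.1) (hsub2 hb.1))
  rcases le_total ((a + b) / 2) t with h | h
  · have h1 : (a + b) / 2 ≤ a :=
      le_csSup hc1.bddAbove ⟨⟨by linarith [ha.1.1, hb.1.1, ht.1], h⟩, hm⟩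
    linarith
  · have h1 : b ≤ (a + b) / 2 :=
      csInf_le hc2.bddBelow ⟨⟨h, by linarith [ha.1.2, hb.1.2, ht.2]⟩, hm⟩
    linarith

theorem seg_lip (x y x' y' : X) {t : ℝ} (ht : t ∈ Set.Icc (0:ℝ) 1) :
    dist (seg x y t) (seg x' y' t) ≤ (1 - t) * dist x x' + t * dist y y' := by
  have h := conv01 (f := fun s => dist (seg x y s) (seg x' y' s))
    (dist_on (seg_continuousOn x y) (seg_continuousOn x' y')) (fun s hs t ht => ?_) ht
  · simpa only [seg_zero, seg_one] using h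
  · have h1 := mid_lip2 (seg x y s) (seg x y t) (seg x' y' s) (seg x' y' t)
    rw [← eq_mid (seg_isMid x y hs ht), ← eq_mid (seg_isMid x' y' hs ht)] at h1
    exact h1

end TitsLF
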