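import Pool.Agent.Helper35.TT.CenBus
import Pool.Agent.Helper35.TT.RFlow
import Pool.Agent.Helper35.TT.Seg

/-!
TT-28 Quot. The quotient by a central element of infinite order acts geometrically on a level set.

PROOF. `central_bus`, `exists_rflow` give `τ, b, T`. Fix `o : X` and let `Y = {x | b x = b o}` (subtype). Retraction `r x = T (b x - b o) x ∈ Y`.
Action of `G` on `Y`: `g * y = r (g • y)`. It is an action: `g' * (g * y) = T (b (g' T_β (g y)) - b o) (g' T_β (g y))` with `β = b (g y) - b o`; `g' T_β (g y) = T_β (g' g y)` (equivariance), and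
`b (T_β (g' g y)) = b (g' g y) - β`; so it is `T (b (g' g y) - b o) (g' g y)`. `z` acts trivially: `b (z y) = b y - τ`, `r (z y) = T (-τ) (z y) = T (-τ) (T τ y) = y`. So it descends to `G ⧸ N`
(`Quotient` lift; construct `MulAction (G ⧸ N) Y` by `smul q y = Quotient.liftOn' q (fun g => ⟨r (g • y), _⟩) _`; well defined: `g' = g * z^k`, `z^k` acts trivially).
Each `g` acts on `Y` by isometries: `g` preserves `b`-differences (`QInv`), so for `y, y' ∈ Y` the shift `b (g y) - b o` is the same for both, and `T s`, `g` are isometries.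
`Act (G ⧸ N) Y`:
* `cat`: `Y` is closed and midpoint closed (`b` affine), so geodesics of `X` between points of `Y` stay in `Y` (`MClosed.on_seg`), CN is inherited (as in `Minim`).
* `prop`: `Y` is closed in `X`.
* `coc`: given `o' ∈ Y`, `D` for `o'` in `X`: for `y ∈ Y` choose `g` with `dist (g y) o' ≤ D`; then `|b (g y) - b o'| ≤ D`, so `dist (r (g y)) (g y) ≤ D` (`dist x (T s x) = |s|`, from the formula with `y = x`) and `dist (g * y) o' ≤ 2 D`.
* `fin`: for `y ∈ Y`, `R`: let `q ∈ G ⧸ N` with `dist (q * y) y ≤ R`, `q = [g]`. Replace `g` by `g z^k` such that `|b (g y) - b o| ≤ τ` (`b (g z^k y) = b (g y) - k τ`). Then `dist (g y) (r (g y)) ≤ τ`, so `dist (g y) y ≤ R + τ`: finitely many `g`.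
* `Frame Y n → Frame X (n + 1)`: add the point `T 1 o'` to the frame `(o', p)` of `Y`: `dist o' (T 1 o') = 1` and `dist (p i) (T 1 o')^2 = dist (p i) o'^2 + 2 (b (p i) - b o') + 1 = 2` (`Fin.cons` or `Fin.snoc`).
-/

set_option autoImplicit false

namespace TitsLF

universe u v

variable {G : Type u} {X : Type v} [Group G] [MetricSpace X] [MulAction G X]

private theorem quot_cat [CAT X] {C : Set X} (hcl : IsClosed C) (hm : MClosed C) : CAT C := by
  refine ⟨?_, ?_⟩
  · classical
    intro x y
    have hD : 0 ≤ dist (x : X) y := dist_nonneg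
    have hmem : ∀ s ∈ Set.Icc (0:ℝ) (dist (x : X) y), s / dist (x : X) y ∈ Set.Icc (0:ℝ) 1 := by
      rintro s ⟨h0, h1⟩
      exact ⟨div_nonneg h0 hD, div_le_one_of_le₀ h1 hD⟩
    have hC : ∀ s ∈ Set.Icc (0:ℝ) (dist (x : X) y),
        seg (x : X) y (s / dist (x : X) y) ∈ C := fun s hs =>
      hm.on_seg hcl x.2 y.2 (hmem s hs)
    obtain ⟨γ, hγ⟩ : ∃ γ : ℝ → C, ∀ s ∈ Set.Icc (0:ℝ) (dist (x : X) y),
        ((γ s : C) : X) = seg (x : X) y (s / dist (x : X) y) := by
      refine ⟨fun s => if hs : s ∈ Set.Icc (0:ℝ) (dist (x : X) y) then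
        ⟨seg (x : X) y (s / dist (x : X) y), hC s hs⟩ else x, fun s hs => ?_⟩
      simp only [dif_pos hs]
    refine ⟨γ, ?_, ?_, ?_⟩
    · apply Subtype.ext
      rw [hγ 0 ⟨le_rfl, hD⟩, zero_div, seg_zero]
    · apply Subtype.ext
      rw [Subtype.dist_eq, hγ _ ⟨hD, le_rfl⟩]
      by_cases h0 : dist (x : X) y = 0
      · rw [h0, div_zero, seg_zero]
        exact dist_eq_zero.1 h0
      · rw [div_self h0, seg_one]
    · intro s hs t ht
      rw [Subtype.dist_eq] at hs ht
      rw [Subtype.dist_eq, hγ s hs, hγ t ht, dist_seg _ _ (hmem s hs) (hmem t ht)]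
      by_cases h0 : dist (x : X) y = 0
      · rw [h0] at hs ht
        have h1 : s = 0 := le_antisymm hs.2 hs.1
        have h2 : t = 0 := le_antisymm ht.2 ht.1
        rw [h0, h1, h2]
        simp
      · rw [← sub_div, abs_div, abs_of_nonneg hD, div_mul_cancel₀ _ h0]
  · intro p q r m h1 h2
    exact CAT.cn (p : X) q r m h1 h2

theorem quot (h : Act G X) (hm : Minimal G X) {z : G} (hz : z ∈ Subgroup.center G)
    (hinf : ∀ n : ℕ, 0 < n → z ^ n ≠ 1) (N : Subgroup G) [N.Normal]
    (hN : N = Subgroup.zpowers z) :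
    ∃ (Y : Type v) (_ : MetricSpace Y) (_ : MulAction (G ⧸ N) Y), Act (G ⧸ N) Y ∧
      ∀ n, Frame Y n → Frame X (n + 1) := by
  have := h.cat
  obtain ⟨τ, b, hτ, hbus, haff, hq, hfl⟩ := central_bus h hm hz hinf
  obtain ⟨T, hT0, hTT, hbT, hTiso, hTd, hTg, hTz⟩ := exists_rflow h.iso hz hτ hbus haff hq hfl
  obtain ⟨o⟩ := h.ne
  have hbc : Continuous b := by
    have h1 : LipschitzWith 1 b := LipschitzWith.of_dist_le_mul (fun x y => by
      rw [Real.dist_eq, NNReal.coe_one, one_mul]
      exact hbus.lip x y)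
    exact h1.continuous
  have hcl : IsClosed {x : X | b x = b o} := isClosed_eq hbc continuous_const
  have hmc : MClosed {x : X | b x = b o} := by
    intro x y m hx hy hxy
    have h1 := haff x y m hxy
    have h2 : b x = b o := hx
    have h3 : b y = b o := hy
    change b m = b o
    rw [h1, h2, h3]
    ring
  -- the retraction
  obtain ⟨r, hr⟩ : ∃ r : X → {x : X | b x = b o}, ∀ x, (r x : X) = T (b x - b o) x :=
    ⟨fun x => ⟨T (b x - b o) x, by change b (T (b x - b o) x) = b o; rw [hbT]; ring⟩, fun _ => rfl⟩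
  have hrT : ∀ s x, r (T s x) = r x := by
    intro s x
    apply Subtype.ext
    rw [hr, hr, hTT, hbT]
    congr 1
    ring
  have hrg : ∀ (g : G) x, r (g • (r x : X)) = r (g • x) := by
    intro g x
    rw [hr, ← hTg, hrT]
  have hry : ∀ y : {x : X | b x = b o}, r y = y := by
    intro y
    apply Subtype.ext
    have h1 : b (y : X) = b o := y.2
    rw [hr, h1, sub_self, hT0]
  have hdT : ∀ s x, dist x (T s x) = |s| := by
    intro s x
    have h1 := hTd s x x
    rw [dist_self, sub_self, mul_zero, add_zero] at h1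
    have h2 : dist x (T s x) ^ 2 = |s| ^ 2 := by rw [h1, sq_abs]; ring
    exact (pow_left_inj₀ dist_nonneg (abs_nonneg s) two_ne_zero).1 h2
  obtain ⟨Pz, hPz⟩ : ∃ Pz : Subgroup G, ∀ n, n ∈ Pz ↔ ∀ x : X, r (n • x) = r x := by
    refine ⟨{ carrier := {n | ∀ x : X, r (n • x) = r x}, mul_mem' := ?_, one_mem' := ?_,
              inv_mem' := ?_ }, fun n => Iff.rfl⟩
    · intro a c ha hc x
      rw [mul_smul, ha, hc]
    · intro x
      rw [one_smul]
    · intro a ha x
      have h1 := ha (a⁻¹ • x)
      rw [smul_inv_smul] at h1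
      exact h1.symm
  have hNP : ∀ n ∈ N, ∀ x : X, r (n • x) = r x := by
    have h1 : N ≤ Pz := by
      rw [hN, Subgroup.zpowers_le, hPz]
      intro x
      rw [← hTz, hrT]
    intro n hn
    exact (hPz n).1 (h1 hn)
  have hcos : ∀ (g g' : G), g⁻¹ * g' ∈ N → ∀ x : X, r (g • x) = r (g' • x) := by
    intro g g' hgg x
    have h1 := hNP _ hgg x
    rw [← hrg g x, ← h1, hrg, ← mul_smul, mul_inv_cancel_left]
  obtain ⟨act, hact⟩ : ∃ act : MulAction (G ⧸ N) {x : X | b x = b o},
      ∀ (g : G) (y : {x : X | b x = b o}), act.smul (QuotientGroup.mk g : G ⧸ N) y = r (g • (y : X)) := by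
    obtain ⟨sm, hsm⟩ : ∃ sm : (G ⧸ N) → {x : X | b x = b o} → {x : X | b x = b o},
        ∀ (g : G) (y : {x : X | b x = b o}), sm (QuotientGroup.mk g : G ⧸ N) y = r (g • (y : X)) :=
      ⟨fun q y => Quotient.liftOn' q (fun g => r (g • (y : X))) (fun g g' hgg =>
        hcos g g' (QuotientGroup.leftRel_apply.1 hgg) (y : X)), fun g y => rfl⟩
    have h1 : ∀ y : {x : X | b x = b o}, sm (1 : G ⧸ N) y = y := by
      intro y
      have h2 := hsm 1 y
      rw [QuotientGroup.mk_one] at h2
      rw [h2, one_smul, hry]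
    have h2 : ∀ (q q' : G ⧸ N) (y : {x : X | b x = b o}), sm (q * q') y = sm q (sm q' y) := by
      intro q q' y
      induction q using QuotientGroup.induction_on with
      | H g =>
        induction q' using QuotientGroup.induction_on with
        | H g' =>
          rw [← QuotientGroup.mk_mul, hsm, hsm, hsm, hrg, mul_smul]
    exact ⟨{ smul := sm, one_smul := h1, mul_smul := h2 }, hsm⟩
  have hbz : ∀ (k : ℤ) (x : X), b (z ^ k • x) = b x - k * τ := by
    have h1 : ∀ (k : ℕ) (x : X), b (z ^ k • x) = b x - k * τ := by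
      intro k
      induction k with
      | zero => intro x; rw [pow_zero, one_smul, Nat.cast_zero]; ring
      | succ k ih =>
        intro x
        rw [pow_succ, mul_smul, ih, ← hTz, hbT]
        push_cast
        ring
    intro k x
    rcases Int.eq_nat_or_neg k with ⟨n, rfl | rfl⟩
    · rw [zpow_natCast, h1]
      push_cast
      ring
    · have h2 := h1 n (z ^ (-(n : ℤ)) • x)
      rw [← mul_smul, zpow_neg, zpow_natCast, mul_inv_cancel, one_smul] at h2
      rw [zpow_neg, zpow_natCast]
      push_cast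
      linarith
  refine ⟨{x : X | b x = b o}, inferInstance, act, ?_, ?_⟩
  · refine ⟨⟨⟨o, rfl⟩⟩, ?_, quot_cat hcl hmc, ?_, ?_, ?_⟩
    · intro q x y
      induction q using QuotientGroup.induction_on with
      | H g =>
        change dist (act.smul (QuotientGroup.mk g : G ⧸ N) x) (act.smul (QuotientGroup.mk g : G ⧸ N) y) = _
        rw [hact, hact, Subtype.dist_eq, Subtype.dist_eq, hr, hr]
        have h1 := hq g (x : X) (y : X)
        have h2 : b (x : X) = b o := x.2
        have h3 : b (y : X) = b o := y.2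
        have h4 : b (g • (x : X)) = b (g • (y : X)) := by linarith
        rw [h4, hTiso, h.iso]
    · intro x R
      have h1 : Metric.closedBall x R =
          (Subtype.val : {x : X | b x = b o} → X) ⁻¹' Metric.closedBall (x : X) R := by
        ext y
        rfl
      rw [h1]
      exact (hcl.isClosedEmbedding_subtypeVal).isCompact_preimage (h.prop x R)
    · intro y R
      refine Set.Finite.subset ((h.fin (y : X) (R + τ)).image (fun g : G => (QuotientGroup.mk g : G ⧸ N))) ?_
      intro q hqR
      induction q using QuotientGroup.induction_on with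
      | H g =>
        have h0 : dist (act.smul (QuotientGroup.mk g : G ⧸ N) y) y ≤ R := hqR
        rw [hact, Subtype.dist_eq] at h0
        obtain ⟨k, hk⟩ : ∃ k : ℤ, k = ⌊(b (g • (y : X)) - b o) / τ⌋ := ⟨_, rfl⟩
        have hk1 : (k : ℝ) * τ ≤ b (g • (y : X)) - b o := by
          have h1 := Int.floor_le ((b (g • (y : X)) - b o) / τ)
          rw [← hk] at h1
          rwa [le_div_iff₀ hτ] at h1
        have hk2 : b (g • (y : X)) - b o < ((k : ℝ) + 1) * τ := by
          have h1 := Int.lt_floor_add_one ((b (g • (y : X)) - b o) / τ)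
          rw [← hk] at h1
          rwa [div_lt_iff₀ hτ] at h1
        have hzk : z ^ k ∈ N := by rw [hN]; exact Subgroup.zpow_mem_zpowers z k
        have hcomm : g * z ^ k = z ^ k * g := by
          have h1 : z ^ k ∈ Subgroup.center G := Subgroup.zpow_mem _ hz k
          exact Subgroup.mem_center_iff.1 h1 g
        refine ⟨g * z ^ k, ?_, ?_⟩
        · change dist ((g * z ^ k) • (y : X)) (y : X) ≤ R + τ
          have h2 : r (g • (y : X)) = r ((g * z ^ k) • (y : X)) :=
            hcos g (g * z ^ k) (by rw [inv_mul_cancel_left]; exact hzk) (y : X)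
          have h3 : dist ((g * z ^ k) • (y : X)) ((r ((g * z ^ k) • (y : X)) : {x : X | b x = b o}) : X) ≤ τ := by
            rw [hr, hdT]
            have h4 : b ((g * z ^ k) • (y : X)) = b (g • (y : X)) - k * τ := by
              rw [hcomm, mul_smul, hbz]
            rw [h4, abs_le]
            constructor
            · linarith
            · linarith
          rw [h2] at h0
          have h5 := dist_triangle ((g * z ^ k) • (y : X))
            ((r ((g * z ^ k) • (y : X)) : {x : X | b x = b o}) : X) (y : X)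
          linarith
        · change (QuotientGroup.mk (g * z ^ k) : G ⧸ N) = QuotientGroup.mk g
          rw [eq_comm, QuotientGroup.eq, inv_mul_cancel_left]
          exact hzk
    · intro o'
      obtain ⟨D, hD, hcoc⟩ := h.coc (o' : X)
      refine ⟨2 * D, by linarith, fun y => ?_⟩
      obtain ⟨g, hg⟩ := hcoc (y : X)
      refine ⟨(QuotientGroup.mk g : G ⧸ N), ?_⟩
      change dist (act.smul (QuotientGroup.mk g : G ⧸ N) y) o' ≤ 2 * D
      rw [hact, Subtype.dist_eq]
      have h1 : b (o' : X) = b o := o'.2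
      have h2 := hbus.lip (g • (y : X)) (o' : X)
      have h3 : dist ((r (g • (y : X)) : {x : X | b x = b o}) : X) (g • (y : X)) ≤ D := by
        have h5 : |b (g • (y : X)) - b o| ≤ D := by
          have h6 := h2.trans hg
          rwa [h1] at h6
        rw [dist_comm, hr, hdT]
        exact h5
      have h4 := dist_triangle ((r (g • (y : X)) : {x : X | b x = b o}) : X) (g • (y : X)) (o' : X)
      linarith
  · intro n hn
    obtain ⟨o', p, h1, h2⟩ := hn
    have ho' : b (o' : X) = b o := o'.2
    have hd1 : ∀ i, dist ((p i : {x : X | b x = b o}) : X) (T 1 (o' : X)) ^ 2 = 2 := by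
      intro i
      have h3 := hTd 1 (o' : X) ((p i : {x : X | b x = b o}) : X)
      have h4 : b ((p i : {x : X | b x = b o}) : X) = b o := (p i).2
      have h5 : dist ((p i : {x : X | b x = b o}) : X) (o' : X) = 1 := by
        rw [dist_comm]; exact h1 i
      rw [h3, h4, ho', h5]
      ring
    refine ⟨(o' : X), Fin.cons (T 1 (o' : X)) (fun i => ((p i : {x : X | b x = b o}) : X)), ?_, ?_⟩
    · intro i
      refine Fin.cases ?_ (fun j => ?_) i
      · rw [Fin.cons_zero, hdT, abs_one]
      · rw [Fin.cons_succ]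
        exact h1 j
    · intro i j
      refine Fin.cases ?_ (fun i' => ?_) i
      · refine Fin.cases ?_ (fun j' => ?_) j
        · intro hij
          exact absurd rfl hij
        · intro _
          rw [Fin.cons_zero, Fin.cons_succ, dist_comm, hd1]
      · refine Fin.cases ?_ (fun j' => ?_) j
        · intro _
          rw [Fin.cons_zero, Fin.cons_succ, hd1]
        · intro hij
          rw [Fin.cons_succ, Fin.cons_succ]
          exact h2 i' j' (fun h3 => hij (by rw [h3]))

end TitsLF
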