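import Pool.Agent.Helper35.TT.CaseB
import Pool.Agent.Helper35.TT.Quot
import Pool.Agent.Helper35.TT.Center

/-!
TT-45 Amen. Amenable groups acting geometrically on a CAT(0) space are virtually solvable.

PROOF. Induction on `n` with `¬ Frame X n`, for all `G, X`. `n = 0`: every nonempty `X` has a frame of size `0`. Step `n + 1`: pass to a minimal subset (`exists_minimal`). If no `b` with `IsBus b`, `QInv G b` exists: `vsolv_caseB`.
Otherwise `exists_central` gives `z`; `quot` for `N = zpowers z` (normal, as `z` is central) and `Reiter.quot`; `¬ Frame Y n` since `¬ Frame X (n+1)`; the induction hypothesis gives `VSolv (G ⧸ N)` and `vsolv_of_central` finishes.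
-/

set_option autoImplicit false

namespace TitsLF

universe u v

theorem vsolv_of_reiter {G : Type u} {X : Type v} [Group G] [MetricSpace X] [MulAction G X]
    (h : Act G X) (hR : Reiter G) : VSolv G := by
  obtain ⟨n, hn⟩ := frame_bdd h
  induction n generalizing G X with
  | zero =>
    obtain ⟨o⟩ := h.ne
    exact absurd ⟨o, Fin.elim0, fun i => i.elim0, fun i => i.elim0⟩ hn
  | succ n ih =>
    obtain ⟨C, hC, hmC, hfr⟩ := exists_minimal h
    by_cases hb : ∃ b : C → ℝ, IsBus b ∧ QInv G b
    · obtain ⟨b, hb, hq⟩ := hb
      obtain ⟨z, hz, hinf⟩ := exists_central hC hb hq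
      have hNc : Subgroup.zpowers z ≤ Subgroup.center G := by
        rw [Subgroup.zpowers_le]
        exact hz
      haveI : (Subgroup.zpowers z).Normal := by
        refine ⟨fun g hg k => ?_⟩
        have h1 := Subgroup.mem_center_iff.1 (hNc hg) k
        rw [h1, mul_assoc, mul_inv_cancel, mul_one]
        exact hg
      obtain ⟨Y, hY1, hY2, hY, hfY⟩ := quot hC hmC hz hinf (Subgroup.zpowers z) rfl
      refine vsolv_of_central (Subgroup.zpowers z) hNc
        (ih (G := G ⧸ Subgroup.zpowers z) (X := Y) hY (hR.quot _) fun hf => hn (hfr _ (hfY _ hf)))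
    · push Not at hb
      exact vsolv_caseB hC hmC hb hR

end TitsLF
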