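import Pool.Agent.Helper35.TT.Aff

/-!
TT-33 Comp. Compositions of the flows of affine functions; the quadratic form.

`Fl o` is the set of the affine functions `h` with `IsBus h`, `h o = 0`. `lin o w x = ∑ w h * h x`, `QQ o w w' = ∑ w h * w' k * cc o h k`.

PROOFS.
* `QQ_symm`: `cc_symm`. Bilinearity of `QQ` (`Finsupp.sum_add_index'`, ...) is useful: `QQ_add_left`, `QQ_smul_left`, `lin_add`, `lin_smul`.
* `exists_comp`: induction on the support (`Finsupp.induction` with nonnegative coefficients, or over the finite support): for `w = 0` take `T = id`. If `T'` belongs to `w'` and `w = single h a + w'`, `a ≥ 0`, take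
  `T = fl h a ∘ T'`: `aff_eq`: `dist y (fl h a (T' x))^2 = dist y (T' x)^2 + 2 a (h y - h (T' x)) + a^2` and `h (T' x) = h x - ∑ w' h' * cc o h' h`, so the total is
  `dist y x^2 + 2 (lin w' y - lin w' x) + QQ w' w' + 2 a (h y - h x) + 2 a ∑ w' h' cc o h' h + a^2`, `QQ w w = QQ w' w' + 2 a ∑ w' h' cc o h h' + a^2` (`cc_self`, `cc_symm`). `k (fl h a (T' x)) = k (T' x) - a cc o h k` (`cc_spec`).
  `aff_iso`.
* `exists_orbit`: `P w = T_w o` for `w ≥ 0` (chosen by `exists_comp`): `dist (T_w' o) (T_w o)^2 = dist (T_w' o) o^2 + 2 (lin w (T_w' o) - lin w o) + QQ w w = QQ w' w' - 2 QQ w' w + QQ w w`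
  (`dist (T_w' o) o ^2 = QQ w' w'` is the first formula for `y = x = o`; `lin w (T_w' o) - lin w o = - QQ w' w` by the second one).
* `QQ_nonneg`: `w = w⁺ - w⁻` (`w⁺ = w.mapRange (max · 0)`, `w⁻ = w.mapRange (max (-·) 0)`), `exists_orbit`.
* `lin_eq_zero`: `QQ w w = 0`; let `T₊, T₋` belong to `w⁺, w⁻`. For every `x`: `dist (T₋ x) (T₊ x)^2 = QQ w w = 0` (as in `exists_orbit` with `x` instead of `o`), so `T₊ = T₋`, and the first formulas give for all `x, y`
  `2 (lin w⁺ y - lin w⁺ x) + QQ w⁺ w⁺ = 2 (lin w⁻ y - lin w⁻ x) + QQ w⁻ w⁻`; so `lin w y - lin w x` is a constant independent of `x, y`, hence `0`; `lin w o = 0`.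
* `QQ_eq_zero`: `QQ w w' = ∑_k w' k ∑_h w h cc o h k`, `∑_h w h cc o h k = ∑_h w h cc o k h = lin w o - lin w (fl k 1 o) = 0`.
-/

set_option autoImplicit false

namespace TitsLF

universe u v

variable {X : Type v} [MetricSpace X]

/-- The normalised affine functions of Busemann type. -/
def Fl (o : X) : Set (X → ℝ) := {h | IsBus h ∧ MAffine h ∧ h o = 0}

/-- Linear combinations of functions. -/
noncomputable def lin (o : X) (w : Fl o →₀ ℝ) (x : X) : ℝ := w.sum fun h a => a * h.1 x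

variable [CAT X]

/-- The bilinear form. -/
noncomputable def QQ (o : X) (w w' : Fl o →₀ ℝ) : ℝ :=
  w.sum fun h a => w'.sum fun k b => a * b * cc o h.1 k.1

private noncomputable def sS (o : X) (w : Fl o →₀ ℝ) (k : Fl o) : ℝ :=
  w.sum fun h a => a * cc o h.1 k.1

private theorem sS_eq (o : X) (w : Fl o →₀ ℝ) (k : Fl o) :
    sS o w k = Finsupp.linearCombination ℝ (fun h : Fl o => cc o h.1 k.1) w := by
  rw [Finsupp.linearCombination_apply]
  rfl

private theorem lin_eq (o : X) (w : Fl o →₀ ℝ) (x : X) :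
    lin o w x = Finsupp.linearCombination ℝ (fun h : Fl o => h.1 x) w := by
  rw [Finsupp.linearCombination_apply]
  rfl

private theorem lin_sub' (o : X) (w w' : Fl o →₀ ℝ) (x : X) :
    lin o (w - w') x = lin o w x - lin o w' x := by
  rw [lin_eq, lin_eq, lin_eq, map_sub]

private theorem lin_add' (o : X) (w w' : Fl o →₀ ℝ) (x : X) :
    lin o (w + w') x = lin o w x + lin o w' x := by
  rw [lin_eq, lin_eq, lin_eq, map_add]

private theorem lin_single' (o : X) (h : Fl o) (a : ℝ) (x : X) :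
    lin o (Finsupp.single h a) x = a * h.1 x := by
  rw [lin_eq, Finsupp.linearCombination_single, smul_eq_mul]

private theorem lin_o (o : X) (w : Fl o →₀ ℝ) : lin o w o = 0 := by
  refine Finset.sum_eq_zero fun h _ => ?_
  change w h * h.1 o = 0
  rw [h.2.2.2, mul_zero]

theorem QQ_symm (o : X) (w w' : Fl o →₀ ℝ) : QQ o w w' = QQ o w' w := by
  unfold QQ
  rw [Finsupp.sum_comm]
  refine Finset.sum_congr rfl fun k _ => Finset.sum_congr rfl fun h _ => ?_
  change w h * w' k * cc o h.1 k.1 = w' k * w h * cc o k.1 h.1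
  rw [cc_symm h.2.1 h.2.2.1 k.2.1 k.2.2.1 o, mul_comm (w h)]

private theorem QQ_eq' (o : X) (w w' : Fl o →₀ ℝ) :
    QQ o w w' = Finsupp.linearCombination ℝ (fun k : Fl o => sS o w k) w' := by
  rw [QQ_symm, Finsupp.linearCombination_apply]
  unfold QQ
  refine Finset.sum_congr rfl fun k _ => ?_
  change (w.sum fun h a => w' k * a * cc o k.1 h.1) = w' k • sS o w k
  unfold sS
  rw [smul_eq_mul, Finsupp.mul_sum]
  refine Finset.sum_congr rfl fun h _ => ?_
  change w' k * w h * cc o k.1 h.1 = w' k * (w h * cc o h.1 k.1)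
  rw [cc_symm h.2.1 h.2.2.1 k.2.1 k.2.2.1 o, mul_assoc]

private theorem QQ_add_r (o : X) (w w₁ w₂ : Fl o →₀ ℝ) :
    QQ o w (w₁ + w₂) = QQ o w w₁ + QQ o w w₂ := by
  rw [QQ_eq', QQ_eq', QQ_eq', map_add]

private theorem QQ_sub_r (o : X) (w w₁ w₂ : Fl o →₀ ℝ) :
    QQ o w (w₁ - w₂) = QQ o w w₁ - QQ o w w₂ := by
  rw [QQ_eq', QQ_eq', QQ_eq', map_sub]

private theorem QQ_single_r (o : X) (w : Fl o →₀ ℝ) (k : Fl o) (b : ℝ) :
    QQ o w (Finsupp.single k b) = b * sS o w k := by
  rw [QQ_eq', Finsupp.linearCombination_single, smul_eq_mul]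

private theorem QQ_sub_sub (o : X) (w w' : Fl o →₀ ℝ) :
    QQ o (w - w') (w - w') = QQ o w' w' - 2 * QQ o w' w + QQ o w w := by
  rw [QQ_sub_r, QQ_symm o (w - w') w, QQ_symm o (w - w') w', QQ_sub_r, QQ_sub_r,
    QQ_symm o w w']
  ring

private theorem QQ_single_add (o : X) (h : Fl o) (a : ℝ) (w : Fl o →₀ ℝ) :
    QQ o (Finsupp.single h a + w) (Finsupp.single h a + w) =
      QQ o w w + 2 * a * sS o w h + a ^ 2 := by
  have h1 : QQ o (Finsupp.single h a) (Finsupp.single h a) = a ^ 2 := by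
    rw [QQ_single_r]
    unfold sS
    rw [Finsupp.sum_single_index (by rw [zero_mul]), cc_self h.2.1]
    ring
  rw [QQ_add_r, QQ_symm o (Finsupp.single h a + w) (Finsupp.single h a),
    QQ_symm o (Finsupp.single h a + w) w, QQ_add_r, QQ_add_r,
    QQ_symm o (Finsupp.single h a) w, h1, QQ_single_r]
  ring

private theorem lin_T (o : X) (w w' : Fl o →₀ ℝ) (T : X → X)
    (h2 : ∀ (k : Fl o) (x : X), k.1 (T x) = k.1 x - sS o w' k) (x : X) :
    lin o w (T x) = lin o w x - QQ o w' w := by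
  rw [QQ_eq', Finsupp.linearCombination_apply]
  unfold lin Finsupp.sum
  rw [← Finset.sum_sub_distrib]
  refine Finset.sum_congr rfl fun k _ => ?_
  change w k * k.1 (T x) = w k * k.1 x - w k * sS o w' k
  rw [h2]
  ring

private theorem dist_TT (o : X) (w w' : Fl o →₀ ℝ) (T T' : X → X)
    (h1 : ∀ x y, dist y (T x) ^ 2 = dist y x ^ 2 + 2 * (lin o w y - lin o w x) + QQ o w w)
    (h1' : ∀ x y, dist y (T' x) ^ 2 = dist y x ^ 2 + 2 * (lin o w' y - lin o w' x) + QQ o w' w')
    (h2' : ∀ (k : Fl o) (x : X), k.1 (T' x) = k.1 x - sS o w' k) (x : X) :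
    dist (T' x) (T x) ^ 2 = QQ o (w - w') (w - w') := by
  rw [h1 x (T' x), dist_comm (T' x) x, h1' x x, lin_T o w w' T' h2' x, dist_self, QQ_sub_sub]
  ring

theorem exists_comp (o : X) (w : Fl o →₀ ℝ) (hw : ∀ h, 0 ≤ w h) :
    ∃ T : X → X, (∀ x y, dist y (T x) ^ 2 =
        dist y x ^ 2 + 2 * (lin o w y - lin o w x) + QQ o w w) ∧
      (∀ (k : Fl o) (x : X), k.1 (T x) = k.1 x - w.sum fun h a => a * cc o h.1 k.1) ∧
      ∀ x y, dist (T x) (T y) = dist x y := by
  induction w using Finsupp.induction with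
  | zero =>
    refine ⟨id, fun x y => ?_, fun k x => ?_, fun x y => rfl⟩
    · rw [QQ_eq', map_zero, lin_eq, lin_eq, map_zero]
      simp
    · simp
  | single_add h a w' hh ha ih =>
    have hw' : ∀ k, 0 ≤ w' k := by
      intro k
      by_cases hk : k = h
      · rw [hk, Finsupp.notMem_support_iff.1 hh]
      · have := hw k
        rwa [Finsupp.add_apply, Finsupp.single_eq_of_ne hk, zero_add] at this
    have ha0 : 0 ≤ a := by
      have := hw h
      rwa [Finsupp.add_apply, Finsupp.single_eq_same, Finsupp.notMem_support_iff.1 hh,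
        add_zero] at this
    obtain ⟨T', h1, h2, h3⟩ := ih hw'
    refine ⟨fun x => fl h.1 a (T' x), fun x y => ?_, fun k x => ?_, fun x y => ?_⟩
    · have e1 := aff_eq h.2.1 h.2.2.1 ha0 (T' x) y
      have e2 := h2 h x
      have e3 : (w'.sum fun h' a => a * cc o h'.1 h.1) = sS o w' h := rfl
      rw [e3] at e2
      rw [e1, h1 x y, e2, lin_add', lin_add', lin_single', lin_single', QQ_single_add]
      ring
    · have e1 := cc_spec h.2.1 k.2.2.1 k.2.1.lip o ha0 (T' x)
      rw [e1, h2 k x, Finsupp.sum_add_index' (fun _ => by rw [zero_mul])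
        (fun _ _ _ => by rw [add_mul]), Finsupp.sum_single_index (by rw [zero_mul])]
      ring
    · rw [aff_iso h.2.1 h.2.2.1 ha0, h3]

theorem exists_orbit (o : X) : ∃ P : (Fl o →₀ ℝ) → X, ∀ w w' : Fl o →₀ ℝ, (∀ h, 0 ≤ w h) →
    (∀ h, 0 ≤ w' h) → dist (P w) (P w') ^ 2 = QQ o (w - w') (w - w') := by
  classical
  refine ⟨fun w => if hw : ∀ h, 0 ≤ w h then (exists_comp o w hw).choose o else o, ?_⟩
  intro w w' hw hw'
  simp only [dif_pos hw, dif_pos hw']
  rw [dist_comm]
  exact dist_TT o w w' _ _ (exists_comp o w hw).choose_spec.1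
    (exists_comp o w' hw').choose_spec.1 (exists_comp o w' hw').choose_spec.2.1 o

private theorem exists_pm (o : X) (w : Fl o →₀ ℝ) : ∃ wp wm : Fl o →₀ ℝ, (∀ h, 0 ≤ wp h) ∧
    (∀ h, 0 ≤ wm h) ∧ w = wp - wm := by
  refine ⟨w.mapRange (fun r => max r 0) (by simp), w.mapRange (fun r => max (-r) 0) (by simp),
    fun h => ?_, fun h => ?_, ?_⟩
  · rw [Finsupp.mapRange_apply]
    exact le_max_right _ _
  · rw [Finsupp.mapRange_apply]
    exact le_max_right _ _
  · ext h
    rw [Finsupp.sub_apply, Finsupp.mapRange_apply, Finsupp.mapRange_apply]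
    rcases le_total 0 (w h) with h1 | h1
    · rw [max_eq_left h1, max_eq_right (by linarith), sub_zero]
    · rw [max_eq_right h1, max_eq_left (by linarith)]
      ring

theorem QQ_nonneg (o : X) (w : Fl o →₀ ℝ) : 0 ≤ QQ o w w := by
  obtain ⟨wp, wm, hp, hm, rfl⟩ := exists_pm o w
  obtain ⟨P, hP⟩ := exists_orbit o
  rw [← hP wp wm hp hm]
  exact sq_nonneg _

theorem lin_eq_zero (o : X) (w : Fl o →₀ ℝ) (hw : QQ o w w = 0) (x : X) : lin o w x = 0 := by
  obtain ⟨wp, wm, hp, hm, rfl⟩ := exists_pm o w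
  obtain ⟨T, h1, h2, -⟩ := exists_comp o wp hp
  obtain ⟨T', h1', h2', -⟩ := exists_comp o wm hm
  have e1 : ∀ x, T' x = T x := by
    intro x
    have e2 := dist_TT o wp wm T T' h1 h1' h2' x
    rw [hw] at e2
    exact dist_eq_zero.1 (pow_eq_zero_iff (two_ne_zero) |>.1 e2)
  have e3 : ∀ x y, 2 * (lin o wp y - lin o wp x) + QQ o wp wp =
      2 * (lin o wm y - lin o wm x) + QQ o wm wm := by
    intro x y
    have e4 := h1 x y
    have e5 := h1' x y
    rw [e1 x, e4] at e5
    linarith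
  have e6 := e3 o x
  have e7 := e3 o o
  rw [lin_sub']
  rw [lin_o, lin_o] at e6 e7
  linarith

theorem QQ_eq_zero (o : X) (w w' : Fl o →₀ ℝ) (hw : ∀ x, lin o w x = 0) : QQ o w w' = 0 := by
  have h1 : ∀ k : Fl o, sS o w k = 0 := by
    intro k
    have h2 : sS o w k = lin o w o - lin o w (fl k.1 1 o) := by
      unfold sS lin Finsupp.sum
      rw [← Finset.sum_sub_distrib]
      refine Finset.sum_congr rfl fun h _ => ?_
      change w h * cc o h.1 k.1 = w h * h.1 o - w h * h.1 (fl k.1 1 o)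
      rw [cc_symm h.2.1 h.2.2.1 k.2.1 k.2.2.1 o]
      unfold cc
      ring
    rw [h2, hw, hw, sub_zero]
  rw [QQ_eq']
  simp only [h1]
  rw [Finsupp.linearCombination_apply]
  simp

end TitsLF
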