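import Pool.Agent.Helper35.TT.FlatPt
import Pool.Agent.Helper35.TT.Comp

/-!
TT-39 Fib. The map to the Euclidean model is proper.

PROOF. Let `Ξ = {k | IsBus k ∧ k o = 0 ∧ ∀ l : Fl o, cc o k l = 0}`.
* `Ξ` is closed: if `k_i → k` pointwise along an ultrafilter, `k_i ∈ Ξ`, then `IsBus k` (`bus_closed`), and `fl k_i 1 o → fl k 1 o` (`fl_tendsto`), so `cc o k_i l = l o - l (fl k_i 1 o) → cc o k l` (`l` continuous).
* `Ξ` is invariant: `cc o (tr o g k) l = cc o k (tr o g⁻¹ l)` by `cc_translate` (applied to `k` and `tr o g⁻¹ l`, whose translate by `g` is `l` up to a constant), and `tr o g⁻¹ l ∈ Fl o` (prove directly with `IsBus.translate`, `IsBus.add_const`).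
* `Ξ` is empty: otherwise `exists_affine` gives an affine `k ∈ Ξ`, so `k ∈ Fl o` and `cc o k k = 0`, but `cc_self`.
Suppose there are `p n` with `‖β (p n)‖ ≤ R`, `dist o (p n) ≥ n`. `bus_of_seq` gives `k`, `F`. For `l : Fl o`: `l (seg o (p n) (1 / dist o (p n))) = l (p n) / dist o (p n)` (`MAffine.on_seg`, `l o = 0`) tends to `0` since
`|l (p n)| = |⟪e l, β (p n)⟫| ≤ ‖e l‖ R`; and `seg o (p n) (1 / dist o (p n)) → fl k 1 o` along `F`; so `l (fl k 1 o) = 0` and `cc o k l = 0`. So `k ∈ Ξ`, contradiction.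
-/

set_option autoImplicit false

namespace TitsLF

universe u v

open scoped RealInnerProductSpace

variable {G : Type u} {X : Type v} [Group G] [MetricSpace X] [MulAction G X] [CAT X]

private theorem fb_tr_mem (h : Act G X) (o : X) (g : G) (k : Fl o) : tr o g k.1 ∈ Fl o := by
  have e : tr o g k.1 = fun x => k.1 (g⁻¹ • x) + (-(k.1 (g⁻¹ • o))) := by
    funext x
    rw [tr, sub_eq_add_neg]
  refine ⟨?_, ?_, ?_⟩
  · rw [e]
    exact (IsBus.translate h.iso k.2.1 g).add_const _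
  · intro x y m hxy
    have h1 : IsMid (g⁻¹ • x) (g⁻¹ • y) (g⁻¹ • m) := IsMid.map (f := fun x : X => g⁻¹ • x)
      (fun a b => h.iso g⁻¹ a b) hxy
    have h2 := k.2.2.1 _ _ _ h1
    simp only [tr]
    rw [h2]
    ring
  · simp [tr]

theorem fib_bdd (h : Act G X) (hm : Minimal G X) (hno : ∀ b : X → ℝ, IsBus b → ¬ QInv G b)
    (hR : Reiter G) (o : X) {n : ℕ} (e : Fl o → EuclideanSpace ℝ (Fin n))
    (β : X → EuclideanSpace ℝ (Fin n)) (hβ : ∀ (k : Fl o) (x : X), ⟪e k, β x⟫ = k.1 x) (R : ℝ) :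
    ∃ R' : ℝ, ∀ x, ‖β x‖ ≤ R → dist o x ≤ R' := by
  classical
  let Ξ : Set (X → ℝ) := {k | IsBus k ∧ k o = 0 ∧ ∀ l : Fl o, cc o k l.1 = 0}
  have hclosed : IsClosed Ξ := by
    rw [← closure_subset_iff_isClosed]
    intro k hk
    rw [mem_closure_iff_comap_neBot] at hk
    haveI := hk
    have hlim : ∀ x, Filter.Tendsto (fun i : Ξ => i.1 x)
        (Filter.comap (Subtype.val : Ξ → (X → ℝ)) (nhds k)) (nhds (k x)) :=
      fun x => ((continuous_apply x).tendsto k).comp Filter.tendsto_comap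
    have hk1 : IsBus k := bus_closed h.prop (fun i : Ξ => i.2.1) hlim
    refine ⟨hk1, ?_, fun l => ?_⟩
    · have h1 : Filter.Tendsto (fun i : Ξ => i.1 o)
          (Filter.comap (Subtype.val : Ξ → (X → ℝ)) (nhds k)) (nhds 0) := by
        have : (fun i : Ξ => i.1 o) = fun _ => (0 : ℝ) := by
          funext i
          exact i.2.2.1
        rw [this]
        exact tendsto_const_nhds
      exact tendsto_nhds_unique (hlim o) h1
    · have h2 : Filter.Tendsto (fun i : Ξ => fl i.1 1 o)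
          (Filter.comap (Subtype.val : Ξ → (X → ℝ)) (nhds k)) (nhds (fl k 1 o)) :=
        fl_tendsto h.prop (fun i : Ξ => i.2.1) hlim (by norm_num) o
      have h3 : Filter.Tendsto (fun i : Ξ => cc o i.1 l.1)
          (Filter.comap (Subtype.val : Ξ → (X → ℝ)) (nhds k)) (nhds (cc o k l.1)) := by
        unfold cc
        exact tendsto_const_nhds.sub ((l.2.1.lip.continuous.tendsto _).comp h2)
      have h4 : Filter.Tendsto (fun i : Ξ => cc o i.1 l.1)
          (Filter.comap (Subtype.val : Ξ → (X → ℝ)) (nhds k)) (nhds 0) := by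
        have : (fun i : Ξ => cc o i.1 l.1) = fun _ => (0 : ℝ) := by
          funext i
          exact i.2.2.2 l
        rw [this]
        exact tendsto_const_nhds
      exact tendsto_nhds_unique h3 h4
  have hinv : ∀ (g : G), ∀ f ∈ Ξ, tr o g f ∈ Ξ := by
    rintro g f ⟨hf1, hf2, hf3⟩
    have e1 : tr o g f = fun x => f (g⁻¹ • x) + (-(f (g⁻¹ • o))) := by
      funext x
      rw [tr, sub_eq_add_neg]
    refine ⟨?_, ?_, fun l => ?_⟩
    · rw [e1]
      exact (IsBus.translate h.iso hf1 g).add_const _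
    · simp [tr]
    · have hl' := fb_tr_mem h o g⁻¹ l
      have h5 := cc_translate h.iso hf1 hl'.2.1 hl'.1.lip g o (-(f (g⁻¹ • o))) (l.1 (g • o))
      have e2 : (fun x => tr o g⁻¹ l.1 (g⁻¹ • x) + l.1 (g • o)) = l.1 := by
        funext x
        simp [tr]
      rw [e2, ← e1] at h5
      rw [h5]
      exact hf3 ⟨_, hl'⟩
  have hempty : ¬ Ξ.Nonempty := by
    intro hne
    obtain ⟨f, hf, hfa⟩ := exists_affine h hm hno hR o Ξ hclosed hne
      (fun f hf => ⟨hf.1, hf.2.1⟩) hinv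
    have h1 := hf.2.2 ⟨f, hf.1, hfa, hf.2.1⟩
    have h2 := cc_self hf.1 o
    change cc o f f = 0 at h1
    rw [h1] at h2
    exact one_ne_zero h2.symm
  by_contra hcon
  push Not at hcon
  choose p hp1 hp2 using fun m : ℕ => hcon (m : ℝ)
  have hp : Filter.Tendsto (fun m => dist o (p m)) Filter.atTop Filter.atTop :=
    Filter.tendsto_atTop_mono (fun m => (hp2 m).le) tendsto_natCast_atTop_atTop
  obtain ⟨k, F, hF, hFle, hk, hko, -, hkfl⟩ := bus_of_seq h.prop o p hp
  apply hempty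
  refine ⟨k, hk, hko, fun l => ?_⟩
  have h1 := hkfl o 1 (by norm_num)
  have h2 : Filter.Tendsto (fun m => l.1 (seg o (p m) (1 / dist o (p m)))) F
      (nhds (l.1 (fl k 1 o))) := (l.2.1.lip.continuous.tendsto _).comp h1
  have hR0 : 0 ≤ R := (norm_nonneg _).trans (hp1 0)
  have h3 : Filter.Tendsto (fun m => l.1 (seg o (p m) (1 / dist o (p m)))) Filter.atTop
      (nhds 0) := by
    have hbig : ∀ᶠ m in Filter.atTop, 1 ≤ dist o (p m) := hp.eventually_ge_atTop 1
    have h4 : Filter.Tendsto (fun m => ‖e l‖ * R / dist o (p m)) Filter.atTop (nhds 0) :=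
      Filter.Tendsto.div_atTop tendsto_const_nhds hp
    refine squeeze_zero_norm' ?_ h4
    filter_upwards [hbig] with m hm1
    have hd0 : 0 < dist o (p m) := lt_of_lt_of_le one_pos hm1
    have ht : 1 / dist o (p m) ∈ Set.Icc (0 : ℝ) 1 :=
      ⟨by positivity, by rw [div_le_one hd0]; exact hm1⟩
    rw [l.2.2.1.on_seg l.2.1.lip.continuous o (p m) ht, l.2.2.2, mul_zero, zero_add, ← hβ l (p m),
      Real.norm_eq_abs, abs_mul, abs_of_nonneg ht.1, one_div, mul_comm, ← div_eq_mul_inv]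
    refine div_le_div_of_nonneg_right ?_ hd0.le
    refine (abs_real_inner_le_norm _ _).trans ?_
    exact mul_le_mul_of_nonneg_left (hp1 m) (norm_nonneg _)
  have h5 : l.1 (fl k 1 o) = 0 := tendsto_nhds_unique h2 (h3.mono_left hFle)
  unfold cc
  rw [h5, l.2.2.2, sub_zero]

end TitsLF
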