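import Pool.Agent.Helper35.TT.LinIso
import Pool.Agent.Helper35.TT.FlatPt
import Pool.Agent.Helper35.TT.Comp

/-!
TT-37 Rep. The affine isometric action of `G` on the Euclidean model.

PROOFS.
* `tr_mem_Fl`: `IsBus.translate`, `IsBus.add_const`; midpoints are preserved; value `0` at `o`. `tr_mul`: `tr o (g * g') f = tr o g (tr o g' f)` (compute: `f (g'⁻¹ g⁻¹ x) - f (g'⁻¹ g⁻¹ o)`). `tr_one`.
* `exists_rep`: for `g : G` the family `e' k = e (tr o g k)` has the same Gram matrix as `e` (`cc_translate`), so `exists_linIso` gives `A g` with `A g (e k) = e (tr o g k)`, unique since the `e k` span. Uniqueness and `tr_mul`, `tr_one` give a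
  homomorphism (`MonoidHom.mk'`; equality of two isometries which agree on a spanning set: `LinearMap.ext_on`, `LinearIsometryEquiv.ext`).
  `β (g • x) = A g (β x) + β (g • o)`: pair with `e k`: `k (g • x) = (tr o g⁻¹ k) x + k (g • o) = ⟪e (tr o g⁻¹ k), β x⟫ + ⟪e k, β (g • o)⟫ = ⟪A g⁻¹ (e k), β x⟫ + … = ⟪e k, A g (β x)⟫ + …`; the `e k` span
  (`ext_inner_left` on a spanning set: `w ⟂ e k` for all `k` implies `w = 0`).
* `beta_flow`: pair with `e k'`: `k' (fl k t x) = k' x - t cc o k k'` (`cc_spec`), `⟪e k', t • e k⟫ = t cc o k' k` and `cc_symm`.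
* `beta_convex`: for `x y`, `t ∈ [0,1]`: `β (seg x y t) = (1 - t) β x + t β y` (`MAffine.on_seg` for every `k`).
* `beta_lip`: choose finitely many `k_i` with `e k_i` a basis; `‖v‖ ≤ C max_i |⟪e k_i, v⟫|`; `|k_i x - k_i y| ≤ dist x y`.
-/

set_option autoImplicit false

namespace TitsLF

universe u v

open scoped RealInnerProductSpace

variable {G : Type u} {X : Type v} [Group G] [MetricSpace X] [MulAction G X]

theorem tr_mem_Fl (h : Act G X) (o : X) (g : G) (k : Fl o) : tr o g k.1 ∈ Fl o := by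
  haveI := h.cat
  refine ⟨?_, ?_, ?_⟩
  · have h1 := (k.2.1.translate h.iso g).add_const (-(k.1 (g⁻¹ • o)))
    have h2 : (fun x => k.1 (g⁻¹ • x) + -(k.1 (g⁻¹ • o))) = tr o g k.1 := by
      funext x
      unfold tr
      ring
    rwa [h2] at h1
  · intro x y m hm
    have h1 := k.2.2.1 _ _ _ (IsMid.map (f := fun x => g⁻¹ • x) (h.iso g⁻¹) hm)
    unfold tr
    change k.1 (g⁻¹ • m) = (k.1 (g⁻¹ • x) + k.1 (g⁻¹ • y)) / 2 at h1
    rw [h1]
    ring
  · unfold tr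
    ring

variable [CAT X]

private theorem eq_of_inner {n : ℕ} {I : Type v} {e : I → EuclideanSpace ℝ (Fin n)}
    (hspan : Submodule.span ℝ (Set.range e) = ⊤) {v w : EuclideanSpace ℝ (Fin n)}
    (h : ∀ i, ⟪e i, v⟫ = ⟪e i, w⟫) : v = w := by
  refine ext_inner_left ℝ fun u => ?_
  have hu : u ∈ Submodule.span ℝ (Set.range e) := by rw [hspan]; trivial
  refine Submodule.span_induction (p := fun u _ => ⟪u, v⟫ = ⟪u, w⟫) ?_ ?_ ?_ ?_ hu
  · rintro _ ⟨i, rfl⟩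
    exact h i
  · rw [inner_zero_left, inner_zero_left]
  · intro x y _ _ hx hy
    rw [inner_add_left, inner_add_left, hx, hy]
  · intro c x _ hx
    rw [real_inner_smul_left, real_inner_smul_left, hx]

private theorem eq_of_range {n : ℕ} {I : Type v} {e : I → EuclideanSpace ℝ (Fin n)}
    (hspan : Submodule.span ℝ (Set.range e) = ⊤)
    {U V : EuclideanSpace ℝ (Fin n) ≃ₗᵢ[ℝ] EuclideanSpace ℝ (Fin n)}
    (h : ∀ i, U (e i) = V (e i)) : U = V := by
  have h1 : (U.toLinearEquiv : EuclideanSpace ℝ (Fin n) →ₗ[ℝ] EuclideanSpace ℝ (Fin n)) =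
      (V.toLinearEquiv : EuclideanSpace ℝ (Fin n) →ₗ[ℝ] EuclideanSpace ℝ (Fin n)) :=
    LinearMap.ext_on_range hspan fun i => h i
  ext1 v
  exact LinearMap.congr_fun h1 v

theorem exists_rep (h : Act G X) (o : X) {n : ℕ} (e : Fl o → EuclideanSpace ℝ (Fin n))
    (β : X → EuclideanSpace ℝ (Fin n)) (he : ∀ k l : Fl o, ⟪e k, e l⟫ = cc o k.1 l.1)
    (hspan : Submodule.span ℝ (Set.range e) = ⊤) (hβ : ∀ (k : Fl o) (x : X), ⟪e k, β x⟫ = k.1 x) :
    ∃ A : G →* (EuclideanSpace ℝ (Fin n) ≃ₗᵢ[ℝ] EuclideanSpace ℝ (Fin n)),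
      (∀ (g : G) (k : Fl o), A g (e k) = e ⟨tr o g k.1, tr_mem_Fl h o g k⟩) ∧
      ∀ (g : G) (x : X), β (g • x) = A g (β x) + β (g • o) := by
  have htr : ∀ (g : G) (k : X → ℝ), tr o g k = fun x => k (g⁻¹ • x) + -(k (g⁻¹ • o)) := by
    intro g k
    funext x
    unfold tr
    ring
  have hex : ∀ g : G, ∃ U : EuclideanSpace ℝ (Fin n) ≃ₗᵢ[ℝ] EuclideanSpace ℝ (Fin n),
      ∀ k : Fl o, U (e k) = e ⟨tr o g k.1, tr_mem_Fl h o g k⟩ := by
    intro g
    refine exists_linIso e (fun k => e ⟨tr o g k.1, tr_mem_Fl h o g k⟩) hspan fun k l => ?_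
    rw [he, he]
    show cc o k.1 l.1 = cc o (tr o g k.1) (tr o g l.1)
    rw [htr, htr, cc_translate h.iso k.2.1 l.2.2.1 l.2.1.lip g o]
  choose A₀ hA₀ using hex
  have hmul : ∀ g g' : G, A₀ (g * g') = A₀ g * A₀ g' := by
    intro g g'
    refine eq_of_range hspan fun k => ?_
    show A₀ (g * g') (e k) = A₀ g (A₀ g' (e k))
    rw [hA₀, hA₀, hA₀]
    congr 1
    apply Subtype.ext
    show tr o (g * g') k.1 = tr o g (tr o g' k.1)
    funext x
    unfold tr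
    rw [mul_inv_rev, mul_smul, mul_smul]
    ring
  refine ⟨MonoidHom.mk' A₀ hmul, fun g k => hA₀ g k, fun g x => ?_⟩
  show β (g • x) = A₀ g (β x) + β (g • o)
  refine eq_of_inner hspan fun k => ?_
  rw [inner_add_right, hβ, hβ]
  have h1 : A₀ g (A₀ g⁻¹ (e k)) = e k := by
    have h2 : A₀ g * A₀ g⁻¹ = 1 := by
      have h3 : A₀ 1 * A₀ 1 = A₀ 1 := by rw [← hmul, one_mul]
      rw [← hmul, mul_inv_cancel]
      exact mul_eq_left.1 h3
    show (A₀ g * A₀ g⁻¹) (e k) = e k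
    rw [h2]
    rfl
  have h2 : ⟪e k, A₀ g (β x)⟫ = ⟪A₀ g⁻¹ (e k), β x⟫ := by
    conv_lhs => rw [← h1]
    exact LinearIsometryEquiv.inner_map_map _ _ _
  rw [h2, hA₀, hβ]
  show k.1 (g • x) = tr o g⁻¹ k.1 x + k.1 (g • o)
  unfold tr
  rw [inv_inv]
  ring

theorem beta_flow (o : X) {n : ℕ} (e : Fl o → EuclideanSpace ℝ (Fin n))
    (β : X → EuclideanSpace ℝ (Fin n)) (he : ∀ k l : Fl o, ⟪e k, e l⟫ = cc o k.1 l.1)
    (hspan : Submodule.span ℝ (Set.range e) = ⊤) (hβ : ∀ (k : Fl o) (x : X), ⟪e k, β x⟫ = k.1 x)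
    (k : Fl o) {t : ℝ} (ht : 0 ≤ t) (x : X) : β (fl k.1 t x) = β x - t • e k := by
  refine eq_of_inner hspan fun l => ?_
  rw [inner_sub_right, real_inner_smul_right, hβ, hβ, he,
    cc_spec k.2.1 l.2.2.1 l.2.1.lip o ht x, cc_symm l.2.1 l.2.2.1 k.2.1 k.2.2.1 o]

theorem beta_convex (o : X) {n : ℕ} (e : Fl o → EuclideanSpace ℝ (Fin n))
    (β : X → EuclideanSpace ℝ (Fin n)) (hspan : Submodule.span ℝ (Set.range e) = ⊤)
    (hβ : ∀ (k : Fl o) (x : X), ⟪e k, β x⟫ = k.1 x) : Convex ℝ (Set.range β) := by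
  rintro _ ⟨x, rfl⟩ _ ⟨y, rfl⟩ a b ha hb hab
  refine ⟨seg x y b, eq_of_inner hspan fun k => ?_⟩
  have hb1 : b ∈ Set.Icc (0:ℝ) 1 := ⟨hb, by linarith⟩
  have ha1 : a = 1 - b := by linarith
  rw [inner_add_right, real_inner_smul_right, real_inner_smul_right, hβ, hβ, hβ,
    k.2.2.1.on_seg k.2.1.lip.continuous x y hb1, ha1]

theorem beta_lip (o : X) {n : ℕ} (e : Fl o → EuclideanSpace ℝ (Fin n))
    (β : X → EuclideanSpace ℝ (Fin n)) (hspan : Submodule.span ℝ (Set.range e) = ⊤)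
    (hβ : ∀ (k : Fl o) (x : X), ⟪e k, β x⟫ = k.1 x) :
    ∃ C : ℝ, 0 ≤ C ∧ ∀ x y, ‖β x - β y‖ ≤ C * dist x y := by
  have key : ∀ v : EuclideanSpace ℝ (Fin n), ∃ C : ℝ, 0 ≤ C ∧
      ∀ x y, |⟪v, β x - β y⟫| ≤ C * dist x y := by
    intro v
    have hv : v ∈ Submodule.span ℝ (Set.range e) := by rw [hspan]; trivial
    refine Submodule.span_induction (p := fun v _ => ∃ C : ℝ, 0 ≤ C ∧
      ∀ x y, |⟪v, β x - β y⟫| ≤ C * dist x y) ?_ ?_ ?_ ?_ hv
    · rintro _ ⟨k, rfl⟩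
      refine ⟨1, zero_le_one, fun x y => ?_⟩
      rw [inner_sub_right, hβ, hβ, one_mul]
      exact k.2.1.lip x y
    · exact ⟨0, le_rfl, fun x y => by rw [inner_zero_left, abs_zero, zero_mul]⟩
    · rintro v w _ _ ⟨C, hC, h1⟩ ⟨C', hC', h2⟩
      refine ⟨C + C', add_nonneg hC hC', fun x y => ?_⟩
      rw [inner_add_left, add_mul]
      exact (abs_add_le _ _).trans (add_le_add (h1 x y) (h2 x y))
    · rintro c v _ ⟨C, hC, h1⟩
      refine ⟨|c| * C, by positivity, fun x y => ?_⟩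
      rw [real_inner_smul_left, abs_mul, mul_assoc]
      exact mul_le_mul_of_nonneg_left (h1 x y) (abs_nonneg c)
  choose C hC0 hC using key
  let b := EuclideanSpace.basisFun (Fin n) ℝ
  refine ⟨∑ i, C (b i), Finset.sum_nonneg fun i _ => hC0 _, fun x y => ?_⟩
  calc ‖β x - β y‖ = ‖∑ i, ⟪b i, β x - β y⟫ • b i‖ := by rw [b.sum_repr']
    _ ≤ ∑ i, ‖⟪b i, β x - β y⟫ • b i‖ := norm_sum_le _ _
    _ ≤ ∑ i, C (b i) * dist x y := by
        refine Finset.sum_le_sum fun i _ => ?_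
        rw [norm_smul, b.norm_eq_one, mul_one, Real.norm_eq_abs]
        exact hC _ x y
    _ = (∑ i, C (b i)) * dist x y := by rw [Finset.sum_mul]

end TitsLF
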