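import Pool.Agent.Helper35.TT.Seg

/-!
TT-03 Quad. The quadrilateral inequality with a parameter, and the differences of distances to far away points.

PROOFS.
* `quad_k`: put `q i = seg p q (i / k)` for `i ≤ k` (`q 0 = p`, `q k = q`, `dist (q i) (q (i+1)) = dist p q / k`). `quad_weak` for `x y (q i) (q (i+1))`
  reads `dist x (q (i+1))^2 - dist x (q i)^2 - (dist y (q (i+1))^2 - dist y (q i)^2) ≤ dist x y^2 + (dist p q / k)^2`. Sum over `i < k` (`Finset.sum_range_sub`).
* `cross_tendsto`. Write `a = d x q - d x p`, `b = d y q - d y p`, `A = d x q + d x p`, `B = d y q + d y p` (depending on `n`), `ε = d p q / r → 0`, so `|a|, |b| ≤ ε r`,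
  `|A - B| ≤ 2 d x y`, and `A / r → 2` (`d x p = d o p + O(1)`, `d x q = d x p + O(ε r)`). By `quad_k`, with `k = ⌈ε r⌉₊ + 1`:
  `a A - b B ≤ k d(x,y)^2 + (ε r)^2 / k ≤ (ε r + 2) d(x,y)^2 + ε r`, and `a A - b B = (a - b) A + b (A - B)`, so
  `(a - b) A ≤ (ε r + 2) d(x,y)^2 + ε r + 2 ε r d(x,y)`. Divide by `A` (eventually `A ≥ r`): `a - b ≤` something that tends to `0`. The lower bound: exchange `x` and `y`.
-/

set_option autoImplicit false

namespace TitsLF

open Filter Topology

universe u v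

variable {X : Type v} [MetricSpace X] [CAT X]

theorem quad_k (x y p q : X) {k : ℕ} (hk : 1 ≤ k) :
    (dist x q ^ 2 - dist x p ^ 2) - (dist y q ^ 2 - dist y p ^ 2) ≤
      k * dist x y ^ 2 + dist p q ^ 2 / k := by
  have hk0 : (0 : ℝ) < k := by exact_mod_cast hk
  obtain ⟨c, hc⟩ : ∃ c : ℕ → X, ∀ i, c i = seg p q (i / k) := ⟨_, fun i => rfl⟩
  have hc0 : c 0 = p := by rw [hc, Nat.cast_zero, zero_div, seg_zero]
  have hck : c k = q := by rw [hc, div_self hk0.ne', seg_one]
  have hmem : ∀ i : ℕ, i ≤ k → ((i : ℝ) / k) ∈ Set.Icc (0 : ℝ) 1 := by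
    intro i hi
    have : (i : ℝ) ≤ k := by exact_mod_cast hi
    exact ⟨by positivity, (div_le_one hk0).2 this⟩
  have hstep : ∀ i < k, dist (c (i + 1)) (c i) = dist p q / k := by
    intro i hi
    rw [hc, hc, dist_seg p q (hmem _ hi) (hmem _ hi.le), Nat.cast_succ, ← sub_div,
      add_sub_cancel_left, abs_of_pos (by positivity)]
    ring
  have hsum : ∀ i < k, ((dist x (c (i + 1)) ^ 2 - dist y (c (i + 1)) ^ 2) -
      (dist x (c i) ^ 2 - dist y (c i) ^ 2)) ≤ dist x y ^ 2 + (dist p q / k) ^ 2 := by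
    intro i hi
    have h := quad_weak x y (c i) (c (i + 1))
    rw [hstep i hi, dist_comm (c i) x] at h
    linarith
  have h1 := Finset.sum_range_sub (fun i => dist x (c i) ^ 2 - dist y (c i) ^ 2) k
  have h2 : ∑ i ∈ Finset.range k, ((dist x (c (i + 1)) ^ 2 - dist y (c (i + 1)) ^ 2) -
      (dist x (c i) ^ 2 - dist y (c i) ^ 2)) ≤
      ∑ _i ∈ Finset.range k, (dist x y ^ 2 + (dist p q / k) ^ 2) :=
    Finset.sum_le_sum fun i hi => hsum i (Finset.mem_range.1 hi)
  rw [h1, Finset.sum_const, Finset.card_range, nsmul_eq_mul] at h2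
  simp only [hc0, hck] at h2
  have h3 : (k : ℝ) * (dist x y ^ 2 + (dist p q / k) ^ 2) =
      k * dist x y ^ 2 + dist p q ^ 2 / k := by
    field_simp
  rw [h3] at h2
  linarith

private theorem cross_one {ι : Type u} {l : Filter ι} (o x y : X) (p q : ι → X) (r : ι → ℝ)
    (hr : Tendsto r l atTop) (hp : Tendsto (fun n => dist o (p n) / r n) l (𝓝 1)) :
    ∀ᶠ n in l, (dist x (q n) - dist x (p n)) - (dist y (q n) - dist y (p n)) ≤
      2 * ((dist (p n) (q n) / r n) * (dist x y ^ 2 + 1 + 2 * dist x y) +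
        2 * dist x y ^ 2 / r n) := by
  have h1 : ∀ᶠ n in l, 3 / 4 < dist o (p n) / r n := hp.eventually (lt_mem_nhds (by norm_num))
  filter_upwards [h1, hr.eventually_ge_atTop 1, hr.eventually_ge_atTop (4 * dist o x)]
    with n h1 h2 h3
  have hr0 : 0 < r n := by linarith
  have hD : 0 ≤ dist x y := dist_nonneg
  have hs : 0 ≤ dist (p n) (q n) := dist_nonneg
  rw [lt_div_iff₀ hr0] at h1
  have hA : r n / 2 ≤ dist x (q n) + dist x (p n) := by
    have h4 := dist_triangle o x (p n)
    have h5 : 0 ≤ dist x (q n) := dist_nonneg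
    linarith
  by_cases hneg : (dist x (q n) - dist x (p n)) - (dist y (q n) - dist y (p n)) ≤ 0
  · refine hneg.trans ?_
    positivity
  push Not at hneg
  obtain ⟨k, hk⟩ : ∃ k : ℕ, k = ⌈dist (p n) (q n)⌉₊ + 1 := ⟨_, rfl⟩
  have hk1 : 1 ≤ k := by omega
  have hk2 : dist (p n) (q n) ≤ k := by
    rw [hk]
    push_cast
    linarith [Nat.le_ceil (dist (p n) (q n))]
  have hk3 : (k : ℝ) ≤ dist (p n) (q n) + 2 := by
    rw [hk]
    push_cast
    linarith [Nat.ceil_lt_add_one hs]
  have hk0 : (0 : ℝ) < k := by exact_mod_cast hk1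
  have hq := quad_k x y (p n) (q n) hk1
  have hq2 : dist (p n) (q n) ^ 2 / k ≤ dist (p n) (q n) := by
    rw [div_le_iff₀ hk0]
    nlinarith
  have hb : |dist y (q n) - dist y (p n)| ≤ dist (p n) (q n) := by
    rw [dist_comm y (q n), dist_comm y (p n), dist_comm (p n) (q n)]
    exact abs_dist_sub_le _ _ _
  have hAB : |(dist x (q n) + dist x (p n)) - (dist y (q n) + dist y (p n))| ≤ 2 * dist x y := by
    have h6 := abs_dist_sub_le x y (q n)
    have h7 := abs_dist_sub_le x y (p n)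
    rw [abs_le] at h6 h7 ⊢
    constructor <;> linarith [h6.1, h6.2, h7.1, h7.2]
  have hmul : -((dist y (q n) - dist y (p n)) *
      ((dist x (q n) + dist x (p n)) - (dist y (q n) + dist y (p n)))) ≤
      dist (p n) (q n) * (2 * dist x y) := by
    refine (neg_le_abs _).trans ?_
    rw [abs_mul]
    exact mul_le_mul hb hAB (abs_nonneg _) hs
  have hkD : (k : ℝ) * dist x y ^ 2 ≤ (dist (p n) (q n) + 2) * dist x y ^ 2 :=
    mul_le_mul_of_nonneg_right hk3 (sq_nonneg _)
  have hmain : ((dist x (q n) - dist x (p n)) - (dist y (q n) - dist y (p n))) *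
      (dist x (q n) + dist x (p n)) ≤ (dist (p n) (q n) + 2) * dist x y ^ 2 +
        dist (p n) (q n) + dist (p n) (q n) * (2 * dist x y) := by
    nlinarith
  have hmain2 : ((dist x (q n) - dist x (p n)) - (dist y (q n) - dist y (p n))) * (r n / 2) ≤
      (dist (p n) (q n) + 2) * dist x y ^ 2 +
        dist (p n) (q n) + dist (p n) (q n) * (2 * dist x y) :=
    (mul_le_mul_of_nonneg_left hA hneg.le).trans hmain
  have hfin : 2 * ((dist (p n) (q n) / r n) * (dist x y ^ 2 + 1 + 2 * dist x y) +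
        2 * dist x y ^ 2 / r n) = ((dist (p n) (q n) + 2) * dist x y ^ 2 +
        dist (p n) (q n) + dist (p n) (q n) * (2 * dist x y)) / (r n / 2) := by
    field_simp
    ring
  rw [hfin, le_div_iff₀ (by positivity)]
  exact hmain2

theorem cross_tendsto {ι : Type u} {l : Filter ι} (o x y : X) (p q : ι → X) (r : ι → ℝ)
    (hr : Tendsto r l atTop) (hp : Tendsto (fun n => dist o (p n) / r n) l (𝓝 1))
    (hpq : Tendsto (fun n => dist (p n) (q n) / r n) l (𝓝 0)) :
    Tendsto (fun n => (dist x (q n) - dist x (p n)) - (dist y (q n) - dist y (p n))) l (𝓝 0) := by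
  have hu : Tendsto (fun n => 2 * ((dist (p n) (q n) / r n) * (dist x y ^ 2 + 1 + 2 * dist x y) +
        2 * dist x y ^ 2 / r n)) l (𝓝 0) := by
    have h1 := hpq.mul_const (dist x y ^ 2 + 1 + 2 * dist x y)
    have h2 : Tendsto (fun n => 2 * dist x y ^ 2 / r n) l (𝓝 0) := hr.const_div_atTop _
    have h3 := (h1.add h2).const_mul 2
    simpa using h3
  have h1 := cross_one o x y p q r hr hp
  have h2 := cross_one o y x p q r hr hp
  refine tendsto_of_tendsto_of_tendsto_of_le_of_le' (by simpa using hu.neg) hu ?_ h1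
  filter_upwards [h2] with n h2
  rw [dist_comm y x] at h2
  linarith

end TitsLF
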