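import Pool.Agent.Helper35.TT.Seg

/-!
TT-07 FrameBdd. Frames have bounded size.

PROOFS.
* `frame_mono`: restrict `p` to `Fin n`.
* `frame_bdd`: `D` from `coc o`; `B = closedBall o (D + 1)` is compact, so totally bounded: covered by `N` balls of radius `1/2`. If `Frame X (N + 1)` with centre `o'` and points `p i`: move `o'` by `g` into
  `closedBall o D`; the `g • p i` are `N + 1` points of `B` with pairwise distances `≥ √2 > 1`, two of them lie in the same ball of radius `1/2`, contradiction.
* `bdd_of_no_frame`: if `dist x y ≥ 1` then `seg x y (1 / dist x y)` has distance `1` from `x`, a frame with one point.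
* `finite_of_bdd`: all `g` satisfy `dist (g • x) x < 1` (`fin`).
-/

set_option autoImplicit false

namespace TitsLF

universe u v

theorem frame_mono {X : Type v} [MetricSpace X] {m n : ℕ} (hmn : m ≤ n) (h : Frame X n) :
    Frame X m := by
  obtain ⟨o, p, h1, h2⟩ := h
  exact ⟨o, fun i => p (Fin.castLE hmn i), fun i => h1 _,
    fun i j hij => h2 _ _ fun h => hij (Fin.castLE_injective hmn h)⟩

theorem bdd_of_no_frame {X : Type v} [MetricSpace X] [CAT X] (h : ¬ Frame X 1) (x y : X) :
    dist x y < 1 := by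
  by_contra hcon
  push Not at hcon
  have h0 : 0 < dist x y := by linarith
  have ht : 1 / dist x y ∈ Set.Icc (0:ℝ) 1 :=
    ⟨by positivity, by rw [div_le_one h0]; exact hcon⟩
  refine h ⟨x, fun _ => seg x y (1 / dist x y), fun _ => ?_, fun i j hij => ?_⟩
  · rw [dist_left_seg x y ht, one_div, inv_mul_cancel₀ h0.ne']
  · exact absurd (Subsingleton.elim i j) hij

variable {G : Type u} {X : Type v} [Group G] [MetricSpace X] [MulAction G X]

theorem frame_bdd (h : Act G X) : ∃ n : ℕ, ¬ Frame X n := by
  obtain ⟨o⟩ := h.ne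
  obtain ⟨D, hD, hco⟩ := h.coc o
  obtain ⟨t, ht, hB⟩ := Metric.totallyBounded_iff.1 (h.prop o (D + 1)).totallyBounded (1 / 2) (by norm_num)
  refine ⟨ht.toFinset.card + 1, ?_⟩
  rintro ⟨o', p, h1, h2⟩
  obtain ⟨g, hg⟩ := hco o'
  have h3 : ∀ i, ∃ y ∈ t, dist (g • p i) y < 1 / 2 := by
    intro i
    have h4 : g • p i ∈ Metric.closedBall o (D + 1) := by
      rw [Metric.mem_closedBall]
      have h5 := dist_triangle (g • p i) (g • o') o
      rw [h.iso, dist_comm (p i) o', h1 i] at h5
      linarith
    have h6 := hB h4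
    rw [Set.mem_iUnion₂] at h6
    obtain ⟨y, hy, hy2⟩ := h6
    exact ⟨y, hy, Metric.mem_ball.1 hy2⟩
  choose y hy hd using h3
  have h7 : ∃ i ∈ (Finset.univ : Finset (Fin (ht.toFinset.card + 1))), ∃ j ∈ (Finset.univ : Finset (Fin (ht.toFinset.card + 1))),
      i ≠ j ∧ y i = y j := by
    refine Finset.exists_ne_map_eq_of_card_lt_of_maps_to (t := ht.toFinset) ?_ ?_
    · rw [Finset.card_univ, Fintype.card_fin]
      exact Nat.lt_succ_self _
    · intro i _
      exact Finset.mem_coe.2 ((Set.Finite.mem_toFinset ht).2 (hy i))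
  obtain ⟨i, _, j, _, hij, hyy⟩ := h7
  have h8 := h2 i j hij
  have h9 := dist_triangle_right (g • p i) (g • p j) (y i)
  rw [h.iso] at h9
  have h10 := hd i
  have h11 := hd j
  rw [← hyy] at h11
  have h12 : 0 ≤ dist (p i) (p j) := dist_nonneg
  nlinarith

theorem finite_of_bdd (h : Act G X) (hb : ¬ Frame X 1) : Finite G := by
  obtain ⟨x⟩ := h.ne
  have hc := h.cat
  have h1 := h.fin x 1
  have h2 : {g : G | dist (g • x) x ≤ 1} = Set.univ := by
    ext g
    simp only [Set.mem_ofPred_eq, Set.mem_univ, iff_true]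
    exact (bdd_of_no_frame hb _ _).le
  rw [h2] at h1
  exact Set.finite_univ_iff.1 h1

end TitsLF
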