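import Pool.Agent.Helper35.TT.PosBd
import Pool.Agent.Helper35.TT.FrameBdd

/-!
TT-35 Model. A Euclidean model of `Fl o`.

PROOF. `¬ Frame X n₀`; by `frame_of_posDef` and `frame_mono` there is a largest `n < n₀` (`n ≥ 0`; the empty family is positive definite) for which a positive definite family `h : Fin n → Fl o` exists (`Nat.findGreatest` or `Nat.find`).
For `k : Fl o` the family `(h, k)` of length `n + 1` is not positive definite: there are `(c, c₀) ≠ 0` with `∑ ... ≤ 0`, hence `= 0` (`QQ_nonneg` for `w = ∑ single (h i) (c i) + single k c₀`); `c₀ ≠ 0` as `h` is positive definite.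
By `lin_eq_zero`: `c₀ k x + ∑ c i h i x = 0` for all `x`; so `k x = ∑ a i (h i) x`, `a i = - c i / c₀` (coefficients `a k : Fin n → ℝ`, chosen for each `k`).
`C = (cc o (h i) (h j)) = Bᵀ B`, `B : Matrix (Fin n) (Fin n) ℝ` invertible (`Matrix.posSemidef_iff_eq_conjTranspose_mul_self`). `e₀ i : EuclideanSpace ℝ (Fin n)` the `i`-th column of `B`: `⟪e₀ i, e₀ j⟫ = C i j`, a basis.
`e k = ∑ a k i • e₀ i`. Then `⟪e k, e l⟫ = ∑ a k i a l j C i j = cc o k l`: by `QQ_eq_zero` for `w = single k 1 - ∑ single (h i) (a k i)` (`lin w = 0`), `QQ` does not change if `single k 1` is replaced by the combination.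
In particular `e (h i) = e₀ i` (Gram matrices: `‖e (h i) - e₀ i‖^2 = 0`, or as the `e₀` are a basis), so the span is everything. `β x`: the unique vector with `⟪e₀ i, β x⟫ = (h i) x` for all `i` (`B` invertible); then `⟪e k, β x⟫ = ∑ a k i (h i) x = k x`.
-/

set_option autoImplicit false

namespace TitsLF

universe u v

variable {X : Type v} [MetricSpace X] [CAT X]

omit [CAT X] in
private theorem lin_lc (o : X) (w : Fl o →₀ ℝ) (x : X) :
    lin o w x = Finsupp.linearCombination ℝ (fun h : Fl o => h.1 x) w := by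
  rw [Finsupp.linearCombination_apply]
  rfl

omit [CAT X] in
private theorem QQ_lc (o : X) (w w' : Fl o →₀ ℝ) :
    QQ o w w' = Finsupp.linearCombination ℝ (fun h : Fl o =>
      Finsupp.linearCombination ℝ (fun k : Fl o => cc o h.1 k.1) w') w := by
  rw [Finsupp.linearCombination_apply]
  unfold QQ
  refine Finset.sum_congr rfl fun h _ => ?_
  change (w'.sum fun k b => w h * b * cc o h.1 k.1) =
    w h • (Finsupp.linearCombination ℝ (fun k : Fl o => cc o h.1 k.1) w')
  rw [Finsupp.linearCombination_apply, smul_eq_mul, Finsupp.mul_sum]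
  refine Finset.sum_congr rfl fun k _ => ?_
  change w h * w' k * cc o h.1 k.1 = w h * (w' k * cc o h.1 k.1)
  rw [mul_assoc]

omit [CAT X] in
private theorem lc_sum (o : X) {N : ℕ} (h : Fin N → Fl o) (c : Fin N → ℝ) (f : Fl o → ℝ) :
    Finsupp.linearCombination ℝ f (∑ i, Finsupp.single (h i) (c i)) = ∑ i, c i * f (h i) := by
  rw [map_sum]
  refine Finset.sum_congr rfl fun i _ => ?_
  rw [Finsupp.linearCombination_single, smul_eq_mul]

private theorem QQ_sum (o : X) {N : ℕ} (h : Fin N → Fl o) (c c' : Fin N → ℝ) :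
    QQ o (∑ i, Finsupp.single (h i) (c i)) (∑ i, Finsupp.single (h i) (c' i)) =
      ∑ i, ∑ j, c i * c' j * cc o (h i).1 (h j).1 := by
  rw [QQ_lc, lc_sum]
  refine Finset.sum_congr rfl fun i _ => ?_
  rw [lc_sum, Finset.mul_sum]
  refine Finset.sum_congr rfl fun j _ => ?_
  rw [mul_assoc]

omit [CAT X] in
private theorem lin_sum (o : X) {N : ℕ} (h : Fin N → Fl o) (c : Fin N → ℝ) (x : X) :
    lin o (∑ i, Finsupp.single (h i) (c i)) x = ∑ i, c i * (h i).1 x := by
  rw [lin_lc, lc_sum]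

private theorem QQ_sub_left (o : X) (w₁ w₂ w : Fl o →₀ ℝ) :
    QQ o (w₁ - w₂) w = QQ o w₁ w - QQ o w₂ w := by
  rw [QQ_lc, QQ_lc, QQ_lc, map_sub]

private theorem QQ_single_single (o : X) (h k : Fl o) :
    QQ o (Finsupp.single h 1) (Finsupp.single k 1) = cc o h.1 k.1 := by
  rw [QQ_lc, Finsupp.linearCombination_single, Finsupp.linearCombination_single, one_smul,
    one_smul]

open scoped MatrixOrder Matrix in
private theorem psd_sq {n : ℕ} {C : Matrix (Fin n) (Fin n) ℝ} (hC : C.PosSemidef) :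
    ∃ B : Matrix (Fin n) (Fin n) ℝ, C = Bᴴ * B := by
  obtain ⟨B, hB⟩ := CStarAlgebra.nonneg_iff_eq_star_mul_self.mp hC.nonneg
  exact ⟨B, hB⟩

/-- positive definite family -/
private def Pd (o : X) (N : ℕ) (h : Fin N → Fl o) : Prop :=
  ∀ c : Fin N → ℝ, c ≠ 0 → 0 < ∑ i, ∑ j, c i * c j * cc o (h i).1 (h j).1

private theorem exists_max (o : X) {n₀ : ℕ} (hn : ¬ Frame X n₀) :
    ∃ n : ℕ, (∃ h : Fin n → Fl o, Pd o n h) ∧ ¬ ∃ h : Fin (n + 1) → Fl o, Pd o (n + 1) h := by
  by_contra hc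
  push Not at hc
  have h1 : ∀ n : ℕ, ∃ h : Fin n → Fl o, Pd o n h := by
    intro n
    induction n with
    | zero => exact ⟨fun i => i.elim0, fun c hc => absurd (Subsingleton.elim c 0) hc⟩
    | succ n ih =>
      obtain ⟨h, hh⟩ := ih
      exact hc n ⟨h, hh⟩
  obtain ⟨h, hh⟩ := h1 n₀
  exact hn (frame_of_posDef o h hh)

private theorem exists_coeff (o : X) {n : ℕ} (h : Fin n → Fl o) (hpd : Pd o n h)
    (hmax : ¬ ∃ h : Fin (n + 1) → Fl o, Pd o (n + 1) h) (k : Fl o) :
    ∃ a : Fin n → ℝ, ∀ x, k.1 x = ∑ i, a i * (h i).1 x := by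
  have h1 : ¬ Pd o (n + 1) (Fin.cons k h) := fun hp => hmax ⟨_, hp⟩
  unfold Pd at h1
  push Not at h1
  obtain ⟨c, hc0, hc⟩ := h1
  have hQ : QQ o (∑ i, Finsupp.single ((Fin.cons k h : Fin (n + 1) → Fl o) i) (c i))
      (∑ i, Finsupp.single ((Fin.cons k h : Fin (n + 1) → Fl o) i) (c i)) = 0 := by
    refine le_antisymm ?_ (QQ_nonneg o _)
    rw [QQ_sum]
    exact hc
  have hlin := lin_eq_zero o _ hQ
  have hlin2 : ∀ x, c 0 * k.1 x + ∑ i : Fin n, c i.succ * (h i).1 x = 0 := by
    intro x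
    have h2 := hlin x
    rw [lin_sum, Fin.sum_univ_succ] at h2
    exact h2
  have hc00 : c 0 ≠ 0 := by
    intro h0
    have h3 : (fun i : Fin n => c i.succ) = 0 := by
      by_contra hne
      have h4 := hpd _ hne
      have h5 : ∑ i, ∑ j, c i * c j * cc o ((Fin.cons k h : Fin (n + 1) → Fl o) i).1
          ((Fin.cons k h : Fin (n + 1) → Fl o) j).1 =
          ∑ i : Fin n, ∑ j : Fin n, c i.succ * c j.succ * cc o (h i).1 (h j).1 := by
        rw [Fin.sum_univ_succ]
        have h6 : ∑ j, c 0 * c j * cc o ((Fin.cons k h : Fin (n + 1) → Fl o) 0).1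
            ((Fin.cons k h : Fin (n + 1) → Fl o) j).1 = 0 :=
          Finset.sum_eq_zero fun j _ => by rw [h0, zero_mul, zero_mul]
        rw [h6, zero_add]
        refine Finset.sum_congr rfl fun i _ => ?_
        rw [Fin.sum_univ_succ, h0, mul_zero, zero_mul, zero_add]
        rfl
      rw [h5] at hc
      exact absurd hc (not_le.2 h4)
    apply hc0
    funext i
    refine Fin.cases ?_ (fun j => ?_) i
    · exact h0
    · exact congrFun h3 j
  refine ⟨fun i => -c i.succ / c 0, fun x => ?_⟩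
  have h7 := hlin2 x
  have h8 : ∑ i, -c (Fin.succ i) / c 0 * (h i).1 x =
      -(∑ i : Fin n, c i.succ * (h i).1 x) / c 0 := by
    rw [← Finset.sum_neg_distrib, Finset.sum_div]
    refine Finset.sum_congr rfl fun i _ => ?_
    ring
  rw [h8, eq_div_iff hc00]
  linarith

open scoped RealInnerProductSpace in
theorem exists_model (o : X) {n₀ : ℕ} (hn : ¬ Frame X n₀) :
    ∃ (n : ℕ) (e : Fl o → EuclideanSpace ℝ (Fin n)) (β : X → EuclideanSpace ℝ (Fin n)),
      (∀ h k : Fl o, ⟪e h, e k⟫ = cc o h.1 k.1) ∧ Submodule.span ℝ (Set.range e) = ⊤ ∧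
      ∀ (h : Fl o) (x : X), ⟪e h, β x⟫ = h.1 x := by
  obtain ⟨n, ⟨h, hpd⟩, hmax⟩ := exists_max o hn
  choose a ha using exists_coeff o h hpd hmax
  -- the Gram matrix
  obtain ⟨C, hC⟩ : ∃ C : Matrix (Fin n) (Fin n) ℝ, ∀ i j, C i j = cc o (h i).1 (h j).1 :=
    ⟨Matrix.of fun i j => cc o (h i).1 (h j).1, fun _ _ => rfl⟩
  have hCsymm : C.IsHermitian := by
    refine Matrix.IsHermitian.ext fun i j => ?_
    rw [star_trivial, hC, hC,
      cc_symm (h j).2.1 (h j).2.2.1 (h i).2.1 (h i).2.2.1 o]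
  have hCpos : C.PosSemidef := by
    refine Matrix.PosSemidef.of_dotProduct_mulVec_nonneg hCsymm fun c => ?_
    have h1 : star c ⬝ᵥ C.mulVec c = ∑ i, ∑ j, c i * c j * cc o (h i).1 (h j).1 := by
      rw [star_trivial]
      unfold dotProduct Matrix.mulVec dotProduct
      refine Finset.sum_congr rfl fun i _ => ?_
      rw [Finset.mul_sum]
      refine Finset.sum_congr rfl fun j _ => ?_
      change c i * (C i j * c j) = _
      rw [hC]
      ring
    rw [h1]
    by_cases hc : c = 0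
    · rw [hc]
      refine le_of_eq (Eq.symm ?_)
      refine Finset.sum_eq_zero fun i _ => Finset.sum_eq_zero fun j _ => ?_
      rw [Pi.zero_apply, zero_mul, zero_mul]
    · exact (hpd c hc).le
  obtain ⟨B, hB⟩ := psd_sq hCpos
  obtain ⟨e₀, he₀⟩ : ∃ e₀ : Fin n → EuclideanSpace ℝ (Fin n), ∀ i j, e₀ i j = B j i :=
    ⟨fun i => WithLp.toLp 2 fun j => B j i, fun _ _ => rfl⟩
  have hinner : ∀ i j, ⟪e₀ i, e₀ j⟫ = cc o (h i).1 (h j).1 := by
    intro i j
    rw [← hC, hB, Matrix.mul_apply, PiLp.inner_apply]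
    refine Finset.sum_congr rfl fun l _ => ?_
    rw [he₀, he₀, Matrix.conjTranspose_apply, star_trivial]
    exact mul_comm _ _
  have hcomb : ∀ c c' : Fin n → ℝ, ⟪∑ i, c i • e₀ i, ∑ j, c' j • e₀ j⟫ =
      ∑ i, ∑ j, c i * c' j * cc o (h i).1 (h j).1 := by
    intro c c'
    rw [sum_inner]
    refine Finset.sum_congr rfl fun i _ => ?_
    rw [inner_sum]
    refine Finset.sum_congr rfl fun j _ => ?_
    rw [real_inner_smul_left, real_inner_smul_right, hinner, mul_assoc]
  have hli : LinearIndependent ℝ e₀ := by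
    rw [Fintype.linearIndependent_iff]
    intro c hc
    by_contra hne
    push Not at hne
    obtain ⟨i, hi⟩ := hne
    have h1 : c ≠ 0 := fun h0 => hi (congrFun h0 i)
    have h2 := hpd c h1
    rw [← hcomb, hc, inner_zero_left] at h2
    exact lt_irrefl _ h2
  have hspan : Submodule.span ℝ (Set.range e₀) = ⊤ :=
    hli.span_eq_top_of_card_eq_finrank' (by rw [finrank_euclideanSpace])
  have hw : ∀ (k : Fl o) (w : Fl o →₀ ℝ), QQ o (Finsupp.single k 1) w =
      QQ o (∑ i, Finsupp.single (h i) (a k i)) w := by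
    intro k w
    have h1 := QQ_eq_zero o (Finsupp.single k 1 - ∑ i, Finsupp.single (h i) (a k i)) w (by
      intro x
      rw [lin_lc, map_sub, Finsupp.linearCombination_single, one_smul, lc_sum, ha k x, sub_self])
    rw [QQ_sub_left] at h1
    exact sub_eq_zero.1 h1
  have hself : ∀ i, a (h i) = Pi.single i 1 := by
    intro i
    by_contra hne
    have h1 : a (h i) - Pi.single i 1 ≠ 0 := sub_ne_zero.2 hne
    have h2 := hpd _ h1
    rw [← QQ_sum] at h2
    have h3 := QQ_eq_zero o (∑ j, Finsupp.single (h j) ((a (h i) - Pi.single i 1 : Fin n → ℝ) j))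
      (∑ j, Finsupp.single (h j) ((a (h i) - Pi.single i 1 : Fin n → ℝ) j)) (by
        intro x
        rw [lin_sum]
        have h4 : ∀ j, (a (h i) - Pi.single i 1 : Fin n → ℝ) j * (h j).1 x =
            a (h i) j * (h j).1 x - (Pi.single i 1 : Fin n → ℝ) j * (h j).1 x := fun j => by
          rw [Pi.sub_apply, sub_mul]
        rw [Finset.sum_congr rfl fun j _ => h4 j, Finset.sum_sub_distrib, ← ha (h i) x,
          sub_eq_zero]
        rw [Finset.sum_eq_single_of_mem i (Finset.mem_univ i) fun j _ hj => by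
          rw [Pi.single_eq_of_ne hj, zero_mul], Pi.single_eq_same, one_mul])
    rw [h3] at h2
    exact lt_irrefl _ h2
  obtain ⟨b, hb⟩ : ∃ b : Module.Basis (Fin n) ℝ (EuclideanSpace ℝ (Fin n)), ⇑b = e₀ :=
    ⟨Module.Basis.mk hli hspan.ge, Module.Basis.coe_mk _ _⟩
  have hβ : ∀ x : X, ∃ v : EuclideanSpace ℝ (Fin n), ∀ i, ⟪e₀ i, v⟫ = (h i).1 x := by
    intro x
    refine ⟨(InnerProductSpace.toDual ℝ (EuclideanSpace ℝ (Fin n))).symm
      (LinearMap.toContinuousLinearMap (b.constr ℝ fun i => (h i).1 x)), fun i => ?_⟩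
    rw [real_inner_comm, InnerProductSpace.toDual_symm_apply]
    rw [LinearMap.coe_toContinuousLinearMap', ← hb, Module.Basis.constr_basis]
  choose β hβ using hβ
  refine ⟨n, fun k => ∑ i, a k i • e₀ i, β, ?_, ?_, ?_⟩
  · intro k l
    rw [hcomb, ← QQ_sum, ← hw k, QQ_symm, ← hw l, QQ_symm, QQ_single_single]
  · rw [eq_top_iff, ← hspan]
    refine Submodule.span_mono ?_
    rintro _ ⟨i, rfl⟩
    refine ⟨h i, ?_⟩
    change ∑ j, a (h i) j • e₀ j = e₀ i
    rw [hself, Finset.sum_eq_single_of_mem i (Finset.mem_univ i) fun j _ hj => by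
      rw [Pi.single_eq_of_ne hj, zero_smul], Pi.single_eq_same, one_smul]
  · intro k x
    rw [sum_inner, ha k x]
    refine Finset.sum_congr rfl fun i _ => ?_
    rw [real_inner_smul_left, hβ]

end TitsLF
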