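import Pool.Agent.Helper35.TT.Bus

/-!
TT-22 BusEx. Compactness of the set of normalised functions with `IsBus`, and limits of differences of distances.

PROOFS.
* `bus_closed`: convexity and the Lipschitz condition pass to pointwise limits. Ray: fix `x`, `t`; `y i = fl (f i) t x ∈ closedBall x t` (compact). Choose an ultrafilter `U ≤ F` (`Ultrafilter.of F`); `y` converges along `U` to some `y₀`
  (`IsCompact.ultrafilter_le_nhds`), `dist x y₀ = t`; `|f i (y i) - f i y₀| ≤ dist (y i) y₀ → 0` and `f i y₀ → h y₀`, `f i (y i) = f i x - t`, so `h y₀ = h x - t`.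
* `fl_tendsto`: for every ultrafilter `U ≤ F` the limit of `y i` along `U` exists (compactness) and is `fl h t x` by `fl_unique` and the computation above; so `y → fl h t x` along `F`
  (`tendsto_iff_ultrafilter` or `tendsto_of_subseq_tendsto`-like: `Filter.tendsto_iff_ultrafilter`).
* `isCompact_bus`: a closed (`bus_closed`, `isClosed_iff_ultrafilter` or `mem_closure_iff_ultrafilter`) subset of the compact set `Set.pi univ (fun x => Icc (-dist x o) (dist x o))` (`isCompact_univ_pi`).
* `bus_of_seq`: `U` an ultrafilter with `U ≤ atTop` (`Ultrafilter.of atTop`). For each `x` the bounded sequence `dist x (p n) - dist o (p n) ∈ [-dist x o, dist x o]` converges along `U` to `h x`. `h` is convex (`dist_mconvex`) and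
  Lipschitz, `h o = 0`. For `t ≥ 0` the points `y n = seg x (p n) (t / dist x (p n))` (for large `n`, `dist x (p n) ≥ t`) have distance `t` from `x` and `dist (y n) (p n) = dist x (p n) - t`. Along `U` they converge to some `y₀`, `dist x y₀ = t`,
  `dist y₀ (p n) - dist o (p n) → h y₀` and it differs from `dist (y n) (p n) - dist o (p n) = dist x (p n) - dist o (p n) - t` by at most `dist (y n) y₀ → 0`; so `h y₀ = h x - t`. This proves `IsBus h`,
  and then `y₀ = fl h t x` by `fl_unique`.
-/

set_option autoImplicit false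

namespace TitsLF

open Filter Topology

universe u v

variable {X : Type v} [MetricSpace X] [CAT X]

theorem bus_aux (hprop : ∀ (x : X) (R : ℝ), IsCompact (Metric.closedBall x R)) {ι : Type u}
    {U : Ultrafilter ι} {f : ι → X → ℝ} {h : X → ℝ} (hf : ∀ᶠ i in (U : Filter ι), Lip1 (f i))
    (hlim : ∀ x, Tendsto (fun i => f i x) U (𝓝 (h x))) {x : X} {t : ℝ} (y : ι → X)
    (hy1 : ∀ᶠ i in (U : Filter ι), dist x (y i) = t)
    (hy2 : ∀ᶠ i in (U : Filter ι), f i (y i) = f i x - t) :
    ∃ y₀, Tendsto y U (𝓝 y₀) ∧ dist x y₀ = t ∧ h y₀ = h x - t := by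
  have hK := hprop x t
  have h1 : ((U.map y : Ultrafilter X) : Filter X) ≤ 𝓟 (Metric.closedBall x t) := by
    rw [Filter.le_principal_iff, Ultrafilter.coe_map, Filter.mem_map]
    filter_upwards [hy1] with i hi
    show dist (y i) x ≤ t
    rw [dist_comm, hi]
  obtain ⟨y₀, -, hy₀⟩ := hK.ultrafilter_le_nhds (U.map y) h1
  have h2 : Tendsto y U (𝓝 y₀) := hy₀
  refine ⟨y₀, h2, ?_, ?_⟩
  · have h3 : Tendsto (fun i => dist x (y i)) U (𝓝 (dist x y₀)) := tendsto_const_nhds.dist h2
    have h4 : Tendsto (fun i => dist x (y i)) U (𝓝 t) :=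
      tendsto_const_nhds.congr' (by filter_upwards [hy1] with i hi; exact hi.symm)
    exact tendsto_nhds_unique h3 h4
  · have h3 : Tendsto (fun i => f i (y i) - f i y₀) U (𝓝 0) := by
      apply squeeze_zero_norm' (a := fun i => dist (y i) y₀)
      · filter_upwards [hf] with i hi
        exact hi _ _
      · exact tendsto_iff_dist_tendsto_zero.1 h2
    have h4 : Tendsto (fun i => f i (y i)) U (𝓝 (h y₀)) := by simpa using h3.add (hlim y₀)
    have h5 : Tendsto (fun i => f i (y i)) U (𝓝 (h x - t)) :=
      ((hlim x).sub_const t).congr' (by filter_upwards [hy2] with i hi; exact hi.symm)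
    exact tendsto_nhds_unique h4 h5

theorem bus_closed_ev (hprop : ∀ (x : X) (R : ℝ), IsCompact (Metric.closedBall x R)) {ι : Type u}
    {F : Filter ι} [F.NeBot] {f : ι → X → ℝ} {h : X → ℝ} (hf : ∀ᶠ i in F, IsBus (f i))
    (hlim : ∀ x, Tendsto (fun i => f i x) F (𝓝 (h x))) : IsBus h := by
  refine ⟨?_, ?_, ?_⟩
  · intro x y m hm
    exact le_of_tendsto_of_tendsto (hlim m) (((hlim x).add (hlim y)).div_const 2)
      (by filter_upwards [hf] with i hi; exact hi.conv x y m hm)
  · intro x y
    exact le_of_tendsto ((hlim x).sub (hlim y)).abs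
      (by filter_upwards [hf] with i hi; exact hi.lip x y)
  · intro x t ht
    have hU : ((Ultrafilter.of F : Ultrafilter ι) : Filter ι) ≤ F := Ultrafilter.of_le F
    have hfU : ∀ᶠ i in ((Ultrafilter.of F : Ultrafilter ι) : Filter ι), IsBus (f i) := hU hf
    obtain ⟨y₀, -, h1, h2⟩ := bus_aux hprop (U := Ultrafilter.of F) (f := f) (h := h)
      (by filter_upwards [hfU] with i hi; exact hi.lip) (fun x => (hlim x).mono_left hU)
      (x := x) (t := t) (fun i => fl (f i) t x)
      (by filter_upwards [hfU] with i hi; exact fl_dist hi ht x)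
      (by filter_upwards [hfU] with i hi; exact fl_val hi ht x)
    exact ⟨y₀, h1, h2⟩

theorem bus_closed (hprop : ∀ (x : X) (R : ℝ), IsCompact (Metric.closedBall x R)) {ι : Type u}
    {F : Filter ι} [F.NeBot] {f : ι → X → ℝ} {h : X → ℝ} (hf : ∀ i, IsBus (f i))
    (hlim : ∀ x, Tendsto (fun i => f i x) F (𝓝 (h x))) : IsBus h := by
  exact bus_closed_ev hprop (F := F) (f := f) (Filter.Eventually.of_forall hf) hlim

theorem fl_tendsto (hprop : ∀ (x : X) (R : ℝ), IsCompact (Metric.closedBall x R)) {ι : Type u}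
    {F : Filter ι} [F.NeBot] {f : ι → X → ℝ} {h : X → ℝ} (hf : ∀ i, IsBus (f i))
    (hlim : ∀ x, Tendsto (fun i => f i x) F (𝓝 (h x))) {t : ℝ} (ht : 0 ≤ t) (x : X) :
    Tendsto (fun i => fl (f i) t x) F (𝓝 (fl h t x)) := by
  have hh : IsBus h := bus_closed hprop hf hlim
  rw [tendsto_iff_ultrafilter]
  intro U hU
  obtain ⟨y₀, h0, h1, h2⟩ := bus_aux hprop (U := U) (f := f) (h := h)
    (Filter.Eventually.of_forall fun i => (hf i).lip) (fun x => (hlim x).mono_left hU)
    (x := x) (t := t) (fun i => fl (f i) t x)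
    (Filter.Eventually.of_forall fun i => fl_dist (hf i) ht x)
    (Filter.Eventually.of_forall fun i => fl_val (hf i) ht x)
  rw [← fl_unique hh ht h1 h2]
  exact h0

theorem isCompact_bus (hprop : ∀ (x : X) (R : ℝ), IsCompact (Metric.closedBall x R)) (o : X) :
    IsCompact {h : X → ℝ | IsBus h ∧ h o = 0} := by
  have hK : IsCompact (Set.pi Set.univ (fun x : X => Set.Icc (-dist x o) (dist x o))) :=
    isCompact_univ_pi fun x => isCompact_Icc
  refine hK.of_isClosed_subset ?_ ?_
  · rw [isClosed_iff_ultrafilter]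
    intro h U hU hs
    have hlim : ∀ x, Tendsto (fun f : X → ℝ => f x) U (𝓝 (h x)) := fun x =>
      ((continuous_apply x).tendsto h).mono_left hU
    have hs' : ∀ᶠ f in (U : Filter (X → ℝ)), IsBus f ∧ f o = 0 := hs
    refine ⟨bus_closed_ev hprop (F := (U : Filter (X → ℝ))) (f := fun f => f)
      (by filter_upwards [hs'] with f hf; exact hf.1) hlim, ?_⟩
    exact tendsto_nhds_unique (hlim o)
      (tendsto_const_nhds.congr' (by filter_upwards [hs'] with f hf; exact hf.2.symm))
  · rintro h ⟨h1, h2⟩ x -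
    have h3 := h1.lip x o
    rw [h2, sub_zero] at h3
    exact abs_le.1 h3

theorem bus_of_seq (hprop : ∀ (x : X) (R : ℝ), IsCompact (Metric.closedBall x R)) (o : X)
    (p : ℕ → X) (hp : Tendsto (fun n => dist o (p n)) atTop atTop) :
    ∃ (h : X → ℝ) (F : Filter ℕ), F.NeBot ∧ F ≤ atTop ∧ IsBus h ∧ h o = 0 ∧
      (∀ x, Tendsto (fun n => dist x (p n) - dist o (p n)) F (𝓝 (h x))) ∧
      ∀ x, ∀ t : ℝ, 0 ≤ t →
        Tendsto (fun n => seg x (p n) (t / dist x (p n))) F (𝓝 (fl h t x)) := by
  have hU : ((Ultrafilter.of (atTop : Filter ℕ) : Ultrafilter ℕ) : Filter ℕ) ≤ atTop :=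
    Ultrafilter.of_le atTop
  generalize Ultrafilter.of (atTop : Filter ℕ) = U at hU
  have hbd : ∀ (x : X) (n : ℕ), dist x (p n) - dist o (p n) ∈ Set.Icc (-dist x o) (dist x o) := by
    intro x n
    have h1 := abs_dist_sub_le x o (p n)
    exact abs_le.1 h1
  have hex : ∀ x : X, ∃ r : ℝ, Tendsto (fun n => dist x (p n) - dist o (p n)) U (𝓝 r) := by
    intro x
    have hK : IsCompact (Set.Icc (-dist x o) (dist x o)) := isCompact_Icc
    obtain ⟨r, -, hr⟩ := hK.ultrafilter_le_nhds (U.map fun n => dist x (p n) - dist o (p n)) (by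
      rw [Filter.le_principal_iff, Ultrafilter.coe_map, Filter.mem_map]
      exact Filter.univ_mem' fun n => hbd x n)
    exact ⟨r, hr⟩
  choose h hlim using hex
  have hlip : ∀ n : ℕ, Lip1 (fun x : X => dist x (p n) - dist o (p n)) := by
    intro n x y
    have h1 := abs_dist_sub_le x y (p n)
    simpa using h1
  have hfar : ∀ (x : X) (t : ℝ), ∀ᶠ n in (U : Filter ℕ), t < dist x (p n) := by
    intro x t
    have h1 : ∀ᶠ n in (atTop : Filter ℕ), t + dist o x + 1 ≤ dist o (p n) :=
      hp.eventually_ge_atTop _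
    filter_upwards [hU h1] with n hn
    have h2 := dist_triangle o x (p n)
    linarith
  have hray : ∀ (x : X) (t : ℝ), 0 ≤ t → ∃ y₀,
      Tendsto (fun n => seg x (p n) (t / dist x (p n))) U (𝓝 y₀) ∧ dist x y₀ = t ∧
        h y₀ = h x - t := by
    intro x t ht
    refine bus_aux hprop (U := U) (f := fun n x => dist x (p n) - dist o (p n)) (h := h)
      (Filter.Eventually.of_forall hlip) hlim (x := x) (t := t) _ ?_ ?_
    · filter_upwards [hfar x t] with n hn
      have hpos : 0 < dist x (p n) := lt_of_le_of_lt ht hn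
      rw [dist_left_seg x (p n) ⟨div_nonneg ht hpos.le, (div_le_one hpos).2 hn.le⟩]
      exact div_mul_cancel₀ t hpos.ne'
    · filter_upwards [hfar x t] with n hn
      have hpos : 0 < dist x (p n) := lt_of_le_of_lt ht hn
      have h1 := dist_right_seg x (p n) (t := t / dist x (p n))
        ⟨div_nonneg ht hpos.le, (div_le_one hpos).2 hn.le⟩
      have h2 : (1 - t / dist x (p n)) * dist x (p n) = dist x (p n) - t := by
        field_simp
      rw [h2] at h1
      rw [dist_comm (seg x (p n) (t / dist x (p n))) (p n), h1]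
      ring
  have hbus : IsBus h := by
    refine ⟨?_, ?_, ?_⟩
    · intro x y m hm
      refine le_of_tendsto_of_tendsto (hlim m) (((hlim x).add (hlim y)).div_const 2)
        (Filter.Eventually.of_forall fun n => ?_)
      have h1 := dist_mconvex (p n) x y m hm
      simp only at h1
      rw [dist_comm (p n) x, dist_comm (p n) y, dist_comm (p n) m] at h1
      show dist m (p n) - dist o (p n) ≤
        (dist x (p n) - dist o (p n) + (dist y (p n) - dist o (p n))) / 2
      linarith
    · intro x y
      refine le_of_tendsto ((hlim x).sub (hlim y)).abs (Filter.Eventually.of_forall fun n => ?_)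
      exact hlip n x y
    · intro x t ht
      obtain ⟨y₀, -, h1, h2⟩ := hray x t ht
      exact ⟨y₀, h1, h2⟩
  refine ⟨h, U, inferInstance, hU, hbus, ?_, hlim, ?_⟩
  · have h1 := hlim o
    simp only [sub_self] at h1
    exact tendsto_nhds_unique h1 tendsto_const_nhds
  · intro x t ht
    obtain ⟨y₀, h0, h1, h2⟩ := hray x t ht
    rw [← fl_unique hbus ht h1 h2]
    exact h0

end TitsLF
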