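import Pool.Agent.Helper35.TT.BusLim
import Pool.Agent.Helper35.TT.BusEx
import Pool.Agent.Helper35.TT.Minim

/-!
TT-26 CenBus. A central element of infinite order of a minimal action is a translation along the flow of an affine function.

PROOF. `z` central of infinite order, also `z' = z⁻¹`.
1. For every central `z`: `x ↦ dist x (z • x)` is convex (`mid_lip2`; `z • m` is the midpoint of `z • x`, `z • y`), continuous and invariant (`dist (g x) (z g x) = dist (g x) (g z x)`), so constant `= τ z` (`minimal_const`). `τ z > 0`: otherwise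
   `z` fixes every point, all powers of `z` are in the finite set `{g | dist (g • o) o ≤ 0}`, contradiction to infinite order (an element all of whose powers lie in a finite set has finite order).
2. `τ (z^2) = 2 τ z`: with `m = mid x (z x)`, `z m = mid (z x) (z^2 x)`: `τ z = dist m (z m) ≤ dist x (z^2 x)/2` (`mid_lip`). So `τ (z^(2^k)) = 2^k τ z`, and by the triangle inequality `dist x (z^n • x) = n τ` for all `n : ℕ`, `τ = τ z`:
   `2^k τ ≤ dist x (z^n x) + dist (z^n x) (z^(2^k) x) ≤ dist x (z^n x) + (2^k - n) τ` for `n ≤ 2^k`, and `≤ n τ` by the triangle inequality.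
3. Fix `o`. `bus_of_seq` for `p n = z^n • o` gives `b` with `IsBus b`, `b o = 0`, and a filter `F ≤ atTop`; the sequence `dist x (z^n o) - n τ` is antitone and bounded below (`≥ - dist x o`), so
   `dist x (p n) - dist o (p n) → b x` along `atTop` too.
4. `b (z x) = b x - τ`: `dist (z x) (z^n o) - n τ = dist x (z^(n-1) o) - (n-1) τ - τ`. So `z • x = fl b τ x` (`fl_unique`), and `fl b (n τ) x = z^n • x` (`fl_add`).
5. `QInv G b`: by `bus_tendsto` along the subsequence... more precisely `dist y (fl b t x) - t → b y - b x` for real `t → ∞` as it is antitone in `t`; so with `t = n τ`: `dist y (z^n x) - n τ → b y - b x`. For `g ∈ G`: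
   `dist (g y) (z^n (g x)) = dist (g y) (g z^n x) = dist y (z^n x)`, so `b (g y) - b (g x) = b y - b x`.
6. The same for `z⁻¹`: `b'` with `τ' = τ` (`dist x (z⁻¹ x) = dist (z x) x`). `H = b + b'` is convex, continuous, `QInv`, and `H x = lim (dist x (z^n o) + dist x (z^(-n) o) - 2 n τ) ≥ 0`
   (`dist (z^n o) (z^(-n) o) = 2 n τ`). `H (g x) = H x + χ g` with `χ` independent of `x` (`QInv`), so `H (g^n x) = H x + n χ g` for `n : ℤ`; bounded below, so `χ g = 0` (use `g` and `g⁻¹`): `H` is invariant, hence constant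
   (`minimal_const`). So for a midpoint `m` of `x, y`: `b m = const - b' m ≥ const - (b' x + b' y)/2 = (b x + b y)/2`, and `b` is affine.
-/

set_option autoImplicit false

namespace TitsLF

universe u v

variable {G : Type u} {X : Type v} [Group G] [MetricSpace X] [MulAction G X]

open Filter Topology

private theorem cen_smul {z : G} (hz : z ∈ Subgroup.center G) (g : G) (x : X) :
    z • g • x = g • z • x := by
  rw [smul_smul, smul_smul, ← Subgroup.mem_center_iff.mp hz g]

private theorem cen_const (h : Act G X) (hm : Minimal G X) {z : G} (hz : z ∈ Subgroup.center G)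
    (x y : X) : dist x (z • x) = dist y (z • y) := by
  haveI := h.cat
  refine minimal_const hm (A := fun x => dist x (z • x)) ?_ ?_ ?_ x y
  · intro a b m hab
    have h1 : IsMid (z • a) (z • b) (z • m) := IsMid.map (f := fun x => z • x) (h.iso z) hab
    have h2 := mid_lip2 a b (z • a) (z • b)
    rw [← eq_mid hab, ← eq_mid h1] at h2
    exact h2
  · have hc : Continuous (fun x : X => z • x) :=
      (Isometry.of_dist_eq (f := fun x : X => z • x) (h.iso z)).continuous
    exact continuous_id.dist hc
  · intro g x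
    change dist (g • x) (z • g • x) = dist x (z • x)
    rw [cen_smul hz, h.iso]

private theorem cen_double (h : Act G X) (hm : Minimal G X) {z : G} (hz : z ∈ Subgroup.center G)
    (x : X) : 2 * dist x (z • x) ≤ dist x (z ^ 2 • x) := by
  haveI := h.cat
  have h1 : IsMid (z • x) (z • z • x) (z • mid x (z • x)) :=
    IsMid.map (f := fun x => z • x) (h.iso z) (mid_spec x (z • x))
  have h2 := mid_lip (z • x) x (z • z • x)
  rw [mid_comm (z • x) x, ← eq_mid h1, cen_const h hm hz _ x, smul_smul, ← pow_two] at h2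
  linarith

private theorem cen_pow (h : Act G X) (hm : Minimal G X) {z : G} (hz : z ∈ Subgroup.center G)
    (x : X) : ∀ k : ℕ, 2 ^ k * dist x (z • x) ≤ dist x (z ^ (2 ^ k) • x) := by
  intro k
  induction k with
  | zero => simp
  | succ k ih =>
    have h1 := cen_double h hm (Subgroup.pow_mem _ hz (2 ^ k)) x
    rw [← pow_mul, ← pow_succ] at h1
    have h2 : (2 : ℝ) ^ (k + 1) = 2 * 2 ^ k := by ring
    rw [h2, mul_assoc]
    linarith

private theorem cen_upper (h : Act G X) (hm : Minimal G X) {z : G} (hz : z ∈ Subgroup.center G)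
    (o : X) : ∀ (n : ℕ) (x : X), dist x (z ^ n • x) ≤ n * dist o (z • o) := by
  intro n
  induction n with
  | zero => intro x; simp
  | succ n ih =>
    intro x
    have h1 := dist_triangle x (z ^ n • x) (z ^ (n + 1) • x)
    have h2 : dist (z ^ n • x) (z ^ (n + 1) • x) = dist o (z • o) := by
      rw [pow_succ, mul_smul, h.iso, cen_const h hm hz x o]
    have h3 := ih x
    push_cast
    linarith

private theorem cen_lin (h : Act G X) (hm : Minimal G X) {z : G} (hz : z ∈ Subgroup.center G)
    (o : X) (n : ℕ) (x : X) : dist x (z ^ n • x) = n * dist o (z • o) := by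
  refine le_antisymm (cen_upper h hm hz o n x) ?_
  have hn : n ≤ 2 ^ n := Nat.lt_two_pow_self.le
  have h1 := cen_pow h hm hz x n
  rw [cen_const h hm hz x o] at h1
  have h2 := dist_triangle x (z ^ n • x) (z ^ (2 ^ n) • x)
  have h3 : dist (z ^ n • x) (z ^ (2 ^ n) • x) ≤ ((2 ^ n - n : ℕ) : ℝ) * dist o (z • o) := by
    have e1 : z ^ (2 ^ n) = z ^ n * z ^ (2 ^ n - n) := by
      rw [← pow_add]
      congr 1
      omega
    rw [e1, mul_smul, h.iso]
    exact cen_upper h hm hz o _ x
  rw [Nat.cast_sub hn] at h3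
  push_cast at h3
  linarith

private theorem bus_tendsto_mul [CAT X] {b : X → ℝ} (hb : IsBus b) {τ : ℝ} (hτ : 0 < τ) (x y : X) :
    Tendsto (fun n : ℕ => dist y (fl b (n * τ) x) - n * τ) atTop (𝓝 (b y - b x)) := by
  have hanti : ∀ s t : ℝ, 0 ≤ s → s ≤ t →
      dist y (fl b t x) - t ≤ dist y (fl b s x) - s := by
    intro s t hs hst
    have h2 := dist_triangle y (fl b s x) (fl b t x)
    rw [dist_fl_fl hb hs (hs.trans hst), abs_of_nonpos (by linarith : s - t ≤ 0)] at h2
    linarith
  have h0 := bus_tendsto hb x y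
  have hmul : Tendsto (fun n : ℕ => (n : ℝ) * τ) atTop atTop :=
    tendsto_natCast_atTop_atTop.atTop_mul_const hτ
  have h1 := h0.comp (tendsto_nat_floor_atTop.comp hmul)
  have h2 := h0.comp (tendsto_nat_ceil_atTop.comp hmul)
  refine tendsto_of_tendsto_of_tendsto_of_le_of_le h2 h1 ?_ ?_
  · intro n
    exact hanti _ _ (by positivity) (Nat.le_ceil _)
  · intro n
    exact hanti _ _ (by positivity) (Nat.floor_le (by positivity))

private theorem half (h : Act G X) (hm : Minimal G X) {z : G} (hz : z ∈ Subgroup.center G)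
    (hinf : ∀ n : ℕ, 0 < n → z ^ n ≠ 1) (o : X) :
    ∃ b : X → ℝ, IsBus b ∧ QInv G b ∧ 0 < dist o (z • o) ∧
      (∀ x, Tendsto (fun n : ℕ => dist x (z ^ n • o) - n * dist o (z • o)) atTop (𝓝 (b x))) ∧
      ∀ x, fl b (dist o (z • o)) x = z • x := by
  haveI := h.cat
  obtain ⟨τ, hτ⟩ : ∃ τ : ℝ, τ = dist o (z • o) := ⟨_, rfl⟩
  rw [← hτ]
  have hlin : ∀ (n : ℕ) (x : X), dist x (z ^ n • x) = n * τ := by
    intro n x
    rw [hτ]
    exact cen_lin h hm hz o n x
  have hτ0 : 0 < τ := by
    have h1 : 0 ≤ τ := by rw [hτ]; exact dist_nonneg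
    rcases h1.lt_or_eq with h2 | h2
    · exact h2
    · exfalso
      have h3 : ∀ n : ℕ, z ^ n ∈ {g : G | dist (g • o) o ≤ 0} := by
        intro n
        change dist (z ^ n • o) o ≤ 0
        rw [dist_comm, hlin, ← h2, mul_zero]
      have hinj : Function.Injective (fun n : ℕ => z ^ n) := by
        rw [injective_pow_iff_not_isOfFinOrder]
        intro h4
        obtain ⟨n, hn, h5⟩ := isOfFinOrder_iff_pow_eq_one.mp h4
        exact hinf n hn h5
      exact (Set.infinite_of_injective_forall_mem hinj h3) (h.fin o 0)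
  have hp : Tendsto (fun n : ℕ => dist o (z ^ n • o)) atTop atTop := by
    have h1 : (fun n : ℕ => dist o (z ^ n • o)) = fun n : ℕ => (n : ℝ) * τ := by
      funext n; exact hlin n o
    rw [h1]
    exact tendsto_natCast_atTop_atTop.atTop_mul_const hτ0
  obtain ⟨b, F, hF, hFle, hb, -, hlim, -⟩ := bus_of_seq h.prop o (fun n => z ^ n • o) hp
  have hlim' : ∀ x, Tendsto (fun n : ℕ => dist x (z ^ n • o) - n * τ) F (𝓝 (b x)) := by
    intro x
    refine (hlim x).congr fun n => ?_
    rw [hlin]
  have hfull : ∀ x, Tendsto (fun n : ℕ => dist x (z ^ n • o) - n * τ) atTop (𝓝 (b x)) := by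
    intro x
    have hanti : Antitone (fun n : ℕ => dist x (z ^ n • o) - n * τ) := by
      refine antitone_nat_of_succ_le fun n => ?_
      have h1 := dist_triangle x (z ^ n • o) (z ^ (n + 1) • o)
      have h2 : dist (z ^ n • o) (z ^ (n + 1) • o) = τ := by
        rw [pow_succ, mul_smul, h.iso, hτ]
      push_cast
      linarith
    have hbd : BddBelow (Set.range (fun n : ℕ => dist x (z ^ n • o) - n * τ)) := by
      refine ⟨-dist x o, ?_⟩
      rintro _ ⟨n, rfl⟩
      have h1 := dist_triangle o x (z ^ n • o)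
      rw [hlin n o, dist_comm o x] at h1
      change -dist x o ≤ dist x (z ^ n • o) - n * τ
      linarith
    have h1 := tendsto_atTop_ciInf hanti hbd
    have h2 := tendsto_nhds_unique (hlim' x) (h1.mono_left hFle)
    rw [h2]
    exact h1
  have hbz : ∀ x, b (z • x) = b x - τ := by
    intro x
    have h1 := (tendsto_add_atTop_iff_nat 1).mpr (hfull (z • x))
    have h2 := (hfull x).sub_const τ
    refine tendsto_nhds_unique h1 (h2.congr fun n => ?_)
    rw [pow_succ', mul_smul, h.iso]
    push_cast
    ring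
  have hbn : ∀ (n : ℕ) (x : X), b (z ^ n • x) = b x - n * τ := by
    intro n
    induction n with
    | zero => intro x; simp
    | succ n ih =>
      intro x
      rw [pow_succ, mul_smul, ih, hbz]
      push_cast
      ring
  have hfl : ∀ (n : ℕ) (x : X), fl b (n * τ) x = z ^ n • x := by
    intro n x
    exact (fl_unique hb (by positivity) (hlin n x) (hbn n x)).symm
  refine ⟨b, hb, ?_, hτ0, hfull, ?_⟩
  · intro g x y
    have h1 := bus_tendsto_mul hb hτ0 (g • y) (g • x)
    have h2 := bus_tendsto_mul hb hτ0 y x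
    refine tendsto_nhds_unique h1 (h2.congr fun n => ?_)
    rw [hfl, hfl, cen_smul (Subgroup.pow_mem _ hz n), h.iso]
  · intro x
    have h1 := hfl 1 x
    rwa [Nat.cast_one, one_mul, pow_one] at h1

theorem central_bus (h : Act G X) (hm : Minimal G X) {z : G} (hz : z ∈ Subgroup.center G)
    (hinf : ∀ n : ℕ, 0 < n → z ^ n ≠ 1) :
    ∃ (τ : ℝ) (b : X → ℝ), 0 < τ ∧ IsBus b ∧ MAffine b ∧ QInv G b ∧ ∀ x, fl b τ x = z • x := by
  obtain ⟨o⟩ := h.ne
  obtain ⟨b, hb, hq, hpos, hlim, hfl⟩ := half h hm hz hinf o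
  have hz' : z⁻¹ ∈ Subgroup.center G := Subgroup.inv_mem _ hz
  have hinf' : ∀ n : ℕ, 0 < n → z⁻¹ ^ n ≠ 1 := by
    intro n hn h1
    apply hinf n hn
    rwa [inv_pow, inv_eq_one] at h1
  obtain ⟨b', hb', hq', -, hlim', -⟩ := half h hm hz' hinf' o
  have hτ : dist o (z⁻¹ • o) = dist o (z • o) := by
    rw [← h.iso z o (z⁻¹ • o), smul_inv_smul, dist_comm]
  rw [hτ] at hlim'
  refine ⟨dist o (z • o), b, hpos, hb, ?_, hq, hfl⟩
  have hH0 : ∀ x, 0 ≤ b x + b' x := by
    intro x
    refine ge_of_tendsto' ((hlim x).add (hlim' x)) fun n => ?_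
    have h1 := dist_triangle (z ^ n • o) x (z⁻¹ ^ n • o)
    have h2 : dist (z ^ n • o) (z⁻¹ ^ n • o) = 2 * (n * dist o (z • o)) := by
      rw [← h.iso (z ^ n) (z ^ n • o) (z⁻¹ ^ n • o), inv_pow, smul_inv_smul, smul_smul, ← pow_add,
        dist_comm, cen_lin h hm hz o (n + n) o]
      push_cast
      ring
    rw [h2, dist_comm (z ^ n • o) x] at h1
    linarith
  have hHq : ∀ (g : G) (x y : X), (b (g • x) + b' (g • x)) - (b (g • y) + b' (g • y)) =
      (b x + b' x) - (b y + b' y) := by
    intro g x y
    have h1 := hq g x y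
    have h2 := hq' g x y
    linarith
  have hpow : ∀ (g : G) (n : ℕ), b (g ^ n • o) + b' (g ^ n • o) =
      (b o + b' o) + n * ((b (g • o) + b' (g • o)) - (b o + b' o)) := by
    intro g n
    induction n with
    | zero => simp
    | succ n ih =>
      have h1 := hHq g (g ^ n • o) o
      rw [smul_smul, ← pow_succ'] at h1
      push_cast
      linarith
  have hchi : ∀ g : G, 0 ≤ (b (g • o) + b' (g • o)) - (b o + b' o) := by
    intro g
    by_contra hcon
    push Not at hcon
    obtain ⟨n, hn⟩ := exists_nat_gt ((b o + b' o) / (-((b (g • o) + b' (g • o)) - (b o + b' o))))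
    rw [div_lt_iff₀ (by linarith)] at hn
    have h1 := hpow g n
    have h2 := hH0 (g ^ n • o)
    rw [h1] at h2
    nlinarith
  have hinv : ∀ (g : G) (x : X), b (g • x) + b' (g • x) = b x + b' x := by
    intro g x
    have h1 := hchi g
    have h2 := hchi g⁻¹
    have h3 := hHq g (g⁻¹ • o) o
    rw [smul_inv_smul] at h3
    have h4 := hHq g x o
    linarith
  have hconst : ∀ x y : X, b x + b' x = b y + b' y := by
    intro x y
    refine minimal_const hm (A := fun x => b x + b' x) ?_ ?_ ?_ x y
    · intro p q m hpq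
      have h1 := hb.conv p q m hpq
      have h2 := hb'.conv p q m hpq
      change b m + b' m ≤ (b p + b' p + (b q + b' q)) / 2
      linarith
    · exact (hb.lip.continuous).add (hb'.lip.continuous)
    · intro g x
      exact hinv g x
  intro p q m hpq
  have h1 := hb.conv p q m hpq
  have h2 := hb'.conv p q m hpq
  have h3 := hconst m p
  have h4 := hconst m q
  linarith

end TitsLF
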