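import Pool.Agent.Helper35.TT.Seg

/-!
TT-04 Proper. The working form `Act` of a proper cocompact action.

PROOF (Bridson-Haefliger I.8.3, I.8.4). `K` compact with `G K = X`, nonempty.
1. For all `x y : X` there is `ε > 0` such that `{g | ∃ z ∈ ball x ε, g • z ∈ ball y ε}` is finite. Let `r` be as in `proper` for `y`. If there is `g₀` with
   `dist (g₀ • x) y < r / 2`, take `ε = r / 8`: if `z ∈ ball x ε`, `g • z ∈ ball y ε` then `dist (g • x) y < 2 ε < r`, so `g g₀⁻¹` maps the point `g₀ • x ∈ ball y r` to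
   `g • x ∈ ball y r`; so `g ∈ F g₀` with `F` finite. Otherwise take `ε = r / 8`: `dist (g • x) y < 2 ε < r / 2` is impossible, the set is empty.
2. For all compact `A B` the set `{g | ∃ z ∈ A, g • z ∈ B}` is finite: cover `A × B` by the sets `ball x ε × ball y ε`.
3. There is `δ > 0` such that all `closedBall x δ` are compact. For `x ∈ K`: by 1 (with `y` replaced by `x` and `x` by the points `k ∈ K`; finitely many balls `ball k ε_k` cover `K`, take the minimum
   of the `ε_k`) there is `ε > 0` such that `{g | (g • K) ∩ ball x ε ≠ ∅}` is finite; so `ball x ε` lies in a finite union of compact sets `g • K` (every point is in some `g • K`), and `closedBall y (ε/4)` is compact for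
   `y ∈ ball x (ε/2)`. By compactness of `K` a common `δ`; by translation for all `x`.
4. All closed balls are compact: by induction on `n`, `closedBall x (n δ / 2)` is compact: let `z ∈ closedBall x ((n+1) δ / 2)`; the point `z' = seg x z t` with `dist x z' ≤ n δ / 2`, `dist z' z ≤ δ / 2` lies in
   `closedBall x (n δ / 2)`, which is covered by finitely many `ball y (δ/2)`; so `z ∈ closedBall y δ` (closed subset of a finite union of compact sets).
5. `fin`: 2 with `A = {x}`, `B = closedBall x R`. `coc`: `D` = a bound of `dist · o` on `K` (and `0`).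
`cat` is a field of `Geom`; use `haveI := h.cat`.
-/

set_option autoImplicit false

namespace TitsLF

universe u v

section

variable {G : Type u} {X : Type v} [Group G] [MetricSpace X] [MulAction G X]

private theorem prop_loc (h : Geom G X) (x y : X) :
    ∃ ε : ℝ, 0 < ε ∧ {g : G | ∃ z ∈ Metric.ball x ε, g • z ∈ Metric.ball y ε}.Finite := by
  obtain ⟨r, hr, hF⟩ := h.proper y
  have key : ∀ g : G, (∃ z ∈ Metric.ball x (r / 8), g • z ∈ Metric.ball y (r / 8)) →
      dist (g • x) y < r / 4 := by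
    rintro g ⟨z, hz, hgz⟩
    have h1 : dist (g • x) (g • z) = dist x z := (h.iso g).dist_eq x z
    have h2 : dist x z < r / 8 := by
      rw [dist_comm]
      exact hz
    have h3 : dist (g • z) y < r / 8 := hgz
    have h4 := dist_triangle (g • x) (g • z) y
    linarith
  refine ⟨r / 8, by positivity, ?_⟩
  by_cases hc : ∃ g₀ : G, dist (g₀ • x) y < r / 2
  · obtain ⟨g₀, hg₀⟩ := hc
    refine (hF.image (fun a => a * g₀)).subset ?_
    intro g hg
    have h1 := key g hg
    refine ⟨g * g₀⁻¹, ?_, by simp⟩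
    refine ⟨g • x, ⟨g₀ • x, ?_, ?_⟩, ?_⟩
    · change dist (g₀ • x) y < r
      linarith
    · change (g * g₀⁻¹) • g₀ • x = g • x
      rw [smul_smul]
      simp
    · change dist (g • x) y < r
      linarith
  · push Not at hc
    convert Set.finite_empty (α := G)
    rw [Set.eq_empty_iff_forall_notMem]
    intro g hg
    have h1 := key g hg
    have h2 := hc g
    linarith

private theorem prop_nhd (h : Geom G X) (x : X) {B : Set X} (hB : IsCompact B) :
    ∃ U ∈ nhds x, {g : G | ∃ z ∈ U, g • z ∈ B}.Finite := by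
  refine hB.induction_on (p := fun B => ∃ U ∈ nhds x, {g : G | ∃ z ∈ U, g • z ∈ B}.Finite)
    ?_ ?_ ?_ ?_
  · refine ⟨Set.univ, Filter.univ_mem, ?_⟩
    simp
  · rintro s t hst ⟨U, hU, hf⟩
    refine ⟨U, hU, hf.subset ?_⟩
    rintro g ⟨z, hz, hgz⟩
    exact ⟨z, hz, hst hgz⟩
  · rintro s t ⟨U, hU, hf⟩ ⟨U', hU', hf'⟩
    refine ⟨U ∩ U', Filter.inter_mem hU hU', (hf.union hf').subset ?_⟩
    rintro g ⟨z, hz, hgz | hgz⟩
    · exact Or.inl ⟨z, hz.1, hgz⟩
    · exact Or.inr ⟨z, hz.2, hgz⟩
  · intro y _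
    obtain ⟨ε, hε, hf⟩ := prop_loc h x y
    exact ⟨Metric.ball y ε, mem_nhdsWithin_of_mem_nhds (Metric.ball_mem_nhds y hε),
      Metric.ball x ε, Metric.ball_mem_nhds x hε, hf⟩

private theorem prop_two (h : Geom G X) {A B : Set X} (hA : IsCompact A) (hB : IsCompact B) :
    {g : G | ∃ z ∈ A, g • z ∈ B}.Finite := by
  refine hA.induction_on (p := fun A => {g : G | ∃ z ∈ A, g • z ∈ B}.Finite) ?_ ?_ ?_ ?_
  · simp
  · intro s t hst hf
    refine hf.subset ?_
    rintro g ⟨z, hz, hgz⟩
    exact ⟨z, hst hz, hgz⟩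
  · intro s t hs ht
    refine (hs.union ht).subset ?_
    rintro g ⟨z, hz | hz, hgz⟩
    · exact Or.inl ⟨z, hz, hgz⟩
    · exact Or.inr ⟨z, hz, hgz⟩
  · intro x _
    obtain ⟨U, hU, hf⟩ := prop_nhd h x hB
    exact ⟨U, mem_nhdsWithin_of_mem_nhds hU, hf⟩

private theorem cpt_loc (h : Geom G X) (x : X) :
    ∃ ε : ℝ, 0 < ε ∧ IsCompact (Metric.closedBall x ε) := by
  obtain ⟨K, hK, hcov⟩ := h.cocompact
  obtain ⟨U, hU, hf⟩ := prop_nhd h x hK
  obtain ⟨ε, hε, hsub⟩ := Metric.nhds_basis_closedBall.mem_iff.1 hU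
  refine ⟨ε, hε, ?_⟩
  have hC : IsCompact (⋃ g ∈ {g : G | ∃ z ∈ U, g • z ∈ K}, (fun y : X => g⁻¹ • y) '' K) :=
    hf.isCompact_biUnion fun g _ => hK.image (h.iso g⁻¹).continuous
  refine hC.of_isClosed_subset Metric.isClosed_closedBall ?_
  intro z hz
  obtain ⟨g, hg⟩ := hcov z
  rw [Set.mem_iUnion₂]
  refine ⟨g, ⟨z, hsub hz, hg⟩, g • z, hg, ?_⟩
  change g⁻¹ • g • z = z
  rw [inv_smul_smul]

private theorem cpt_unif (h : Geom G X) :
    ∃ δ : ℝ, 0 < δ ∧ ∀ x : X, IsCompact (Metric.closedBall x δ) := by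
  obtain ⟨K, hK, hcov⟩ := h.cocompact
  have h1 : ∃ δ : ℝ, 0 < δ ∧ ∀ x ∈ K, IsCompact (Metric.closedBall x δ) := by
    refine hK.induction_on (p := fun K => ∃ δ : ℝ, 0 < δ ∧
      ∀ x ∈ K, IsCompact (Metric.closedBall x δ)) ?_ ?_ ?_ ?_
    · exact ⟨1, one_pos, fun x hx => absurd hx (Set.notMem_empty x)⟩
    · rintro s t hst ⟨δ, hδ, hc⟩
      exact ⟨δ, hδ, fun x hx => hc x (hst hx)⟩
    · rintro s t ⟨δ, hδ, hc⟩ ⟨δ', hδ', hc'⟩
      refine ⟨min δ δ', lt_min hδ hδ', ?_⟩
      rintro x (hx | hx)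
      · exact (hc x hx).of_isClosed_subset Metric.isClosed_closedBall
          (Metric.closedBall_subset_closedBall (min_le_left _ _))
      · exact (hc' x hx).of_isClosed_subset Metric.isClosed_closedBall
          (Metric.closedBall_subset_closedBall (min_le_right _ _))
    · intro x _
      obtain ⟨ε, hε, hc⟩ := cpt_loc h x
      refine ⟨Metric.ball x (ε / 2), mem_nhdsWithin_of_mem_nhds
        (Metric.ball_mem_nhds x (by positivity)), ε / 2, by positivity, ?_⟩
      intro y hy
      refine hc.of_isClosed_subset Metric.isClosed_closedBall ?_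
      refine Metric.closedBall_subset_closedBall' ?_
      have : dist y x < ε / 2 := hy
      linarith
  obtain ⟨δ, hδ, hc⟩ := h1
  refine ⟨δ, hδ, fun x => ?_⟩
  obtain ⟨g, hg⟩ := hcov x
  have h2 := (hc _ hg).image (h.iso g⁻¹).continuous
  refine h2.of_isClosed_subset Metric.isClosed_closedBall ?_
  intro z hz
  refine ⟨g • z, ?_, ?_⟩
  · change dist (g • z) (g • x) ≤ δ
    rw [(h.iso g).dist_eq]
    exact hz
  · change g⁻¹ • g • z = z
    rw [inv_smul_smul]

private theorem cpt_all (h : Geom G X) (x : X) (R : ℝ) : IsCompact (Metric.closedBall x R) := by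
  haveI := h.cat
  obtain ⟨δ, hδ, hc⟩ := cpt_unif h
  have h1 : ∀ n : ℕ, IsCompact (Metric.closedBall x ((n : ℝ) * δ / 2)) := by
    intro n
    induction n with
    | zero => simp
    | succ n ih =>
      obtain ⟨t, -, htf, hcov⟩ := ih.finite_cover_balls (show 0 < δ / 2 by positivity)
      have h2 : IsCompact (⋃ y ∈ t, Metric.closedBall y δ) :=
        htf.isCompact_biUnion fun y _ => hc y
      refine h2.of_isClosed_subset Metric.isClosed_closedBall ?_
      intro z hz
      have hz' : dist x z ≤ ((n : ℝ) + 1) * δ / 2 := by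
        rw [dist_comm]
        have : dist z x ≤ ((n + 1 : ℕ) : ℝ) * δ / 2 := hz
        push_cast at this
        exact this
      obtain ⟨z', hz1, hz2⟩ : ∃ z' ∈ Metric.closedBall x ((n : ℝ) * δ / 2),
          dist z z' ≤ δ / 2 := by
        rcases le_or_gt (dist x z) ((n : ℝ) * δ / 2) with h3 | h3
        · refine ⟨z, ?_, by rw [dist_self]; positivity⟩
          rw [Metric.mem_closedBall, dist_comm]
          exact h3
        · have hn0 : (0 : ℝ) ≤ (n : ℝ) * δ / 2 := by positivity
          have hd : 0 < dist x z := lt_of_le_of_lt hn0 h3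
          have ht : (n : ℝ) * δ / 2 / dist x z ∈ Set.Icc (0 : ℝ) 1 :=
            ⟨div_nonneg hn0 hd.le, (div_le_one hd).2 h3.le⟩
          refine ⟨seg x z ((n : ℝ) * δ / 2 / dist x z), ?_, ?_⟩
          · rw [Metric.mem_closedBall, dist_comm, dist_left_seg x z ht,
              div_mul_cancel₀ _ hd.ne']
          · rw [dist_right_seg x z ht, sub_mul, one_mul, div_mul_cancel₀ _ hd.ne']
            linarith
      obtain ⟨y, hy, hyz⟩ := Set.mem_iUnion₂.1 (hcov hz1)
      rw [Set.mem_iUnion₂]
      refine ⟨y, hy, ?_⟩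
      have h5 : dist z' y < δ / 2 := hyz
      have h6 := dist_triangle z z' y
      rw [Metric.mem_closedBall]
      linarith
  obtain ⟨n, hn⟩ := exists_nat_ge (2 * R / δ)
  refine (h1 n).of_isClosed_subset Metric.isClosed_closedBall
    (Metric.closedBall_subset_closedBall ?_)
  rw [div_le_iff₀ hδ] at hn
  linarith

end

theorem act_of_geom {G : Type u} {X : Type v} [Group G] [MetricSpace X] [MulAction G X]
    (h : Geom G X) : Act G X where
  ne := h.ne
  iso := fun g x y => (h.iso g).dist_eq x y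
  cat := h.cat
  prop := cpt_all h
  fin := by
    intro x R
    refine (prop_two h (isCompact_singleton (x := x)) (cpt_all h x R)).subset ?_
    intro g hg
    exact ⟨x, rfl, hg⟩
  coc := by
    intro o
    obtain ⟨K, hK, hcov⟩ := h.cocompact
    obtain ⟨D, hD⟩ := hK.isBounded.subset_closedBall o
    refine ⟨max D 0, le_max_right _ _, fun x => ?_⟩
    obtain ⟨g, hg⟩ := hcov x
    exact ⟨g, le_trans (hD hg) (le_max_left _ _)⟩

end TitsLF
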