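import Pool.Agent.Helper35.TT.Defs

/-!
TT-01 Mid. Midpoints in a CAT(0) space.

PROOFS (everything from the CN inequality `CAT.cn`; `d = dist`).
* `exists_mid`: `γ (d x y / 2)` for the geodesic `γ` of `CAT.geod x y`.
* `mid_unique`: CN with `p = m'`: `d m' m ^ 2 ≤ (D/2)^2/2 + (D/2)^2/2 - D^2/4 = 0`, `D = d x y`.
* `cn_mid`: `CAT.cn p q r (mid q r)`.
* `mid_lip`: `m = mid x y`, `n = mid x z`. CN (`p = m`, segment `x z`): `d m n ^ 2 ≤ d m x ^2/2 + d m z^2/2 - d x z^2/4`; CN (`p = z`, segment `x y`):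
  `d z m ^2 ≤ d z x^2/2 + d z y^2/2 - d x y^2/4`; `d m x = d x y / 2`. Together `d m n^2 ≤ d z y ^2/4`; take square roots (`abs_le_of_sq_le_sq` or
  `pow_le_pow_left` reversed: `Real.sqrt_le_sqrt` / `abs_le_abs`).
* `mid_lip2`: triangle inequality through `mid x' y`, `mid_comm`.
* `dist_mconvex`: `mid_lip2` with `x' = y' = p` (`mid_self`), or from `mid_lip2 x y p p`.
* `quad_weak`: `m = mid x q`: `d y p ^2 ≤ (d y m + d m p)^2 ≤ 2 d y m^2 + 2 d p m^2` and CN for `y` and for `p`.
-/

set_option autoImplicit false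

namespace TitsLF

universe u v

variable {X : Type v} [MetricSpace X]

theorem IsMid.symm {x y m : X} (h : IsMid x y m) : IsMid y x m := by
  refine ⟨?_, ?_⟩
  · rw [h.2, dist_comm x y]
  · rw [h.1, dist_comm x y]

/-- Isometric maps preserve midpoints. -/
theorem IsMid.map {Y : Type u} [MetricSpace Y] {f : X → Y} (hf : ∀ x y, dist (f x) (f y) = dist x y)
    {x y m : X} (h : IsMid x y m) : IsMid (f x) (f y) (f m) := by
  refine ⟨?_, ?_⟩
  · rw [hf, hf, h.1]
  · rw [hf, hf, h.2]

theorem isMid_self (x : X) : IsMid x x x := by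
  constructor <;> simp

variable [CAT X]

theorem exists_mid (x y : X) : ∃ m, IsMid x y m := by
  obtain ⟨γ, h0, h1, h2⟩ := CAT.geod x y
  have hd : 0 ≤ dist x y := dist_nonneg
  have hm : dist x y / 2 ∈ Set.Icc (0 : ℝ) (dist x y) := ⟨by positivity, by linarith⟩
  refine ⟨γ (dist x y / 2), ?_, ?_⟩
  · have h3 := h2 0 ⟨le_rfl, hd⟩ _ hm
    rw [h0] at h3
    rw [h3, zero_sub, abs_neg, abs_of_nonneg hm.1]
  · have h3 := h2 (dist x y) ⟨hd, le_rfl⟩ _ hm
    rw [h1] at h3
    rw [h3, abs_of_nonneg (by linarith)]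
    ring

theorem mid_unique {x y m m' : X} (h : IsMid x y m) (h' : IsMid x y m') : m = m' := by
  have h1 := CAT.cn m' x y m h.1 h.2
  rw [dist_comm m' x, dist_comm m' y, h'.1, h'.2] at h1
  have h2 : dist m' m ^ 2 ≤ 0 := by nlinarith
  have h3 : dist m' m = 0 := by
    have := sq_nonneg (dist m' m)
    exact pow_eq_zero_iff (two_ne_zero) |>.1 (le_antisymm h2 this)
  exact (dist_eq_zero.1 h3).symm

/-- The midpoint. -/
noncomputable def mid (x y : X) : X := (exists_mid x y).choose

theorem mid_spec (x y : X) : IsMid x y (mid x y) := (exists_mid x y).choose_spec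

theorem eq_mid {x y m : X} (h : IsMid x y m) : m = mid x y := mid_unique h (mid_spec x y)

theorem mid_comm (x y : X) : mid x y = mid y x := by
  exact mid_unique (mid_spec x y) (mid_spec y x).symm

theorem mid_self (x : X) : mid x x = x := by
  exact mid_unique (mid_spec x x) (isMid_self x)

theorem cn_mid (p q r : X) :
    dist p (mid q r) ^ 2 ≤ dist p q ^ 2 / 2 + dist p r ^ 2 / 2 - dist q r ^ 2 / 4 := by
  exact CAT.cn p q r (mid q r) (mid_spec q r).1 (mid_spec q r).2

theorem mid_lip (x y z : X) : dist (mid x y) (mid x z) ≤ dist y z / 2 := by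
  have h1 := cn_mid (mid x y) x z
  have h2 := cn_mid z x y
  have h3 := (mid_spec x y).1
  rw [dist_comm (mid x y) x, h3, dist_comm (mid x y) z] at h1
  rw [dist_comm z x, dist_comm z y] at h2
  have h4 : dist (mid x y) (mid x z) ^ 2 ≤ (dist y z / 2) ^ 2 := by nlinarith
  exact le_of_sq_le_sq h4 (by positivity)

theorem mid_lip2 (x y x' y' : X) :
    dist (mid x y) (mid x' y') ≤ (dist x x' + dist y y') / 2 := by
  have h1 := dist_triangle (mid x y) (mid x' y) (mid x' y')
  have h2 := mid_lip y x x'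
  have h3 := mid_lip x' y y'
  rw [mid_comm y x, mid_comm y x'] at h2
  linarith

theorem dist_mconvex (p : X) : MConvex (fun x => dist p x) := by
  intro x y m h
  have h1 := mid_lip2 p p x y
  rw [mid_self, ← eq_mid h] at h1
  exact h1

theorem quad_weak (x y p q : X) :
    dist x q ^ 2 + dist y p ^ 2 ≤ dist x y ^ 2 + dist y q ^ 2 + dist q p ^ 2 + dist p x ^ 2 := by
  have h1 := cn_mid y x q
  have h2 := cn_mid p x q
  have h3 := dist_triangle y (mid x q) p
  rw [dist_comm (mid x q) p] at h3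
  have h4 : dist y p ^ 2 ≤ (dist y (mid x q) + dist p (mid x q)) ^ 2 :=
    pow_le_pow_left₀ dist_nonneg h3 2
  have h5 := sq_nonneg (dist y (mid x q) - dist p (mid x q))
  rw [dist_comm x y, dist_comm q p, dist_comm p x] at *
  nlinarith

end TitsLF
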