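import Pool.Agent.Helper35.TT.BusLim

/-!
TT-23 Aff. Affine functions and flows.

PROOFS.
* `aff_eq`: `≤` is `bus_ineq`. `≥`: may assume `0 < s`. Let `x' = fl h s x`, `D = dist x y`, `β = h y - h x`, for `l ∈ (0,1]` small (`s + l β ≥ 0`) `w = seg x y l`. `h w = h x + l β` (`MAffine.on_seg`), so
  `dist x' w ≥ h w - h x' = s + l β ≥ 0` and `cn_seg` (`p = x'`): `(s + l β)^2 ≤ (1 - l) s^2 + l dist x' y^2 - l (1 - l) D^2`. Divide by `l`: `2 s β + l β^2 ≤ - s^2 + dist x' y^2 - (1 - l) D^2`; let `l → 0`.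
  (If `s = 0` clear by `fl_zero`.)
* `aff_iso`: `aff_eq` for the pair `(fl h s x, y)`: `dist (fl h s x) (fl h s y)^2 = dist (fl h s x) y^2 + 2 s (h (fl h s x) - h y) + s^2`, insert `aff_eq` for `dist y (fl h s x)^2` and `fl_val`.
* `cc_spec`: `k` is affine and Lipschitz, `h` any function with `IsBus h`. `φ t = k (fl h t x)` satisfies `φ ((s+t)/2) = (φ s + φ t)/2` (`fl_isMid`) and is continuous, so `φ t = φ 0 + t (φ 1 - φ 0)` on `[0, ∞)`
  (`convex_real` for `φ` and `-φ` on `[0, N]`). For two points `x, o`: `|k (fl h t x) - k (fl h t o)| ≤ dist x o` (`fl_nonexp`) for all `t`, so the slopes agree.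
* `cc_self`: `fl_val`. `cc_symm`: compute `dist (fl k 1 o) (fl h 1 o)^2` by `aff_eq` for `h` (`y = fl k 1 o`) and for `k` (`y = fl h 1 o`): `1 - 2 cc o k h + 1 = 1 - 2 cc o h k + 1`.
* `cc_translate`: `fl_translate` at the point `g • o` and `cc_spec` (the slope does not depend on the point). `cc_abs`: `k` is Lipschitz.
-/

set_option autoImplicit false

namespace TitsLF

universe u v

variable {X : Type v} [MetricSpace X] [CAT X]

theorem aff_eq {h : X → ℝ} (hh : IsBus h) (ha : MAffine h) {s : ℝ} (hs : 0 ≤ s) (x y : X) :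
    dist y (fl h s x) ^ 2 = dist y x ^ 2 + 2 * s * (h y - h x) + s ^ 2 := by
  apply le_antisymm (bus_ineq hh hs x y)
  rcases hs.lt_or_eq with hs0 | hs0
  swap
  · rw [← hs0, fl_zero hh]
    simp
  by_contra hcon
  push Not at hcon
  set x' := fl h s x with hx'
  set β := h y - h x with hβ
  set D := dist x y with hD
  have hD0 : 0 ≤ D := dist_nonneg
  rw [dist_comm y x, ← hD] at hcon
  set δ := D ^ 2 + 2 * s * β + s ^ 2 - dist y x' ^ 2 with hδ
  have hδ0 : 0 < δ := by linarith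
  set l := min 1 (min (s / (|β| + 1)) (δ / (2 * (D ^ 2 + 1)))) with hl
  have hb0 : 0 ≤ |β| := abs_nonneg β
  have hl0 : 0 < l := by
    rw [hl]
    refine lt_min one_pos (lt_min ?_ ?_)
    · exact div_pos hs0 (by linarith)
    · exact div_pos hδ0 (by positivity)
  have hl1 : l ≤ 1 := min_le_left _ _
  have hl2 : l * (|β| + 1) ≤ s := by
    have h1 : l ≤ s / (|β| + 1) := (min_le_right _ _).trans (min_le_left _ _)
    rwa [le_div_iff₀ (by linarith)] at h1
  have hl3 : l * (2 * (D ^ 2 + 1)) ≤ δ := by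
    have h1 : l ≤ δ / (2 * (D ^ 2 + 1)) := (min_le_right _ _).trans (min_le_right _ _)
    rwa [le_div_iff₀ (by positivity)] at h1
  have hlI : l ∈ Set.Icc (0:ℝ) 1 := ⟨hl0.le, hl1⟩
  have e1 : h (seg x y l) = h x + l * β := by
    rw [ha.on_seg hh.lip.continuous x y hlI]
    ring
  have e2 : h x' = h x - s := fl_val hh hs x
  have e3 : dist x x' = s := fl_dist hh hs x
  have e4 := hh.lip (seg x y l) x'
  have e5 := le_abs_self (h (seg x y l) - h x')
  have e6 : s + l * β ≤ dist x' (seg x y l) := by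
    rw [dist_comm x' (seg x y l)]
    linarith
  have e7 : 0 ≤ s + l * β := by
    have h1 := neg_abs_le β
    nlinarith
  have e8 : (s + l * β) ^ 2 ≤ dist x' (seg x y l) ^ 2 := pow_le_pow_left₀ e7 e6 2
  have e9 := cn_seg x' x y hlI
  rw [dist_comm x' x, e3, dist_comm x' y] at e9
  have e10 : l * (2 * s * β + l * β ^ 2) ≤
      l * (- s ^ 2 + dist y x' ^ 2 - (1 - l) * D ^ 2) := by nlinarith
  have e11 := le_of_mul_le_mul_left e10 hl0
  have e12 : 0 ≤ l * β ^ 2 := by positivity
  nlinarith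

theorem aff_iso {h : X → ℝ} (hh : IsBus h) (ha : MAffine h) {s : ℝ} (hs : 0 ≤ s) (x y : X) :
    dist (fl h s x) (fl h s y) = dist x y := by
  have h1 := aff_eq hh ha hs y (fl h s x)
  have h2 := aff_eq hh ha hs x y
  rw [dist_comm (fl h s x) y, h2, fl_val hh hs x] at h1
  have h3 : dist (fl h s x) (fl h s y) ^ 2 = dist x y ^ 2 := by
    rw [h1, dist_comm y x]
    ring
  exact (pow_left_inj₀ dist_nonneg dist_nonneg two_ne_zero).1 h3

private theorem aff_real {φ : ℝ → ℝ} (hc : ∀ s t : ℝ, 0 ≤ s → 0 ≤ t → |φ s - φ t| ≤ |s - t|)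
    (hm : ∀ s t : ℝ, 0 ≤ s → 0 ≤ t → φ ((s + t) / 2) = (φ s + φ t) / 2) {t : ℝ} (ht : 0 ≤ t) :
    φ t = φ 0 + t * (φ 1 - φ 0) := by
  have hcont : ∀ b : ℝ, ContinuousOn φ (Set.Icc 0 b) := by
    intro b
    have h1 : LipschitzOnWith 1 φ (Set.Icc 0 b) := LipschitzOnWith.of_dist_le_mul (by
      intro x hx y hy
      rw [Real.dist_eq, Real.dist_eq, NNReal.coe_one, one_mul]
      exact hc x y hx.1 hy.1)
    exact h1.continuousOn
  have key : ∀ b : ℝ, 0 ≤ b → ∀ l ∈ Set.Icc (0:ℝ) 1, φ (l * b) = (1 - l) * φ 0 + l * φ b := by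
    intro b hb l hl
    apply le_antisymm
    · have h1 := convex_real hb (hcont b)
        (fun s hs t ht => (hm s t hs.1 ht.1).le) hl
      rwa [mul_zero, zero_add] at h1
    · have h1 := convex_real (f := fun s => - φ s) hb (hcont b).neg
        (fun s hs t ht => by
          change - φ ((s + t) / 2) ≤ (- φ s + - φ t) / 2
          rw [hm s t hs.1 ht.1]
          linarith) hl
      simp only [mul_zero, zero_add] at h1
      linarith
  rcases le_total t 1 with h1 | h1
  · have h2 := key 1 zero_le_one t ⟨ht, h1⟩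
    rw [mul_one] at h2
    linarith
  · have ht0 : 0 < t := by linarith
    have h2 := key t ht (1 / t) ⟨by positivity, by rwa [div_le_one ht0]⟩
    rw [one_div, inv_mul_cancel₀ ht0.ne'] at h2
    have h3 : t * φ 1 = t * ((1 - t⁻¹) * φ 0 + t⁻¹ * φ t) := by rw [h2]
    have h4 : t * ((1 - t⁻¹) * φ 0 + t⁻¹ * φ t) = (t - 1) * φ 0 + φ t := by
      field_simp
    linarith

/-- Minus the slope of `k` along the rays of `h`. -/
noncomputable def cc (o : X) (h k : X → ℝ) : ℝ := k o - k (fl h 1 o)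

theorem cc_spec {h k : X → ℝ} (hh : IsBus h) (hk : MAffine k) (hl : Lip1 k) (o : X) {t : ℝ}
    (ht : 0 ≤ t) (x : X) : k (fl h t x) = k x - t * cc o h k := by
  have key : ∀ (z : X) (r : ℝ), 0 ≤ r → k (fl h r z) = k z + r * (k (fl h 1 z) - k z) := by
    intro z r hr
    have h1 := aff_real (φ := fun s => k (fl h s z))
      (fun s t hs ht => by
        have h2 := hl (fl h s z) (fl h t z)
        rwa [dist_fl_fl hh hs ht] at h2)
      (fun s t hs ht => hk _ _ _ (fl_isMid hh hs ht z)) hr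
    simp only [fl_zero hh] at h1
    exact h1
  have hslope : k (fl h 1 x) - k x = k (fl h 1 o) - k o := by
    by_contra hcon
    have hne : (k (fl h 1 x) - k x) - (k (fl h 1 o) - k o) ≠ 0 := sub_ne_zero.2 hcon
    set e := (k (fl h 1 x) - k x) - (k (fl h 1 o) - k o) with he
    have he0 : 0 < |e| := abs_pos.2 hne
    set r := (2 * dist x o + 1) / |e| with hr
    have hd0 : 0 ≤ dist x o := dist_nonneg
    have hr0 : 0 ≤ r := by positivity
    have h1 := key x r hr0
    have h2 := key o r hr0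
    have h3 := hl (fl h r x) (fl h r o)
    have h4 := fl_nonexp hh hr0 x o
    have h5 := hl x o
    have h6 : r * e = (k (fl h r x) - k (fl h r o)) - (k x - k o) := by
      rw [h1, h2, he]
      ring
    have h7 : |r * e| = 2 * dist x o + 1 := by
      rw [abs_mul, abs_of_nonneg hr0, hr, div_mul_cancel₀ _ he0.ne']
    have h8 := abs_sub (k (fl h r x) - k (fl h r o)) (k x - k o)
    rw [← h6, h7] at h8
    linarith
  rw [key x t ht, hslope]
  unfold cc
  ring

theorem cc_self {h : X → ℝ} (hh : IsBus h) (o : X) : cc o h h = 1 := by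
  unfold cc
  rw [fl_val hh zero_le_one o]
  ring

theorem cc_symm {h k : X → ℝ} (hh : IsBus h) (ha : MAffine h) (hk : IsBus k) (hb : MAffine k)
    (o : X) : cc o h k = cc o k h := by
  have h1 := aff_eq hh ha zero_le_one o (fl k 1 o)
  have h2 := aff_eq hk hb zero_le_one o (fl h 1 o)
  rw [dist_comm (fl k 1 o) o, fl_dist hk zero_le_one o] at h1
  rw [dist_comm (fl h 1 o) o, fl_dist hh zero_le_one o, dist_comm (fl h 1 o) (fl k 1 o), h1] at h2
  unfold cc
  linarith

theorem cc_translate {G : Type u} [Group G] [MulAction G X]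
    (hiso : ∀ (g : G) (x y : X), dist (g • x) (g • y) = dist x y) {h k : X → ℝ} (hh : IsBus h)
    (hk : MAffine k) (hl : Lip1 k) (g : G) (o : X) (c c' : ℝ) :
    cc o (fun x => h (g⁻¹ • x) + c) (fun x => k (g⁻¹ • x) + c') = cc o h k := by
  have h1 : fl (fun x => h (g⁻¹ • x) + c) 1 o = g • fl h 1 (g⁻¹ • o) := by
    rw [fl_add_const (hh.translate hiso g) c zero_le_one o]
    have h2 := fl_translate hiso hh g zero_le_one (g⁻¹ • o)
    rwa [smul_inv_smul] at h2
  have h3 := cc_spec hh hk hl o zero_le_one (g⁻¹ • o)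
  have h4 : cc o (fun x => h (g⁻¹ • x) + c) (fun x => k (g⁻¹ • x) + c') =
      k (g⁻¹ • o) + c' - (k (g⁻¹ • fl (fun x => h (g⁻¹ • x) + c) 1 o) + c') := rfl
  rw [h4, h1, inv_smul_smul, h3]
  ring

end TitsLF
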