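import Pool.Agent.Helper35.TT.Defs

/-!
TT-29 RQuot. Reiter's condition for quotients; virtually solvable extensions.

PROOFS.
* `Reiter.quot`: for a finite `S' ⊆ G ⧸ N` choose representatives, a finite `S ⊆ G`; for `f` as in `Reiter G` take `f' = f.mapDomain (QuotientGroup.mk)`: nonnegative, the sum is preserved (`Finsupp.sum_mapDomain_index`),
  `f'.mapDomain (· * s') - f' = (f.mapDomain (· * s) - f).mapDomain mk` (`Finsupp.mapDomain_comp`, `Finsupp.mapDomain_sub` or linearity) and `l1 (mapDomain φ f) ≤ l1 f` (triangle inequality; `l1_mapDomain_le`).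
* `vsolv_of_central`: `H' ≤ G ⧸ N` of finite index and solvable; `H = H'.comap (mk' N)` has finite index (`Subgroup.FiniteIndex` of comap), it maps to `H'` with kernel contained in (the image of) `N`, which is commutative;
  `Group.isSolvable_of_ker_le_range` or: the derived series of `H` maps into that of `H'`, so it reaches `N ⊓ H`, which is commutative.
* `vsolv_of_finite`: the trivial subgroup.
* `vsolv_of_finiteIndex`: a subgroup of finite index of a subgroup of finite index has finite index (`Subgroup.map` of the subtype, `Subgroup.relIndex` or `Subgroup.index_map_subtype`).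
-/

set_option autoImplicit false

namespace TitsLF

universe u v

private theorem l1_of_subset {α : Type u} [DecidableEq α] (f : α →₀ ℝ) (s : Finset α)
    (hs : f.support ⊆ s) : l1 f = ∑ a ∈ s, |f a| :=
  Finsupp.sum_of_support_subset f hs _ fun _ _ => abs_zero

private theorem l1_add_le {α : Type u} (f g : α →₀ ℝ) : l1 (f + g) ≤ l1 f + l1 g := by
  classical
  rw [l1_of_subset f (f.support ∪ g.support) Finset.subset_union_left,
    l1_of_subset g (f.support ∪ g.support) Finset.subset_union_right,
    l1_of_subset (f + g) (f.support ∪ g.support) Finsupp.support_add, ← Finset.sum_add_distrib]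
  refine Finset.sum_le_sum fun a _ => ?_
  rw [Finsupp.add_apply]
  exact abs_add_le _ _

private theorem l1_single {α : Type u} (a : α) (b : ℝ) : l1 (Finsupp.single a b) = |b| := by
  unfold l1
  rw [Finsupp.sum_single_index abs_zero]

private theorem l1_add_single {α : Type u} (a : α) (b : ℝ) (g : α →₀ ℝ) (ha : a ∉ g.support) :
    l1 (Finsupp.single a b + g) = |b| + l1 g := by
  classical
  have h1 : Disjoint (Finsupp.single a b).support g.support := by
    rw [Finset.disjoint_left]
    intro x hx hx'
    have h2 := Finsupp.support_single_subset hx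
    rw [Finset.mem_singleton] at h2
    exact ha (h2 ▸ hx')
  unfold l1
  rw [Finsupp.sum_add_index_of_disjoint h1, Finsupp.sum_single_index abs_zero]

theorem l1_mapDomain_le {α : Type u} {β : Type u} (φ : α → β) (f : α →₀ ℝ) :
    l1 (f.mapDomain φ) ≤ l1 f := by
  classical
  induction f using Finsupp.induction with
  | zero =>
    rw [Finsupp.mapDomain_zero]
    unfold l1
    rw [Finsupp.sum_zero_index, Finsupp.sum_zero_index]
  | single_add a b g ha _ ih =>
    rw [Finsupp.mapDomain_add, Finsupp.mapDomain_single, l1_add_single a b g ha]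
    refine (l1_add_le _ _).trans ?_
    rw [l1_single]
    linarith

theorem Reiter.quot {G : Type u} [Group G] (h : Reiter G) (N : Subgroup G) [N.Normal] :
    Reiter (G ⧸ N) := by
  classical
  intro S' ε hε
  obtain ⟨f, hf0, hf1, hf2⟩ := h (S'.image Quotient.out) ε hε
  refine ⟨f.mapDomain (fun g : G => (g : G ⧸ N)), fun b => ?_, ?_, fun s' hs' => ?_⟩
  · rw [Finsupp.mapDomain, Finsupp.sum_apply, Finsupp.sum]
    refine Finset.sum_nonneg fun a _ => ?_
    rw [Finsupp.single_apply]
    split_ifs
    · exact hf0 a
    · exact le_rfl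
  · rw [Finsupp.sum_mapDomain_index (fun _ => rfl) (fun _ _ _ => rfl)]
    exact hf1
  · have h1 := hf2 (Quotient.out s') (Finset.mem_image_of_mem _ hs')
    have h2 : (f.mapDomain (fun g : G => (g : G ⧸ N))).mapDomain (fun g => g * s') =
        (f.mapDomain (fun g => g * Quotient.out s')).mapDomain (fun g : G => (g : G ⧸ N)) := by
      rw [← Finsupp.mapDomain_comp, ← Finsupp.mapDomain_comp]
      congr 1
      funext g
      have h3 : ((Quotient.out s' : G) : G ⧸ N) = s' := QuotientGroup.out_eq' s'
      simp only [Function.comp_apply, QuotientGroup.mk_mul, h3]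
    rw [h2, ← Finsupp.mapDomain_sub]
    exact (l1_mapDomain_le _ _).trans h1

theorem vsolv_of_central {G : Type u} [Group G] (N : Subgroup G) [N.Normal]
    (hN : N ≤ Subgroup.center G) (h : VSolv (G ⧸ N)) : VSolv G := by
  obtain ⟨H', hfin, hsol⟩ := h
  refine ⟨H'.comap (QuotientGroup.mk' N), ⟨?_⟩, ?_⟩
  · rw [Subgroup.index_comap_of_surjective _ (QuotientGroup.mk'_surjective N)]
    exact hfin.index_ne_zero
  · have hNH : N ≤ H'.comap (QuotientGroup.mk' N) := by
      intro x hx
      have h1 : (QuotientGroup.mk' N) x = 1 := (QuotientGroup.eq_one_iff x).2 hx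
      rw [Subgroup.mem_comap, h1]
      exact H'.one_mem
    have hNs : Group.IsSolvable N := by
      refine Group.isSolvable_of_comm fun a b => ?_
      have h1 := Subgroup.mem_center_iff.1 (hN a.2) b
      exact Subtype.ext h1.symm
    refine Group.isSolvable_of_ker_le_range (Subgroup.inclusion hNH)
      ((QuotientGroup.mk' N).subgroupComap H') ?_
    rintro ⟨x, hx⟩ hx'
    rw [MonoidHom.mem_ker] at hx'
    have h1 : (QuotientGroup.mk' N) x = 1 := congrArg Subtype.val hx'
    have h2 : x ∈ N := (QuotientGroup.eq_one_iff x).1 h1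
    exact ⟨⟨x, h2⟩, rfl⟩

theorem vsolv_of_finite {G : Type u} [Group G] [Finite G] : VSolv G := by
  exact ⟨⊥, inferInstance, inferInstance⟩

theorem vsolv_of_finiteIndex {G : Type u} [Group G] (H : Subgroup G) (hH : H.FiniteIndex)
    (h : VSolv H) : VSolv G := by
  obtain ⟨K, hK, hsol⟩ := h
  refine ⟨K.map H.subtype, ⟨?_⟩, ?_⟩
  · rw [Subgroup.index_map_subtype]
    exact mul_ne_zero hK.index_ne_zero hH.index_ne_zero
  · exact Group.isSolvable_of_surjective (f := (K.equivMapOfInjective H.subtype
      H.subtype_injective).toMonoidHom) (K.equivMapOfInjective H.subtype H.subtype_injective).surjective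

end TitsLF
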