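import Pool.Agent.Helper35.TT.BLin
import Pool.Agent.Helper35.TT.RQuot

/-!
TT-43 BFin. Conclusion of the theorem of Bieberbach: virtually solvable.

PROOF. `K = A.ker`. It has finite index: with `exists_classes` for `ε = 1/2`, if `A g`, `A k` are in one class then `rot (A (g⁻¹ k)) ≤ 1/2` (`rot_inv_mul_le`), so `A (g⁻¹ k) = 1`, `g⁻¹ k ∈ K`; so there are at most `N` cosets.
On `K`: `a (g k) = a g + a k`; `N₀ = {g ∈ K | a g = 0}` is a normal subgroup of `K`, finite (`hfin 0`), and commutators of elements of `K` lie in `N₀` (`a` is additive on `K`). Let `C` be the centralizer of `N₀` in `K`: it has finite index in `K`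
(the conjugation action of `K` on the finite set `N₀`; kernel of `K → Equiv.Perm N₀`). `C` is solvable: commutators of elements of `C` lie in `N₀ ∩ C`, which is central in `C`; so the derived series reaches `1` after two steps
(`⁅C, C⁆ ≤ N₀ ∩ C`, `⁅N₀ ∩ C, N₀ ∩ C⁆ = 1` as `C` centralizes `N₀`). `vsolv_of_finiteIndex`.
-/

set_option autoImplicit false

namespace TitsLF

universe u v

variable {G : Type u} [Group G] {E : Type v} [NormedAddCommGroup E] [InnerProductSpace ℝ E]
  [FiniteDimensional ℝ E]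

private theorem ker_finiteIndex (A : G →* (E ≃ₗᵢ[ℝ] E))
    (hmain : ∀ g, rot (A g) ≤ 1 / 2 → A g = 1) : A.ker.FiniteIndex := by
  obtain ⟨N, c, hc⟩ := exists_classes (E := E) (ε := 1 / 2) (by norm_num)
  have hinj : Function.Injective (fun q : G ⧸ A.ker => c (A q.out)) := by
    intro q r hqr
    have h1 : rot ((A q.out)⁻¹ * A r.out) ≤ 1 / 2 :=
      rot_inv_mul_le (by norm_num) (hc _ _ hqr)
    rw [← map_inv, ← map_mul] at h1
    have h2 := hmain _ h1
    have h3 : (q.out)⁻¹ * r.out ∈ A.ker := MonoidHom.mem_ker.mpr h2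
    have h4 : ((q.out : G) : G ⧸ A.ker) = ((r.out : G) : G ⧸ A.ker) := QuotientGroup.eq.mpr h3
    rwa [QuotientGroup.out_eq', QuotientGroup.out_eq'] at h4
  have : Finite (G ⧸ A.ker) := Finite.of_injective _ hinj
  exact Subgroup.finiteIndex_of_finite_quotient

/-- the restriction of the cocycle to the kernel -/
private def fK (A : G →* (E ≃ₗᵢ[ℝ] E)) (a : G → E)
    (ha : ∀ g k, a (g * k) = a g + A g (a k)) : A.ker →* Multiplicative E :=
  MonoidHom.mk' (fun k => Multiplicative.ofAdd (a k)) (by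
    intro g k
    have h1 : A (g : G) = 1 := g.2
    have h2 : a ((g : G) * (k : G)) = a g + a k := by
      rw [ha, h1]
      rfl
    change Multiplicative.ofAdd (a ((g : G) * (k : G))) = _
    rw [h2]
    rfl)

theorem bieb_vsolv (A : G →* (E ≃ₗᵢ[ℝ] E)) (a : G → E) (ha : ∀ g k, a (g * k) = a g + A g (a k))
    (hfin : ∀ R : ℝ, {g | ‖a g‖ ≤ R}.Finite) (hmain : ∀ g, rot (A g) ≤ 1 / 2 → A g = 1) :
    VSolv G := by
  have hK := ker_finiteIndex A hmain
  refine vsolv_of_finiteIndex A.ker hK ?_
  obtain ⟨f, hf⟩ : ∃ f : A.ker →* Multiplicative E, ∀ k : A.ker, f k =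
    Multiplicative.ofAdd (a k) := ⟨fK A a ha, fun _ => rfl⟩
  have hN : Finite f.ker := by
    have h0 : {g : G | ‖a g‖ ≤ 0}.Finite := hfin 0
    have := h0.to_subtype
    refine Finite.of_injective (fun k : f.ker =>
      (⟨((k : A.ker) : G), ?_⟩ : {g : G | ‖a g‖ ≤ 0})) ?_
    · have h1 : f (k : A.ker) = 1 := k.2
      rw [hf] at h1
      have h2 : a ((k : A.ker) : G) = 0 := h1
      change ‖a ((k : A.ker) : G)‖ ≤ 0
      rw [h2, norm_zero]
    · intro x y hxy
      have h1 := congrArg Subtype.val hxy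
      exact Subtype.ext (Subtype.ext h1)
  have hAut : Finite (MulAut f.ker) :=
    Finite.of_injective (fun e : MulAut f.ker => (e : f.ker → f.ker)) DFunLike.coe_injective
  obtain ⟨C, hC⟩ : ∃ C : Subgroup A.ker, C = (MulAut.conjNormal : A.ker →* MulAut f.ker).ker :=
    ⟨_, rfl⟩
  have hCfin : C.FiniteIndex := by
    rw [hC]
    infer_instance
  refine ⟨C, hCfin, ?_⟩
  have hcomm : ∀ x ∈ C, ∀ y : f.ker, x * (y : A.ker) = y * x := by
    intro x hx y
    rw [hC, MonoidHom.mem_ker] at hx
    have h1 := DFunLike.congr_fun hx y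
    have h2 := congrArg (Subtype.val : f.ker → A.ker) h1
    rw [MulAut.conjNormal_apply] at h2
    have h3 : x * (y : A.ker) * x⁻¹ = y := h2
    exact mul_inv_eq_iff_eq_mul.mp h3
  have hs : Group.IsSolvable (f.comp C.subtype).ker := by
    refine Group.isSolvable_of_comm fun x y => ?_
    apply Subtype.ext
    apply Subtype.ext
    have hy : ((y : C) : A.ker) ∈ f.ker := y.2
    exact hcomm _ x.1.2 ⟨_, hy⟩
  have hs2 : Group.IsSolvable (Multiplicative E) := Group.isSolvable_of_comm mul_comm
  refine Group.isSolvable_of_ker_le_range (f.comp C.subtype).ker.subtype (f.comp C.subtype) ?_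
  rw [Subgroup.range_subtype]

end TitsLF
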