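import Mathlib

/-!
TT-40 BLin. Linear algebra for the theorem of Bieberbach (Buser's proof). `E` a finite dimensional real inner product space, `rot A = ‖A - 1‖`.

PROOFS.
* `rot_le`, `rot_le_of`: `ContinuousLinearMap.le_opNorm`, `opNorm_le_bound`. `rot_comm`: `A B A⁻¹ B⁻¹ - 1 = (A B - B A) (B A)⁻¹`, `A B - B A = (A - 1)(B - 1) - (B - 1)(A - 1)`; `(B A)⁻¹` is isometric: for `x`, with `y = (B A)⁻¹ x`,
  `‖A B y - B A y‖ ≤ ‖(A-1)((B-1) y)‖ + ‖(B-1)((A-1) y)‖ ≤ 2 rot A rot B ‖y‖`.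
* `exists_decomp`: `T = 2 - A - A⁻¹` is self adjoint (`⟪A x, y⟫ = ⟪x, A⁻¹ y⟫`), `⟪T x, x⟫ = ‖A x - x‖^2`, it commutes with `A`. With `m = rot A > 0`, `S = m^2 - T` is self adjoint with `⟪S x, x⟫ ≥ 0`; `W = {x | S x = 0}`. For a positive semidefinite form
  `⟪S x, x⟫ = 0` iff `S x = 0` (Cauchy-Schwarz for the form, or `⟪S (x + t y), x + t y⟫ ≥ 0`), so `W = {x | ‖A x - x‖ = m ‖x‖}`. `W ≠ ⊥`: the norm is attained on the compact unit sphere (`E` finite dimensional, nontrivial as `A ≠ 1`).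
  `A W ⊆ W` as `S` commutes with `A`; also `A⁻¹ W ⊆ W`, so `A Wᗮ ⊆ Wᗮ`. `m' ` = the maximum of `‖A x - x‖` on the unit sphere of `Wᗮ` (`0` if `Wᗮ = ⊥`); it is attained and `< m` since `W ⊓ Wᗮ = ⊥`.
* `exists_classes`: `E →L[ℝ] E` is a finite dimensional normed space, so its closed unit ball is compact, hence covered by finitely many balls of radius `ε/2` (`IsCompact.finite_cover_balls` or
  `TotallyBounded`); `c A` = the index of a ball which contains `A.toContinuousLinearEquiv` (operator norm `≤ 1`); two elements of one ball differ by at most `ε` in operator norm.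
-/

set_option autoImplicit false

namespace TitsLF

universe u v

variable {E : Type v} [NormedAddCommGroup E] [InnerProductSpace ℝ E]

/-- The norm of `A - 1`. -/
noncomputable def rot (A : E ≃ₗᵢ[ℝ] E) : ℝ :=
  ‖(A.toContinuousLinearEquiv : E →L[ℝ] E) - ContinuousLinearMap.id ℝ E‖

theorem rot_nonneg (A : E ≃ₗᵢ[ℝ] E) : 0 ≤ rot A := norm_nonneg _

theorem rot_le (A : E ≃ₗᵢ[ℝ] E) (x : E) : ‖A x - x‖ ≤ rot A * ‖x‖ :=
  ((A.toContinuousLinearEquiv : E →L[ℝ] E) - ContinuousLinearMap.id ℝ E).le_opNorm x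

theorem rot_le_of {A : E ≃ₗᵢ[ℝ] E} {c : ℝ} (hc : 0 ≤ c) (h : ∀ x, ‖A x - x‖ ≤ c * ‖x‖) :
    rot A ≤ c :=
  ContinuousLinearMap.opNorm_le_bound _ hc h

theorem rot_eq_zero {A : E ≃ₗᵢ[ℝ] E} (h : rot A = 0) : A = 1 := by
  ext x
  have h1 := rot_le A x
  rw [h, zero_mul] at h1
  have h2 := norm_le_zero_iff.1 h1
  exact sub_eq_zero.1 h2

theorem rot_mul_inv_le {A B : E ≃ₗᵢ[ℝ] E} {c : ℝ} (hc : 0 ≤ c)
    (h : ∀ x, ‖A x - B x‖ ≤ c * ‖x‖) : rot (A * B⁻¹) ≤ c := by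
  refine rot_le_of hc fun x => ?_
  have h1 := h (B.symm x)
  rw [LinearIsometryEquiv.apply_symm_apply, LinearIsometryEquiv.norm_map] at h1
  exact h1

theorem rot_inv_mul_le {A B : E ≃ₗᵢ[ℝ] E} {c : ℝ} (hc : 0 ≤ c)
    (h : ∀ x, ‖A x - B x‖ ≤ c * ‖x‖) : rot (A⁻¹ * B) ≤ c := by
  refine rot_le_of hc fun x => ?_
  have h1 := h x
  have h2 : ‖(A⁻¹ * B) x - x‖ = ‖A x - B x‖ := by
    rw [← LinearIsometryEquiv.norm_map A ((A⁻¹ * B) x - x), map_sub, ← norm_neg, neg_sub]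
    congr 2
    exact A.apply_symm_apply (B x)
  rw [h2]
  exact h1

theorem rot_comm (A B : E ≃ₗᵢ[ℝ] E) : rot (A * B * A⁻¹ * B⁻¹) ≤ 2 * rot A * rot B := by
  have hA := rot_nonneg A
  have hB := rot_nonneg B
  refine rot_le_of (by positivity) fun x => ?_
  obtain ⟨y, rfl⟩ : ∃ y, B (A y) = x :=
    ⟨A.symm (B.symm x), by rw [A.apply_symm_apply, B.apply_symm_apply]⟩
  have h1 : (A * B * A⁻¹ * B⁻¹) (B (A y)) = A (B y) := by
    change A (B (A.symm (B.symm (B (A y))))) = A (B y)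
    rw [B.symm_apply_apply, A.symm_apply_apply]
  rw [h1, B.norm_map, A.norm_map]
  have h2 : A (B y) - B (A y) = (A (B y - y) - (B y - y)) - (B (A y - y) - (A y - y)) := by
    rw [map_sub, map_sub]
    abel
  rw [h2]
  refine (norm_sub_le _ _).trans ?_
  have h3 := rot_le A (B y - y)
  have h4 := rot_le B (A y - y)
  have h5 := mul_le_mul_of_nonneg_left (rot_le B y) hA
  have h6 := mul_le_mul_of_nonneg_left (rot_le A y) hB
  nlinarith

private theorem h99_max [FiniteDimensional ℝ E] (A : E ≃ₗᵢ[ℝ] E) (V : Submodule ℝ E)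
    (hV : V ≠ ⊥) : ∃ x ∈ V, ‖x‖ = 1 ∧ ∀ y ∈ V, ‖A y - y‖ ≤ ‖A x - x‖ * ‖y‖ := by
  have hcomp : IsCompact (Metric.sphere (0 : E) 1 ∩ (V : Set E)) :=
    (isCompact_sphere (0 : E) 1).inter_right V.closed_of_finiteDimensional
  have hunit : ∀ v ∈ V, v ≠ 0 → ‖v‖⁻¹ • v ∈ Metric.sphere (0 : E) 1 ∩ (V : Set E) := by
    intro v hv hv0
    refine ⟨?_, V.smul_mem _ hv⟩
    rw [mem_sphere_zero_iff_norm, norm_smul, norm_inv, norm_norm]
    exact inv_mul_cancel₀ (norm_ne_zero_iff.2 hv0)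
  obtain ⟨v, hv, hv0⟩ := Submodule.exists_mem_ne_zero_of_ne_bot hV
  have hcont : Continuous fun x : E => ‖A x - x‖ := (A.continuous.sub continuous_id).norm
  obtain ⟨x, hx, hmax⟩ := hcomp.exists_isMaxOn ⟨_, hunit v hv hv0⟩ hcont.continuousOn
  refine ⟨x, hx.2, mem_sphere_zero_iff_norm.1 hx.1, fun y hy => ?_⟩
  by_cases hy0 : y = 0
  · rw [hy0, map_zero, sub_zero, norm_zero, mul_zero]
  · have h1 : ‖A (‖y‖⁻¹ • y) - ‖y‖⁻¹ • y‖ ≤ ‖A x - x‖ := hmax (hunit y hy hy0)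
    rw [map_smul, ← smul_sub, norm_smul, norm_inv, norm_norm] at h1
    have hyp : 0 < ‖y‖ := norm_pos_iff.2 hy0
    rwa [inv_mul_le_iff₀ hyp, mul_comm] at h1

open scoped InnerProductSpace in
theorem exists_decomp [FiniteDimensional ℝ E] {A : E ≃ₗᵢ[ℝ] E} (hA : A ≠ 1) :
    ∃ (W : Submodule ℝ E) (m' : ℝ), W ≠ ⊥ ∧ 0 ≤ m' ∧ m' < rot A ∧ (∀ x ∈ W, A x ∈ W) ∧
      (∀ x ∈ W, ‖A x - x‖ = rot A * ‖x‖) ∧ (∀ x ∈ Wᗮ, A x ∈ Wᗮ) ∧
      ∀ x ∈ Wᗮ, ‖A x - x‖ ≤ m' * ‖x‖ := by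
  obtain ⟨m, hm⟩ : ∃ m, m = rot A := ⟨_, rfl⟩
  have hm0 : 0 < m := by
    rw [hm]
    refine lt_of_le_of_ne (rot_nonneg A) fun h => hA (rot_eq_zero h.symm)
  have hle : ∀ x, ‖A x - x‖ ≤ m * ‖x‖ := fun x => by
    rw [hm]
    exact rot_le A x
  rw [← hm]
  obtain ⟨S, hS⟩ : ∃ S : E →ₗ[ℝ] E, ∀ x, S x = m ^ 2 • x - ((2 : ℝ) • x - A x - A.symm x) := by
    refine ⟨m ^ 2 • LinearMap.id - ((2 : ℝ) • LinearMap.id - A.toLinearEquiv.toLinearMap -
      A.symm.toLinearEquiv.toLinearMap), fun x => rfl⟩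
  have hsymm : ∀ x y : E, ⟪A.symm x, y⟫_ℝ = ⟪x, A y⟫_ℝ := by
    intro x y
    rw [← A.inner_map_map (A.symm x) y, A.apply_symm_apply]
  have hsymm' : ∀ x y : E, ⟪A x, y⟫_ℝ = ⟪x, A.symm y⟫_ℝ := by
    intro x y
    rw [← A.inner_map_map x (A.symm y), A.apply_symm_apply]
  have hSS : ∀ x y : E, ⟪S x, y⟫_ℝ = ⟪x, S y⟫_ℝ := by
    intro x y
    rw [hS, hS]
    simp only [inner_sub_left, inner_sub_right, real_inner_smul_left, real_inner_smul_right,
      hsymm, hsymm']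
    ring
  have hSx : ∀ x : E, ⟪S x, x⟫_ℝ = m ^ 2 * ‖x‖ ^ 2 - ‖A x - x‖ ^ 2 := by
    intro x
    rw [@norm_sub_sq_real, A.norm_map, hS]
    simp only [inner_sub_left, real_inner_smul_left, hsymm, real_inner_self_eq_norm_sq]
    rw [real_inner_comm x (A x)]
    ring
  have hSpos : ∀ x : E, 0 ≤ ⟪S x, x⟫_ℝ := by
    intro x
    rw [hSx]
    have h1 := pow_le_pow_left₀ (norm_nonneg _) (hle x) 2
    rw [mul_pow] at h1
    linarith
  have hker : ∀ x : E, ⟪S x, x⟫_ℝ = 0 → S x = 0 := by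
    intro x hx
    by_contra hne
    have ha : 0 < ‖S x‖ ^ 2 := by
      have := norm_pos_iff.2 hne
      positivity
    obtain ⟨b, hb⟩ : ∃ b, b = ⟪S (S x), S x⟫_ℝ := ⟨_, rfl⟩
    have hb0 : 0 ≤ b := by
      rw [hb]
      exact hSpos _
    have hq : ∀ t : ℝ, 0 ≤ 2 * t * ‖S x‖ ^ 2 + t ^ 2 * b := by
      intro t
      have h1 := hSpos (x + t • S x)
      have h2 : ⟪S (x + t • S x), x + t • S x⟫_ℝ = 2 * t * ‖S x‖ ^ 2 + t ^ 2 * b := by
        have h3 : ⟪S (S x), x⟫_ℝ = ‖S x‖ ^ 2 := by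
          rw [hSS, real_inner_self_eq_norm_sq]
        rw [map_add, map_smul, hb]
        simp only [inner_add_left, inner_add_right, real_inner_smul_left, real_inner_smul_right,
          hx, h3, real_inner_self_eq_norm_sq]
        ring
      rwa [h2] at h1
    obtain ⟨a, haa⟩ : ∃ a, a = ‖S x‖ ^ 2 := ⟨_, rfl⟩
    rw [← haa] at ha hq
    have h1 := hq (-(a / (b + 1)))
    have h2 : 2 * (-(a / (b + 1))) * a + (-(a / (b + 1))) ^ 2 * b =
        -(a ^ 2 * (b + 2) / (b + 1) ^ 2) := by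
      have : b + 1 ≠ 0 := by positivity
      field_simp
      ring
    rw [h2] at h1
    have h3 : 0 < a ^ 2 * (b + 2) / (b + 1) ^ 2 := by positivity
    linarith
  have hW : ∀ x : E, x ∈ LinearMap.ker S ↔ ‖A x - x‖ = m * ‖x‖ := by
    intro x
    rw [LinearMap.mem_ker]
    constructor
    · intro h
      have h1 := hSx x
      rw [h, inner_zero_left] at h1
      have h2 : ‖A x - x‖ ^ 2 = (m * ‖x‖) ^ 2 := by
        rw [mul_pow]
        linarith
      exact (pow_left_inj₀ (norm_nonneg _) (by positivity) two_ne_zero).1 h2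
    · intro h
      apply hker
      rw [hSx, h, mul_pow, sub_self]
  have hcomm : ∀ x : E, S (A x) = A (S x) := by
    intro x
    rw [hS, hS]
    simp only [map_sub, map_smul, A.symm_apply_apply, A.apply_symm_apply]
  have hcomm' : ∀ x : E, S (A.symm x) = A.symm (S x) := by
    intro x
    rw [hS, hS]
    simp only [map_sub, map_smul, A.symm_apply_apply, A.apply_symm_apply]
  have hWne : LinearMap.ker S ≠ ⊥ := by
    have htop : (⊤ : Submodule ℝ E) ≠ ⊥ := by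
      intro h
      apply hA
      ext x
      have h1 : x ∈ (⊤ : Submodule ℝ E) := Submodule.mem_top
      rw [h, Submodule.mem_bot] at h1
      rw [h1, map_zero]
      rfl
    obtain ⟨x, -, hx1, hx2⟩ := h99_max A ⊤ htop
    have h1 : m ≤ ‖A x - x‖ := by
      rw [hm]
      exact rot_le_of (norm_nonneg _) fun y => hx2 y Submodule.mem_top
    have h2 := hle x
    have h3 : ‖A x - x‖ = m * ‖x‖ := by
      rw [hx1, mul_one] at h2 ⊢
      exact le_antisymm h2 h1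
    intro hbot
    have h4 := (hW x).2 h3
    rw [hbot, Submodule.mem_bot] at h4
    rw [h4, norm_zero] at hx1
    exact zero_ne_one hx1
  have hAperp : ∀ x ∈ (LinearMap.ker S)ᗮ, A x ∈ (LinearMap.ker S)ᗮ := by
    intro x hx
    rw [Submodule.mem_orthogonal] at hx ⊢
    intro u hu
    rw [← hsymm]
    apply hx
    rw [LinearMap.mem_ker] at hu ⊢
    rw [hcomm', hu, map_zero]
  have hAW : ∀ x ∈ LinearMap.ker S, A x ∈ LinearMap.ker S := by
    intro x hx
    rw [LinearMap.mem_ker] at hx ⊢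
    rw [hcomm, hx, map_zero]
  by_cases hp : (LinearMap.ker S)ᗮ = ⊥
  · refine ⟨LinearMap.ker S, 0, hWne, le_rfl, hm0, hAW, fun x hx => (hW x).1 hx, hAperp, ?_⟩
    intro x hx
    rw [hp, Submodule.mem_bot] at hx
    rw [hx, map_zero, sub_zero, norm_zero, zero_mul]
  · obtain ⟨x, hx, hx1, hx2⟩ := h99_max A _ hp
    refine ⟨LinearMap.ker S, ‖A x - x‖, hWne, norm_nonneg _, ?_, hAW, fun x hx => (hW x).1 hx,
      hAperp, hx2⟩
    have h1 := hle x
    rw [hx1, mul_one] at h1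
    refine lt_of_le_of_ne h1 fun h2 => ?_
    have h3 : x ∈ LinearMap.ker S := (hW x).2 (by rw [h2, hx1, mul_one])
    have h4 := Submodule.inner_right_of_mem_orthogonal h3 hx
    rw [real_inner_self_eq_norm_sq, hx1] at h4
    norm_num at h4

/-- The linear isometries are totally bounded: finitely many classes of small diameter. -/
theorem exists_classes [FiniteDimensional ℝ E] {ε : ℝ} (hε : 0 < ε) :
    ∃ (N : ℕ) (c : (E ≃ₗᵢ[ℝ] E) → Fin N), ∀ A B, c A = c B → ∀ x, ‖A x - B x‖ ≤ ε * ‖x‖ := by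
  classical
  have : ProperSpace (E →L[ℝ] E) := FiniteDimensional.proper ℝ (E →L[ℝ] E)
  obtain ⟨t, -, htf, hcov⟩ := (isCompact_closedBall (0 : E →L[ℝ] E) 1).finite_cover_balls
    (half_pos hε)
  have hmem : ∀ A : E ≃ₗᵢ[ℝ] E, ∃ y : t,
      dist (A.toContinuousLinearEquiv : E →L[ℝ] E) y < ε / 2 := by
    intro A
    have h1 : (A.toContinuousLinearEquiv : E →L[ℝ] E) ∈ Metric.closedBall (0 : E →L[ℝ] E) 1 := by
      rw [mem_closedBall_zero_iff]
      refine ContinuousLinearMap.opNorm_le_bound _ zero_le_one fun x => ?_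
      rw [one_mul]
      exact (A.norm_map x).le
    obtain ⟨y, hy, hyA⟩ := Set.mem_iUnion₂.1 (hcov h1)
    exact ⟨⟨y, hy⟩, hyA⟩
  choose f hf using hmem
  have : Fintype t := htf.fintype
  refine ⟨Fintype.card t, fun A => Fintype.equivFin t (f A), fun A B hAB x => ?_⟩
  have h1 : f A = f B := (Fintype.equivFin t).injective hAB
  have h2 := hf A
  have h3 := hf B
  rw [h1] at h2
  have h4 : dist (A.toContinuousLinearEquiv : E →L[ℝ] E) (B.toContinuousLinearEquiv : E →L[ℝ] E) ≤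
      ε := by
    have := dist_triangle_right (A.toContinuousLinearEquiv : E →L[ℝ] E)
      (B.toContinuousLinearEquiv : E →L[ℝ] E) (f B : E →L[ℝ] E)
    linarith
  rw [dist_eq_norm] at h4
  exact (((A.toContinuousLinearEquiv : E →L[ℝ] E) -
    (B.toContinuousLinearEquiv : E →L[ℝ] E)).le_opNorm x).trans
      (mul_le_mul_of_nonneg_right h4 (norm_nonneg x))

end TitsLF
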