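import Pool.Agent.Helper35.TT.BMini

/-!
TT-42 BMain. Small rotations are trivial (Buser's proof of the theorem of Bieberbach).

PROOF. Suppose some `g` has `rot (A g) ≤ 1/2` and `A g ≠ 1`. Among all such `g` choose `α` with `‖a α‖` minimal (by `hfin` only finitely many `g` have `‖a g‖ ≤` a given bound). `m = rot (A α) ∈ (0, 1/2]`, `W`, `m'` from `exists_decomp`.
For `x : E` write `x = x₁ + x₂`, `x₁ ∈ W`, `x₂ ∈ Wᗮ` (orthogonal projections, `‖x₁‖, ‖x₂‖ ≤ ‖x‖ ≤ ‖x₁‖ + ‖x₂‖`). Consider the set `𝒮` of the `β : G` with `b = a β`: `rot (A β) ≤ (m - m')/8`, `‖b₂‖ < ‖b₁‖`. It is nonempty by `bieb_mini` with a unit vector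
`u ∈ W`, `ε = (m - m')/8`, `δ = 1/4`: `‖b - ‖b‖ u‖ ≤ ‖b‖/4` gives `‖b₂‖ ≤ ‖b‖/4`, `‖b₁‖ ≥ 3‖b‖/4`, `b ≠ 0`. Choose `β ∈ 𝒮` with `‖b‖` minimal (`hfin`); `b ≠ 0`.
Let `γ = α β α⁻¹ β⁻¹`, `c = a γ`, `A = A α`, `B = A β`, `C = A γ = A B A⁻¹ B⁻¹`. From `a (α β) = a (γ β α)`: `a α + A b = c + C b + C B (a α)`, so
`c = (A - 1) b + (1 - C) b + (1 - C B) (a α)`, `C B = A B A⁻¹`, `‖(1 - A B A⁻¹) v‖ ≤ rot B ‖v‖`. Also `rot B ‖a α‖ ≤ rot B ‖b‖`: clear if `B = 1`; otherwise `rot B ≤ 1/16 ≤ 1/2` and the minimality of `α` gives `‖a α‖ ≤ ‖b‖`.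
`rot C ≤ 2 rot A rot B ≤ rot B` (`rot_comm`, `m ≤ 1/2`). So `r = (1 - C) b + (1 - C B)(a α)` satisfies `‖r‖ ≤ 2 rot B ‖b‖ ≤ (m - m')/4 ‖b‖ < (m - m')/2 ‖b₁‖` (`‖b‖ ≤ ‖b₁‖ + ‖b₂‖ < 2 ‖b₁‖`).
`c₁ = (A - 1) b₁ + r₁`, `c₂ = (A - 1) b₂ + r₂` (invariance of `W`, `Wᗮ`): `‖c₂‖ ≤ m' ‖b₂‖ + ‖r‖ < (m + m')/2 ‖b₁‖` and `‖c₁‖ ≥ m ‖b₁‖ - ‖r‖ > (m + m')/2 ‖b₁‖`. So `γ ∈ 𝒮` (`rot C ≤ rot B ≤ (m - m')/8`), and
`‖c‖ ≤ m ‖b‖ + ‖r‖ ≤ (1/2 + 1/8) ‖b‖ < ‖b‖`, contradiction to the minimality of `β`.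
-/

set_option autoImplicit false

namespace TitsLF

universe u v

variable {G : Type u} [Group G] {E : Type v} [NormedAddCommGroup E] [InnerProductSpace ℝ E]
  [FiniteDimensional ℝ E]

omit [FiniteDimensional ℝ E] in
private lemma exists_minimal' {a : G → E} (hfin : ∀ R : ℝ, {g | ‖a g‖ ≤ R}.Finite) (S : Set G)
    (hS : S.Nonempty) : ∃ x ∈ S, ∀ y ∈ S, ‖a x‖ ≤ ‖a y‖ := by
  obtain ⟨g0, hg0⟩ := hS
  obtain ⟨x, hx, hx'⟩ := Set.exists_min_image (S ∩ {g | ‖a g‖ ≤ ‖a g0‖}) (fun g => ‖a g‖)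
    ((hfin ‖a g0‖).subset Set.inter_subset_right) ⟨g0, hg0, le_refl ‖a g0‖⟩
  refine ⟨x, hx.1, fun y hy => ?_⟩
  by_cases h : ‖a y‖ ≤ ‖a g0‖
  · exact hx' y ⟨hy, h⟩
  · exact le_trans hx.2 (le_of_lt (not_le.mp h))

theorem bieb_main (A : G →* (E ≃ₗᵢ[ℝ] E)) (a : G → E) (ha : ∀ g k, a (g * k) = a g + A g (a k))
    (hfin : ∀ R : ℝ, {g | ‖a g‖ ≤ R}.Finite) (hcoc : ∃ D : ℝ, ∀ v : E, ∃ g, ‖a g - v‖ ≤ D)
    (g : G) (hg : rot (A g) ≤ 1 / 2) : A g = 1 := by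
  by_contra hne
  obtain ⟨α, ⟨hα1, hα2⟩, hαm⟩ := exists_minimal' hfin {g | rot (A g) ≤ 1 / 2 ∧ A g ≠ 1} ⟨g, hg, hne⟩
  obtain ⟨W, m', hW, hm'0, hm'm, hAW, hAW2, hAWp, hAWp2⟩ := exists_decomp hα2
  have hm0 : 0 < rot (A α) := lt_of_le_of_lt hm'0 hm'm
  set m : ℝ := rot (A α) with hm
  -- the projection
  set P : E →L[ℝ] E := W.starProjection with hP
  have hPm : ∀ x, P x ∈ W := fun x => Submodule.starProjection_apply_mem W x
  have hPo : ∀ x, x - P x ∈ Wᗮ := fun x => Submodule.sub_starProjection_mem_orthogonal x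
  have hPn : ∀ x, ‖P x‖ ≤ ‖x‖ := fun x => Submodule.norm_starProjection_apply_le W x
  have hQn : ∀ x, ‖x - P x‖ ≤ ‖x‖ := by
    intro x
    have h1 := Submodule.norm_starProjection_apply_le Wᗮ x
    rw [Submodule.starProjection_orthogonal] at h1
    exact h1
  have hPA : ∀ x, P (A α x) = A α (P x) := by
    intro x
    apply Submodule.eq_starProjection_of_mem_orthogonal (hAW _ (hPm x))
    rw [← map_sub]
    exact hAWp _ (hPo x)
  -- the set of the small elements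
  have hSne : ({β | rot (A β) ≤ (m - m') / 8 ∧ ‖a β - P (a β)‖ < ‖P (a β)‖} : Set G).Nonempty := by
    obtain ⟨w, hw, hw0⟩ := Submodule.exists_mem_ne_zero_of_ne_bot hW
    have hwn : 0 < ‖w‖ := norm_pos_iff.mpr hw0
    have hu : ‖(‖w‖⁻¹ • w)‖ = 1 := by
      rw [norm_smul, norm_inv, norm_norm, inv_mul_cancel₀ hwn.ne']
    obtain ⟨β, hβ0, hβ1, hβ2⟩ := bieb_mini A a ha hcoc hu (ε := (m - m') / 8) (δ := 1 / 4)
      (by linarith) (by norm_num)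
    refine ⟨β, hβ1, ?_⟩
    have hbn : 0 < ‖a β‖ := norm_pos_iff.mpr hβ0
    set z : E := ‖a β‖ • (‖w‖⁻¹ • w) with hz
    have hzW : P z = z := by
      refine Submodule.starProjection_eq_self_iff.mpr ?_
      exact W.smul_mem _ (W.smul_mem _ hw)
    have h1 : a β - P (a β) = (a β - z) - P (a β - z) := by
      rw [map_sub, hzW]
      abel
    have h2 : ‖a β - P (a β)‖ ≤ 1 / 4 * ‖a β‖ := by
      rw [h1]
      exact (hQn _).trans hβ2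
    have h3 : ‖a β‖ ≤ ‖a β - P (a β)‖ + ‖P (a β)‖ := by
      have h4 := norm_add_le (a β - P (a β)) (P (a β))
      rwa [sub_add_cancel] at h4
    linarith
  obtain ⟨β, ⟨hβ1, hβ2⟩, hβm⟩ := exists_minimal' hfin _ hSne
  set b : E := a β with hb
  have hb2 : ‖b‖ ≤ ‖b - P b‖ + ‖P b‖ := by
    have h4 := norm_add_le (b - P b) (P b)
    rwa [sub_add_cancel] at h4
  have hPb : 0 < ‖P b‖ := lt_of_le_of_lt (norm_nonneg _) hβ2
  have hbn : 0 < ‖b‖ := lt_of_lt_of_le hPb (hPn b)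
  set γ : G := α * β * α⁻¹ * β⁻¹ with hγ
  have hAγ : A γ = A α * A β * (A α)⁻¹ * (A β)⁻¹ := by
    rw [hγ, map_mul, map_mul, map_mul, map_inv, map_inv]
  have hrC : rot (A γ) ≤ 2 * m * rot (A β) := by
    rw [hAγ]
    exact rot_comm _ _
  have hrB0 : 0 ≤ rot (A β) := rot_nonneg _
  have hrC' : rot (A γ) ≤ rot (A β) := by
    refine hrC.trans ?_
    have h1 : 2 * m ≤ 1 := by linarith
    calc 2 * m * rot (A β) ≤ 1 * rot (A β) := mul_le_mul_of_nonneg_right h1 hrB0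
      _ = rot (A β) := one_mul _
  have hcoc1 : a γ = a α + A α b - A γ b - A γ (A β (a α)) := by
    have h1 : γ * (β * α) = α * β := by
      rw [hγ]
      group
    have h2 := ha γ (β * α)
    rw [h1, ha α β, ha β α, map_add] at h2
    rw [sub_sub]
    exact eq_sub_of_add_eq h2.symm
  set r : E := (b - A γ b) + (a α - A γ (A β (a α))) with hr
  have hc : a γ = (A α b - b) + r := by
    rw [hcoc1, hr]
    abel
  have hr1 : ‖b - A γ b‖ ≤ rot (A β) * ‖b‖ := by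
    rw [norm_sub_rev]
    exact (rot_le _ _).trans (mul_le_mul_of_nonneg_right hrC' (norm_nonneg _))
  have hr2 : ‖a α - A γ (A β (a α))‖ ≤ rot (A β) * ‖a α‖ := by
    have h1 : A γ (A β (a α)) = A α (A β ((A α)⁻¹ (a α))) := by
      have h2 : A γ * A β = A α * A β * (A α)⁻¹ := by
        rw [hAγ]
        group
      have h3 : A γ (A β (a α)) = (A γ * A β) (a α) := rfl
      rw [h3, h2]
      rfl
    have h4 : A α ((A α)⁻¹ (a α)) = a α := by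
      have h5 : (A α * (A α)⁻¹) (a α) = a α := by
        rw [mul_inv_cancel]
        rfl
      exact h5
    have h6 : ‖(A α)⁻¹ (a α)‖ = ‖a α‖ := LinearIsometryEquiv.norm_map _ _
    calc ‖a α - A γ (A β (a α))‖ = ‖A α ((A α)⁻¹ (a α)) - A α (A β ((A α)⁻¹ (a α)))‖ := by
          rw [h1, h4]
      _ = ‖(A α)⁻¹ (a α) - A β ((A α)⁻¹ (a α))‖ := by
          rw [← map_sub, LinearIsometryEquiv.norm_map]
      _ = ‖A β ((A α)⁻¹ (a α)) - (A α)⁻¹ (a α)‖ := norm_sub_rev _ _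
      _ ≤ rot (A β) * ‖(A α)⁻¹ (a α)‖ := rot_le _ _
      _ = rot (A β) * ‖a α‖ := by rw [h6]
  have hr3 : rot (A β) * ‖a α‖ ≤ rot (A β) * ‖b‖ := by
    by_cases h1 : A β = 1
    · have h2 : rot (A β) ≤ 0 := by
        refine rot_le_of (le_refl 0) fun x => ?_
        rw [h1]
        simp
      have h3 : rot (A β) = 0 := le_antisymm h2 hrB0
      rw [h3, zero_mul, zero_mul]
    · refine mul_le_mul_of_nonneg_left ?_ hrB0
      refine hαm β ⟨?_, h1⟩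
      refine le_trans hβ1 ?_
      linarith
  have hrn : ‖r‖ ≤ (m - m') / 4 * ‖b‖ := by
    calc ‖r‖ ≤ ‖b - A γ b‖ + ‖a α - A γ (A β (a α))‖ := norm_add_le _ _
      _ ≤ rot (A β) * ‖b‖ + rot (A β) * ‖b‖ := add_le_add hr1 (hr2.trans hr3)
      _ = 2 * rot (A β) * ‖b‖ := by ring
      _ ≤ (m - m') / 4 * ‖b‖ := by
          refine mul_le_mul_of_nonneg_right ?_ (norm_nonneg _)
          linarith
  have hrn2 : ‖r‖ < (m - m') / 2 * ‖P b‖ := by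
    refine lt_of_le_of_lt hrn ?_
    have h1 : ‖b‖ < 2 * ‖P b‖ := by linarith
    have h2 : (m - m') / 4 * ‖b‖ < (m - m') / 4 * (2 * ‖P b‖) :=
      mul_lt_mul_of_pos_left h1 (by linarith)
    calc (m - m') / 4 * ‖b‖ < (m - m') / 4 * (2 * ‖P b‖) := h2
      _ = (m - m') / 2 * ‖P b‖ := by ring
  have hc1 : P (a γ) = (A α (P b) - P b) + P r := by
    rw [hc, map_add, map_sub, hPA]
  have hc2 : a γ - P (a γ) = (A α (b - P b) - (b - P b)) + (r - P r) := by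
    rw [hc1, hc, map_sub]
    abel
  have hn1 : m * ‖P b‖ - ‖r‖ ≤ ‖P (a γ)‖ := by
    have h1 : ‖A α (P b) - P b‖ = m * ‖P b‖ := hAW2 _ (hPm b)
    have h2 : ‖A α (P b) - P b‖ ≤ ‖P (a γ)‖ + ‖P r‖ := by
      have h3 : A α (P b) - P b = P (a γ) - P r := by
        rw [hc1]
        abel
      rw [h3]
      exact norm_sub_le _ _
    have h4 := hPn r
    linarith
  have hn2 : ‖a γ - P (a γ)‖ ≤ m' * ‖b - P b‖ + ‖r‖ := by
    rw [hc2]
    refine (norm_add_le _ _).trans (add_le_add (hAWp2 _ (hPo b)) (hQn r))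
  have hn3 : m' * ‖b - P b‖ ≤ m' * ‖P b‖ := mul_le_mul_of_nonneg_left hβ2.le hm'0
  have hγS : γ ∈ ({β | rot (A β) ≤ (m - m') / 8 ∧ ‖a β - P (a β)‖ < ‖P (a β)‖} : Set G) := by
    refine ⟨hrC'.trans hβ1, ?_⟩
    nlinarith
  have hmin := hβm γ hγS
  have hcn : ‖a γ‖ ≤ m * ‖b‖ + (m - m') / 4 * ‖b‖ := by
    rw [hc]
    exact (norm_add_le _ _).trans (add_le_add (rot_le _ _) hrn)
  have h1 : m * ‖b‖ + (m - m') / 4 * ‖b‖ ≤ (1 / 2 + 1 / 8) * ‖b‖ := by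
    rw [← add_mul]
    refine mul_le_mul_of_nonneg_right ?_ (norm_nonneg _)
    linarith
  linarith

end TitsLF
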