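import Pool.Agent.Helper35.TT.BLin

/-!
TT-41 BMini. Elements with small rotation and translation part in a given direction.

PROOF. `D` from `hcoc`. For `k : ℕ` choose `g k` with `‖a (g k) - k • u‖ ≤ D`. By `exists_classes` (for `min ε (δ/8)`) and the infinite pigeonhole principle there is an infinite set `I` of `k` with `A (g k)` in one class. Fix `j ∈ I` and let
`i ∈ I` be large; `g = g i * (g j)⁻¹`: `rot (A g) ≤ ε` (`rot_mul_inv_le`). `a (g j)⁻¹ = - A (g j)⁻¹ (a (g j))` (from `a 1 = 0`), so `a g = a (g i) - A (g i) A (g j)⁻¹ (a (g j))`, which is within `D + ‖a (g j)‖ =: D'` of `i • u`. So for large `i`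
`‖a g‖ ≥ i - D' > 0` and `‖a g - ‖a g‖ • u‖ ≤ ‖a g - i • u‖ + |i - ‖a g‖| ≤ 2 D' ≤ δ ‖a g‖`.
-/

set_option autoImplicit false

namespace TitsLF

universe u v

variable {G : Type u} [Group G] {E : Type v} [NormedAddCommGroup E] [InnerProductSpace ℝ E]
  [FiniteDimensional ℝ E]

theorem bieb_mini (A : G →* (E ≃ₗᵢ[ℝ] E)) (a : G → E) (ha : ∀ g k, a (g * k) = a g + A g (a k))
    (hcoc : ∃ D : ℝ, ∀ v : E, ∃ g, ‖a g - v‖ ≤ D) {u : E} (hu : ‖u‖ = 1) {ε δ : ℝ} (hε : 0 < ε)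
    (hδ : 0 < δ) : ∃ g, a g ≠ 0 ∧ rot (A g) ≤ ε ∧ ‖a g - ‖a g‖ • u‖ ≤ δ * ‖a g‖ := by
  classical
  obtain ⟨D, hD⟩ := hcoc
  choose g hg using fun k : ℕ => hD ((k : ℝ) • u)
  have hD0 : 0 ≤ D := le_trans (norm_nonneg _) (hg 0)
  obtain ⟨N, c, hc⟩ := exists_classes (E := E) hε
  obtain ⟨y, hy⟩ := Finite.exists_infinite_fiber fun k : ℕ => c (A (g k))
  have hinf : ((fun k : ℕ => c (A (g k))) ⁻¹' {y}).Infinite := Set.infinite_coe_iff.mp hy
  obtain ⟨j, hj⟩ := hinf.nonempty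
  set D' : ℝ := D + ‖a (g j)⁻¹‖ with hD'
  have hD'0 : 0 ≤ D' := by positivity
  obtain ⟨M, hM⟩ := exists_nat_gt (D' + 2 * D' / δ)
  obtain ⟨i, hi, hMi⟩ := hinf.exists_gt M
  have hiM : D' + 2 * D' / δ < (i : ℝ) := lt_trans hM (by exact_mod_cast hMi)
  have h2 : 0 ≤ 2 * D' / δ := by positivity
  have hcl : c (A (g i)) = c (A (g j)) := by
    have h3 : c (A (g i)) = y := hi
    have h4 : c (A (g j)) = y := hj
    rw [h3, h4]
  have hdist : ‖a (g i * (g j)⁻¹) - (i : ℝ) • u‖ ≤ D' := by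
    rw [ha]
    have h5 : a (g i) + A (g i) (a (g j)⁻¹) - (i : ℝ) • u =
        (a (g i) - (i : ℝ) • u) + A (g i) (a (g j)⁻¹) := by abel
    rw [h5]
    refine (norm_add_le _ _).trans ?_
    rw [LinearIsometryEquiv.norm_map]
    exact add_le_add (hg i) le_rfl
  have hni : ‖(i : ℝ) • u‖ = i := by
    rw [norm_smul, hu, mul_one, Real.norm_natCast]
  have habs := abs_norm_sub_norm_le (a (g i * (g j)⁻¹)) ((i : ℝ) • u)
  rw [hni] at habs
  have habs' : |‖a (g i * (g j)⁻¹)‖ - i| ≤ D' := habs.trans hdist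
  obtain ⟨hlo, hhi⟩ := abs_le.mp habs'
  have hpos : 2 * D' / δ < ‖a (g i * (g j)⁻¹)‖ := by linarith
  refine ⟨g i * (g j)⁻¹, ?_, ?_, ?_⟩
  · intro h0
    rw [h0, norm_zero] at hpos
    linarith
  · rw [map_mul, map_inv]
    exact rot_mul_inv_le hε.le (hc _ _ hcl)
  · have h6 : a (g i * (g j)⁻¹) - ‖a (g i * (g j)⁻¹)‖ • u =
        (a (g i * (g j)⁻¹) - (i : ℝ) • u) + ((i : ℝ) - ‖a (g i * (g j)⁻¹)‖) • u := by
      rw [sub_smul]; abel
    have h7 : ‖((i : ℝ) - ‖a (g i * (g j)⁻¹)‖) • u‖ ≤ D' := by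
      rw [norm_smul, hu, mul_one, Real.norm_eq_abs, abs_sub_comm]
      exact habs'
    have h8 : 2 * D' ≤ δ * ‖a (g i * (g j)⁻¹)‖ := by
      have := (div_lt_iff₀ hδ).mp hpos
      linarith
    rw [h6]
    refine (norm_add_le _ _).trans ?_
    linarith

end TitsLF
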