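import Pool.Agent.Helper35.TT.Bus
import Pool.Agent.Helper35.TT.Quad

/-!
TT-21 BusLim. A function with `IsBus h` is the Busemann function of each of its rays.

PROOFS. `T_N = fl h N`.
* `bus_tendsto`: `a_N(x, y) = dist y (T_N x) - N` is antitone in `N : ℕ` (`dist_fl_fl`, triangle) and `≥ h y - h x` (`h` is Lipschitz, `fl_val`); so it converges to some `b_x y ≥ h y - h x`
  (`tendsto_atTop_ciInf`). `cross_tendsto` with `p N = T_N x`, `q N = T_N x'`, `r N = N`, base point `o = x` (`dist (p N) (q N) ≤ dist x x'` by `fl_nonexp`): for all `y y'`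
  `b_{x'} y - b_x y = b_{x'} y' - b_x y'`. Since `b_{x'} x' = 0`: `b_{x'} y = b_x y - b_x x'`. Now `h x' - h x ≤ b_x x'`, and `h x - h x' ≤ b_{x'} x = b_x x - b_x x' = - b_x x'`. So `b_x x' = h x' - h x`.
* `bus_ineq`: for `N : ℕ`, `N > s`: `T_s x = seg x (T_N x) (s / N)` (`seg_unique`, `dist_fl_fl`), `cn_seg`:
  `dist y (T_s x)^2 ≤ (1 - s/N) dist y x^2 + (s/N) dist y (T_N x)^2 - (s/N)(1 - s/N) N^2`. With `dist y (T_N x) = N + a_N`, `a_N → h y - h x`: `(s/N)(N + a_N)^2 = s N + 2 s a_N + s a_N^2/N`, and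
  `(s/N)(1 - s/N) N^2 = s N - s^2`. Let `N → ∞` (`le_of_tendsto'`).
-/

set_option autoImplicit false

namespace TitsLF

open Filter Topology

universe u v

variable {X : Type v} [MetricSpace X] [CAT X]

private theorem bus_anti {h : X → ℝ} (hh : IsBus h) (x y : X) :
    Antitone (fun N : ℕ => dist y (fl h N x) - N) := by
  intro M N hMN
  have h1 : (M : ℝ) ≤ N := by exact_mod_cast hMN
  have h2 := dist_triangle y (fl h M x) (fl h N x)
  rw [dist_fl_fl hh (Nat.cast_nonneg M) (Nat.cast_nonneg N),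
    abs_of_nonpos (by linarith : (M : ℝ) - N ≤ 0)] at h2
  show dist y (fl h N x) - N ≤ dist y (fl h M x) - M
  linarith

omit [CAT X] in
private theorem bus_lower {h : X → ℝ} (hh : IsBus h) (x y : X) (N : ℕ) :
    h y - h x ≤ dist y (fl h N x) - N := by
  have h1 := (le_abs_self _).trans (hh.lip y (fl h N x))
  rw [fl_val hh (Nat.cast_nonneg N)] at h1
  linarith

private theorem bus_exists {h : X → ℝ} (hh : IsBus h) (x y : X) :
    ∃ b : ℝ, h y - h x ≤ b ∧
      Tendsto (fun N : ℕ => dist y (fl h N x) - N) atTop (𝓝 b) := by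
  have hb : BddBelow (Set.range (fun N : ℕ => dist y (fl h N x) - N)) :=
    ⟨h y - h x, by rintro _ ⟨N, rfl⟩; exact bus_lower hh x y N⟩
  exact ⟨_, le_ciInf (fun N => bus_lower hh x y N), tendsto_atTop_ciInf (bus_anti hh x y) hb⟩

private theorem bus_cross {h : X → ℝ} (hh : IsBus h) (x x' y y' : X) :
    Tendsto (fun N : ℕ => (dist y (fl h N x') - dist y (fl h N x)) -
      (dist y' (fl h N x') - dist y' (fl h N x))) atTop (𝓝 0) := by
  refine cross_tendsto x y y' (fun N : ℕ => fl h N x) (fun N : ℕ => fl h N x')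
    (fun N : ℕ => (N : ℝ)) tendsto_natCast_atTop_atTop ?_ ?_
  · refine tendsto_const_nhds.congr' ?_
    filter_upwards [eventually_ge_atTop 1] with N hN
    have hN0 : (N : ℝ) ≠ 0 := by
      have : N ≠ 0 := by omega
      exact_mod_cast this
    rw [fl_dist hh (Nat.cast_nonneg N), div_self hN0]
  · refine squeeze_zero (fun N => by positivity)
      (fun N => div_le_div_of_nonneg_right (fl_nonexp hh (Nat.cast_nonneg N) x x')
        (Nat.cast_nonneg N)) ?_
    exact tendsto_const_div_atTop_nhds_zero_nat (dist x x')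

theorem bus_tendsto {h : X → ℝ} (hh : IsBus h) (x y : X) :
    Tendsto (fun N : ℕ => dist y (fl h N x) - N) atTop (𝓝 (h y - h x)) := by
  choose b hb1 hb2 using fun x y => bus_exists hh x y
  have hc : ∀ x x' y y' : X, b x' y - b x y = b x' y' - b x y' := by
    intro x x' y y'
    have h1 := ((hb2 x' y).sub (hb2 x y)).sub ((hb2 x' y').sub (hb2 x y'))
    have h2 : Tendsto (fun N : ℕ => (dist y (fl h N x') - (N : ℝ) - (dist y (fl h N x) - N)) -
        (dist y' (fl h N x') - (N : ℝ) - (dist y' (fl h N x) - N))) atTop (𝓝 0) := by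
      refine (bus_cross hh x x' y y').congr fun N => ?_
      ring
    have h3 := tendsto_nhds_unique h1 h2
    linarith
  have h0 : ∀ x, b x x = 0 := by
    intro x
    refine tendsto_nhds_unique (hb2 x x) (tendsto_const_nhds.congr fun N => ?_)
    rw [fl_dist hh (Nat.cast_nonneg N), sub_self]
  have h1 : b x y = h y - h x := by
    have h2 := hc x y x y
    rw [h0 x, h0 y] at h2
    have h3 := hb1 x y
    have h4 := hb1 y x
    linarith
  rw [← h1]
  exact hb2 x y

theorem bus_ineq {h : X → ℝ} (hh : IsBus h) {s : ℝ} (hs : 0 ≤ s) (x y : X) :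
    dist y (fl h s x) ^ 2 ≤ dist y x ^ 2 + 2 * s * (h y - h x) + s ^ 2 := by
  have ha := bus_tendsto hh x y
  have hlim : Tendsto (fun N : ℕ => (1 - s / N) * dist y x ^ 2 +
      2 * s * (dist y (fl h N x) - N) + s * (dist y (fl h N x) - N) ^ 2 / N + s ^ 2) atTop
      (𝓝 ((1 - 0) * dist y x ^ 2 + 2 * s * (h y - h x) + 0 + s ^ 2)) := by
    refine (((Tendsto.mul_const _ (Tendsto.const_sub 1
      (tendsto_const_div_atTop_nhds_zero_nat s))).add (ha.const_mul (2 * s))).add ?_).add_const _
    exact ((ha.pow 2).const_mul s).div_atTop tendsto_natCast_atTop_atTop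
  have key : dist y (fl h s x) ^ 2 ≤
      (1 - 0) * dist y x ^ 2 + 2 * s * (h y - h x) + 0 + s ^ 2 := by
    refine ge_of_tendsto hlim ?_
    filter_upwards [eventually_gt_atTop ⌈s⌉₊] with N hN
    have hsN : s < N := (Nat.le_ceil s).trans_lt (by exact_mod_cast hN)
    have hN0 : (0 : ℝ) < N := hs.trans_lt hsN
    have ht : s / N ∈ Set.Icc (0:ℝ) 1 := ⟨by positivity, (div_le_one hN0).2 hsN.le⟩
    have e1 : dist x (fl h N x) = N := fl_dist hh hN0.le x
    have e2 : fl h s x = seg x (fl h N x) (s / N) := by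
      refine seg_unique ht ?_ ?_
      · rw [fl_dist hh hs, e1]
        field_simp
      · rw [dist_fl_fl hh hN0.le hs, e1, abs_of_pos (by linarith)]
        field_simp
    have h1 := cn_seg y x (fl h N x) ht
    rw [← e2, e1] at h1
    refine h1.trans (le_of_eq ?_)
    field_simp
    ring
  linarith

end TitsLF
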