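import Pool.Agent.Helper35.TT.Rep
import Pool.Agent.Helper35.TT.Fib
import Pool.Agent.Helper35.TT.Model
import Pool.Agent.Helper35.TT.BMain
import Pool.Agent.Helper35.TT.BFin

/-!
TT-44 CaseB. Minimal action of an amenable group without fixed Busemann type function: virtually solvable.

PROOF. `exists_model`, `exists_rep`, `a g = β (g • o)`. `β o = 0` (pair with `e k`). `a (g k) = β (g • (k • o)) = A g (a k) + a g`.
`hfix`: let `A g w = w` for all `g`. `f x = ⟪β x, w⟫` is affine, Lipschitz (`beta_lip`), and `f (g x) = ⟪A g (β x), w⟫ + ⟪a g, w⟫ = f x + ⟪a g, w⟫`: `QInv`. So `f` is constant (`qinv_const`); with `beta_flow` at time `1`: `⟪e k, w⟫ = 0` for all `k`: `w = 0`.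
`dense_of_cone` for `C = range β` (`beta_convex`, `beta_flow`). `hcoc`: for `v` there is `x` with `‖β x - v‖ ≤ 1` and `x = g • y` with `dist y o ≤ D`: `‖a g - v‖ ≤ ‖β (g y) - v‖ + ‖A g (β y)‖ ≤ 1 + C D`.
`hfin`: `fib_bdd` and `Act.fin`. Then `bieb_main`, `bieb_vsolv`.
-/

set_option autoImplicit false

namespace TitsLF

universe u v

open scoped RealInnerProductSpace

theorem vsolv_caseB {G : Type u} {X : Type v} [Group G] [MetricSpace X] [MulAction G X]
    (h : Act G X) (hm : Minimal G X) (hno : ∀ b : X → ℝ, IsBus b → ¬ QInv G b)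
    (hR : Reiter G) : VSolv G := by
  have hcat := h.cat
  obtain ⟨o⟩ := h.ne
  obtain ⟨n₀, hn₀⟩ := frame_bdd h
  obtain ⟨n, e, β, he, hspan, hβ⟩ := exists_model o hn₀
  obtain ⟨A, hAe, hAβ⟩ := exists_rep h o e β he hspan hβ
  obtain ⟨C, hC0, hC⟩ := beta_lip o e β hspan hβ
  have hzero : ∀ w : EuclideanSpace ℝ (Fin n), (∀ k, ⟪e k, w⟫ = 0) → w = 0 := by
    intro w hw
    have h1 : ∀ v ∈ Submodule.span ℝ (Set.range e), ⟪v, w⟫ = 0 := by
      intro v hv
      induction hv using Submodule.span_induction with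
      | mem v hv => obtain ⟨k, rfl⟩ := hv; exact hw k
      | zero => exact inner_zero_left _
      | add x y _ _ hx hy => rw [inner_add_left, hx, hy, add_zero]
      | smul c x _ hx => rw [inner_smul_left, hx, mul_zero]
    have h2 := h1 w (by rw [hspan]; trivial)
    exact inner_self_eq_zero.1 h2
  have hβo : β o = 0 := by
    refine hzero _ fun k => ?_
    rw [hβ]
    exact k.2.2.2
  set a : G → EuclideanSpace ℝ (Fin n) := fun g => β (g • o) with ha_def
  have ha : ∀ g k, a (g * k) = a g + A g (a k) := by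
    intro g k
    change β ((g * k) • o) = β (g • o) + A g (β (k • o))
    rw [mul_smul, hAβ g (k • o), add_comm]
  have hfix : ∀ w, (∀ g, A g w = w) → w = 0 := by
    intro w hw
    have hlip : ∀ x y : X, |⟪β x, w⟫ - ⟪β y, w⟫| ≤ (C * ‖w‖) * dist x y := by
      intro x y
      rw [← inner_sub_left]
      refine (abs_real_inner_le_norm _ _).trans ?_
      have := hC x y
      have hw0 := norm_nonneg w
      nlinarith
    have haff : MAffine (fun x : X => ⟪β x, w⟫) := by
      intro x y m hxy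
      have h1 : β m = (1 / 2 : ℝ) • (β x + β y) := by
        rw [← sub_eq_zero]
        refine hzero _ fun k => ?_
        rw [inner_sub_right, inner_smul_right, inner_add_right, hβ, hβ, hβ, k.2.2.1 x y m hxy]
        ring
      change ⟪β m, w⟫ = (⟪β x, w⟫ + ⟪β y, w⟫) / 2
      rw [h1, inner_smul_left, inner_add_left]
      simp only [conj_trivial]
      ring
    have hq : QInv G (fun x : X => ⟪β x, w⟫) := by
      intro g x y
      change ⟪β (g • x), w⟫ - ⟪β (g • y), w⟫ = ⟪β x, w⟫ - ⟪β y, w⟫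
      rw [hAβ g x, hAβ g y, inner_add_left, inner_add_left]
      have h3 : ∀ v, ⟪A g v, w⟫ = ⟪v, w⟫ := by
        intro v
        conv_lhs => rw [← hw g]
        exact (A g).inner_map_map v w
      rw [h3, h3]
      ring
    have hconst := qinv_const h hm hno (fun x y m hxy => (haff x y m hxy).le) hlip hq
    refine hzero w fun k => ?_
    have h4 := hconst (fl k.1 1 o) o
    rw [beta_flow o e β he hspan hβ k (by norm_num) o, inner_sub_left, inner_smul_left] at h4
    simp only [conj_trivial, one_mul] at h4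
    linarith
  have hdense : Dense (Set.range β) := by
    refine dense_of_cone A e hspan (fun g k => ⟨_, hAe g k⟩) hfix _
      (beta_convex o e β hspan hβ) ⟨β o, o, rfl⟩ ?_
    rintro _ ⟨x, rfl⟩ k t ht
    exact ⟨fl k.1 t x, beta_flow o e β he hspan hβ k ht x⟩
  obtain ⟨D, hD0, hD⟩ := h.coc o
  have hcoc : ∃ D : ℝ, ∀ v : EuclideanSpace ℝ (Fin n), ∃ g, ‖a g - v‖ ≤ D := by
    refine ⟨1 + C * D, fun v => ?_⟩
    obtain ⟨y, hy1, ⟨x, rfl⟩⟩ := Metric.dense_iff.1 hdense v 1 one_pos
    obtain ⟨g, hg⟩ := hD x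
    refine ⟨g⁻¹, ?_⟩
    have h5 : x = g⁻¹ • (g • x) := by rw [inv_smul_smul]
    have h6 : β x = A g⁻¹ (β (g • x)) + a g⁻¹ := by
      conv_lhs => rw [h5]
      exact hAβ g⁻¹ (g • x)
    have h7 : ‖β (g • x)‖ ≤ C * D := by
      have := hC (g • x) o
      rw [hβo, sub_zero] at this
      exact this.trans (mul_le_mul_of_nonneg_left hg hC0)
    have h8 : a g⁻¹ - v = (β x - v) - A g⁻¹ (β (g • x)) := by
      rw [h6]; abel
    rw [h8]
    refine (norm_sub_le _ _).trans ?_
    rw [(A g⁻¹).norm_map]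
    have h9 : ‖β x - v‖ ≤ 1 := by
      rw [← dist_eq_norm]
      exact (Metric.mem_ball.1 hy1).le
    linarith
  have hfin : ∀ R : ℝ, {g | ‖a g‖ ≤ R}.Finite := by
    intro R
    obtain ⟨R', hR'⟩ := fib_bdd h hm hno hR o e β hβ R
    refine (h.fin o R').subset fun g hg => ?_
    have := hR' (g • o) hg
    rwa [dist_comm] at this
  exact bieb_vsolv A a ha hfin (bieb_main A a ha hfin hcoc)

end TitsLF
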