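import Mathlib

/-!
Project TT (MP_185419_al), definitions.

* `CAT X`: the metric space `X` is geodesic and satisfies the CN inequality (a CAT(0) space).
* `IsMid x y m`: `m` is the midpoint of `x` and `y`. `MConvex f`, `MAffine f`, `MClosed C`: midpoint convex, midpoint affine
  functions, midpoint closed sets.
* `Geom G X`: the action of the frozen statement (by isometries, proper, cocompact, `X` a nonempty CAT(0) space).
* `Act G X`: the strong form used in the proofs (closed balls are compact, `{g | d(gx, x) ≤ R}` finite, orbits coarsely dense).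
* `Frame X n`: `n` points at distance `1` from a point `o` with pairwise squared distances `≥ 2`.
* `Reiter G`: amenability in the form of Reiter (almost invariant finitely supported probability measures, right translations).
* `E S n F`: the expectation of `F (s₁ ⋯ sₙ)` for independent uniform letters `sᵢ ∈ S`.
* `IsBus h`: convex, `1`-Lipschitz, and from every point there is a direction in which `h` decreases with speed `1`; `fl h t x` is the
  flow. `QInv G A`: `A (g x) - A (g y) = A x - A y`. `Minimal G X`: no proper nonempty closed midpoint closed invariant subset.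
* `VSolv G`: there is a solvable subgroup of finite index.
-/

set_option autoImplicit false

namespace TitsLF

universe u v

/-- Geodesic metric space with the CN inequality. -/
class CAT (X : Type v) [MetricSpace X] : Prop where
  geod : ∀ x y : X, ∃ γ : ℝ → X, γ 0 = x ∧ γ (dist x y) = y ∧
    ∀ s ∈ Set.Icc (0:ℝ) (dist x y), ∀ t ∈ Set.Icc (0:ℝ) (dist x y), dist (γ s) (γ t) = |s - t|
  cn : ∀ p q r m : X, dist q m = dist q r / 2 → dist r m = dist q r / 2 →
    dist p m ^ 2 ≤ dist p q ^ 2 / 2 + dist p r ^ 2 / 2 - dist q r ^ 2 / 4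

section general
variable {X : Type v} [MetricSpace X]

/-- `m` is the midpoint of `x` and `y`. -/
def IsMid (x y m : X) : Prop := dist x m = dist x y / 2 ∧ dist y m = dist x y / 2

/-- Midpoint convex functions. -/
def MConvex (f : X → ℝ) : Prop := ∀ x y m, IsMid x y m → f m ≤ (f x + f y) / 2

/-- Midpoint affine functions. -/
def MAffine (f : X → ℝ) : Prop := ∀ x y m, IsMid x y m → f m = (f x + f y) / 2

/-- Midpoint closed sets. -/
def MClosed (C : Set X) : Prop := ∀ x y m, x ∈ C → y ∈ C → IsMid x y m → m ∈ C

/-- `1`-Lipschitz real functions. -/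
def Lip1 (f : X → ℝ) : Prop := ∀ x y, |f x - f y| ≤ dist x y

/-- Functions which behave like Busemann functions. -/
structure IsBus (h : X → ℝ) : Prop where
  conv : MConvex h
  lip : Lip1 h
  ray : ∀ x, ∀ t : ℝ, 0 ≤ t → ∃ y, dist x y = t ∧ h y = h x - t

open Classical in
/-- The flow of `h`: the point at distance `t` from `x` with `h = h x - t`. -/
noncomputable def fl (h : X → ℝ) (t : ℝ) (x : X) : X :=
  if H : ∃ y, dist x y = t ∧ h y = h x - t then H.choose else x

end general

/-- `n` points at distance `1` from a point with pairwise squared distances `≥ 2`. -/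
def Frame (X : Type v) [MetricSpace X] (n : ℕ) : Prop :=
  ∃ (o : X) (p : Fin n → X), (∀ i, dist o (p i) = 1) ∧ ∀ i j, i ≠ j → 2 ≤ dist (p i) (p j) ^ 2

section action
variable (G : Type u) (X : Type v) [Group G] [MetricSpace X] [MulAction G X]

/-- Proper cocompact isometric actions on nonempty CAT(0) spaces. -/
structure Geom : Prop where
  ne : Nonempty X
  iso : ∀ g : G, Isometry (fun x : X => g • x)
  cat : CAT X
  proper : ∀ x : X, ∃ r : ℝ, 0 < r ∧
    {g : G | ((fun y : X => g • y) '' Metric.ball x r ∩ Metric.ball x r).Nonempty}.Finite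
  cocompact : ∃ K : Set X, IsCompact K ∧ ∀ x : X, ∃ g : G, g • x ∈ K

/-- The working form of a geometric action. -/
structure Act : Prop where
  ne : Nonempty X
  iso : ∀ (g : G) (x y : X), dist (g • x) (g • y) = dist x y
  cat : CAT X
  prop : ∀ (x : X) (R : ℝ), IsCompact (Metric.closedBall x R)
  fin : ∀ (x : X) (R : ℝ), {g : G | dist (g • x) x ≤ R}.Finite
  coc : ∀ o : X, ∃ D : ℝ, 0 ≤ D ∧ ∀ x : X, ∃ g : G, dist (g • x) o ≤ D

/-- No proper nonempty closed, midpoint closed invariant subset. -/
def Minimal : Prop :=
  ∀ C : Set X, IsClosed C → C.Nonempty → MClosed C → (∀ (g : G), ∀ x ∈ C, g • x ∈ C) → C = Set.univ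

variable {X} in
/-- Functions which are invariant up to additive constants. -/
def QInv (A : X → ℝ) : Prop := ∀ (g : G) (x y : X), A (g • x) - A (g • y) = A x - A y

end action

/-- The `ℓ¹` norm. -/
noncomputable def l1 {α : Type u} (f : α →₀ ℝ) : ℝ := f.sum fun _ r => |r|

/-- Reiter's condition. -/
def Reiter (G : Type u) [Group G] : Prop :=
  ∀ (S : Finset G) (ε : ℝ), 0 < ε → ∃ f : G →₀ ℝ, (∀ g, 0 ≤ f g) ∧ (f.sum fun _ r => r) = 1 ∧
    ∀ s ∈ S, l1 (f.mapDomain (fun g => g * s) - f) ≤ ε

/-- The expectation of `F (s₁ ⋯ sₙ)` for independent uniform letters in `S`. -/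
noncomputable def E {G : Type u} [Group G] (S : Finset G) : ℕ → (G → ℝ) → ℝ
  | 0, F => F 1
  | n + 1, F => (∑ s ∈ S, E S n (fun x => F (x * s))) / S.card

/-- A solvable subgroup of finite index exists. -/
def VSolv (G : Type u) [Group G] : Prop := ∃ H : Subgroup G, H.FiniteIndex ∧ Group.IsSolvable H


/-- For every finite set of nontrivial elements of the free group of rank two there is a homomorphism to `G` which is nontrivial on
all of them. -/
def LocFree (G : Type u) [Group G] : Prop :=
  ∀ W : Finset (FreeGroup (Fin 2)), 1 ∉ W → ∃ f : FreeGroup (Fin 2) →* G, ∀ w ∈ W, f w ≠ 1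

/-- The squared `ℓ²` norm. -/
noncomputable def n2 {α : Type u} (f : α →₀ ℝ) : ℝ := f.sum fun _ r => r ^ 2

/-- The average over `S` of the right translates. -/
noncomputable def avg {G : Type u} [Group G] (S : Finset G) (f : G →₀ ℝ) : G →₀ ℝ :=
  (S.card : ℝ)⁻¹ • ∑ s ∈ S, f.mapDomain (fun g => g * s)

end TitsLF
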