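import Pool.Agent.Helper35.TT.Amen
import Pool.Agent.Helper35.TT.PartOne
import Pool.Agent.Helper35.TT.Proper

/-!
TT-46 Final. The theorem.
-/

set_option autoImplicit false

namespace TitsLF

universe u v

theorem main {G : Type u} {X : Type v} [Group G] [MetricSpace X] [MulAction G X]
    (h : Geom G X) : VSolv G ∨ LocFree G := by
  by_cases hR : Reiter G
  · exact Or.inl (vsolv_of_reiter (act_of_geom h) hR)
  · exact Or.inr (locFree_of_not_reiter (act_of_geom h) hR)

end TitsLF
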