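import Mathlib

/-!
TT-36 LinIso. Families of vectors with the same Gram matrix; dense convex sets from cones.

PROOFS. `E = EuclideanSpace ℝ (Fin n)`.
* `exists_linIso`: choose `i : Fin n → I` (or an index type) such that the `e (i k)` form a basis `b` (a spanning set contains a basis: `exists_linearIndependent`, `Basis.mk`, or `Submodule.exists_fun_fin_finrank_span_eq`). Let
  `U = b.constr ℝ (fun k => e' (i k))`. It preserves inner products of basis vectors, so it is isometric (expand in the basis), `LinearMap.isometryOfInner`, and a `≃ₗᵢ` as `E` is finite dimensional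
  (`LinearIsometry.toLinearIsometryEquiv` with `rfl` for the finranks). For `j : I`, `e j = ∑ a k • e (i k)` and `‖e' j - ∑ a k • e' (i k)‖^2 = ‖e j - ∑ a k • e (i k)‖^2 = 0` (same Gram matrices), so `U (e j) = e' j`.
* `dense_of_cone`: let `D = closure C`, convex, closed, `D - t e i ⊆ D`. If `D ≠ univ` take `v₀ ∉ D` and separate (`geometric_hahn_banach_point_closed`): a continuous linear `f` and `u` with `f v₀ < u < f d` for `d ∈ D`. For `c ∈ C`,
  `f c - t f (e i) > u` for all `t ≥ 0`, so `f (e i) ≤ 0` for all `i`; `f ≠ 0`; let `w` be the Riesz vector of `f`: `w ≠ 0`, `⟪w, e i⟫ ≤ 0` for all `i`.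
  Choose finitely many `i_1, …, i_n` with `e (i_k)` a basis; there is `δ > 0` with `∑_k |⟪v, e (i_k)⟫| ≥ δ ‖v‖` for all `v` (a norm on a finite dimensional space). For `g : G`: `⟪A g w, e i⟫ = ⟪w, A g⁻¹ (e i)⟫ = ⟪w, e j⟫ ≤ 0`, so
  `- ∑_k ⟪A g w, e (i_k)⟫ ≥ δ ‖A g w‖ = δ ‖w‖ > 0`. Let `Ω` be the closed convex hull of `{A g w | g : G}`; the inequality `- ∑_k ⟪v, e (i_k)⟫ ≥ δ ‖w‖` holds on `Ω`, so `0 ∉ Ω`. The point `w₀` of minimal norm of `Ω`
  (`exists_norm_eq_iInf_of_complete_convex`; unique by the parallelogram identity) is fixed by all `A g` (they are isometric and permute the orbit, so preserve `Ω`). `w₀ ≠ 0`, contradiction to `hfix`.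
-/

set_option autoImplicit false

namespace TitsLF

universe u v

open scoped RealInnerProductSpace

private theorem lj_basis {n : ℕ} {I : Type v} (e : I → EuclideanSpace ℝ (Fin n))
    (hspan : Submodule.span ℝ (Set.range e) = ⊤) :
    ∃ (N : ℕ) (i : Fin N → I) (b : Module.Basis (Fin N) ℝ (EuclideanSpace ℝ (Fin n))),
      ∀ k, b k = e (i k) := by
  obtain ⟨f, hf1, hf2, hf3⟩ := Submodule.exists_fun_fin_finrank_span_eq ℝ (Set.range e)
  choose i hi using hf1
  refine ⟨_, i, Module.Basis.mk hf3 (by rw [hf2, hspan]), fun k => ?_⟩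
  rw [Module.Basis.mk_apply, hi]

theorem exists_linIso {n : ℕ} {I : Type v} (e e' : I → EuclideanSpace ℝ (Fin n))
    (hspan : Submodule.span ℝ (Set.range e) = ⊤) (hgram : ∀ i j, ⟪e i, e j⟫ = ⟪e' i, e' j⟫) :
    ∃ U : EuclideanSpace ℝ (Fin n) ≃ₗᵢ[ℝ] EuclideanSpace ℝ (Fin n), ∀ i, U (e i) = e' i := by
  obtain ⟨N, i, b, hb⟩ := lj_basis e hspan
  let U₀ : EuclideanSpace ℝ (Fin n) →ₗ[ℝ] EuclideanSpace ℝ (Fin n) :=
    b.constr ℝ (fun k => e' (i k))
  have hU₀ : ∀ k, U₀ (b k) = e' (i k) := fun k => b.constr_basis ℝ _ k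
  have hU₀' : ∀ k, U₀ (e (i k)) = e' (i k) := fun k => by rw [← hb, hU₀]
  have hinner : ∀ x y, ⟪U₀ x, U₀ y⟫ = ⟪x, y⟫ := by
    intro x y
    conv_lhs => rw [← b.sum_repr x, ← b.sum_repr y]
    conv_rhs => rw [← b.sum_repr x, ← b.sum_repr y]
    simp only [map_sum, map_smul, sum_inner, inner_sum, inner_smul_left, inner_smul_right, hb,
      hU₀', hgram]
  let U₁ := U₀.isometryOfInner hinner
  let U := U₁.toLinearIsometryEquiv rfl
  have hU : ∀ x, U x = U₀ x := fun x => rfl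
  refine ⟨U, fun j => ?_⟩
  rw [hU]
  have h1 : ⟪e' j, U₀ (e j)⟫ = ⟪e j, e j⟫ := by
    conv_lhs => rw [← b.sum_repr (e j)]
    conv_rhs => rhs; rw [← b.sum_repr (e j)]
    simp only [map_sum, map_smul, inner_sum, inner_smul_right, hb, hU₀', hgram]
  have h2 : ⟪U₀ (e j) - e' j, U₀ (e j) - e' j⟫ = 0 := by
    rw [inner_sub_left, inner_sub_right, inner_sub_right, hinner, h1,
      real_inner_comm (e' j) (U₀ (e j)), h1, ← hgram]
    ring
  exact sub_eq_zero.1 (inner_self_eq_zero.1 h2)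

theorem dense_of_cone {n : ℕ} {I : Type v} {G : Type u} [Group G]
    (A : G →* (EuclideanSpace ℝ (Fin n) ≃ₗᵢ[ℝ] EuclideanSpace ℝ (Fin n)))
    (e : I → EuclideanSpace ℝ (Fin n)) (hspan : Submodule.span ℝ (Set.range e) = ⊤)
    (hA : ∀ g i, ∃ j, A g (e i) = e j) (hfix : ∀ w, (∀ g, A g w = w) → w = 0)
    (C : Set (EuclideanSpace ℝ (Fin n))) (hconv : Convex ℝ C) (hne : C.Nonempty)
    (hC : ∀ v ∈ C, ∀ i, ∀ t : ℝ, 0 ≤ t → v - t • e i ∈ C) : Dense C := by
  obtain ⟨N, i, b, hb⟩ := lj_basis e hspan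
  rw [dense_iff_closure_eq]
  by_contra hD
  obtain ⟨v₀, hv₀⟩ : ∃ v₀, v₀ ∉ closure C := by
    by_contra h
    push Not at h
    exact hD (Set.eq_univ_of_forall h)
  obtain ⟨f, u, hf1, hf2⟩ := geometric_hahn_banach_point_closed hconv.closure isClosed_closure hv₀
  obtain ⟨c, hc⟩ := hne
  have hfe : ∀ j, f (e j) ≤ 0 := by
    intro j
    by_contra hj
    push Not at hj
    have h1 := hf2 c (subset_closure hc)
    have h2 := hf2 _ (subset_closure (hC c hc j ((f c - u) / f (e j))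
      (div_nonneg (by linarith) hj.le)))
    rw [map_sub, map_smul, smul_eq_mul, div_mul_cancel₀ _ hj.ne'] at h2
    linarith
  set w := (InnerProductSpace.toDual ℝ (EuclideanSpace ℝ (Fin n))).symm f with hw
  have hwf : ∀ x, ⟪w, x⟫ = f x := fun x => InnerProductSpace.toDual_symm_apply
  have hw0 : w ≠ 0 := by
    intro h0
    have h1 := hf2 c (subset_closure hc)
    have h2 : f c = 0 := by rw [← hwf, h0, inner_zero_left]
    have h3 : f v₀ = 0 := by rw [← hwf, h0, inner_zero_left]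
    linarith
  have horb : ∀ g j, ⟪A g w, e j⟫ ≤ 0 := by
    intro g j
    obtain ⟨j', hj'⟩ := hA g⁻¹ j
    have h1 : e j = A g (e j') := by
      have h2 : A g (A g⁻¹ (e j)) = (A g * A g⁻¹) (e j) := rfl
      rw [← hj', h2, ← map_mul, mul_inv_cancel, map_one]
      rfl
    rw [h1, LinearIsometryEquiv.inner_map_map, hwf]
    exact hfe j'
  let φ : EuclideanSpace ℝ (Fin n) → ℝ := fun v => ∑ k, ⟪v, b k⟫
  have hφc : Continuous φ := by fun_prop
  let S : Set (EuclideanSpace ℝ (Fin n)) := {v | ‖v‖ = ‖w‖ ∧ ∀ k, ⟪v, b k⟫ ≤ 0}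
  have hSorb : ∀ g, A g w ∈ S := by
    intro g
    refine ⟨LinearIsometryEquiv.norm_map _ _, fun k => ?_⟩
    rw [hb]
    exact horb g (i k)
  have hScl : IsClosed S := by
    have h1 : IsClosed {v : EuclideanSpace ℝ (Fin n) | ‖v‖ = ‖w‖} :=
      isClosed_eq continuous_norm continuous_const
    have h2 : IsClosed {v : EuclideanSpace ℝ (Fin n) | ∀ k, ⟪v, b k⟫ ≤ 0} := by
      have : {v : EuclideanSpace ℝ (Fin n) | ∀ k, ⟪v, b k⟫ ≤ 0} =
          ⋂ k, {v : EuclideanSpace ℝ (Fin n) | ⟪v, b k⟫ ≤ 0} := by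
        ext v
        simp
      rw [this]
      exact isClosed_iInter fun k => isClosed_le (by fun_prop) continuous_const
    exact h1.inter h2
  have hScomp : IsCompact S := by
    refine (isCompact_closedBall (0 : EuclideanSpace ℝ (Fin n)) ‖w‖).of_isClosed_subset hScl ?_
    intro v hv
    rw [mem_closedBall_zero_iff]
    exact hv.1.le
  obtain ⟨v₁, hv₁, hmax⟩ := hScomp.exists_isMaxOn ⟨A 1 w, hSorb 1⟩ hφc.continuousOn
  have hneg : φ v₁ < 0 := by
    have hle : φ v₁ ≤ 0 := Finset.sum_nonpos fun k _ => hv₁.2 k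
    refine lt_of_le_of_ne hle fun h0 => ?_
    have h1 : ∀ k, ⟪v₁, b k⟫ = 0 := by
      have := (Finset.sum_eq_zero_iff_of_nonpos fun k _ => hv₁.2 k).1 h0
      exact fun k => this k (Finset.mem_univ k)
    have h2 : ⟪v₁, v₁⟫ = 0 := by
      conv_lhs => rhs; rw [← b.sum_repr v₁]
      rw [inner_sum]
      refine Finset.sum_eq_zero fun k _ => ?_
      rw [inner_smul_right, h1, mul_zero]
    have h3 : v₁ = 0 := inner_self_eq_zero.1 h2
    have h4 := hv₁.1
    rw [h3, norm_zero] at h4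
    exact hw0 (norm_eq_zero.1 h4.symm)
  let Ω : Set (EuclideanSpace ℝ (Fin n)) := closure (convexHull ℝ (Set.range fun g => A g w))
  have hΩconv : Convex ℝ Ω := (convex_convexHull ℝ _).closure
  have hΩmin : ∀ T : Set (EuclideanSpace ℝ (Fin n)), IsClosed T → Convex ℝ T →
      (∀ g, A g w ∈ T) → Ω ⊆ T := by
    intro T h1 h2 h3
    refine closure_minimal (convexHull_min ?_ h2) h1
    rintro _ ⟨g, rfl⟩
    exact h3 g
  have hΩne : Ω.Nonempty := ⟨A 1 w, subset_closure (subset_convexHull ℝ _ ⟨1, rfl⟩)⟩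
  have hΩφ : Ω ⊆ {v | φ v ≤ φ v₁} := by
    refine hΩmin _ (isClosed_le hφc continuous_const) ?_ fun g => hmax (hSorb g)
    intro x hx y hy s t hs ht hst
    change φ x ≤ φ v₁ at hx
    change φ y ≤ φ v₁ at hy
    change φ (s • x + t • y) ≤ φ v₁
    have h1 : φ (s • x + t • y) = s * φ x + t * φ y := by
      change ∑ k, ⟪s • x + t • y, b k⟫ = s * (∑ k, ⟪x, b k⟫) + t * ∑ k, ⟪y, b k⟫
      rw [Finset.mul_sum, Finset.mul_sum, ← Finset.sum_add_distrib]
      refine Finset.sum_congr rfl fun k _ => ?_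
      rw [inner_add_left, inner_smul_left, inner_smul_left]
      simp
    rw [h1]
    calc s * φ x + t * φ y ≤ s * φ v₁ + t * φ v₁ :=
          add_le_add (mul_le_mul_of_nonneg_left hx hs) (mul_le_mul_of_nonneg_left hy ht)
      _ = φ v₁ := by rw [← add_mul, hst, one_mul]
  obtain ⟨w₀, hw₀, hmin⟩ := exists_norm_eq_iInf_of_complete_convex hΩne
    (isClosed_closure.isComplete) hΩconv 0
  rw [norm_eq_iInf_iff_real_inner_le_zero hΩconv hw₀] at hmin
  have hΩA : ∀ g, ∀ v ∈ Ω, A g v ∈ Ω := by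
    intro g
    refine hΩmin {v | A g v ∈ Ω} (isClosed_closure.preimage (A g).continuous) ?_ fun g' => ?_
    · intro x hx y hy s t hs ht hst
      change A g (s • x + t • y) ∈ Ω
      rw [map_add, map_smul, map_smul]
      exact hΩconv hx hy hs ht hst
    · change A g (A g' w) ∈ Ω
      have h2 : A g (A g' w) = (A g * A g') w := rfl
      rw [h2, ← map_mul]
      exact subset_closure (subset_convexHull ℝ _ ⟨g * g', rfl⟩)
  have hw₀0 : w₀ = 0 := by
    refine hfix w₀ fun g => ?_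
    have h1 := hmin _ (hΩA g w₀ hw₀)
    rw [zero_sub, inner_neg_left, inner_sub_right] at h1
    have h2 : ⟪A g w₀ - w₀, A g w₀ - w₀⟫ ≤ 0 := by
      rw [inner_sub_left, inner_sub_right, inner_sub_right, LinearIsometryEquiv.inner_map_map,
        real_inner_comm w₀ (A g w₀)]
      linarith
    have h3 : ⟪A g w₀ - w₀, A g w₀ - w₀⟫ = 0 := le_antisymm h2 real_inner_self_nonneg
    exact sub_eq_zero.1 (inner_self_eq_zero.1 h3)
  have h5 := hΩφ hw₀
  rw [hw₀0] at h5
  change φ 0 ≤ φ v₁ at h5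
  have h6 : φ 0 = 0 := by
    change ∑ k, ⟪(0 : EuclideanSpace ℝ (Fin n)), b k⟫ = 0
    simp
  linarith

end TitsLF
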