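import Pool.Agent.Helper35.TT.Comp

/-!
TT-34 PosBd. Positive definite families in `Fl o` give frames.

PROOF. `C i j = cc o (h i) (h j)` is symmetric (`cc_symm`) and positive definite by hypothesis: `Matrix.PosDef C`. So `C = Bᵀ B` with `B` invertible (`Matrix.posSemidef_iff_eq_conjTranspose_mul_self` or the square root; `det C ≠ 0`).
Let `a k i = B⁻¹ i k`: then `∑_{i,j} a k i * a l j * C i j = δ_kl`. Choose `s ≥ 0` with `s + a k i ≥ 0` for all `k i`. For a vector `c : Fin N → ℝ` let `W c = ∑ i, Finsupp.single (h i) (c i) : Fl o →₀ ℝ`; it is linear in `c`,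
nonnegative if `c ≥ 0`, and `QQ o (W c) (W c') = ∑_{i,j} c i * c' j * C i j` (bilinearity; the `h i` need not be distinct). With `P` from `exists_orbit`: `o' = P (W s)`, `p k = P (W (s + a k))`:
`dist o' (p k)^2 = ∑ a k i a k j C i j = 1`, `dist (p k) (p l)^2 = ∑ (a k - a l) i (a k - a l) j C i j = 2`.
-/

set_option autoImplicit false

namespace TitsLF

universe u v

variable {X : Type v} [MetricSpace X] [CAT X]

private noncomputable def WW (o : X) {N : ℕ} (h : Fin N → Fl o) (c : Fin N → ℝ) : Fl o →₀ ℝ :=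
  ∑ i, Finsupp.single (h i) (c i)

omit [CAT X] in
private theorem WW_sub (o : X) {N : ℕ} (h : Fin N → Fl o) (c c' : Fin N → ℝ) :
    WW o h c - WW o h c' = WW o h (c - c') := by
  unfold WW
  rw [← Finset.sum_sub_distrib]
  refine Finset.sum_congr rfl fun i _ => ?_
  rw [← Finsupp.single_sub, Pi.sub_apply]

omit [CAT X] in
private theorem WW_nonneg (o : X) {N : ℕ} (h : Fin N → Fl o) (c : Fin N → ℝ) (hc : ∀ i, 0 ≤ c i)
    (k : Fl o) : 0 ≤ WW o h c k := by
  classical
  unfold WW
  rw [Finsupp.finsetSum_apply]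
  refine Finset.sum_nonneg fun i _ => ?_
  rw [Finsupp.single_apply]
  split_ifs
  · exact hc i
  · exact le_rfl

omit [CAT X] in
private theorem WW_lin (o : X) {N : ℕ} (h : Fin N → Fl o) (c : Fin N → ℝ) (g : Fl o → ℝ) :
    ((WW o h c).sum fun k b => b * g k) = ∑ j, c j * g (h j) := by
  have h1 : ((WW o h c).sum fun k b => b * g k) = Finsupp.linearCombination ℝ g (WW o h c) := by
    rw [Finsupp.linearCombination_apply]; rfl
  rw [h1, WW, map_sum]
  refine Finset.sum_congr rfl fun j _ => ?_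
  rw [Finsupp.linearCombination_single, smul_eq_mul]

private theorem QQ_WW (o : X) {N : ℕ} (h : Fin N → Fl o) (c c' : Fin N → ℝ) :
    QQ o (WW o h c) (WW o h c') = ∑ i, ∑ j, c i * c' j * cc o (h i).1 (h j).1 := by
  have h1 : ∀ (k : Fl o) (a : ℝ), ((WW o h c').sum fun k' b => a * b * cc o k.1 k'.1) =
      a * ∑ j, c' j * cc o k.1 (h j).1 := by
    intro k a
    rw [← WW_lin o h c' (fun k' => cc o k.1 k'.1), Finsupp.mul_sum]
    refine Finsupp.sum_congr fun k' _ => ?_
    ring
  have h2 : QQ o (WW o h c) (WW o h c') =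
      (WW o h c).sum fun k a => a * ∑ j, c' j * cc o k.1 (h j).1 :=
    Finsupp.sum_congr fun k _ => h1 k _
  rw [h2, WW_lin o h c (fun k => ∑ j, c' j * cc o k.1 (h j).1)]
  refine Finset.sum_congr rfl fun i _ => ?_
  rw [Finset.mul_sum]
  refine Finset.sum_congr rfl fun j _ => ?_
  ring

private theorem exists_orthon {N : ℕ} (C : Matrix (Fin N) (Fin N) ℝ) (hs : ∀ i j, C i j = C j i)
    (hpos : ∀ c : Fin N → ℝ, c ≠ 0 → 0 < ∑ i, ∑ j, c i * c j * C i j) :
    ∃ a : Fin N → Fin N → ℝ, ∀ k l,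
      ∑ i, ∑ j, a k i * a l j * C i j = if k = l then 1 else 0 := by
  classical
  have hBa : ∀ x y : Fin N → ℝ, Matrix.toBilin' C x y = ∑ i, ∑ j, x i * y j * C i j := by
    intro x y
    rw [Matrix.toBilin'_apply]
    refine Finset.sum_congr rfl fun i _ => Finset.sum_congr rfl fun j _ => ?_
    ring
  have hsymm : (Matrix.toBilin' C).IsSymm := by
    refine ⟨fun x y => ?_⟩
    rw [hBa, hBa, Finset.sum_comm]
    refine Finset.sum_congr rfl fun i _ => Finset.sum_congr rfl fun j _ => ?_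
    rw [hs j i]; ring
  obtain ⟨v, hv⟩ := LinearMap.BilinForm.exists_orthogonal_basis (LinearMap.BilinForm.isSymm_iff.mp hsymm)
  have hfr : Module.finrank ℝ (Fin N → ℝ) = N := by simp
  let e : Fin N ≃ Fin (Module.finrank ℝ (Fin N → ℝ)) := (finCongr hfr).symm
  have hp : ∀ k, 0 < Matrix.toBilin' C (v (e k)) (v (e k)) := by
    intro k
    rw [hBa]
    exact hpos _ (v.ne_zero _)
  refine ⟨fun k => (√(Matrix.toBilin' C (v (e k)) (v (e k))))⁻¹ • v (e k), fun k l => ?_⟩
  rw [← hBa, map_smul, map_smul, LinearMap.smul_apply, smul_eq_mul, smul_eq_mul]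
  by_cases hkl : k = l
  · subst hkl
    rw [if_pos rfl]
    have h2 := Real.mul_self_sqrt (hp k).le
    have h3 : √(Matrix.toBilin' C (v (e k)) (v (e k))) ≠ 0 := (Real.sqrt_pos.mpr (hp k)).ne'
    field_simp
    nlinarith
  · rw [if_neg hkl]
    have h4 : Matrix.toBilin' C (v (e k)) (v (e l)) = 0 := hv (fun h => hkl (e.injective h))
    rw [h4, mul_zero, mul_zero]

theorem frame_of_posDef (o : X) {N : ℕ} (h : Fin N → Fl o)
    (hpos : ∀ c : Fin N → ℝ, c ≠ 0 → 0 < ∑ i, ∑ j, c i * c j * cc o (h i).1 (h j).1) :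
    Frame X N := by
  obtain ⟨a, ha⟩ := exists_orthon (Matrix.of fun i j => cc o (h i).1 (h j).1)
    (fun i j => cc_symm (h i).2.1 (h i).2.2.1 (h j).2.1 (h j).2.2.1 o) hpos
  simp only [Matrix.of_apply] at ha
  obtain ⟨P, hP⟩ := exists_orbit o
  set s : ℝ := ∑ k, ∑ i, |a k i| with hsdef
  have hs0 : 0 ≤ s := Finset.sum_nonneg fun k _ => Finset.sum_nonneg fun i _ => abs_nonneg _
  have hsa : ∀ k i, 0 ≤ s + a k i := by
    intro k i
    have h1 : |a k i| ≤ ∑ i, |a k i| :=
      Finset.single_le_sum (f := fun i => |a k i|) (fun i _ => abs_nonneg _) (Finset.mem_univ i)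
    have h2 : ∑ i, |a k i| ≤ s :=
      Finset.single_le_sum (f := fun k => ∑ i, |a k i|)
        (fun k _ => Finset.sum_nonneg fun i _ => abs_nonneg _) (Finset.mem_univ k)
    have h3 := neg_abs_le (a k i)
    linarith
  have hd : ∀ c c' : Fin N → ℝ, (∀ i, 0 ≤ c i) → (∀ i, 0 ≤ c' i) →
      dist (P (WW o h c)) (P (WW o h c')) ^ 2 =
        ∑ i, ∑ j, (c - c') i * (c - c') j * cc o (h i).1 (h j).1 := by
    intro c c' hc hc'
    rw [hP _ _ (WW_nonneg o h c hc) (WW_nonneg o h c' hc'), WW_sub, QQ_WW]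
  refine ⟨P (WW o h fun _ => s), fun k => P (WW o h fun i => s + a k i), fun k => ?_,
    fun k l hkl => ?_⟩
  · have h1 := hd (fun _ => s) (fun i => s + a k i) (fun _ => hs0) (hsa k)
    have h2 : ∑ i, ∑ j, ((fun _ => s) - fun i => s + a k i : Fin N → ℝ) i *
        ((fun _ => s) - fun i => s + a k i : Fin N → ℝ) j * cc o (h i).1 (h j).1 = 1 := by
      have h3 := ha k k
      rw [if_pos rfl] at h3
      rw [← h3]
      refine Finset.sum_congr rfl fun i _ => Finset.sum_congr rfl fun j _ => ?_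
      simp only [Pi.sub_apply]
      ring
    rw [h2] at h1
    have h4 := dist_nonneg (x := P (WW o h fun _ => s)) (y := P (WW o h fun i => s + a k i))
    nlinarith
  · rw [hd _ _ (hsa k) (hsa l)]
    have h5 : ∑ i, ∑ j, ((fun i => s + a k i) - fun i => s + a l i : Fin N → ℝ) i *
        ((fun i => s + a k i) - fun i => s + a l i : Fin N → ℝ) j * cc o (h i).1 (h j).1 =
        (∑ i, ∑ j, a k i * a k j * cc o (h i).1 (h j).1) -
        (∑ i, ∑ j, a k i * a l j * cc o (h i).1 (h j).1) -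
        (∑ i, ∑ j, a l i * a k j * cc o (h i).1 (h j).1) +
        ∑ i, ∑ j, a l i * a l j * cc o (h i).1 (h j).1 := by
      rw [← Finset.sum_sub_distrib, ← Finset.sum_sub_distrib, ← Finset.sum_add_distrib]
      refine Finset.sum_congr rfl fun i _ => ?_
      rw [← Finset.sum_sub_distrib, ← Finset.sum_sub_distrib, ← Finset.sum_add_distrib]
      refine Finset.sum_congr rfl fun j _ => ?_
      simp only [Pi.sub_apply]
      ring
    rw [h5, ha k k, ha k l, ha l k, ha l l, if_pos rfl, if_neg hkl, if_neg (Ne.symm hkl),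
      if_pos rfl]
    norm_num

end TitsLF
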