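import Pool.Agent.Helper35.TT.Walk
import Pool.Agent.Helper35.TT.Mid

/-!
TT-14 Select. Four elements such that `o` is nearly the midpoint of all relevant pairs.

PROOF. `b m = E S m (fun x => dist o (x • o)^2)`. By `E_conv` and `dist o (x y • o) ≤ dist o (x • o) + dist o (y • o)`, `(a+b)^2 ≤ 2a^2 + 2b^2`: `b (2 m) = b (m + m) ≤ 4 b m`. So `β j = b (2^j) / 4^j` is antitone and
nonnegative, so it converges and `β j - β (j+1) → 0` (`tendsto_atTop_ciInf`, difference of a convergent sequence and its shift).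
For `m = 2^j` and independent `x, y`: CN: `dist o (mid (x • o) (y • o))^2 ≤ dist o (x•o)^2/2 + dist o (y•o)^2/2 - dist (x•o) (y•o)^2/4`, `dist (x•o) (y•o) = dist o (x⁻¹ y • o)`; by `E_inv` (in `x`) and `E_conv`
`E_x E_y dist o (x⁻¹ y • o)^2 = b (m + m)`. So `E_x E_y dist o (mid (x•o) (y•o))^2 ≤ b m - b (2m)/4 = m^2 (β j - β (j+1))`; the same for the inverses, `E_x E_y dist o (mid (x⁻¹•o) (y⁻¹•o))^2` (`E_inv`).
Consider the function of `(x 0, x 1, x 2, x 3)`:
`Φ = ∑_i 1_{dist o (x i • o) < c m} + ∑_{i<j} dist o (mid (x i • o) (x j • o))^2/(κ m)^2 + (the two terms with inverses)/(κ m)^2`.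
Its expectation (iterated `E S m` four times; each term depends on one or two variables, `E_const` for the others) is at most `4 ε_m + 8 (β j - β (j+1))/κ^2 < 1` for large `j`. So there are `x i` with `Φ < 1` (`exists_pos_of_E` for `1 - Φ`, four times):
all indicators are `0` and each `dist o (mid ..)^2 < (κ m)^2`. (`mid_comm` for the other order of `i, j`.)
-/

set_option autoImplicit false

namespace TitsLF

open Filter Topology

universe u v

variable {G : Type u} {X : Type v} [Group G] [MetricSpace X] [MulAction G X] [CAT X]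

section aux

variable {S : Finset G}

private lemma dist_inv (hiso : ∀ (g : G) (x y : X), dist (g • x) (g • y) = dist x y) (o : X) (x y : G) :
    dist (x • o) (y • o) = dist o ((x⁻¹ * y) • o) := by
  rw [← hiso x⁻¹ (x • o) (y • o), inv_smul_smul, mul_smul]

private lemma conv_le (hiso : ∀ (g : G) (x y : X), dist (g • x) (g • y) = dist x y) (o : X)
    (hne : S.Nonempty) (m : ℕ) :
    E S (m + m) (fun x => dist o (x • o) ^ 2) ≤ 4 * E S m (fun x => dist o (x • o) ^ 2) := by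
  rw [E_conv]
  have h1 : E S m (fun x => E S m (fun y => dist o ((x * y) • o) ^ 2)) ≤
      E S m (fun x => E S m (fun y => 2 * dist o (x • o) ^ 2 + 2 * dist o (y • o) ^ 2)) := by
    refine E_mono S m fun x => E_mono S m fun y => ?_
    have h2 : dist o ((x * y) • o) ≤ dist o (x • o) + dist o (y • o) := by
      have h3 := dist_triangle o (x • o) ((x * y) • o)
      rw [mul_smul, hiso] at h3
      rw [mul_smul]
      exact h3
    have h4 : dist o ((x * y) • o) ^ 2 ≤ (dist o (x • o) + dist o (y • o)) ^ 2 :=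
      pow_le_pow_left₀ dist_nonneg h2 2
    nlinarith [sq_nonneg (dist o (x • o) - dist o (y • o))]
  refine h1.trans (le_of_eq ?_)
  simp only [E_add, E_smul, E_const S hne]
  ring

private lemma mid_le (hiso : ∀ (g : G) (x y : X), dist (g • x) (g • y) = dist x y) (o : X)
    (hne : S.Nonempty) (hS : ∀ s ∈ S, s⁻¹ ∈ S) (m : ℕ) :
    E S m (fun x => E S m (fun y => dist o (mid (x • o) (y • o)) ^ 2)) ≤
      E S m (fun x => dist o (x • o) ^ 2) - E S (m + m) (fun x => dist o (x • o) ^ 2) / 4 := by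
  have h1 : E S m (fun x => E S m (fun y => dist o (mid (x • o) (y • o)) ^ 2)) ≤
      E S m (fun x => E S m (fun y => (1 / 2) * dist o (x • o) ^ 2 + ((1 / 2) * dist o (y • o) ^ 2 +
        (-1 / 4) * dist o ((x⁻¹ * y) • o) ^ 2))) := by
    refine E_mono S m fun x => E_mono S m fun y => ?_
    have h2 := cn_mid o (x • o) (y • o)
    rw [dist_inv hiso o x y] at h2
    linarith
  refine h1.trans (le_of_eq ?_)
  have h3 : E S m (fun x => E S m (fun y => dist o ((x⁻¹ * y) • o) ^ 2)) =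
      E S (m + m) (fun x => dist o (x • o) ^ 2) := by
    rw [E_conv]
    exact E_inv S hS m (fun x => E S m (fun y => dist o ((x * y) • o) ^ 2))
  simp only [E_add, E_smul, E_const S hne, h3]
  ring

private lemma mid_inv (o : X) (hS : ∀ s ∈ S, s⁻¹ ∈ S) (m : ℕ) :
    E S m (fun x => E S m (fun y => dist o (mid (x⁻¹ • o) (y⁻¹ • o)) ^ 2)) =
      E S m (fun x => E S m (fun y => dist o (mid (x • o) (y • o)) ^ 2)) := by
  have h1 : ∀ x : G, E S m (fun y => dist o (mid (x⁻¹ • o) (y⁻¹ • o)) ^ 2) =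
      E S m (fun y => dist o (mid (x⁻¹ • o) (y • o)) ^ 2) := fun x =>
    E_inv S hS m (fun y => dist o (mid (x⁻¹ • o) (y • o)) ^ 2)
  simp only [h1]
  exact E_inv S hS m (fun x => E S m (fun y => dist o (mid (x • o) (y • o)) ^ 2))

/-- four independent elements -/
private lemma four (hne : S.Nonempty) (m : ℕ) (I : G → ℝ) (M M' : G → G → ℝ) (r : ℝ)
    (h : 4 * E S m I + r * (6 * E S m (fun x => E S m (M x)) + 2 * E S m (fun x => E S m (M' x))) < 1) :
    ∃ a b c d : G, I a + (I b + (I c + I d)) + r * (M a b + (M a c + (M a d + (M b c + (M b d + (M c d +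
      (M' a b + M' c d))))))) < 1 := by
  have h1 : E S m (fun a => E S m fun b => E S m fun c => E S m fun d =>
      1 + (-1) * (I a + (I b + (I c + I d)) + r * (M a b + (M a c + (M a d + (M b c + (M b d + (M c d +
      (M' a b + M' c d))))))))) =
      1 - (4 * E S m I + r * (6 * E S m (fun x => E S m (M x)) + 2 * E S m (fun x => E S m (M' x)))) := by
    simp only [E_add, E_smul, E_const S hne]
    ring
  have h2 : 0 < E S m (fun a => E S m fun b => E S m fun c => E S m fun d =>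
      1 + (-1) * (I a + (I b + (I c + I d)) + r * (M a b + (M a c + (M a d + (M b c + (M b d + (M c d +
      (M' a b + M' c d))))))))) := by
    rw [h1]
    linarith
  obtain ⟨a, ha⟩ := exists_pos_of_E S m h2
  obtain ⟨b, hb⟩ := exists_pos_of_E S m ha
  obtain ⟨c, hc⟩ := exists_pos_of_E S m hb
  obtain ⟨d, hd⟩ := exists_pos_of_E S m hc
  exact ⟨a, b, c, d, by linarith⟩

private lemma le_of_term {κ m t R : ℝ} (hκ : 0 < κ) (hm : 0 < m) (hR : (1 / (κ * m) ^ 2) * t ^ 2 + R < 1)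
    (hR0 : 0 ≤ R) (ht : 0 ≤ t) : t ≤ κ * m := by
  have h1 : (1 / (κ * m) ^ 2) * t ^ 2 < 1 := by linarith
  have h2 : 0 < κ * m := mul_pos hκ hm
  rw [one_div, inv_mul_lt_iff₀ (by positivity), mul_one] at h1
  exact (abs_lt_of_sq_lt_sq' h1 h2.le).2.le |> fun h => h

end aux

open Classical in
theorem select (hiso : ∀ (g : G) (x y : X), dist (g • x) (g • y) = dist x y) (o : X)
    {S : Finset G} (h1 : 1 ∈ S) (hS : ∀ s ∈ S, s⁻¹ ∈ S) {c : ℝ} (hc : 0 < c)
    (hsmall : Tendsto (fun m : ℕ => E S m (fun x => if dist o (x • o) < c * m then 1 else 0))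
      atTop (𝓝 0)) {κ : ℝ} (hκ : 0 < κ) :
    ∃ (m : ℕ) (x : Fin 4 → G), 1 ≤ m ∧ (∀ i, c * m ≤ dist o (x i • o)) ∧
      (∀ i j, i ≠ j → dist o (mid (x i • o) (x j • o)) ≤ κ * m) ∧
      dist o (mid ((x 0)⁻¹ • o) ((x 1)⁻¹ • o)) ≤ κ * m ∧
      dist o (mid ((x 2)⁻¹ • o) ((x 3)⁻¹ • o)) ≤ κ * m := by
  have hne : S.Nonempty := ⟨1, h1⟩
  obtain ⟨b, hb⟩ : ∃ b : ℕ → ℝ, b = fun m => E S m (fun x => dist o (x • o) ^ 2) := ⟨_, rfl⟩
  have hb0 : ∀ m, 0 ≤ b m := fun m => by
    rw [hb]; exact E_nonneg S m fun x => sq_nonneg _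
  have hb2 : ∀ m, b (m + m) ≤ 4 * b m := fun m => by
    rw [hb]; exact conv_le hiso o hne m
  obtain ⟨β, hβ⟩ : ∃ β : ℕ → ℝ, β = fun j => b (2 ^ j) / 4 ^ j := ⟨_, rfl⟩
  have hanti : Antitone β := by
    refine antitone_nat_of_succ_le fun j => ?_
    rw [hβ]
    beta_reduce
    have h2 : b (2 ^ (j + 1)) ≤ 4 * b (2 ^ j) := by
      have h3 := hb2 (2 ^ j)
      rwa [← two_mul, ← pow_succ'] at h3
    rw [pow_succ (4 : ℝ) j, div_le_div_iff₀ (by positivity) (by positivity)]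
    have h4 : (0 : ℝ) < 4 ^ j := by positivity
    nlinarith
  have hbdd : BddBelow (Set.range β) := by
    refine ⟨0, ?_⟩
    rintro _ ⟨j, rfl⟩
    rw [hβ]
    exact div_nonneg (hb0 _) (by positivity)
  have hlim := tendsto_atTop_ciInf hanti hbdd
  have hdiff : Tendsto (fun j => β j - β (j + 1)) atTop (𝓝 0) := by
    have h2 := hlim.sub (hlim.comp (tendsto_add_atTop_nat 1))
    rw [sub_self] at h2
    exact h2
  have hpow : Tendsto (fun j : ℕ => 2 ^ j) atTop atTop :=
    tendsto_pow_atTop_atTop_of_one_lt one_lt_two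
  have hI := hsmall.comp hpow
  have hev1 : ∀ᶠ j : ℕ in atTop, E S (2 ^ j) (fun x =>
      if dist o (x • o) < c * ((2 ^ j : ℕ) : ℝ) then (1 : ℝ) else 0) < 1 / 16 :=
    (hI.eventually (gt_mem_nhds (by norm_num : (0 : ℝ) < 1 / 16)))
  have hev2 : ∀ᶠ j : ℕ in atTop, β j - β (j + 1) < κ ^ 2 / 16 :=
    hdiff.eventually (gt_mem_nhds (by positivity))
  obtain ⟨j, hj1, hj2⟩ := (hev1.and hev2).exists
  obtain ⟨m, hm⟩ : ∃ m : ℕ, m = 2 ^ j := ⟨_, rfl⟩
  rw [← hm] at hj1
  have hm1 : 1 ≤ m := by rw [hm]; exact Nat.one_le_two_pow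
  have hmR : (0 : ℝ) < m := by exact_mod_cast hm1
  have hm4 : (m : ℝ) ^ 2 = 4 ^ j := by
    rw [hm]
    push_cast
    rw [← pow_mul, mul_comm j 2, pow_mul]
    norm_num
  have hA := mid_le hiso o hne hS m
  have hA' := mid_inv (X := X) o hS m
  have hbm : E S m (fun x => dist o (x • o) ^ 2) - E S (m + m) (fun x => dist o (x • o) ^ 2) / 4 =
      (m : ℝ) ^ 2 * (β j - β (j + 1)) := by
    have h2 : E S m (fun x => dist o (x • o) ^ 2) = 4 ^ j * β j := by
      rw [hβ, hb, hm]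
      field_simp
    have h3 : E S (m + m) (fun x => dist o (x • o) ^ 2) = 4 * (4 ^ j * β (j + 1)) := by
      have h4 : m + m = 2 ^ (j + 1) := by rw [hm, pow_succ]; ring
      rw [h4, hβ, hb]
      beta_reduce
      rw [pow_succ (4 : ℝ) j]
      field_simp
    rw [h2, h3, hm4]
    ring
  rw [hbm] at hA
  obtain ⟨A, hAdef⟩ : ∃ A : ℝ, A = E S m (fun x => E S m (fun y => dist o (mid (x • o) (y • o)) ^ 2)) :=
    ⟨_, rfl⟩
  have hfour := four hne m (fun x => if dist o (x • o) < c * (m : ℝ) then (1 : ℝ) else 0)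
    (fun x y => dist o (mid (x • o) (y • o)) ^ 2) (fun x y => dist o (mid (x⁻¹ • o) (y⁻¹ • o)) ^ 2)
    (1 / (κ * m) ^ 2) (by
      rw [hA', ← hAdef]
      rw [← hAdef] at hA
      have h2 : 1 / (κ * m) ^ 2 * (6 * A + 2 * A) ≤ 8 * (β j - β (j + 1)) / κ ^ 2 := by
        rw [mul_pow, one_div, inv_mul_le_iff₀ (by positivity)]
        have h3 : κ ^ 2 * (m : ℝ) ^ 2 * (8 * (β j - β (j + 1)) / κ ^ 2) =
            8 * ((m : ℝ) ^ 2 * (β j - β (j + 1))) := by
          field_simp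
        rw [h3]
        linarith
      have h4 : 8 * (β j - β (j + 1)) / κ ^ 2 < 1 / 2 := by
        rw [div_lt_iff₀ (by positivity)]
        linarith
      linarith)
  obtain ⟨x0, x1, x2, x3, hx⟩ := hfour
  have hr0 : (0 : ℝ) ≤ 1 / (κ * m) ^ 2 := by positivity
  obtain ⟨r, hr⟩ : ∃ r : ℝ, r = 1 / (κ * m) ^ 2 := ⟨_, rfl⟩
  obtain ⟨I, hIdef⟩ : ∃ I : G → ℝ, I = fun x => if dist o (x • o) < c * (m : ℝ) then (1 : ℝ) else 0 :=
    ⟨_, rfl⟩
  have hI0 : ∀ x, 0 ≤ I x := by
    intro x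
    rw [hIdef]
    beta_reduce
    split_ifs <;> norm_num
  have hI1 : ∀ x, I x < 1 → c * m ≤ dist o (x • o) := by
    intro x hx
    by_contra hcon
    rw [hIdef] at hx
    beta_reduce at hx
    rw [if_pos (not_le.mp hcon)] at hx
    exact lt_irrefl _ hx
  have hterm : ∀ t : ℝ, 0 ≤ t → r * t ^ 2 < 1 → t ≤ κ * m := by
    intro t ht h2
    refine le_of_term hκ hmR (R := 0) ?_ le_rfl ht
    rw [add_zero, ← hr]
    exact h2
  have hx' : I x0 + (I x1 + (I x2 + I x3)) + r * (dist o (mid (x0 • o) (x1 • o)) ^ 2 +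
      (dist o (mid (x0 • o) (x2 • o)) ^ 2 + (dist o (mid (x0 • o) (x3 • o)) ^ 2 +
      (dist o (mid (x1 • o) (x2 • o)) ^ 2 + (dist o (mid (x1 • o) (x3 • o)) ^ 2 +
      (dist o (mid (x2 • o) (x3 • o)) ^ 2 + (dist o (mid (x0⁻¹ • o) (x1⁻¹ • o)) ^ 2 +
      dist o (mid (x2⁻¹ • o) (x3⁻¹ • o)) ^ 2))))))) < 1 := by
    rw [hIdef, hr]
    exact hx
  rw [← hr] at hr0
  have n0 := hI0 x0
  have n1 := hI0 x1
  have n2 := hI0 x2
  have n3 := hI0 x3
  have p1 := mul_nonneg hr0 (sq_nonneg (dist o (mid (x0 • o) (x1 • o))))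
  have p2 := mul_nonneg hr0 (sq_nonneg (dist o (mid (x0 • o) (x2 • o))))
  have p3 := mul_nonneg hr0 (sq_nonneg (dist o (mid (x0 • o) (x3 • o))))
  have p4 := mul_nonneg hr0 (sq_nonneg (dist o (mid (x1 • o) (x2 • o))))
  have p5 := mul_nonneg hr0 (sq_nonneg (dist o (mid (x1 • o) (x3 • o))))
  have p6 := mul_nonneg hr0 (sq_nonneg (dist o (mid (x2 • o) (x3 • o))))
  have p7 := mul_nonneg hr0 (sq_nonneg (dist o (mid (x0⁻¹ • o) (x1⁻¹ • o))))
  have p8 := mul_nonneg hr0 (sq_nonneg (dist o (mid (x2⁻¹ • o) (x3⁻¹ • o))))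
  simp only [mul_add] at hx'
  have q1 := hterm _ dist_nonneg (by linarith : r * dist o (mid (x0 • o) (x1 • o)) ^ 2 < 1)
  have q2 := hterm _ dist_nonneg (by linarith : r * dist o (mid (x0 • o) (x2 • o)) ^ 2 < 1)
  have q3 := hterm _ dist_nonneg (by linarith : r * dist o (mid (x0 • o) (x3 • o)) ^ 2 < 1)
  have q4 := hterm _ dist_nonneg (by linarith : r * dist o (mid (x1 • o) (x2 • o)) ^ 2 < 1)
  have q5 := hterm _ dist_nonneg (by linarith : r * dist o (mid (x1 • o) (x3 • o)) ^ 2 < 1)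
  have q6 := hterm _ dist_nonneg (by linarith : r * dist o (mid (x2 • o) (x3 • o)) ^ 2 < 1)
  have q7 := hterm _ dist_nonneg (by linarith : r * dist o (mid (x0⁻¹ • o) (x1⁻¹ • o)) ^ 2 < 1)
  have q8 := hterm _ dist_nonneg (by linarith : r * dist o (mid (x2⁻¹ • o) (x3⁻¹ • o)) ^ 2 < 1)
  have i0 := hI1 x0 (by linarith)
  have i1 := hI1 x1 (by linarith)
  have i2 := hI1 x2 (by linarith)
  have i3 := hI1 x3 (by linarith)
  refine ⟨m, ![x0, x1, x2, x3], hm1, ?_, ?_, q7, q8⟩
  · intro i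
    fin_cases i
    · exact i0
    · exact i1
    · exact i2
    · exact i3
  · intro i j hij
    fin_cases i <;> fin_cases j
    · exact absurd rfl hij
    · exact q1
    · exact q2
    · exact q3
    · change dist o (mid (x1 • o) (x0 • o)) ≤ κ * m
      rw [mid_comm]; exact q1
    · exact absurd rfl hij
    · exact q4
    · exact q5
    · change dist o (mid (x2 • o) (x0 • o)) ≤ κ * m
      rw [mid_comm]; exact q2
    · change dist o (mid (x2 • o) (x1 • o)) ≤ κ * m
      rw [mid_comm]; exact q4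
    · exact absurd rfl hij
    · exact q6
    · change dist o (mid (x3 • o) (x0 • o)) ≤ κ * m
      rw [mid_comm]; exact q3
    · change dist o (mid (x3 • o) (x1 • o)) ≤ κ * m
      rw [mid_comm]; exact q5
    · change dist o (mid (x3 • o) (x2 • o)) ≤ κ * m
      rw [mid_comm]; exact q6
    · exact absurd rfl hij

end TitsLF
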