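import Pool.Agent.Helper35.TT.Defs

/-!
TT-12 Walk. The expectation operators `E S n`.

PROOFS. All by induction on `n` (generalising the function). `E_conv`: induction on `n`, `E S (m+n+1) F = (∑ s, E S (m+n) (fun x => F (x s)))/q`
`= (∑ s, E S m (fun x => E S n (fun y => F (x y s))))/q` and linearity of `E S m` (`E_add`, `E_smul` for finite sums). `E_inv`: for `n = 0` clear; `E S (n+1) (F ∘ inv) = E S (1 + n) (F ∘ inv)
= E S 1 (fun x => E S n (fun y => F (y⁻¹ x⁻¹)))` `= (∑ s, E S n (fun y => F (y⁻¹ s⁻¹)))/q`; by induction (for the function `z ↦ F (z s⁻¹)`) it is `(∑ s, E S n (fun y => F (y s⁻¹)))/q`, and `s ↦ s⁻¹` permutes `S`.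
`E_markov`: `F x ≥ a * 1_{a ≤ F x}`.
-/

set_option autoImplicit false

namespace TitsLF

universe u

variable {G : Type u} [Group G] (S : Finset G)

private theorem E_zero' (F : G → ℝ) : E S 0 F = F 1 := rfl

private theorem E_succ' (n : ℕ) (F : G → ℝ) :
    E S (n + 1) F = (∑ s ∈ S, E S n (fun x => F (x * s))) / S.card := rfl

theorem E_add (n : ℕ) (F F' : G → ℝ) : E S n (fun x => F x + F' x) = E S n F + E S n F' := by
  induction n generalizing F F' with
  | zero => rfl
  | succ n ih =>
    rw [E_succ', E_succ', E_succ', ← add_div, ← Finset.sum_add_distrib]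
    congr 1
    exact Finset.sum_congr rfl fun s _ => ih _ _

theorem E_smul (n : ℕ) (a : ℝ) (F : G → ℝ) : E S n (fun x => a * F x) = a * E S n F := by
  induction n generalizing F with
  | zero => rfl
  | succ n ih =>
    rw [E_succ', E_succ', mul_div_assoc', Finset.mul_sum]
    congr 1
    exact Finset.sum_congr rfl fun s _ => ih _

private theorem E_null' (n : ℕ) : E S n (fun _ => (0 : ℝ)) = 0 := by
  have h := E_smul S n 0 (fun _ => (0 : ℝ))
  rw [zero_mul] at h
  simpa using h

theorem E_sum {α : Type u} (n : ℕ) (T : Finset α) (F : α → G → ℝ) :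
    E S n (fun x => ∑ t ∈ T, F t x) = ∑ t ∈ T, E S n (F t) := by
  classical
  induction T using Finset.induction_on with
  | empty =>
    simp only [Finset.sum_empty]
    exact E_null' S n
  | insert a T ha ih =>
    rw [Finset.sum_insert ha, ← ih, ← E_add]
    congr 1
    funext x
    rw [Finset.sum_insert ha]

theorem E_mono (n : ℕ) {F F' : G → ℝ} (h : ∀ x, F x ≤ F' x) : E S n F ≤ E S n F' := by
  induction n generalizing F F' with
  | zero => exact h 1
  | succ n ih =>
    rw [E_succ', E_succ']
    refine div_le_div_of_nonneg_right (Finset.sum_le_sum fun s _ => ih fun x => h _) ?_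
    exact Nat.cast_nonneg _

theorem E_nonneg (n : ℕ) {F : G → ℝ} (h : ∀ x, 0 ≤ F x) : 0 ≤ E S n F := by
  have h1 := E_mono S n h
  rwa [E_null'] at h1

theorem E_const (hS : S.Nonempty) (n : ℕ) (a : ℝ) : E S n (fun _ => a) = a := by
  induction n with
  | zero => rfl
  | succ n ih =>
    have hc : (S.card : ℝ) ≠ 0 := Nat.cast_ne_zero.2 (Finset.card_pos.2 hS).ne'
    rw [E_succ', ih, Finset.sum_const, nsmul_eq_mul, mul_div_cancel_left₀ _ hc]

theorem E_conv (m n : ℕ) (F : G → ℝ) :
    E S (m + n) F = E S m (fun x => E S n (fun y => F (x * y))) := by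
  induction n generalizing F with
  | zero =>
    rw [add_zero]
    congr 1
    funext x
    rw [E_zero', mul_one]
  | succ n ih =>
    have h1 : (fun x => E S (n + 1) (fun y => F (x * y))) =
        fun x => (S.card : ℝ)⁻¹ * ∑ s ∈ S, E S n (fun y => F (x * y * s)) := by
      funext x
      rw [E_succ', div_eq_inv_mul]
      simp only [mul_assoc]
    rw [h1, E_smul, ← add_assoc, E_succ', div_eq_inv_mul]
    congr 1
    have h2 : E S m (fun x => ∑ s ∈ S, E S n (fun y => F (x * y * s))) =
        ∑ s ∈ S, E S m (fun x => E S n (fun y => F (x * y * s))) :=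
      E_sum S m S (fun s x => E S n (fun y => F (x * y * s)))
    rw [h2]
    exact Finset.sum_congr rfl fun s _ => ih _

theorem E_inv (hS : ∀ s ∈ S, s⁻¹ ∈ S) (n : ℕ) (F : G → ℝ) :
    E S n (fun x => F x⁻¹) = E S n F := by
  induction n generalizing F with
  | zero => rw [E_zero', E_zero', inv_one]
  | succ n ih =>
    have h1 : E S (n + 1) (fun x => F x⁻¹) =
        (∑ s ∈ S, E S n (fun y => F (y⁻¹ * s⁻¹))) / S.card := by
      rw [add_comm, E_conv]
      change E S (0 + 1) _ = _
      rw [E_succ']
      congr 1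
      refine Finset.sum_congr rfl fun s _ => ?_
      rw [E_zero']
      congr 1
      funext y
      rw [one_mul, mul_inv_rev]
    rw [h1, E_succ']
    congr 1
    have h2 : ∀ s ∈ S, E S n (fun y => F (y⁻¹ * s⁻¹)) = E S n (fun z => F (z * s⁻¹)) :=
      fun s _ => ih (fun z => F (z * s⁻¹))
    rw [Finset.sum_congr rfl h2]
    refine Finset.sum_nbij' (fun s => s⁻¹) (fun s => s⁻¹) (fun s hs => hS s hs)
      (fun s hs => hS s hs) (fun s _ => inv_inv s) (fun s _ => inv_inv s) fun s _ => rfl

open Classical in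
theorem E_markov (n : ℕ) {F : G → ℝ} (hF : ∀ x, 0 ≤ F x) {a : ℝ} (ha : 0 < a) :
    E S n (fun x => if a ≤ F x then 1 else 0) ≤ E S n F / a := by
  rw [le_div_iff₀' ha, ← E_smul]
  refine E_mono S n fun x => ?_
  split_ifs with h
  · rw [mul_one]
    exact h
  · rw [mul_zero]
    exact hF x

/-- If the expectation is positive, the function is positive somewhere. -/
theorem exists_pos_of_E (n : ℕ) {F : G → ℝ} (h : 0 < E S n F) : ∃ x, 0 < F x := by
  by_contra hc
  push Not at hc
  have h1 := E_mono S n hc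
  rw [E_null'] at h1
  exact absurd h (not_lt.2 h1)

end TitsLF
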